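import Mathlib

/-!
MP_efec9b_co, the matrix `(0 0; 0 1)`: the last computation.
-/

set_option autoImplicit false

namespace Pool.Agent.Lib.MP_efec9b_co.E2

open Finset MeasureTheory

theorem integrable01 {χ : ℝ → ℝ} (hm : Measurable χ) (h01 : ∀ y, χ y = 0 ∨ χ y = 1) (a b : ℝ) :
    IntervalIntegrable χ volume a b := by
  refine (intervalIntegrable_const (c := (1 : ℝ))).mono_fun hm.aestronglyMeasurable ?_
  filter_upwards with y
  rcases h01 y with h | h <;> simp [h]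

theorem assemble {ι : Type} [Fintype ι] (μ : ι → ℝ) (χ : ι → ℝ → ℝ) (SS : ι → ι → ℝ) (Sl : ι → ℝ)
    (t k0 B K : ℝ) (hμ : ∀ i, 0 ≤ μ i) (h1 : ∑ i, μ i = 1)
    (hm : ∀ i, Measurable (χ i)) (h01 : ∀ i y, χ i y = 0 ∨ χ i y = 1)
    (hQD : ∑ i, ∑ j, μ i * μ j * SS i j ≤ 2 * ∑ i, μ i * Sl i - t ^ 2 +
      (∫ y in (0 : ℝ)..t, (B - y) * (1 - ∑ i, μ i * χ i y) ^ 2) +
      K * (∫ y in (0 : ℝ)..t, (1 - ∑ i, μ i * χ i y)) ^ 2)
    (hSL : ∀ i, Sl i ≤ t ^ 2 - ∫ y in (0 : ℝ)..t, (1 - χ i y) * (k0 * (t - y)))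
    (hJ : (∫ y in (0 : ℝ)..t, (B - y) * (1 - ∑ i, μ i * χ i y) ^ 2) +
      K * (∫ y in (0 : ℝ)..t, (1 - ∑ i, μ i * χ i y)) ^ 2 ≤
      2 * k0 * ∫ y in (0 : ℝ)..t, (t - y) * (1 - ∑ i, μ i * χ i y)) :
    ∑ i, ∑ j, μ i * μ j * SS i j ≤ t ^ 2 := by
  have hint : ∀ i, IntervalIntegrable (fun y => (1 - χ i y) * (k0 * (t - y))) volume 0 t := by
    intro i
    refine IntervalIntegrable.mul_continuousOn ?_ (by fun_prop)
    exact intervalIntegrable_const.sub (integrable01 (hm i) (h01 i) 0 t)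
  have h2 : ∑ i, μ i * Sl i ≤ t ^ 2 - k0 * ∫ y in (0 : ℝ)..t, (t - y) * (1 - ∑ i, μ i * χ i y) := by
    have h3 : ∑ i, μ i * Sl i ≤
        ∑ i, μ i * (t ^ 2 - ∫ y in (0 : ℝ)..t, (1 - χ i y) * (k0 * (t - y))) :=
      sum_le_sum fun i _ => mul_le_mul_of_nonneg_left (hSL i) (hμ i)
    refine h3.trans (le_of_eq ?_)
    have h4 : ∑ i, μ i * (t ^ 2 - ∫ y in (0 : ℝ)..t, (1 - χ i y) * (k0 * (t - y))) =
        (∑ i, μ i) * t ^ 2 - ∑ i, ∫ y in (0 : ℝ)..t, μ i * ((1 - χ i y) * (k0 * (t - y))) := by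
      rw [sum_mul, ← sum_sub_distrib]
      refine sum_congr rfl fun i _ => ?_
      rw [intervalIntegral.integral_const_mul]
      ring
    rw [h4, h1, one_mul, ← intervalIntegral.integral_finsetSum fun i _ => (hint i).const_mul (μ i),
      ← intervalIntegral.integral_const_mul]
    congr 1
    refine intervalIntegral.integral_congr fun y _ => ?_
    have h5 : ∑ i, μ i * ((1 - χ i y) * (k0 * (t - y))) =
        (∑ i, μ i - ∑ i, μ i * χ i y) * (k0 * (t - y)) := by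
      rw [← sum_sub_distrib, sum_mul]
      exact sum_congr rfl fun i _ => by ring
    simp only [h5, h1]
    ring
  linarith

end Pool.Agent.Lib.MP_efec9b_co.E2
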