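import Mathlib

/-!
Step sets: cells of widths `w` in `(0, 1]` (problem MP_efec9b_co).
-/

set_option autoImplicit false

open MeasureTheory Set Finset

namespace Pool.Agent.Lib.EF16

variable {n : ℕ}

/-- left end point of the cell `i`. -/
noncomputable def T (w : Fin n → ℝ) (i : Fin n) : ℝ := ∑ j with j < i, w j

/-- the union of the cells of `A`. -/
def E (w : Fin n → ℝ) (A : Finset (Fin n)) : Set ℝ :=
  ⋃ i ∈ A, Set.Ioc (T w i) (T w i + w i)

/-- indicator -/
noncomputable def one (S : Set ℝ) (y : ℝ) : ℝ := S.indicator (fun _ => (1 : ℝ)) y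

theorem T_nonneg {w : Fin n → ℝ} (hw : ∀ i, 0 ≤ w i) (i : Fin n) : 0 ≤ T w i :=
  Finset.sum_nonneg fun j _ => hw j

theorem T_step {w : Fin n → ℝ} (hw : ∀ i, 0 ≤ w i) {i j : Fin n} (h : i < j) :
    T w i + w i ≤ T w j := by
  unfold T
  have : (∑ k with k < i, w k) + w i = ∑ k ∈ insert i (Finset.univ.filter (fun k => k < i)), w k := by
    rw [Finset.sum_insert (by simp)]
    ring
  rw [this]
  apply Finset.sum_le_sum_of_subset_of_nonneg
  · intro k hk
    simp only [Finset.mem_insert, Finset.mem_filter, Finset.mem_univ, true_and] at hk ⊢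
    rcases hk with rfl | hk
    · exact h
    · exact hk.trans h
  · intro k _ _
    exact hw k

theorem T_le {w : Fin n → ℝ} (hw : ∀ i, 0 ≤ w i) (hs : ∑ i, w i = 1) (i : Fin n) :
    T w i + w i ≤ 1 := by
  unfold T
  have : (∑ k with k < i, w k) + w i = ∑ k ∈ insert i (Finset.univ.filter (fun k => k < i)), w k := by
    rw [Finset.sum_insert (by simp)]
    ring
  rw [this, ← hs]
  exact Finset.sum_le_sum_of_subset_of_nonneg (Finset.subset_univ _) fun k _ _ => hw k

/-- the cells are disjoint -/
theorem cell_unique {w : Fin n → ℝ} (hw : ∀ i, 0 ≤ w i) {i j : Fin n} {y : ℝ}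
    (hi : y ∈ Set.Ioc (T w i) (T w i + w i)) (hj : y ∈ Set.Ioc (T w j) (T w j + w j)) : i = j := by
  rcases lt_trichotomy i j with h | h | h
  · have := T_step hw h
    have h1 := hi.2
    have h2 := hj.1
    linarith
  · exact h
  · have := T_step hw h
    have h1 := hj.2
    have h2 := hi.1
    linarith

theorem mem_E {w : Fin n → ℝ} (hw : ∀ i, 0 ≤ w i) {A : Finset (Fin n)} {i : Fin n} {y : ℝ}
    (hi : y ∈ Set.Ioc (T w i) (T w i + w i)) : y ∈ E w A ↔ i ∈ A := by
  unfold E
  simp only [Set.mem_iUnion, exists_prop]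
  constructor
  · rintro ⟨j, hj, hy⟩
    rwa [cell_unique hw hi hy]
  · intro h
    exact ⟨i, h, hi⟩

theorem measurableSet_E (w : Fin n → ℝ) (A : Finset (Fin n)) : MeasurableSet (E w A) :=
  Finset.measurableSet_biUnion _ fun _ _ => measurableSet_Ioc

theorem E_subset {w : Fin n → ℝ} (hw : ∀ i, 0 ≤ w i) (hs : ∑ i, w i = 1) (A : Finset (Fin n)) :
    E w A ⊆ Set.Ioc 0 1 := by
  intro y hy
  unfold E at hy
  simp only [Set.mem_iUnion, exists_prop] at hy
  obtain ⟨i, _, hi⟩ := hy
  exact ⟨lt_of_le_of_lt (T_nonneg hw i) hi.1, hi.2.trans (T_le hw hs i)⟩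

/-- every point of `(0,1]` lies in a cell -/
theorem exists_cell {w : Fin n → ℝ} (hw : ∀ i, 0 ≤ w i) (hs : ∑ i, w i = 1) {y : ℝ}
    (hy : y ∈ Set.Ioc (0 : ℝ) 1) : ∃ i, y ∈ Set.Ioc (T w i) (T w i + w i) := by
  classical
  -- the first index with `y ≤ T i + w i`
  have hne : (Finset.univ.filter (fun i : Fin n => y ≤ T w i + w i)).Nonempty := by
    by_contra hcon
    rw [Finset.not_nonempty_iff_eq_empty] at hcon
    have h1 : ∀ i : Fin n, T w i + w i < y := by
      intro i
      by_contra h
      push Not at h
      have : i ∈ Finset.univ.filter (fun i : Fin n => y ≤ T w i + w i) := by simp [h]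
      rw [hcon] at this
      simp at this
    rcases Nat.eq_zero_or_pos n with h0 | h0
    · subst h0
      simp at hs
    · have h2 := h1 ⟨n - 1, by omega⟩
      have h3 : T w ⟨n - 1, by omega⟩ + w ⟨n - 1, by omega⟩ = 1 := by
        unfold T
        have e : (∑ k with k < (⟨n - 1, by omega⟩ : Fin n), w k) + w ⟨n - 1, by omega⟩
            = ∑ k ∈ insert (⟨n - 1, by omega⟩ : Fin n)
              (Finset.univ.filter (fun k => k < (⟨n - 1, by omega⟩ : Fin n))), w k := by
          rw [Finset.sum_insert (by simp)]
          ring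
        rw [e, ← hs]
        congr 1
        ext k
        simp only [Finset.mem_insert, Finset.mem_filter, Finset.mem_univ, true_and, iff_true]
        have hk := k.2
        rcases Nat.lt_or_ge k.1 (n - 1) with h | h
        · right
          exact Fin.lt_def.2 h
        · left
          apply Fin.ext
          simp only
          omega
      rw [h3] at h2
      linarith [hy.2]
  obtain ⟨i, hi, hmin⟩ := Finset.exists_min_image _ (fun i : Fin n => i) hne
  simp only [Finset.mem_filter, Finset.mem_univ, true_and] at hi hmin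
  refine ⟨i, ?_, hi⟩
  by_contra h
  push Not at h
  -- then `y ≤ T i`; take the previous index
  rcases Nat.eq_zero_or_pos i.1 with h0 | h0
  · have : T w i = 0 := by
      unfold T
      apply Finset.sum_eq_zero
      intro k hk
      simp only [Finset.mem_filter, Finset.mem_univ, true_and] at hk
      have := Fin.lt_def.1 hk
      omega
    rw [this] at h
    linarith [hy.1]
  · have hi2 := i.2
    let j : Fin n := ⟨i.1 - 1, by omega⟩
    have hj : j < i := Fin.lt_def.2 (by simp only [j]; omega)
    have e : T w i = T w j + w j := by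
      unfold T
      have e1 : (∑ k with k < j, w k) + w j
          = ∑ k ∈ insert j (Finset.univ.filter (fun k => k < j)), w k := by
        rw [Finset.sum_insert (by simp)]
        ring
      rw [e1]
      congr 1
      ext k
      simp only [Finset.mem_insert, Finset.mem_filter, Finset.mem_univ, true_and]
      constructor
      · intro hk
        have hk' := Fin.lt_def.1 hk
        rcases Nat.lt_or_ge k.1 (i.1 - 1) with h5 | h5
        · right
          exact Fin.lt_def.2 h5
        · left
          apply Fin.ext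
          simp only [j]
          omega
      · rintro (rfl | hk)
        · exact hj
        · exact hk.trans hj
    have hm := hmin j (by rw [← e]; exact h)
    exact absurd hj (not_lt.2 hm)

theorem E_sdiff {w : Fin n → ℝ} (hw : ∀ i, 0 ≤ w i) (A B : Finset (Fin n)) :
    E w (A \ B) = E w A \ E w B := by
  ext y
  constructor
  · intro h
    have h' := h
    unfold E at h'
    simp only [Set.mem_iUnion, exists_prop] at h'
    obtain ⟨i, hi, hy⟩ := h'
    rw [Finset.mem_sdiff] at hi
    exact ⟨(mem_E hw hy).2 hi.1, fun hB => hi.2 ((mem_E hw hy).1 hB)⟩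
  · rintro ⟨h1, h2⟩
    have h' := h1
    unfold E at h'
    simp only [Set.mem_iUnion, exists_prop] at h'
    obtain ⟨i, hi, hy⟩ := h'
    exact (mem_E hw hy).2 (Finset.mem_sdiff.2 ⟨hi, fun hB => h2 ((mem_E hw hy).2 hB)⟩)

theorem E_inter {w : Fin n → ℝ} (hw : ∀ i, 0 ≤ w i) (A B : Finset (Fin n)) :
    E w (A ∩ B) = E w A ∩ E w B := by
  ext y
  constructor
  · intro h
    have h' := h
    unfold E at h'
    simp only [Set.mem_iUnion, exists_prop] at h'
    obtain ⟨i, hi, hy⟩ := h'
    rw [Finset.mem_inter] at hi
    exact ⟨(mem_E hw hy).2 hi.1, (mem_E hw hy).2 hi.2⟩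
  · rintro ⟨h1, h2⟩
    have h' := h1
    unfold E at h'
    simp only [Set.mem_iUnion, exists_prop] at h'
    obtain ⟨i, hi, hy⟩ := h'
    exact (mem_E hw hy).2 (Finset.mem_inter.2 ⟨hi, (mem_E hw hy).1 h2⟩)

theorem one_cell {w : Fin n → ℝ} (hw : ∀ i, 0 ≤ w i) (A : Finset (Fin n)) {i : Fin n} {y : ℝ}
    (hi : y ∈ Set.Ioc (T w i) (T w i + w i)) : one (E w A) y = if i ∈ A then 1 else 0 := by
  unfold one
  by_cases h : i ∈ A
  · rw [if_pos h, Set.indicator_of_mem ((mem_E hw hi).2 h)]
  · rw [if_neg h, Set.indicator_of_notMem (fun hh => h ((mem_E hw hi).1 hh))]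

theorem one_eq_sum {w : Fin n → ℝ} (hw : ∀ i, 0 ≤ w i) (A : Finset (Fin n)) (y : ℝ) :
    one (E w A) y = ∑ i ∈ A, one (Set.Ioc (T w i) (T w i + w i)) y := by
  classical
  by_cases h : ∃ i, y ∈ Set.Ioc (T w i) (T w i + w i)
  · obtain ⟨i, hi⟩ := h
    rw [one_cell hw A hi]
    have h2 : ∀ j, one (Set.Ioc (T w j) (T w j + w j)) y = if j = i then 1 else 0 := by
      intro j
      unfold one
      by_cases hj : j = i
      · subst hj
        rw [if_pos rfl, Set.indicator_of_mem hi]
      · rw [if_neg hj, Set.indicator_of_notMem]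
        intro hh
        exact hj (cell_unique hw hh hi)
    simp only [h2]
    simp
  · push Not at h
    have h1 : y ∉ E w A := by
      unfold E
      simp only [Set.mem_iUnion, exists_prop, not_exists, not_and]
      intro i _
      exact h i
    unfold one
    rw [Set.indicator_of_notMem h1]
    symm
    apply Finset.sum_eq_zero
    intro i _
    rw [Set.indicator_of_notMem (h i)]

theorem one_intervalIntegrable {S : Set ℝ} (hS : MeasurableSet S) (a b : ℝ) :
    IntervalIntegrable (one S) volume a b := by
  have h1 : IntervalIntegrable (fun _ : ℝ => (1 : ℝ)) volume a b := intervalIntegrable_const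
  rw [intervalIntegrable_iff] at h1 ⊢
  exact h1.indicator hS

/-- the integral of the indicator of a cell -/
theorem integral_cell (l r a b : ℝ) (hab : a ≤ b) :
    ∫ y in a..b, one (Set.Ioc l r) y = max 0 (min b r - max a l) := by
  rw [intervalIntegral.integral_of_le hab]
  unfold one
  rw [MeasureTheory.integral_indicator measurableSet_Ioc]
  simp only [MeasureTheory.integral_const, smul_eq_mul, mul_one]
  rw [Measure.restrict_restrict measurableSet_Ioc, Set.Ioc_inter_Ioc,
    Measure.real, Measure.restrict_apply MeasurableSet.univ, Set.univ_inter, Real.volume_Ioc]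
  rw [sup_comm, inf_comm]
  rcases le_total 0 (min b r - max a l) with h | h
  · rw [ENNReal.toReal_ofReal h, max_eq_right h]
  · rw [ENNReal.ofReal_of_nonpos h, max_eq_left h]
    simp

/-- (C1) the measure of `E A` after `y` -/
theorem after {w : Fin n → ℝ} (hw : ∀ i, 0 ≤ w i) (hs : ∑ i, w i = 1) (A : Finset (Fin n))
    {i : Fin n} {y : ℝ} (hi : T w i ≤ y) (hi2 : y ≤ T w i + w i) :
    ∫ z in y..1, one (E w A) z
      = (if i ∈ A then T w i + w i - y else 0) + ∑ j ∈ A with i < j, w j := by
  classical
  have hy1 : y ≤ 1 := hi2.trans (T_le hw hs i)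
  have e1 : ∫ z in y..1, one (E w A) z
      = ∑ j ∈ A, ∫ z in y..1, one (Set.Ioc (T w j) (T w j + w j)) z := by
    rw [← intervalIntegral.integral_finsetSum]
    · congr 1
      ext z
      exact one_eq_sum hw A z
    · intro j _
      exact one_intervalIntegrable measurableSet_Ioc _ _
  rw [e1]
  have e2 : ∀ j ∈ A, ∫ z in y..1, one (Set.Ioc (T w j) (T w j + w j)) z
      = (if j = i then T w i + w i - y else 0) + (if i < j then w j else 0) := by
    intro j _
    rw [integral_cell _ _ _ _ hy1]
    have hj1 := T_le hw hs j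
    rw [min_eq_right hj1]
    rcases lt_trichotomy i j with h | h | h
    · have := T_step hw h
      rw [if_neg (ne_of_gt h), if_pos h, max_eq_right (b := T w j) (by linarith), zero_add]
      have h3 : T w j + w j - T w j = w j := by ring
      rw [h3, max_eq_right (hw j)]
    · subst h
      rw [if_pos rfl, if_neg (lt_irrefl _), max_eq_left hi, add_zero,
        max_eq_right (by linarith)]
    · have := T_step hw h
      have hwj := hw j
      have hm : max y (T w j) = y := max_eq_left (by linarith)
      rw [if_neg (ne_of_lt h), if_neg (not_lt.2 h.le), hm, add_zero,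
        max_eq_left (by linarith)]
  rw [Finset.sum_congr rfl e2, Finset.sum_add_distrib, Finset.sum_ite_eq' A i,
    Finset.sum_filter]

/-- (C1) the measure of `E A` before `y` -/
theorem before {w : Fin n → ℝ} (hw : ∀ i, 0 ≤ w i) (A : Finset (Fin n))
    {i : Fin n} {y : ℝ} (hi : T w i ≤ y) (hi2 : y ≤ T w i + w i) :
    ∫ z in (0 : ℝ)..y, one (E w A) z
      = (if i ∈ A then y - T w i else 0) + ∑ j ∈ A with j < i, w j := by
  classical
  have hy0 : 0 ≤ y := (T_nonneg hw i).trans hi
  have e1 : ∫ z in (0 : ℝ)..y, one (E w A) z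
      = ∑ j ∈ A, ∫ z in (0 : ℝ)..y, one (Set.Ioc (T w j) (T w j + w j)) z := by
    rw [← intervalIntegral.integral_finsetSum]
    · congr 1
      ext z
      exact one_eq_sum hw A z
    · intro j _
      exact one_intervalIntegrable measurableSet_Ioc _ _
  rw [e1]
  have e2 : ∀ j ∈ A, ∫ z in (0 : ℝ)..y, one (Set.Ioc (T w j) (T w j + w j)) z
      = (if j = i then y - T w i else 0) + (if j < i then w j else 0) := by
    intro j _
    rw [integral_cell _ _ _ _ hy0]
    rw [max_eq_right (T_nonneg hw j)]
    rcases lt_trichotomy i j with h | h | h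
    · have := T_step hw h
      have hwj := hw j
      rw [if_neg (ne_of_gt h), if_neg (not_lt.2 h.le), min_eq_left (by linarith), zero_add,
        max_eq_left (by linarith)]
    · subst h
      rw [if_pos rfl, if_neg (lt_irrefl _), min_eq_left hi2, add_zero,
        max_eq_right (by linarith)]
    · have := T_step hw h
      rw [if_neg (ne_of_lt h), if_pos h, min_eq_right (by linarith), zero_add]
      have h3 : T w j + w j - T w j = w j := by ring
      rw [h3, max_eq_right (hw j)]
  rw [Finset.sum_congr rfl e2, Finset.sum_add_distrib, Finset.sum_ite_eq' A i,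
    Finset.sum_filter]

/-- (C0) an integral over `(0,1]` is the sum over the cells -/
theorem integral_cells {w : Fin n → ℝ} (hw : ∀ i, 0 ≤ w i) (hs : ∑ i, w i = 1) (f : ℝ → ℝ)
    (hf : IntervalIntegrable f volume 0 1) :
    ∫ y in (0 : ℝ)..1, f y = ∑ i, ∫ y in (T w i)..(T w i + w i), f y := by
  classical
  have hU : Set.Ioc (0 : ℝ) 1 = ⋃ i ∈ (Finset.univ : Finset (Fin n)), Set.Ioc (T w i) (T w i + w i) := by
    ext y
    constructor
    · intro hy
      obtain ⟨i, hi⟩ := exists_cell hw hs hy
      simp only [Set.mem_iUnion, exists_prop]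
      exact ⟨i, Finset.mem_univ _, hi⟩
    · intro hy
      simp only [Set.mem_iUnion, exists_prop] at hy
      obtain ⟨i, _, hi⟩ := hy
      exact ⟨lt_of_le_of_lt (T_nonneg hw i) hi.1, hi.2.trans (T_le hw hs i)⟩
  rw [intervalIntegral.integral_of_le zero_le_one, hU,
    MeasureTheory.integral_biUnion_finset]
  · apply Finset.sum_congr rfl
    intro i _
    rw [intervalIntegral.integral_of_le (by linarith [hw i])]
  · intro i _
    exact measurableSet_Ioc
  · intro i _ j _ hij
    rw [Function.onFun, Set.disjoint_left]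
    intro y h1 h2
    exact hij (cell_unique hw h1 h2)
  · intro i _
    have := (intervalIntegrable_iff_integrableOn_Ioc_of_le zero_le_one).1 hf
    refine this.mono_set ?_
    intro y hy
    exact ⟨lt_of_le_of_lt (T_nonneg hw i) hy.1, hy.2.trans (T_le hw hs i)⟩

/-- total weight of `A` after the place `j` -/
noncomputable def wa (w : Fin n → ℝ) (A : Finset (Fin n)) (j : Fin n) : ℝ :=
  ∑ k ∈ A with j < k, w k

/-- (C2) the pointwise kernel as an integral -/
theorem kernel_cells {w : Fin n → ℝ} (hw : ∀ i, 0 ≤ w i) (hs : ∑ i, w i = 1)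
    (A B : Finset (Fin n)) :
    ∑ j ∈ A ∩ B, w j * max (wa w (A \ B) j) (wa w (B \ A) j)
      = ∫ y in (0 : ℝ)..1, one (E w A) y * one (E w B) y *
          max (∫ z in y..1, one (E w A \ E w B) z) (∫ z in y..1, one (E w B \ E w A) z) := by
  classical
  have hcell : ∀ i, ∀ y ∈ Set.Ioc (T w i) (T w i + w i),
      one (E w A) y * one (E w B) y *
          max (∫ z in y..1, one (E w A \ E w B) z) (∫ z in y..1, one (E w B \ E w A) z)
        = if i ∈ A ∩ B then max (wa w (A \ B) i) (wa w (B \ A) i) else 0 := by
    intro i y hy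
    rw [← E_sdiff hw, ← E_sdiff hw, after hw hs (A \ B) hy.1.le hy.2,
      after hw hs (B \ A) hy.1.le hy.2, one_cell hw A hy, one_cell hw B hy]
    by_cases h1 : i ∈ A
    · by_cases h2 : i ∈ B
      · rw [if_pos h1, if_pos h2, if_neg (by simp [h2]), if_neg (by simp [h1]),
          if_pos (Finset.mem_inter.2 ⟨h1, h2⟩)]
        simp [wa]
      · have h3 : ¬ i ∈ A ∩ B := fun h => h2 (Finset.mem_inter.1 h).2
        rw [if_neg h3, if_neg h2]
        ring
    · have h3 : ¬ i ∈ A ∩ B := fun h => h1 (Finset.mem_inter.1 h).1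
      rw [if_neg h3, if_neg h1]
      ring
  -- the integrand agrees on `(0,1]` with a step function
  have hint : IntervalIntegrable (fun y => one (E w A) y * one (E w B) y *
          max (∫ z in y..1, one (E w A \ E w B) z) (∫ z in y..1, one (E w B \ E w A) z))
          volume 0 1 := by
    have hg : IntervalIntegrable (fun y => ∑ i, one (Set.Ioc (T w i) (T w i + w i)) y *
        (if i ∈ A ∩ B then max (wa w (A \ B) i) (wa w (B \ A) i) else 0)) volume 0 1 := by
      have : (fun y => ∑ i, one (Set.Ioc (T w i) (T w i + w i)) y *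
        (if i ∈ A ∩ B then max (wa w (A \ B) i) (wa w (B \ A) i) else 0))
        = ∑ i : Fin n, fun y => one (Set.Ioc (T w i) (T w i + w i)) y *
        (if i ∈ A ∩ B then max (wa w (A \ B) i) (wa w (B \ A) i) else 0) := by
        ext y
        simp
      rw [this]
      apply IntervalIntegrable.sum
      intro i _
      exact (one_intervalIntegrable measurableSet_Ioc _ _).mul_const _
    refine hg.congr ?_
    rw [Set.uIoc_of_le zero_le_one]
    intro y hy
    obtain ⟨i, hi⟩ := exists_cell hw hs hy
    simp only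
    rw [hcell i y hi]
    have h2 : ∀ j, one (Set.Ioc (T w j) (T w j + w j)) y = if j = i then 1 else 0 := by
      intro j
      unfold one
      by_cases hj : j = i
      · subst hj
        rw [if_pos rfl, Set.indicator_of_mem hi]
      · rw [if_neg hj, Set.indicator_of_notMem]
        intro hh
        exact hj (cell_unique hw hh hi)
    rw [Finset.sum_eq_single i]
    · rw [h2 i, if_pos rfl, one_mul]
    · intro j _ hj
      rw [h2 j, if_neg hj, zero_mul]
    · intro hh
      exact absurd (Finset.mem_univ i) hh
  rw [integral_cells hw hs _ hint]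
  have h3 : ∀ i, ∫ y in (T w i)..(T w i + w i), one (E w A) y * one (E w B) y *
          max (∫ z in y..1, one (E w A \ E w B) z) (∫ z in y..1, one (E w B \ E w A) z)
      = if i ∈ A ∩ B then w i * max (wa w (A \ B) i) (wa w (B \ A) i) else 0 := by
    intro i
    rw [intervalIntegral.integral_of_le (by linarith [hw i]),
      MeasureTheory.setIntegral_congr_fun measurableSet_Ioc (hcell i)]
    rw [MeasureTheory.setIntegral_const]
    simp only [Measure.real, Real.volume_Ioc, smul_eq_mul]
    have : T w i + w i - T w i = w i := by ring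
    rw [this, ENNReal.toReal_ofReal (hw i)]
    split_ifs
    · rfl
    · ring
  simp only [h3]
  rw [Finset.sum_ite_mem, Finset.univ_inter]

/-- (C3) integrals of functions of position, part before and part after -/
theorem lam_cells {w : Fin n → ℝ} (hw : ∀ i, 0 ≤ w i) (hs : ∑ i, w i = 1)
    (A : Finset (Fin n)) (U W : ℝ → ℝ) (hU : Continuous U) (hW : Continuous W) :
    ∫ y in (0 : ℝ)..1, one (E w A) y *
        (U y * ((∫ z in y..1, one (E w A) z) - ∫ z in (0 : ℝ)..y, one (E w A) z)
          + W (y + ∫ z in y..1, one (E w A) z))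
      = ∑ i ∈ A, ((∫ y in (T w i)..(T w i + w i),
            ((∑ j ∈ A with i ≤ j, w j) - (∑ j ∈ A with j < i, w j) - 2 * (y - T w i)) * U y)
          + w i * W (T w i + ∑ j ∈ A with i ≤ j, w j)) := by
  classical
  -- the part after `y` is continuous in `y`
  have hint1 : ∀ a b : ℝ, IntervalIntegrable (one (E w A)) volume a b :=
    fun a b => one_intervalIntegrable (measurableSet_E w A) a b
  have hc1 : Continuous (fun y : ℝ => ∫ z in y..1, one (E w A) z) := by
    have h := intervalIntegral.continuous_primitive hint1 1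
    have e : (fun y : ℝ => ∫ z in y..1, one (E w A) z)
        = fun y => - ∫ z in (1 : ℝ)..y, one (E w A) z := by
      ext y
      rw [intervalIntegral.integral_symm]
    rw [e]
    exact h.neg
  have hc0 : Continuous (fun y : ℝ => ∫ z in (0 : ℝ)..y, one (E w A) z) :=
    intervalIntegral.continuous_primitive hint1 0
  have hint : IntervalIntegrable (fun y => one (E w A) y *
        (U y * ((∫ z in y..1, one (E w A) z) - ∫ z in (0 : ℝ)..y, one (E w A) z)
          + W (y + ∫ z in y..1, one (E w A) z))) volume 0 1 := by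
    apply IntervalIntegrable.mul_continuousOn (hint1 0 1)
    apply Continuous.continuousOn
    exact (hU.mul (hc1.sub hc0)).add (hW.comp (continuous_id.add hc1))
  rw [integral_cells hw hs _ hint]
  have hge : ∀ i ∈ A, ∑ j ∈ A with i ≤ j, w j = w i + ∑ j ∈ A with i < j, w j := by
    intro i hi
    rw [show w i + ∑ j ∈ A with i < j, w j = ∑ j ∈ insert i (A.filter (fun j => i < j)), w j from by
      rw [Finset.sum_insert (by simp)]]
    congr 1
    ext j
    simp only [Finset.mem_filter, Finset.mem_insert]
    constructor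
    · rintro ⟨h1, h2⟩
      rcases eq_or_lt_of_le h2 with h3 | h3
      · exact Or.inl h3.symm
      · exact Or.inr ⟨h1, h3⟩
    · rintro (rfl | ⟨h1, h2⟩)
      · exact ⟨hi, le_rfl⟩
      · exact ⟨h1, h2.le⟩
  have h3 : ∀ i, ∫ y in (T w i)..(T w i + w i), one (E w A) y *
        (U y * ((∫ z in y..1, one (E w A) z) - ∫ z in (0 : ℝ)..y, one (E w A) z)
          + W (y + ∫ z in y..1, one (E w A) z))
      = if i ∈ A then ((∫ y in (T w i)..(T w i + w i),
            ((∑ j ∈ A with i ≤ j, w j) - (∑ j ∈ A with j < i, w j) - 2 * (y - T w i)) * U y)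
          + w i * W (T w i + ∑ j ∈ A with i ≤ j, w j)) else 0 := by
    intro i
    have hle : T w i ≤ T w i + w i := by linarith [hw i]
    by_cases hi : i ∈ A
    · rw [if_pos hi]
      have e1 : ∫ y in (T w i)..(T w i + w i), one (E w A) y *
        (U y * ((∫ z in y..1, one (E w A) z) - ∫ z in (0 : ℝ)..y, one (E w A) z)
          + W (y + ∫ z in y..1, one (E w A) z))
          = ∫ y in (T w i)..(T w i + w i), (((∑ j ∈ A with i ≤ j, w j)
            - (∑ j ∈ A with j < i, w j) - 2 * (y - T w i)) * U y
              + W (T w i + ∑ j ∈ A with i ≤ j, w j)) := by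
        rw [intervalIntegral.integral_of_le hle, intervalIntegral.integral_of_le hle]
        apply MeasureTheory.setIntegral_congr_fun measurableSet_Ioc
        intro y hy
        simp only
        rw [one_cell hw A hy, if_pos hi, after hw hs A hy.1.le hy.2,
          before hw A hy.1.le hy.2, if_pos hi, if_pos hi, hge i hi]
        have e5 : y + (T w i + w i - y + ∑ j ∈ A with i < j, w j)
            = T w i + (w i + ∑ j ∈ A with i < j, w j) := by ring
        rw [e5]
        ring
      rw [e1, intervalIntegral.integral_add]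
      · congr 1
        rw [intervalIntegral.integral_const]
        simp
      · apply Continuous.intervalIntegrable
        exact (continuous_const.sub (continuous_const.mul (continuous_id.sub continuous_const))).mul hU
      · exact intervalIntegrable_const
    · rw [if_neg hi]
      rw [intervalIntegral.integral_of_le hle]
      rw [MeasureTheory.setIntegral_congr_fun (g := fun _ => (0 : ℝ)) measurableSet_Ioc]
      · simp
      · intro y hy
        simp only
        rw [one_cell hw A hy, if_neg hi, zero_mul]
  simp only [h3]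
  rw [Finset.sum_ite_mem, Finset.univ_inter]

/-- (C4) the inequality of a column gives the inequality at every point -/
theorem column_point {w : Fin n → ℝ} (hw : ∀ i, 0 ≤ w i) (hs : ∑ i, w i = 1)
    (μ : Finset (Fin n) → ℝ) (h0 : ∀ A, 0 ≤ μ A) (h1 : ∑ A, μ A = 1) (C : ℝ)
    (hcol : ∀ i, 0 < w i → C ≤ (1 - (T w i + w i)) * (∑ A with i ∈ A, μ A) ^ 2 / 2
      + 2 * T w i * (∑ A with i ∈ A, μ A) * (1 - ∑ A with i ∈ A, μ A))
    {y : ℝ} (hy : y ∈ Set.Ioc (0 : ℝ) 1) :
    C ≤ (1 - y) * (∑ A, μ A * one (E w A) y) ^ 2 / 2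
      + 2 * y * (∑ A, μ A * one (E w A) y) * (1 - ∑ A, μ A * one (E w A) y) := by
  classical
  obtain ⟨i, hi⟩ := exists_cell hw hs hy
  have hwi : 0 < w i := by linarith [hi.1, hi.2]
  have e : ∑ A, μ A * one (E w A) y = ∑ A with i ∈ A, μ A := by
    rw [Finset.sum_filter]
    apply Finset.sum_congr rfl
    intro A _
    rw [one_cell hw A hi]
    split_ifs <;> simp
  rw [e]
  set p := ∑ A with i ∈ A, μ A with hp
  have hp0 : 0 ≤ p := Finset.sum_nonneg fun A _ => h0 A
  have hp1 : p ≤ 1 := by
    rw [← h1]
    exact Finset.sum_le_sum_of_subset_of_nonneg (Finset.filter_subset _ _) fun A _ _ => h0 A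
  have h := hcol i hwi
  have a1 : (1 - (T w i + w i)) * p ^ 2 / 2 ≤ (1 - y) * p ^ 2 / 2 := by
    have := mul_le_mul_of_nonneg_right (show 1 - (T w i + w i) ≤ 1 - y by linarith [hi.2])
      (sq_nonneg p)
    linarith
  have a2 : 2 * T w i * p * (1 - p) ≤ 2 * y * p * (1 - p) := by
    have hpp : 0 ≤ p * (1 - p) := mul_nonneg hp0 (by linarith)
    have := mul_le_mul_of_nonneg_right (show 2 * T w i ≤ 2 * y by linarith [hi.1]) hpp
    linarith
  linarith

end Pool.Agent.Lib.EF16
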