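import Mathlib

/-!
# MP_efec9b, row ID: the exact identity for the pointwise kernel

`E i` measurable sets, weights `mu i`; `t = 1/e`, `U x = t / max x t`.
-/

set_option autoImplicit false

namespace Pool.Agent.Lib.MP_efec9b_co.ID7

open MeasureTheory Set intervalIntegral Finset

noncomputable def tt : ℝ := Real.exp (-1)
noncomputable def U (x : ℝ) : ℝ := tt / max x tt
noncomputable def W (y : ℝ) : ℝ := ∫ z in y..1, U z
noncomputable def one (A : Set ℝ) (y : ℝ) : ℝ := A.indicator (fun _ => (1 : ℝ)) y
noncomputable def al (A : Set ℝ) (y : ℝ) : ℝ := ∫ x in y..1, one A x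
noncomputable def st (a s : ℝ) : ℝ := if s ≤ a then 1 else 0
noncomputable def S1 (A B : Set ℝ) : ℝ :=
  ∫ y in (0 : ℝ)..1, one A y * one B y * max (al (A \ B) y) (al (B \ A) y)
noncomputable def Lam (A : Set ℝ) : ℝ :=
  ∫ y in (0 : ℝ)..1, one A y * (U y * (al A y - ∫ x in (0 : ℝ)..y, one A x) + W (y + al A y))

theorem tt_pos : 0 < tt := Real.exp_pos _
theorem tt_lt : tt < 1 := by unfold tt; rw [Real.exp_lt_one_iff]; norm_num

theorem U_cont : Continuous U := by
  unfold U
  refine continuous_const.div (by fun_prop) fun x => ?_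
  exact (lt_of_lt_of_le tt_pos (le_max_right x tt)).ne'

theorem U_nonneg (x : ℝ) : 0 ≤ U x := by
  unfold U; exact div_nonneg tt_pos.le (tt_pos.le.trans (le_max_right _ _))

theorem U_le (x : ℝ) : U x ≤ 1 := by
  unfold U
  rw [div_le_one (lt_of_lt_of_le tt_pos (le_max_right x tt))]
  exact le_max_right _ _

theorem one_meas {A : Set ℝ} (hA : MeasurableSet A) : Measurable (one A) := by
  unfold one; exact measurable_const.indicator hA

theorem one_nonneg (A : Set ℝ) (y : ℝ) : 0 ≤ one A y := by
  unfold one; exact Set.indicator_nonneg (fun _ _ => zero_le_one) y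

theorem one_le (A : Set ℝ) (y : ℝ) : one A y ≤ 1 := by
  unfold one; by_cases h : y ∈ A <;> simp [h]

theorem one_abs (A : Set ℝ) (y : ℝ) : |one A y| ≤ 1 := by
  rw [abs_of_nonneg (one_nonneg A y)]; exact one_le A y

/-- bounded measurable functions are interval integrable -/
theorem ii {f : ℝ → ℝ} (hf : Measurable f) (K : ℝ) (hK : ∀ x, |f x| ≤ K) (a b : ℝ) :
    IntervalIntegrable f volume a b := by
  rw [intervalIntegrable_iff]
  refine Measure.integrableOn_of_bounded (M := K) ?_ hf.aestronglyMeasurable ?_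
  · rw [uIoc]; exact measure_Ioc_lt_top.ne
  · exact Filter.Eventually.of_forall fun x => by simpa using hK x

theorem ii_one {A : Set ℝ} (hA : MeasurableSet A) (a b : ℝ) :
    IntervalIntegrable (one A) volume a b := ii (one_meas hA) 1 (one_abs A) a b

theorem cont_upper {f : ℝ → ℝ} (hf : Measurable f) (K : ℝ) (hK : ∀ x, |f x| ≤ K) :
    Continuous fun y => ∫ x in y..1, f x := by
  have h := intervalIntegral.continuous_primitive (fun a b => ii hf K hK a b) 1
  have : (fun y => ∫ x in y..1, f x) = fun y => - ∫ x in (1 : ℝ)..y, f x := by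
    funext y; rw [intervalIntegral.integral_symm]
  rw [this]
  exact h.neg

theorem al_cont {A : Set ℝ} (hA : MeasurableSet A) : Continuous (al A) :=
  cont_upper (one_meas hA) 1 (one_abs A)

theorem al_nonneg (A : Set ℝ) {y : ℝ} (hy : y ≤ 1) : 0 ≤ al A y :=
  intervalIntegral.integral_nonneg hy fun x _ => one_nonneg A x

theorem al_le {A : Set ℝ} (hA : MeasurableSet A) {y : ℝ} (hy : y ≤ 1) : al A y ≤ 1 - y := by
  have := intervalIntegral.integral_mono_on hy (ii_one hA y 1)
    (intervalIntegrable_const (c := (1 : ℝ))) fun x _ => one_le A x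
  simpa [al] using this

theorem cut {h : ℝ → ℝ} {a L : ℝ} (hi : IntervalIntegrable h volume 0 L) (h0 : 0 ≤ a)
    (hL : a ≤ L) : (∫ s in (0 : ℝ)..L, h s * st a s) = ∫ s in (0 : ℝ)..a, h s := by
  have hsub : uIcc 0 a ⊆ uIcc 0 L := by
    rw [uIcc_of_le h0, uIcc_of_le (h0.trans hL)]; exact Icc_subset_Icc le_rfl hL
  have hi1 : IntervalIntegrable h volume 0 a := hi.mono_set hsub
  have e1 : ∀ᵐ s ∂(volume : Measure ℝ), s ∈ uIoc 0 a → h s * st a s = h s := by
    refine Filter.Eventually.of_forall fun s hs => ?_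
    rw [uIoc_of_le h0] at hs
    simp [st, hs.2]
  have e2 : ∀ᵐ s ∂(volume : Measure ℝ), s ∈ uIoc a L → h s * st a s = 0 := by
    refine Filter.Eventually.of_forall fun s hs => ?_
    rw [uIoc_of_le hL] at hs
    simp [st, not_le.2 hs.1]
  have j1 : IntervalIntegrable (fun s => h s * st a s) volume 0 a :=
    hi1.congr_ae (by
      rw [Filter.EventuallyEq, ae_restrict_iff' measurableSet_uIoc]
      filter_upwards [e1] with s hs hs'
      exact (hs hs').symm)
  have j2 : IntervalIntegrable (fun s => h s * st a s) volume a L :=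
    (intervalIntegrable_const (c := (0 : ℝ))).congr_ae (by
      rw [Filter.EventuallyEq, ae_restrict_iff' measurableSet_uIoc]
      filter_upwards [e2] with s hs hs'
      exact (hs hs').symm)
  rw [← intervalIntegral.integral_add_adjacent_intervals j1 j2,
    intervalIntegral.integral_congr_ae e1, intervalIntegral.integral_congr_ae e2]
  simp

theorem st_meas (a : ℝ) : Measurable (st a) := by
  unfold st
  exact Measurable.ite measurableSet_Iic measurable_const measurable_const

theorem st_abs (a s : ℝ) : |st a s| ≤ 1 := by unfold st; split_ifs <;> simp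

theorem cut_min {a b L : ℝ} (ha : 0 ≤ a) (hb : 0 ≤ b) (haL : a ≤ L) :
    (∫ s in (0 : ℝ)..L, st a s * st b s) = min a b := by
  have h1 : (∫ s in (0 : ℝ)..L, st a s * st b s) = ∫ s in (0 : ℝ)..L, st b s * st a s := by
    simp_rw [mul_comm]
  rw [h1, cut (ii (st_meas b) 1 (st_abs b) 0 L) ha haL]
  rcases le_total a b with h | h
  · rw [min_eq_left h]
    have : (∫ s in (0 : ℝ)..a, st b s) = ∫ s in (0 : ℝ)..a, (1 : ℝ) := by
      refine intervalIntegral.integral_congr_ae (Filter.Eventually.of_forall fun s hs => ?_)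
      rw [uIoc_of_le ha] at hs
      simp [st, hs.2.trans h]
    rw [this]; simp
  · rw [min_eq_right h]
    have := cut (h := fun _ => (1 : ℝ)) (a := b) (L := a) (by simp) hb h
    simpa using this

/-- difference sets -/
theorem al_diff {A B : Set ℝ} (hA : MeasurableSet A) (hB : MeasurableSet B) (y : ℝ) :
    al (A \ B) y = al A y - ∫ x in y..1, one A x * one B x := by
  have hm : Measurable fun x => one A x * one B x := (one_meas hA).mul (one_meas hB)
  have hb : ∀ x, |one A x * one B x| ≤ 1 := fun x => by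
    rw [abs_mul]; exact mul_le_one₀ (one_abs A x) (abs_nonneg _) (one_abs B x)
  unfold al
  rw [← intervalIntegral.integral_sub (ii_one hA y 1) (ii hm 1 hb y 1)]
  refine intervalIntegral.integral_congr fun x _ => ?_
  simp only [one, Set.indicator]
  by_cases h1 : x ∈ A <;> by_cases h2 : x ∈ B <;> simp [h1, h2]

theorem kernel {A B : Set ℝ} (hA : MeasurableSet A) (hB : MeasurableSet B) (y : ℝ) :
    max (al (A \ B) y) (al (B \ A) y) =
      al A y + al B y - min (al A y) (al B y) - ∫ x in y..1, one A x * one B x := by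
  rw [al_diff hA hB, al_diff hB hA]
  have : (∫ x in y..1, one B x * one A x) = ∫ x in y..1, one A x * one B x := by
    simp_rw [mul_comm]
  rw [this, max_sub_sub_right]
  have := min_add_max (al A y) (al B y)
  linarith

section family

variable {ι : Type*} [Fintype ι]

/-- quadratic expansion under the integral -/
theorem quad (b : ι → ℝ) (f : ι → ℝ → ℝ) (u : ℝ → ℝ) (hf : ∀ i, Measurable (f i))
    (hf1 : ∀ i x, |f i x| ≤ 1) (hu : Measurable u) (hu1 : ∀ x, |u x| ≤ 1) (a c : ℝ) :
    (∫ x in a..c, (∑ i, b i * f i x - u x) ^ 2) =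
      ∑ i, ∑ k, b i * b k * (∫ x in a..c, f i x * f k x)
        - 2 * ∑ i, b i * (∫ x in a..c, u x * f i x) + ∫ x in a..c, u x ^ 2 := by
  have h1 : ∀ i k, IntervalIntegrable (fun x => f i x * f k x) volume a c := fun i k =>
    ii (f := fun x => f i x * f k x) ((hf i).mul (hf k)) 1 (fun x => by
      rw [abs_mul]; exact mul_le_one₀ (hf1 i x) (abs_nonneg _) (hf1 k x)) a c
  have h2 : ∀ i, IntervalIntegrable (fun x => u x * f i x) volume a c := fun i =>
    ii (f := fun x => u x * f i x) (hu.mul (hf i)) 1 (fun x => by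
      rw [abs_mul]; exact mul_le_one₀ (hu1 x) (abs_nonneg _) (hf1 i x)) a c
  have h3 : IntervalIntegrable (fun x => u x ^ 2) volume a c :=
    ii (hu.pow_const 2) 1 (fun x => by
      rw [abs_pow]; exact pow_le_one₀ (abs_nonneg _) (hu1 x)) a c
  have e : (fun x => (∑ i, b i * f i x - u x) ^ 2) = fun x =>
      (∑ i, ∑ k, b i * b k * (f i x * f k x)) - 2 * (∑ i, b i * (u x * f i x)) + u x ^ 2 := by
    funext x
    have s1 : (∑ i, b i * f i x) ^ 2 = ∑ i, ∑ k, b i * b k * (f i x * f k x) := by
      rw [sq, Finset.sum_mul_sum]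
      refine Finset.sum_congr rfl fun i _ => Finset.sum_congr rfl fun k _ => by ring
    have s2 : (∑ i, b i * f i x) * u x = ∑ i, b i * (u x * f i x) := by
      rw [Finset.sum_mul]
      exact Finset.sum_congr rfl fun i _ => by ring
    rw [sub_sq, s1, ← s2]; ring
  rw [e]
  have j1 : IntervalIntegrable (fun x => ∑ i, ∑ k, b i * b k * (f i x * f k x)) volume a c := by
    have := IntervalIntegrable.sum (μ := volume) (a := a) (b := c) (Finset.univ (α := ι))
      (f := fun i x => ∑ k, b i * b k * (f i x * f k x)) (fun i _ => by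
        have := IntervalIntegrable.sum (μ := volume) (a := a) (b := c) (Finset.univ (α := ι))
          (f := fun k x => b i * b k * (f i x * f k x)) (fun k _ => (h1 i k).const_mul _)
        simpa [Finset.sum_apply, Finset.sum_fn] using this)
    simpa [Finset.sum_apply, Finset.sum_fn] using this
  have j2 : IntervalIntegrable (fun x => ∑ i, b i * (u x * f i x)) volume a c := by
    have := IntervalIntegrable.sum (μ := volume) (a := a) (b := c) (Finset.univ (α := ι))
      (f := fun i x => b i * (u x * f i x)) (fun i _ => (h2 i).const_mul _)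
    simpa [Finset.sum_apply, Finset.sum_fn] using this
  rw [intervalIntegral.integral_add (j1.sub (j2.const_mul 2)) h3,
    intervalIntegral.integral_sub j1 (j2.const_mul 2), intervalIntegral.integral_const_mul,
    intervalIntegral.integral_finsetSum (fun i _ => (h2 i).const_mul _)]
  congr 2
  · rw [intervalIntegral.integral_finsetSum]
    · refine Finset.sum_congr rfl fun i _ => ?_
      rw [intervalIntegral.integral_finsetSum (fun k _ => (h1 i k).const_mul _)]
      refine Finset.sum_congr rfl fun k _ => ?_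
      rw [intervalIntegral.integral_const_mul]
    · intro i _
      have := IntervalIntegrable.sum (μ := volume) (a := a) (b := c) (Finset.univ (α := ι))
        (f := fun k x => b i * b k * (f i x * f k x)) (fun k _ => (h1 i k).const_mul _)
      simpa [Finset.sum_apply, Finset.sum_fn] using this
  · congr 1
    refine Finset.sum_congr rfl fun i _ => ?_
    rw [intervalIntegral.integral_const_mul]

variable (E : ι → Set ℝ) (μ : ι → ℝ)

noncomputable def P (y : ℝ) : ℝ := ∑ i, μ i * one (E i) y
noncomputable def X (y : ℝ) : ℝ := ∑ i, μ i * one (E i) y * al (E i) y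
noncomputable def g (y Y : ℝ) : ℝ := ∑ i, μ i * one (E i) y * one (E i) Y
noncomputable def G (y s : ℝ) : ℝ := ∑ i, μ i * one (E i) y * st (al (E i) y) s

noncomputable def br (y : ℝ) : ℝ :=
  2 * (P E μ y - U y) * (X E μ y - W y) - (∫ Y in y..1, (g E μ y Y - U Y) ^ 2)
    - ∫ s in (0 : ℝ)..(1 - y), (G E μ y s - U (y + s)) ^ 2

theorem U_abs (x : ℝ) : |U x| ≤ 1 := by rw [abs_of_nonneg (U_nonneg x)]; exact U_le x

theorem W_sub (y a : ℝ) : (∫ s in (0 : ℝ)..a, U (y + s)) = W y - W (y + a) := by
  have h : (∫ s in (0 : ℝ)..a, U (y + s)) = ∫ z in y..(y + a), U z := by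
    have := intervalIntegral.integral_comp_add_left (f := U) (a := 0) (b := a) y
    simpa using this
  have i1 : ∀ a b, IntervalIntegrable U volume a b := fun a b => U_cont.intervalIntegrable a b
  rw [h]
  unfold W
  have := intervalIntegral.integral_add_adjacent_intervals (i1 y (y + a)) (i1 (y + a) 1)
  linarith

theorem U2_shift (y : ℝ) : (∫ s in (0 : ℝ)..(1 - y), U (y + s) ^ 2) = ∫ Y in y..1, U Y ^ 2 := by
  have := intervalIntegral.integral_comp_add_left (f := fun z => U z ^ 2) (a := 0) (b := 1 - y) y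
  simpa using this

variable {E}

/-- the pointwise identity -/
theorem pt (hE : ∀ i, MeasurableSet (E i)) {y : ℝ} (hy : y ≤ 1) :
    ∑ i, ∑ k, μ i * μ k * (one (E i) y * one (E k) y *
        max (al (E i \ E k) y) (al (E k \ E i) y)) =
      2 * ∑ i, μ i * (one (E i) y * (U y * al (E i) y + W (y + al (E i) y)
        - ∫ x in y..1, U x * one (E i) x))
      + (2 * (∫ x in y..1, U x ^ 2) - 2 * U y * W y) + br E μ y := by
  have q1 := quad (fun i => μ i * one (E i) y) (fun i => one (E i)) U
    (fun i => one_meas (hE i)) (fun i => one_abs (E i)) U_cont.measurable U_abs y 1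
  have q2 := quad (fun i => μ i * one (E i) y) (fun i s => st (al (E i) y) s) (fun s => U (y + s))
    (fun i => st_meas _) (fun i => st_abs _)
    (U_cont.measurable.comp (measurable_const_add y)) (fun s => U_abs _) 0 (1 - y)
  have m1 : ∀ i k, (∫ s in (0 : ℝ)..(1 - y), st (al (E i) y) s * st (al (E k) y) s) =
      min (al (E i) y) (al (E k) y) := fun i k =>
    cut_min (al_nonneg _ hy) (al_nonneg _ hy) (al_le (hE i) hy)
  have m2 : ∀ i, (∫ s in (0 : ℝ)..(1 - y), U (y + s) * st (al (E i) y) s) =
      W y - W (y + al (E i) y) := fun i => by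
    rw [cut (h := fun s => U (y + s)) ((U_cont.comp (continuous_const_add y)).intervalIntegrable _ _)
      (al_nonneg _ hy) (al_le (hE i) hy)]
    exact W_sub y _
  have c1 : (∫ Y in y..1, (g E μ y Y - U Y) ^ 2) = _ := q1
  have c2 : (∫ s in (0 : ℝ)..(1 - y), (G E μ y s - U (y + s)) ^ 2) = _ := q2
  simp_rw [m1, m2] at c2
  rw [U2_shift] at c2
  unfold br
  rw [c1, c2]
  simp_rw [fun i k => kernel (hE i) (hE k) y]
  have l1 : ∑ i, ∑ k, μ i * μ k * (one (E i) y * one (E k) y *
      (al (E i) y + al (E k) y - min (al (E i) y) (al (E k) y)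
        - ∫ x in y..1, one (E i) x * one (E k) x)) =
      2 * P E μ y * X E μ y
      - ∑ i, ∑ k, μ i * one (E i) y * (μ k * one (E k) y) * min (al (E i) y) (al (E k) y)
      - ∑ i, ∑ k, μ i * one (E i) y * (μ k * one (E k) y) *
        (∫ x in y..1, one (E i) x * one (E k) x) := by
    have a1 : P E μ y * X E μ y = ∑ i, ∑ k, μ i * μ k * (one (E i) y * one (E k) y * al (E k) y) := by
      unfold P X
      rw [Finset.sum_mul_sum]
      exact Finset.sum_congr rfl fun i _ => Finset.sum_congr rfl fun k _ => by ring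
    have a2 : P E μ y * X E μ y = ∑ i, ∑ k, μ i * μ k * (one (E i) y * one (E k) y * al (E i) y) := by
      rw [mul_comm]
      unfold P X
      rw [Finset.sum_mul_sum]
      exact Finset.sum_congr rfl fun i _ => Finset.sum_congr rfl fun k _ => by ring
    have a3 : 2 * P E μ y * X E μ y = P E μ y * X E μ y + P E μ y * X E μ y := by ring
    rw [a3]
    nth_rewrite 1 [a1]
    rw [a2, ← Finset.sum_add_distrib, ← Finset.sum_sub_distrib, ← Finset.sum_sub_distrib]
    refine Finset.sum_congr rfl fun i _ => ?_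
    rw [← Finset.sum_add_distrib, ← Finset.sum_sub_distrib, ← Finset.sum_sub_distrib]
    exact Finset.sum_congr rfl fun k _ => by ring
  rw [l1]
  have l2 : ∑ i, μ i * (one (E i) y * (U y * al (E i) y + W (y + al (E i) y)
        - ∫ x in y..1, U x * one (E i) x)) =
      U y * X E μ y + W y * P E μ y - ∑ i, μ i * one (E i) y * (W y - W (y + al (E i) y))
        - ∑ i, μ i * one (E i) y * (∫ x in y..1, U x * one (E i) x) := by
    unfold X P
    rw [Finset.mul_sum, Finset.mul_sum, ← Finset.sum_add_distrib, ← Finset.sum_sub_distrib,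
      ← Finset.sum_sub_distrib]
    exact Finset.sum_congr rfl fun i _ => by ring
  rw [l2]
  ring

end family


theorem tri {f h : ℝ → ℝ} (hf : Measurable f) (hf1 : ∀ x, |f x| ≤ 1) (hh : Measurable h)
    (hh1 : ∀ x, |h x| ≤ 1) :
    (∫ y in (0 : ℝ)..1, f y * ∫ x in y..1, h x) = ∫ x in (0 : ℝ)..1, h x * ∫ y in (0 : ℝ)..x, f y := by
  set K : ℝ → ℝ → ℝ := fun y x => f y * h x * (1 - st y x) with hK
  have hst : ∀ y x, |1 - st y x| ≤ 1 := fun y x => by unfold st; split_ifs <;> simp
  have hmeas : Measurable (Function.uncurry K) := by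
    have m1 : Measurable fun p : ℝ × ℝ => st p.1 p.2 := by
      unfold st
      exact Measurable.ite (measurableSet_le measurable_snd measurable_fst) measurable_const
        measurable_const
    exact ((hf.comp measurable_fst).mul (hh.comp measurable_snd)).mul (m1.const_sub 1)
  have hbd : ∀ p : ℝ × ℝ, ‖Function.uncurry K p‖ ≤ 1 := by
    rintro ⟨y, x⟩
    simp only [Function.uncurry, hK, Real.norm_eq_abs, abs_mul]
    exact mul_le_one₀ (mul_le_one₀ (hf1 y) (abs_nonneg _) (hh1 x)) (abs_nonneg _) (hst y x)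
  have hint : Integrable (Function.uncurry K)
      ((volume.restrict (Ioc (0 : ℝ) 1)).prod (volume.restrict (Ioc (0 : ℝ) 1))) :=
    Integrable.of_bound hmeas.aestronglyMeasurable 1 (Filter.Eventually.of_forall hbd)
  have swap := integral_integral_swap (f := K) hint
  have ih : ∀ a b, IntervalIntegrable h volume a b := fun a b => ii hh 1 hh1 a b
  have jf : ∀ a b, IntervalIntegrable f volume a b := fun a b => ii hf 1 hf1 a b
  have L : (∫ y in (0 : ℝ)..1, f y * ∫ x in y..1, h x) =
      ∫ y in Ioc (0 : ℝ) 1, ∫ x in Ioc (0 : ℝ) 1, K y x := by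
    rw [intervalIntegral.integral_of_le zero_le_one]
    refine setIntegral_congr_fun measurableSet_Ioc fun y hy => ?_
    have e1 : (∫ x in Ioc (0 : ℝ) 1, K y x) = ∫ x in (0 : ℝ)..1, K y x := by
      rw [intervalIntegral.integral_of_le zero_le_one]
    have e2 : (∫ x in (0 : ℝ)..1, K y x) =
        f y * ((∫ x in (0 : ℝ)..1, h x) - ∫ x in (0 : ℝ)..1, h x * st y x) := by
      rw [← intervalIntegral.integral_sub (ih 0 1) (ii (f := fun x => h x * st y x)
        (hh.mul (st_meas y)) 1 (fun x => by
          rw [abs_mul]; exact mul_le_one₀ (hh1 x) (abs_nonneg _) (st_abs y x)) 0 1),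
        ← intervalIntegral.integral_const_mul]
      refine intervalIntegral.integral_congr fun x _ => ?_
      simp only [hK]; ring
    have e3 := intervalIntegral.integral_add_adjacent_intervals (ih 0 y) (ih y 1)
    show f y * (∫ x in y..1, h x) = ∫ x in Ioc (0 : ℝ) 1, K y x
    rw [e1, e2, cut (ih 0 1) hy.1.le hy.2, ← e3]
    ring
  have R : (∫ x in (0 : ℝ)..1, h x * ∫ y in (0 : ℝ)..x, f y) =
      ∫ x in Ioc (0 : ℝ) 1, ∫ y in Ioc (0 : ℝ) 1, K y x := by
    rw [intervalIntegral.integral_of_le zero_le_one]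
    refine setIntegral_congr_fun measurableSet_Ioc fun x hx => ?_
    have e1 : (∫ y in Ioc (0 : ℝ) 1, K y x) = ∫ y in (0 : ℝ)..1, K y x := by
      rw [intervalIntegral.integral_of_le zero_le_one]
    have hne : ∀ᵐ y ∂(volume : Measure ℝ), y ≠ x := by
      rw [ae_iff]; simp
    have e2 : (∫ y in (0 : ℝ)..1, K y x) = h x * ∫ y in (0 : ℝ)..1, f y * st x y := by
      rw [← intervalIntegral.integral_const_mul]
      refine intervalIntegral.integral_congr_ae ?_
      filter_upwards [hne] with y hy _
      simp only [hK, st]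
      rcases lt_or_gt_of_ne hy with h1 | h1
      · rw [if_neg (not_le.2 h1), if_pos h1.le]; ring
      · rw [if_pos h1.le, if_neg (not_le.2 h1)]; ring
    show h x * (∫ y in (0 : ℝ)..x, f y) = ∫ y in Ioc (0 : ℝ) 1, K y x
    rw [e1, e2, cut (jf 0 1) hx.1.le hx.2]
  rw [L, R]
  exact swap

theorem der_up {u : ℝ → ℝ} (hu : Continuous u) (y : ℝ) :
    HasDerivAt (fun y => ∫ x in y..1, u x) (-u y) y := by
  have h := intervalIntegral.integral_hasDerivAt_right (hu.intervalIntegrable 1 y)
    (hu.stronglyMeasurableAtFilter _ _) hu.continuousAt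
  have e : (fun y => ∫ x in y..1, u x) = fun y => -∫ x in (1 : ℝ)..y, u x := by
    funext y; rw [intervalIntegral.integral_symm]
  rw [e]
  exact h.neg

theorem der_lo {u : ℝ → ℝ} (hu : Continuous u) (y : ℝ) :
    HasDerivAt (fun y => ∫ x in (0 : ℝ)..y, u x) (u y) y :=
  intervalIntegral.integral_hasDerivAt_right (hu.intervalIntegrable 0 y)
    (hu.stronglyMeasurableAtFilter _ _) hu.continuousAt

theorem W_cont : Continuous W := cont_upper U_cont.measurable 1 U_abs

theorem U_small {x : ℝ} (hx : x ≤ tt) : U x = 1 := by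
  unfold U; rw [max_eq_right hx, div_self tt_pos.ne']

theorem U_large {x : ℝ} (hx : tt ≤ x) : U x = tt / x := by
  unfold U; rw [max_eq_left hx]

theorem log_one_div_tt : Real.log (1 / tt) = 1 := by
  unfold tt; rw [one_div, ← Real.exp_neg, neg_neg, Real.log_exp]

theorem W_zero : W 0 = 2 * tt := by
  unfold W
  rw [← intervalIntegral.integral_add_adjacent_intervals (U_cont.intervalIntegrable 0 tt)
    (U_cont.intervalIntegrable tt 1)]
  have e1 : (∫ x in (0 : ℝ)..tt, U x) = tt := by
    have : (∫ x in (0 : ℝ)..tt, U x) = ∫ x in (0 : ℝ)..tt, (1 : ℝ) :=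
      intervalIntegral.integral_congr fun x hx => by
        rw [uIcc_of_le tt_pos.le] at hx
        exact U_small hx.2
    rw [this]; simp
  have e2 : (∫ x in tt..1, U x) = tt := by
    have : (∫ x in tt..1, U x) = ∫ x in tt..1, tt * x⁻¹ :=
      intervalIntegral.integral_congr fun x hx => by
        rw [uIcc_of_le tt_lt.le] at hx
        simp only [U_large hx.1, div_eq_mul_inv]
    rw [this, intervalIntegral.integral_const_mul, integral_inv_of_pos tt_pos one_pos,
      log_one_div_tt, mul_one]
  rw [e1, e2]; ring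

theorem xU2 : (∫ x in (0 : ℝ)..1, x * U x ^ 2) = 3 / 2 * tt ^ 2 := by
  have hc : Continuous fun x : ℝ => x * U x ^ 2 := continuous_id.mul (U_cont.pow 2)
  rw [← intervalIntegral.integral_add_adjacent_intervals (hc.intervalIntegrable 0 tt)
    (hc.intervalIntegrable tt 1)]
  have e1 : (∫ x in (0 : ℝ)..tt, x * U x ^ 2) = tt ^ 2 / 2 := by
    have : (∫ x in (0 : ℝ)..tt, x * U x ^ 2) = ∫ x in (0 : ℝ)..tt, x :=
      intervalIntegral.integral_congr fun x hx => by
        rw [uIcc_of_le tt_pos.le] at hx
        simp only [U_small hx.2]; ring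
    rw [this]; simp
  have e2 : (∫ x in tt..1, x * U x ^ 2) = tt ^ 2 := by
    have : (∫ x in tt..1, x * U x ^ 2) = ∫ x in tt..1, tt ^ 2 * x⁻¹ :=
      intervalIntegral.integral_congr fun x hx => by
        rw [uIcc_of_le tt_lt.le] at hx
        have hx0 : x ≠ 0 := (lt_of_lt_of_le tt_pos hx.1).ne'
        simp only [U_large hx.1]; field_simp
    rw [this, intervalIntegral.integral_const_mul, integral_inv_of_pos tt_pos one_pos,
      log_one_div_tt, mul_one]
  rw [e1, e2]; ring

theorem const_term :
    (∫ y in (0 : ℝ)..1, (2 * (∫ x in y..1, U x ^ 2) - 2 * U y * W y)) = -tt ^ 2 := by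
  have hU2 : Continuous fun x => U x ^ 2 := U_cont.pow 2
  have hxU : Continuous fun x : ℝ => x * U x ^ 2 := continuous_id.mul hU2
  have hd : ∀ y ∈ uIcc (0 : ℝ) 1, HasDerivAt (fun y => 2 * (y * ∫ x in y..1, U x ^ 2) + W y ^ 2
      + 2 * ∫ x in (0 : ℝ)..y, x * U x ^ 2) (2 * (∫ x in y..1, U x ^ 2) - 2 * U y * W y) y := by
    intro y _
    have d1 := der_up hU2 y
    have d2 : HasDerivAt W (-U y) y := der_up U_cont y
    have d3 := der_lo hxU y
    have := ((((hasDerivAt_id' y).mul d1).const_mul 2).add (d2.pow 2)).add (d3.const_mul 2)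
    have e : (2 * (∫ x in y..1, U x ^ 2) - 2 * U y * W y) =
        2 * (1 * (∫ x in y..1, U x ^ 2) + y * -(U y ^ 2)) +
          ((2 : ℕ) : ℝ) * W y ^ (2 - 1) * -U y + 2 * (y * U y ^ 2) := by
      push_cast; ring
    rw [e]
    exact this
  have hcont : Continuous fun y => (2 * (∫ x in y..1, U x ^ 2) - 2 * U y * W y) := by
    have c1 : Continuous fun y => ∫ x in y..1, U x ^ 2 :=
      cont_upper hU2.measurable 1 (fun x => by
        rw [abs_pow]; exact pow_le_one₀ (abs_nonneg _) (U_abs x))
    exact (c1.const_mul 2 |>.sub ((U_cont.const_mul 2).mul W_cont))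
  rw [intervalIntegral.integral_eq_sub_of_hasDerivAt hd (hcont.intervalIntegrable 0 1)]
  simp only [intervalIntegral.integral_same, mul_zero, zero_mul]
  rw [xU2, W_zero]
  have : W 1 = 0 := by unfold W; simp
  rw [this]; ring

theorem lam_eq {A : Set ℝ} (hA : MeasurableSet A) :
    (∫ y in (0 : ℝ)..1, one A y * (U y * al A y + W (y + al A y) - ∫ x in y..1, U x * one A x)) =
      Lam A := by
  have hm := one_meas hA
  have hUm : Measurable fun x => U x * one A x := U_cont.measurable.mul hm
  have hUb : ∀ x, |U x * one A x| ≤ 1 := fun x => by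
    rw [abs_mul]; exact mul_le_one₀ (U_abs x) (abs_nonneg _) (one_abs A x)
  have t := tri hm (one_abs A) hUm hUb
  have c1 : Continuous fun y => U y * al A y + W (y + al A y) :=
    (U_cont.mul (al_cont hA)).add (W_cont.comp (continuous_id.add (al_cont hA)))
  have c2 : Continuous fun y => ∫ x in y..1, U x * one A x := cont_upper hUm 1 hUb
  have c3 : Continuous fun y => ∫ x in (0 : ℝ)..y, one A x :=
    intervalIntegral.continuous_primitive (fun a b => ii_one hA a b) 0
  have i1 : IntervalIntegrable (fun y => one A y * (U y * al A y + W (y + al A y))) volume 0 1 :=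
    (ii_one hA 0 1).mul_continuousOn c1.continuousOn
  have i2 : IntervalIntegrable (fun y => one A y * ∫ x in y..1, U x * one A x) volume 0 1 :=
    (ii_one hA 0 1).mul_continuousOn c2.continuousOn
  have i3 : IntervalIntegrable (fun y => U y * one A y * ∫ x in (0 : ℝ)..y, one A x) volume 0 1 :=
    (ii hUm 1 hUb 0 1).mul_continuousOn c3.continuousOn
  have l : (∫ y in (0 : ℝ)..1, one A y * (U y * al A y + W (y + al A y)
      - ∫ x in y..1, U x * one A x)) =
      (∫ y in (0 : ℝ)..1, one A y * (U y * al A y + W (y + al A y))) -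
        ∫ y in (0 : ℝ)..1, one A y * ∫ x in y..1, U x * one A x := by
    rw [← intervalIntegral.integral_sub i1 i2]
    exact intervalIntegral.integral_congr fun y _ => by ring
  have r : Lam A = (∫ y in (0 : ℝ)..1, one A y * (U y * al A y + W (y + al A y))) -
        ∫ y in (0 : ℝ)..1, U y * one A y * ∫ x in (0 : ℝ)..y, one A x := by
    unfold Lam
    rw [← intervalIntegral.integral_sub i1 i3]
    exact intervalIntegral.integral_congr fun y _ => by ring
  rw [l, r, t]

/-- ROW ID -/
theorem id7 {ι : Type*} [Fintype ι] {E : ι → Set ℝ} (μ : ι → ℝ)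
    (hE : ∀ i, MeasurableSet (E i)) :
    ∑ i, ∑ k, μ i * μ k * S1 (E i) (E k) =
      2 * ∑ i, μ i * Lam (E i) - tt ^ 2 + ∫ y in (0 : ℝ)..1, br E μ y := by
  have iS : ∀ i k, IntervalIntegrable (fun y => one (E i) y * one (E k) y *
      max (al (E i \ E k) y) (al (E k \ E i) y)) volume 0 1 := fun i k =>
    (ii (f := fun y => one (E i) y * one (E k) y) ((one_meas (hE i)).mul (one_meas (hE k))) 1
      (fun x => by rw [abs_mul]; exact mul_le_one₀ (one_abs _ x) (abs_nonneg _) (one_abs _ x)) 0 1).mul_continuousOn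
      ((al_cont ((hE i).diff (hE k))).max (al_cont ((hE k).diff (hE i)))).continuousOn
  have iL : ∀ i, IntervalIntegrable (fun y => one (E i) y * (U y * al (E i) y
      + W (y + al (E i) y) - ∫ x in y..1, U x * one (E i) x)) volume 0 1 := fun i => by
    have hUm : Measurable fun x => U x * one (E i) x := U_cont.measurable.mul (one_meas (hE i))
    have hUb : ∀ x, |U x * one (E i) x| ≤ 1 := fun x => by
      rw [abs_mul]; exact mul_le_one₀ (U_abs x) (abs_nonneg _) (one_abs _ x)
    exact (ii_one (hE i) 0 1).mul_continuousOn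
      (((U_cont.mul (al_cont (hE i))).add (W_cont.comp (continuous_id.add (al_cont (hE i))))).sub
        (cont_upper hUm 1 hUb)).continuousOn
  have iC : IntervalIntegrable (fun y => 2 * (∫ x in y..1, U x ^ 2) - 2 * U y * W y) volume 0 1 := by
    have c1 : Continuous fun y => ∫ x in y..1, U x ^ 2 :=
      cont_upper (U_cont.pow 2).measurable 1 (fun x => by
        rw [abs_pow]; exact pow_le_one₀ (abs_nonneg _) (U_abs x))
    exact ((c1.const_mul 2).sub ((U_cont.const_mul 2).mul W_cont)).intervalIntegrable 0 1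
  have eb : ∀ y ∈ Set.uIcc (0 : ℝ) 1, br E μ y =
      (∑ i, ∑ k, μ i * μ k * (one (E i) y * one (E k) y *
        max (al (E i \ E k) y) (al (E k \ E i) y)))
      - 2 * (∑ i, μ i * (one (E i) y * (U y * al (E i) y + W (y + al (E i) y)
        - ∫ x in y..1, U x * one (E i) x)))
      - (2 * (∫ x in y..1, U x ^ 2) - 2 * U y * W y) := by
    intro y hy
    rw [Set.uIcc_of_le zero_le_one] at hy
    rw [pt μ hE hy.2]; ring
  rw [intervalIntegral.integral_congr eb]
  have j1 : ∀ i, IntervalIntegrable (fun y => ∑ k, μ i * μ k * (one (E i) y * one (E k) y *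
        max (al (E i \ E k) y) (al (E k \ E i) y))) volume 0 1 := fun i => by
    have := IntervalIntegrable.sum (μ := volume) (a := 0) (b := 1) (Finset.univ (α := ι))
      (f := fun k y => μ i * μ k * (one (E i) y * one (E k) y *
        max (al (E i \ E k) y) (al (E k \ E i) y))) (fun k _ => (iS i k).const_mul _)
    simpa [Finset.sum_fn] using this
  have j2 : IntervalIntegrable (fun y => ∑ i, ∑ k, μ i * μ k * (one (E i) y * one (E k) y *
        max (al (E i \ E k) y) (al (E k \ E i) y))) volume 0 1 := by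
    have := IntervalIntegrable.sum (μ := volume) (a := 0) (b := 1) (Finset.univ (α := ι))
      (f := fun i y => ∑ k, μ i * μ k * (one (E i) y * one (E k) y *
        max (al (E i \ E k) y) (al (E k \ E i) y))) (fun i _ => j1 i)
    simpa [Finset.sum_fn] using this
  have j3 : IntervalIntegrable (fun y => ∑ i, μ i * (one (E i) y * (U y * al (E i) y
      + W (y + al (E i) y) - ∫ x in y..1, U x * one (E i) x))) volume 0 1 := by
    have := IntervalIntegrable.sum (μ := volume) (a := 0) (b := 1) (Finset.univ (α := ι))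
      (f := fun i y => μ i * (one (E i) y * (U y * al (E i) y
        + W (y + al (E i) y) - ∫ x in y..1, U x * one (E i) x))) (fun i _ => (iL i).const_mul _)
    simpa [Finset.sum_fn] using this
  rw [intervalIntegral.integral_sub (j2.sub (j3.const_mul 2)) iC,
    intervalIntegral.integral_sub j2 (j3.const_mul 2), const_term,
    intervalIntegral.integral_const_mul,
    intervalIntegral.integral_finsetSum (fun i _ => (iL i).const_mul _),
    intervalIntegral.integral_finsetSum (fun i _ => j1 i)]
  have s1 : ∑ i, (∫ y in (0 : ℝ)..1, ∑ k, μ i * μ k * (one (E i) y * one (E k) y *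
        max (al (E i \ E k) y) (al (E k \ E i) y))) = ∑ i, ∑ k, μ i * μ k * S1 (E i) (E k) := by
    refine Finset.sum_congr rfl fun i _ => ?_
    rw [intervalIntegral.integral_finsetSum (fun k _ => (iS i k).const_mul _)]
    refine Finset.sum_congr rfl fun k _ => ?_
    rw [intervalIntegral.integral_const_mul]; rfl
  have s2 : ∑ i, (∫ y in (0 : ℝ)..1, μ i * (one (E i) y * (U y * al (E i) y
      + W (y + al (E i) y) - ∫ x in y..1, U x * one (E i) x))) = ∑ i, μ i * Lam (E i) := by
    refine Finset.sum_congr rfl fun i _ => ?_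
    rw [intervalIntegral.integral_const_mul, lam_eq (hE i)]
  rw [s1, s2]
  ring

end Pool.Agent.Lib.MP_efec9b_co.ID7
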