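import Mathlib

/-!
# The last estimate (rows J and the column bound) for the matrix (0 0; 0 1)
-/

open MeasureTheory intervalIntegral Set

namespace Pool.Agent.Lib.MP_efec9b_co.J89

noncomputable section

/-- Column bound: if the column inequality holds at `y` with value above `2 t ^ 2`,
then the frequency `p` of the column is large. -/
theorem col_bound {t y p : ℝ} (ht1 : 0.36787944 < t) (ht2 : t < 0.36787945)
    (hy0 : 0 ≤ y) (hyt : y ≤ t) (hp0 : 0 ≤ p)
    (h : 2 * t ^ 2 < (1 - y) * p ^ 2 / 2 + 2 * y * p * (1 - p)) :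
    1 - p ≤ 0.2655 + 0.573 * y := by
  by_contra hcon
  have hlt : p < 0.7345 - 0.573 * y := by
    have := not_le.1 hcon
    linarith
  have hy' : y < 0.36787945 := lt_of_le_of_lt hyt ht2
  have hP : 0 ≤ 0.7345 - 0.573 * y := by linarith
  -- value at the threshold
  have hval : (0.7345 - 0.573 * y) ^ 2 * (1 - 5 * y) / 2 + 2 * y * (0.7345 - 0.573 * y)
      ≤ 0.2706 := by
    have hh : -0.3005954 + 1.122506 * y - 0.8208225 * y ^ 2 ≤ 0.0013 := by
      nlinarith [mul_nonneg hy0 (sub_nonneg.2 hy'.le), sq_nonneg (y - 0.36787945)]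
    have hmul : y * (-0.3005954 + 1.122506 * y - 0.8208225 * y ^ 2) ≤ y * 0.0013 :=
      mul_le_mul_of_nonneg_left hh hy0
    nlinarith [hmul]
  -- monotone in p
  have hmono : 0 ≤ (1 - 5 * y) * (0.7345 - 0.573 * y + p) / 2 + 2 * y := by
    rcases le_or_gt (5 * y) 1 with h5 | h5
    · have : 0 ≤ (1 - 5 * y) * (0.7345 - 0.573 * y + p) :=
        mul_nonneg (by linarith) (by linarith)
      linarith
    · have h1 : (5 * y - 1) * (0.7345 - 0.573 * y + p) ≤
          (5 * y - 1) * (2 * (0.7345 - 0.573 * y)) :=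
        mul_le_mul_of_nonneg_left (by linarith) (by linarith)
      nlinarith [h1]
  have hdiff : (1 - y) * p ^ 2 / 2 + 2 * y * p * (1 - p) ≤
      (0.7345 - 0.573 * y) ^ 2 * (1 - 5 * y) / 2 + 2 * y * (0.7345 - 0.573 * y) := by
    have := mul_nonneg (sub_nonneg.2 hlt.le) hmono
    nlinarith [this]
  have ht : 0.2706 < 2 * t ^ 2 := by nlinarith
  linarith

/-- The tail mass of the column bound. -/
def N (t y : ℝ) : ℝ := 0.2655 * (t - y) + 0.2865 * (t ^ 2 - y ^ 2)

lemma hasDerivAt_N (t y : ℝ) : HasDerivAt (N t) (-(0.2655 + 0.573 * y)) y := by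
  have h := ((hasDerivAt_id y).const_sub t).const_mul (0.2655 : ℝ)
  have h2 := (((hasDerivAt_id y).pow 2).const_sub (t ^ 2)).const_mul (0.2865 : ℝ)
  have h3 := h.add h2
  refine h3.congr_deriv ?_
  simp
  ring

lemma continuous_N (t : ℝ) : Continuous (N t) := by
  unfold N
  fun_prop

lemma N_self (t : ℝ) : N t t = 0 := by
  unfold N; ring

lemma N_anti {t x y : ℝ} (hx : 0 ≤ x) (hxy : x ≤ y) : N t y ≤ N t x := by
  unfold N
  nlinarith [mul_nonneg hx (sub_nonneg.2 hxy), sq_nonneg (y - x)]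

/-- The pointwise inequality. -/
lemma pointwise {t y q k : ℝ} (ht1 : 0.36787944 < t) (ht2 : t < 0.36787945)
    (hk : 1.2274 ≤ k) (hy0 : 0 < y) (hyt : y < t) (hq0 : 0 ≤ q) (hq1 : q ≤ 0.2655 + 0.573 * y) :
    ((1 - t) / 2 - y) * q ^ 2 + 2.102 * (q * N t y) ≤ k * ((t - y) * q) := by
  have hty : 0 < t - y := by linarith
  have hk' : 1.2274 * ((t - y) * q) ≤ k * ((t - y) * q) :=
    mul_le_mul_of_nonneg_right hk (mul_nonneg hty.le hq0)
  refine le_trans ?_ hk'
  rcases le_or_gt y ((1 - t) / 2) with hB | hB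
  · have h1 : ((1 - t) / 2 - y) * q ^ 2 ≤ ((1 - t) / 2 - y) * (0.2655 + 0.573 * y) * q := by
      have : q ^ 2 ≤ (0.2655 + 0.573 * y) * q := by nlinarith
      nlinarith [mul_le_mul_of_nonneg_left this (sub_nonneg.2 hB)]
    have h2 : ((1 - t) / 2 - y) * (0.2655 + 0.573 * y) + 2.102 * N t y ≤ 1.2274 * (t - y) := by
      unfold N
      nlinarith [sq_nonneg (y - 0.2489), sq_nonneg (t - 0.367879445), mul_pos hy0 hty,
        mul_nonneg (sub_nonneg.2 ht1.le) (sub_nonneg.2 ht2.le),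
        mul_nonneg hy0.le (sub_nonneg.2 ht1.le), mul_nonneg hy0.le (sub_nonneg.2 ht2.le)]
    have h3 := mul_le_mul_of_nonneg_right h2 hq0
    nlinarith [h1, h3]
  · have h1 : ((1 - t) / 2 - y) * q ^ 2 ≤ 0 :=
      mul_nonpos_of_nonpos_of_nonneg (by linarith) (sq_nonneg q)
    have h2 : 2.102 * N t y ≤ 1.2274 * (t - y) := by
      unfold N
      nlinarith [mul_nonneg hty.le (by linarith : (0:ℝ) ≤ 0.36787945 - t),
        mul_nonneg hty.le (by linarith : (0:ℝ) ≤ 0.36787945 - y)]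
    have h3 := mul_le_mul_of_nonneg_right h2 hq0
    nlinarith [h1, h3]

/-- Bathtub: `(∫ q)² ≤ 2 ∫ q N`. -/
lemma bathtub {t : ℝ} (ht : 0 < t) (q : ℝ → ℝ) (hi : IntervalIntegrable q volume 0 t)
    (h0 : ∀ y ∈ Ioo (0:ℝ) t, 0 ≤ q y)
    (h1 : ∀ y ∈ Ioo (0:ℝ) t, q y ≤ 0.2655 + 0.573 * y) :
    (∫ y in (0:ℝ)..t, q y) ^ 2 ≤ 2 * ∫ y in (0:ℝ)..t, q y * N t y := by
  set m := ∫ y in (0:ℝ)..t, q y with hm
  have hcq : Continuous (fun y : ℝ => 0.2655 + 0.573 * y) := by fun_prop
  have hNint : ∀ a b : ℝ, ∫ y in a..b, (0.2655 + 0.573 * y) = N t a - N t b := by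
    intro a b
    have := integral_eq_sub_of_hasDerivAt (a := a) (b := b)
      (fun y _ => (hasDerivAt_N t y).neg) (by
        apply Continuous.intervalIntegrable
        fun_prop)
    simp only [neg_neg] at this
    rw [this]
    simp only [Pi.neg_apply]
    ring
  have hm0 : 0 ≤ m := by
    rw [hm]
    apply intervalIntegral.integral_nonneg_of_ae_restrict ht.le
    rw [Filter.EventuallyLE, ae_restrict_iff' measurableSet_Icc]
    have hz : ∀ᵐ y : ℝ, y ≠ 0 ∧ y ≠ t := by
      have h0' : ∀ᵐ y : ℝ, y ≠ 0 := by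
        simp [ae_iff]
      have ht' : ∀ᵐ y : ℝ, y ≠ t := by
        simp [ae_iff]
      filter_upwards [h0', ht'] with y ha hb using ⟨ha, hb⟩
    filter_upwards [hz] with y hy hyI
    exact h0 y ⟨lt_of_le_of_ne hyI.1 (Ne.symm hy.1), lt_of_le_of_ne hyI.2 hy.2⟩
  have hmN : m ≤ N t 0 := by
    have : m ≤ ∫ y in (0:ℝ)..t, (0.2655 + 0.573 * y) :=
      integral_mono_on_of_le_Ioo ht.le hi (hcq.intervalIntegrable _ _) h1
    rw [hNint, N_self] at this
    linarith
  -- the level
  obtain ⟨s, hs, hsm⟩ : ∃ s ∈ Icc (0:ℝ) t, N t s = m := by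
    have := intermediate_value_Icc' ht.le (continuous_N t).continuousOn
    exact this ⟨by rw [N_self]; exact hm0, hmN⟩
  have hi1 : IntervalIntegrable q volume 0 s :=
    hi.mono_set (by rw [uIcc_of_le hs.1, uIcc_of_le ht.le]; exact Icc_subset_Icc_right hs.2)
  have hi2 : IntervalIntegrable q volume s t :=
    hi.mono_set (by rw [uIcc_of_le hs.2, uIcc_of_le ht.le]; exact Icc_subset_Icc_left hs.1)
  have hcN : Continuous (fun y : ℝ => N t y - N t s) := (continuous_N t).sub continuous_const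
  have hj : IntervalIntegrable (fun y => q y * (N t y - N t s)) volume 0 t :=
    hi.mul_continuousOn hcN.continuousOn
  have hj1 : IntervalIntegrable (fun y => q y * (N t y - N t s)) volume 0 s :=
    hi1.mul_continuousOn hcN.continuousOn
  have hj2 : IntervalIntegrable (fun y => q y * (N t y - N t s)) volume s t :=
    hi2.mul_continuousOn hcN.continuousOn
  have hA : 0 ≤ ∫ y in (0:ℝ)..s, q y * (N t y - N t s) := by
    have hle : ∫ y in (0:ℝ)..s, (0:ℝ) ≤ ∫ y in (0:ℝ)..s, q y * (N t y - N t s) := by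
      apply integral_mono_on_of_le_Ioo hs.1 (by simp) hj1
      intro y hy
      exact mul_nonneg (h0 y ⟨hy.1, lt_of_lt_of_le hy.2 hs.2⟩)
        (sub_nonneg.2 (N_anti hy.1.le hy.2.le))
    simpa using hle
  have hB : -(m ^ 2 / 2) ≤ ∫ y in s..t, q y * (N t y - N t s) := by
    have hle : ∫ y in s..t, (0.2655 + 0.573 * y) * (N t y - N t s) ≤
        ∫ y in s..t, q y * (N t y - N t s) := by
      apply integral_mono_on_of_le_Ioo hs.2 ((hcq.mul hcN).intervalIntegrable _ _) hj2
      intro y hy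
      have hneg : N t y - N t s ≤ 0 := sub_nonpos.2 (N_anti hs.1 hy.1.le)
      exact mul_le_mul_of_nonpos_right (h1 y ⟨lt_of_le_of_lt hs.1 hy.1, hy.2⟩) hneg
    have hval : ∫ y in s..t, (0.2655 + 0.573 * y) * (N t y - N t s) = -(m ^ 2 / 2) := by
      have hd : ∀ y ∈ uIcc s t, HasDerivAt (fun y => -((N t y - N t s) ^ 2 / 2))
          ((0.2655 + 0.573 * y) * (N t y - N t s)) y := by
        intro y _
        have h := ((((hasDerivAt_N t y).sub_const (N t s)).pow 2).div_const 2).neg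
        refine h.congr_deriv ?_
        simp
        ring
      rw [integral_eq_sub_of_hasDerivAt hd ((hcq.mul hcN).intervalIntegrable _ _), N_self, hsm]
      ring
    linarith
  have hsplit : ∫ y in (0:ℝ)..t, q y * (N t y - N t s) =
      (∫ y in (0:ℝ)..s, q y * (N t y - N t s)) + ∫ y in s..t, q y * (N t y - N t s) :=
    (integral_add_adjacent_intervals hj1 hj2).symm
  have hlin : ∫ y in (0:ℝ)..t, q y * (N t y - N t s) =
      (∫ y in (0:ℝ)..t, q y * N t y) - m * m := by
    have : (fun y => q y * (N t y - N t s)) = fun y => q y * N t y - q y * m := by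
      funext y; rw [hsm]; ring
    rw [this, intervalIntegral.integral_sub (hi.mul_continuousOn (continuous_N t).continuousOn)
      (hi.mul_const m), intervalIntegral.integral_mul_const]
  nlinarith [hA, hB, hsplit, hlin]

/-- Row J with a general `t` and `k`. -/
theorem J_gen {t k : ℝ} (ht1 : 0.36787944 < t) (ht2 : t < 0.36787945) (hk : 1.2274 ≤ k)
    (q : ℝ → ℝ) (hm : Measurable q)
    (h0 : ∀ y ∈ Ioo (0:ℝ) t, 0 ≤ q y)
    (h1 : ∀ y ∈ Ioo (0:ℝ) t, q y ≤ 0.2655 + 0.573 * y) :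
    (∫ y in (0:ℝ)..t, ((1 - t) / 2 - y) * q y ^ 2) + 1.051 * (∫ y in (0:ℝ)..t, q y) ^ 2 ≤
      k * ∫ y in (0:ℝ)..t, (t - y) * q y := by
  have ht : 0 < t := by linarith
  have hbd : ∀ y ∈ Ioo (0:ℝ) t, |q y| ≤ 1 := by
    intro y hy
    rw [abs_of_nonneg (h0 y hy)]
    have := h1 y hy
    have := hy.2
    linarith
  have hi : IntervalIntegrable q volume 0 t := by
    rw [intervalIntegrable_iff_integrableOn_Ioo_of_le ht.le]
    refine Measure.integrableOn_of_bounded (M := 1) (by simp) hm.aestronglyMeasurable ?_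
    rw [ae_restrict_iff' measurableSet_Ioo]
    exact Filter.Eventually.of_forall fun y hy => by simpa using hbd y hy
  have hi2 : IntervalIntegrable (fun y => q y ^ 2) volume 0 t := by
    rw [intervalIntegrable_iff_integrableOn_Ioo_of_le ht.le]
    refine Measure.integrableOn_of_bounded (M := 1) (by simp) (hm.pow_const 2).aestronglyMeasurable ?_
    rw [ae_restrict_iff' measurableSet_Ioo]
    refine Filter.Eventually.of_forall fun y hy => ?_
    have := hbd y hy
    rw [Real.norm_eq_abs, abs_pow]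
    exact pow_le_one₀ (abs_nonneg _) this
  have hc1 : Continuous (fun y : ℝ => (1 - t) / 2 - y) := by fun_prop
  have hc2 : Continuous (fun y : ℝ => t - y) := by fun_prop
  have hI1 : IntervalIntegrable (fun y => ((1 - t) / 2 - y) * q y ^ 2) volume 0 t :=
    hi2.continuousOn_mul hc1.continuousOn
  have hI2 : IntervalIntegrable (fun y => 2.102 * (q y * N t y)) volume 0 t :=
    (hi.mul_continuousOn (continuous_N t).continuousOn).const_mul _
  have hI3 : IntervalIntegrable (fun y => k * ((t - y) * q y)) volume 0 t :=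
    (hi.continuousOn_mul hc2.continuousOn).const_mul _
  have hb := bathtub ht q hi h0 h1
  have hle : ∫ y in (0:ℝ)..t, (((1 - t) / 2 - y) * q y ^ 2 + 2.102 * (q y * N t y)) ≤
      ∫ y in (0:ℝ)..t, k * ((t - y) * q y) := by
    apply integral_mono_on_of_le_Ioo ht.le (hI1.add hI2) hI3
    intro y hy
    exact pointwise ht1 ht2 hk hy.1 hy.2 (h0 y hy) (h1 y hy)
  rw [intervalIntegral.integral_add hI1 hI2, intervalIntegral.integral_const_mul,
    intervalIntegral.integral_const_mul] at hle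
  nlinarith [hle, hb]

/-- Row J in 78's form. -/
theorem J (q : ℝ → ℝ) (hm : Measurable q)
    (h0 : ∀ y ∈ Ioo (0:ℝ) (Real.exp (-1)), 0 ≤ q y)
    (h1 : ∀ y ∈ Ioo (0:ℝ) (Real.exp (-1)), q y ≤ 0.2655 + 0.573 * y) :
    (∫ y in (0:ℝ)..Real.exp (-1), ((1 - Real.exp (-1)) / 2 - y) * q y ^ 2)
        + 1.051 * (∫ y in (0:ℝ)..Real.exp (-1), q y) ^ 2 ≤
      2 * (2 - 2 * Real.log 2) * ∫ y in (0:ℝ)..Real.exp (-1), (Real.exp (-1) - y) * q y := by
  have e1 := Real.exp_neg_one_gt_d9
  have e2 := Real.exp_neg_one_lt_d9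
  have l2 := Real.log_two_lt_d9
  exact J_gen (by linarith) (by linarith) (by linarith) q hm h0 h1

end

end Pool.Agent.Lib.MP_efec9b_co.J89
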