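import Mathlib

/-!
# The bound for the frequency of a column
-/

set_option autoImplicit false

namespace Pool.Agent.Lib.MP_efec9b_co.QB55

open Real

theorem t_lt : exp (-1) < 0.36788 := by
  have h := Real.exp_one_gt_d9
  rw [Real.exp_neg]
  have h1 : (exp 1)⁻¹ < (2.7182818283 : ℝ)⁻¹ := inv_strictAnti₀ (by norm_num) h
  refine h1.trans ?_
  norm_num

theorem lt_t : 0.367879 < exp (-1) := by
  have h := Real.exp_one_lt_d9
  rw [Real.exp_neg]
  have h1 : (2.7182818286 : ℝ)⁻¹ < (exp 1)⁻¹ := inv_strictAnti₀ (exp_pos 1) h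
  refine lt_of_lt_of_le ?_ h1.le
  norm_num

/-- At a point `y ≤ exp (-1)`. -/
theorem qb0 {y p : ℝ} (hy : 0 ≤ y) (hyt : y ≤ exp (-1)) (hp : 0 ≤ p)
    (h : 2 * exp (-1) ^ 2 ≤ (1 - y) * p ^ 2 / 2 + 2 * y * p * (1 - p)) :
    1 - p ≤ 0.2643 + 0.573 * y := by
  by_contra hc
  rw [not_le] at hc
  have hyt' : y ≤ 0.36788 := hyt.trans t_lt.le
  have h2 : (0.27066 : ℝ) < 2 * exp (-1) ^ 2 := by
    have := lt_t
    nlinarith
  have hpP : p < 0.7357 - 0.573 * y := by linarith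
  set P : ℝ := 0.7357 - 0.573 * y with hP
  have hP0 : 0 < P := by rw [hP]; linarith
  -- monotone in `p`
  have h3 : (1 - y) * p ^ 2 / 2 + 2 * y * p * (1 - p) ≤
      (1 - y) * P ^ 2 / 2 + 2 * y * P * (1 - P) := by
    have e1 : (1 - y) * P ^ 2 / 2 + 2 * y * P * (1 - P) -
        ((1 - y) * p ^ 2 / 2 + 2 * y * p * (1 - p)) =
        (P - p) * (2 * y + (P + p) * (1 - 5 * y) / 2) := by ring
    have h4 : 0 ≤ 2 * y + (P + p) * (1 - 5 * y) / 2 := by
      by_cases h5 : 5 * y ≤ 1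
      · have : 0 ≤ (P + p) * (1 - 5 * y) := mul_nonneg (by linarith) (by linarith)
        linarith
      · rw [not_le] at h5
        have h6 : (P + p) * (5 * y - 1) ≤ 1.5 * (5 * y - 1) :=
          mul_le_mul_of_nonneg_right (by rw [hP] at hpP ⊢; linarith) (by linarith)
        nlinarith
    have h7 := mul_nonneg (by linarith : 0 ≤ P - p) h4
    linarith
  -- the cubic polynomial
  have h8 : (1 - y) * P ^ 2 / 2 + 2 * y * P * (1 - P) ≤ 0.27065 := by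
    rw [hP]
    nlinarith [mul_nonneg hy (sub_nonneg.2 hyt'), mul_nonneg (mul_nonneg hy (sub_nonneg.2 hyt')) hy,
      mul_nonneg (mul_nonneg hy (sub_nonneg.2 hyt')) (sub_nonneg.2 hyt')]
  linarith

/-- ROW QB. -/
theorem qb55 {l r y p : ℝ} (hl : 0 ≤ l) (hly : l ≤ y) (hyr : y ≤ r) (hyt : y ≤ exp (-1))
    (hp0 : 0 ≤ p) (hp1 : p ≤ 1)
    (h : 2 * exp (-1) ^ 2 ≤ (1 - r) * p ^ 2 / 2 + 2 * l * p * (1 - p)) :
    1 - p ≤ 0.2643 + 0.573 * y := by
  refine qb0 (hl.trans hly) hyt hp0 (h.trans ?_)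
  have h1 : (1 - r) * p ^ 2 ≤ (1 - y) * p ^ 2 :=
    mul_le_mul_of_nonneg_right (by linarith) (sq_nonneg p)
  have h2 : l * (p * (1 - p)) ≤ y * (p * (1 - p)) :=
    mul_le_mul_of_nonneg_right hly (mul_nonneg hp0 (by linarith))
  nlinarith

end Pool.Agent.Lib.MP_efec9b_co.QB55
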