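import Mathlib

/-!
MP_efec9b (52): the slack inequality for measurable sets.  With `t = exp (-1)`,
`U x = t / max x t`, `R x = ∫ U` over `(x, 1)`, a set with indicator `χ` satisfies
`∫ χ (U (ρ - α) + R (y + ρ)) ≤ t ^ 2 - k0 ∫ (1 - χ) (t - y)` (last integral over `(0, t)`).
-/

set_option autoImplicit false

namespace Pool.Agent.Lib.MP_efec9b_co.SL52

open MeasureTheory Set

noncomputable def t : ℝ := Real.exp (-1)

noncomputable def U (x : ℝ) : ℝ := t / max x t

noncomputable def R (x : ℝ) : ℝ := ∫ z in x..1, U z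

noncomputable def R1 (x : ℝ) : ℝ := ∫ z in x..1, R z

noncomputable def P (x : ℝ) : ℝ := ∫ z in x..1, 2 * max (t - z) 0

lemma t_pos : 0 < t := Real.exp_pos _

lemma t_lt : t < 1 := by
  unfold t
  rw [Real.exp_lt_one_iff]
  norm_num

lemma log_t : Real.log t = -1 := Real.log_exp _

lemma max_pos52 (x : ℝ) : 0 < max x t := lt_of_lt_of_le t_pos (le_max_right _ _)

lemma U_cont : Continuous U :=
  continuous_const.div (continuous_id.max continuous_const) fun x => (max_pos52 x).ne'

lemma U_low {x : ℝ} (h : x ≤ t) : U x = 1 := by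
  unfold U
  rw [max_eq_right h, div_self t_pos.ne']

lemma U_high {x : ℝ} (h : t ≤ x) : U x = t / x := by
  unfold U
  rw [max_eq_left h]

lemma deriv_left {f : ℝ → ℝ} (hf : Continuous f) (x : ℝ) :
    HasDerivAt (fun x => ∫ z in x..1, f z) (-f x) x :=
  intervalIntegral.integral_hasDerivAt_left (hf.intervalIntegrable _ _)
    hf.stronglyMeasurable.stronglyMeasurableAtFilter hf.continuousAt

lemma R_deriv (x : ℝ) : HasDerivAt R (-U x) x := deriv_left U_cont x

lemma R_cont : Continuous R :=
  continuous_iff_continuousAt.2 fun x => (R_deriv x).continuousAt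

lemma R1_deriv (x : ℝ) : HasDerivAt R1 (-R x) x := deriv_left R_cont x

lemma m_cont : Continuous fun z : ℝ => 2 * max (t - z) 0 := by fun_prop

lemma P_deriv (x : ℝ) : HasDerivAt P (-(2 * max (t - x) 0)) x := deriv_left m_cont x

lemma R_one : R 1 = 0 := by simp [R]
lemma R1_one : R1 1 = 0 := by simp [R1]
lemma P_one : P 1 = 0 := by simp [P]

lemma R_high {x : ℝ} (h : t ≤ x) : R x = -(t * Real.log x) := by
  have hx : 0 < x := t_pos.trans_le h
  unfold R
  have h1 : ∫ z in x..1, U z = ∫ z in x..1, t * z⁻¹ := by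
    refine intervalIntegral.integral_congr fun z hz => ?_
    have hz' : t ≤ z := (le_min h t_lt.le).trans (by simpa [uIcc] using hz.1)
    show U z = t * z⁻¹
    rw [U_high hz', div_eq_mul_inv]
  rw [h1, intervalIntegral.integral_const_mul, integral_inv_of_pos hx one_pos, one_div,
    Real.log_inv]
  ring

lemma R_t : R t = t := by
  rw [R_high le_rfl, log_t]
  ring

lemma R_low {x : ℝ} (h : x ≤ t) : R x = 2 * t - x := by
  have h1 : R x = (∫ z in x..t, U z) + R t := by
    unfold R
    rw [intervalIntegral.integral_add_adjacent_intervals (U_cont.intervalIntegrable _ _)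
      (U_cont.intervalIntegrable _ _)]
  have h2 : ∫ z in x..t, U z = ∫ z in x..t, (1 : ℝ) := by
    refine intervalIntegral.integral_congr fun z hz => ?_
    have hz' : z ≤ t := by
      rw [uIcc_of_le h] at hz
      exact hz.2
    exact U_low hz'
  rw [h1, h2, R_t, intervalIntegral.integral_const]
  simp
  ring

lemma P_zero : P 0 = t ^ 2 := by
  have h1 : P 0 = (∫ z in (0 : ℝ)..t, 2 * max (t - z) 0) + ∫ z in t..1, 2 * max (t - z) 0 := by
    unfold P
    rw [intervalIntegral.integral_add_adjacent_intervals (m_cont.intervalIntegrable _ _)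
      (m_cont.intervalIntegrable _ _)]
  have h2 : ∫ z in (0 : ℝ)..t, 2 * max (t - z) 0 = ∫ z in (0 : ℝ)..t, 2 * (t - z) := by
    refine intervalIntegral.integral_congr fun z hz => ?_
    rw [uIcc_of_le t_pos.le] at hz
    show 2 * max (t - z) 0 = 2 * (t - z)
    rw [max_eq_left (by linarith [hz.2])]
  have h3 : ∫ z in t..1, 2 * max (t - z) 0 = ∫ z in t..1, (0 : ℝ) := by
    refine intervalIntegral.integral_congr fun z hz => ?_
    rw [uIcc_of_le t_lt.le] at hz
    show 2 * max (t - z) 0 = 0
    rw [max_eq_right (by linarith [hz.1])]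
    ring
  have h4 : ∫ z in (0 : ℝ)..t, 2 * (t - z) = t ^ 2 := by
    rw [intervalIntegral.integral_const_mul, intervalIntegral.integral_sub
      (by simp) (by simp)]
    simp
    ring
  rw [h1, h2, h3, h4]
  simp

/-- the boundary value is constant -/
lemma bdry (k : ℝ) : -2 * k * R k - k * R 0 + 2 * R1 0 - 2 * R1 k - P k = -t ^ 2 := by
  have hd : ∀ k, HasDerivAt (fun k => -2 * k * R k - k * R 0 + 2 * R1 0 - 2 * R1 k - P k) 0 k := by
    intro k
    have h1 : HasDerivAt (fun k : ℝ => -2 * k * R k - k * R 0 + 2 * R1 0 - 2 * R1 k - P k)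
        ((-2 * 1 * R k + -2 * k * (-U k)) - 1 * R 0 + 0 - 2 * (-R k) - (-(2 * max (t - k) 0))) k := by
      refine HasDerivAt.sub (HasDerivAt.sub (HasDerivAt.add (HasDerivAt.sub ?_ ?_) ?_) ?_) ?_
      · exact ((hasDerivAt_id k).const_mul (-2)).mul (R_deriv k)
      · exact (hasDerivAt_id k).mul_const _
      · exact hasDerivAt_const _ _
      · exact (R1_deriv k).const_mul 2
      · exact P_deriv k
    refine h1.congr_deriv ?_
    rw [R_low t_pos.le]
    rcases le_total k t with h | h
    · rw [U_low h, max_eq_left (by linarith)]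
      ring
    · have hk : 0 < k := t_pos.trans_le h
      rw [U_high h, max_eq_right (by linarith)]
      field_simp
      ring
  have hc : -2 * k * R k - k * R 0 + 2 * R1 0 - 2 * R1 k - P k =
      -2 * 0 * R 0 - 0 * R 0 + 2 * R1 0 - 2 * R1 0 - P 0 :=
    is_const_of_deriv_eq_zero (fun k => (hd k).differentiableAt)
      (fun k => (hd k).deriv) k 0
  rw [hc, P_zero]
  ring

/-- `2 log x ≤ x - 1 / x` for `x ≥ 1` -/
lemma two_log {x : ℝ} (h : 1 ≤ x) : 2 * Real.log x ≤ x - x⁻¹ := by
  have hx : 0 < x := by linarith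
  have h1 := Real.self_le_sinh_iff.2 (Real.log_nonneg h)
  rw [Real.sinh_log hx] at h1
  linarith

/-- `x - 2 log x ≥ 2 - 2 log 2` -/
lemma sub_log {x : ℝ} (h : 0 < x) : 2 - 2 * Real.log 2 ≤ x - 2 * Real.log x := by
  have h1 := Real.log_le_sub_one_of_pos (show (0 : ℝ) < x / 2 by positivity)
  rw [Real.log_div h.ne' (by norm_num)] at h1
  linarith

noncomputable def k0 : ℝ := 2 - 2 * Real.log 2

lemma k0_le : k0 ≤ 1 := by
  have := Real.log_two_gt_d9
  unfold k0
  linarith

lemma k0_pos : 0 ≤ k0 := by
  have := Real.log_two_lt_d9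
  unfold k0
  linarith

/-- the pointwise bound off the set -/
lemma lam52 {y a r : ℝ} (hy : 0 ≤ y) (ha : a ≤ y) (hr : 0 ≤ r) :
    k0 * max (t - y) 0 ≤ (a + 2 * r) * U (y + r) + (r - a) * U y - 2 * R y + 2 * R (y + r)
      + 2 * max (t - (y + r)) 0 := by
  have ht := t_pos
  rcases le_total (y + r) t with hb | hb
  · have hyt : y ≤ t := by linarith
    rw [U_low hb, U_low hyt, R_low hb, R_low hyt, max_eq_left (by linarith),
      max_eq_left (by linarith)]
    have := mul_le_mul_of_nonneg_right k0_le (show 0 ≤ t - y by linarith)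
    linarith
  · have hb0 : 0 < y + r := ht.trans_le hb
    rw [max_eq_right (show t - (y + r) ≤ 0 by linarith), U_high hb, R_high hb]
    set b := y + r with hbdef
    have hrb : r = b - y := by rw [hbdef]; ring
    rcases le_total y t with h | h
    · rw [U_low h, R_low h, max_eq_left (by linarith)]
      -- reduce to `a = y`
      have h1 : (a - y) * (t / b - 1) ≥ 0 := by
        have : t / b - 1 ≤ 0 := by
          rw [sub_nonpos, div_le_one hb0]
          exact hb
        nlinarith
      set be := b / t with hbe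
      have hbt : b = be * t := by rw [hbe]; field_simp
      have hbe1 : 1 ≤ be := by
        rw [hbe, le_div_iff₀ ht]
        linarith
      have hbe0 : 0 < be := by linarith
      have hlog : Real.log b = Real.log be - 1 := by
        rw [hbt, Real.log_mul hbe0.ne' ht.ne', log_t]
        ring
      have htb : t / b = be⁻¹ := by
        rw [hbt]
        field_simp
      have e1 := two_log hbe1
      have e2 := sub_log hbe0
      have e3 := mul_le_mul_of_nonneg_left e1 hy
      have e4 := mul_le_mul_of_nonneg_left e2 (show 0 ≤ t - y by linarith)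
      have hbb : b * be⁻¹ = t := by
        rw [hbt]
        field_simp
      rw [htb] at h1 ⊢
      rw [hlog]
      unfold k0
      rw [hrb]
      have hyb : y * be⁻¹ * 1 = y * be⁻¹ := by ring
      have expand : (a + 2 * (b - y)) * be⁻¹ = (a - y) * be⁻¹ - y * be⁻¹ + 2 * t := by
        have : b * be⁻¹ = t := hbb
        linear_combination 2 * this
      rw [expand]
      have hbt' : b = be * t := hbt
      nlinarith
    · have hy0 : 0 < y := ht.trans_le h
      rw [U_high h, R_high h, max_eq_right (show t - y ≤ 0 by linarith)]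
      set be := b / y with hbe
      have hby : b = be * y := by rw [hbe]; field_simp
      have hbe1 : 1 ≤ be := by
        rw [hbe, le_div_iff₀ hy0]
        linarith
      have hbe0 : 0 < be := by linarith
      have hlog : Real.log b = Real.log be + Real.log y := by
        rw [hby, Real.log_mul hbe0.ne' hy0.ne']
      have e1 := mul_le_mul_of_nonneg_left (two_log hbe1) ht.le
      have h1 : (a - y) * (t / b - t / y) ≥ 0 := by
        have : t / b ≤ t / y := div_le_div_of_nonneg_left ht.le hy0 (by linarith)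
        nlinarith
      have g1 : b * (t / b) = t := by field_simp
      have g2 : y * (t / y) = t := by field_simp
      have g3 : y * (t / b) = t * be⁻¹ := by
        rw [hbe]
        field_simp
      have g4 : b * (t / y) = t * be := by
        rw [hbe]
        field_simp
      rw [hlog, hrb]
      nlinarith

/-- a function with continuous derivative is Lipschitz on `[0, 1]` -/
lemma lip {F F' : ℝ → ℝ} (h : ∀ x, HasDerivAt F (F' x) x) (hc : Continuous F') :
    ∃ K : NNReal, LipschitzOnWith K F (Icc 0 1) := by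
  have h1 : ContDiff ℝ 1 F := by
    rw [contDiff_one_iff_deriv]
    refine ⟨fun x => (h x).differentiableAt, ?_⟩
    have : deriv F = F' := funext fun x => (h x).deriv
    rw [this]
    exact hc
  exact h1.contDiffOn.exists_lipschitzOnWith (by decide) (convex_Icc _ _) isCompact_Icc

section main

variable {χ : ℝ → ℝ} (hm : Measurable χ) (h01 : ∀ y, χ y = 0 ∨ χ y = 1)

include hm h01

lemma chi_int (a b : ℝ) : IntervalIntegrable χ volume a b := by
  have h1 : IntervalIntegrable (fun _ : ℝ => (1 : ℝ)) volume a b := intervalIntegrable_const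
  refine h1.mono_fun hm.aestronglyMeasurable (Filter.Eventually.of_forall fun y => ?_)
  rcases h01 y with h | h <;> simp [h]

lemma chi_nonneg (y : ℝ) : 0 ≤ χ y := by rcases h01 y with h | h <;> simp [h]

lemma chi_le (y : ℝ) : χ y ≤ 1 := by rcases h01 y with h | h <;> simp [h]

lemma int_nonneg {a b : ℝ} (hab : a ≤ b) : 0 ≤ ∫ z in a..b, χ z :=
  intervalIntegral.integral_nonneg hab fun y _ => chi_nonneg hm h01 y

lemma int_le {a b : ℝ} (hab : a ≤ b) : ∫ z in a..b, χ z ≤ b - a := by
  have := intervalIntegral.integral_mono_on hab (chi_int hm h01 a b)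
    (intervalIntegrable_const (c := (1 : ℝ))) fun y _ => chi_le hm h01 y
  simpa using this

theorem sl52 : ∫ y in (0 : ℝ)..1, χ y * (U y * ((∫ z in y..1, χ z) - ∫ z in (0 : ℝ)..y, χ z) +
      R (y + ∫ z in y..1, χ z)) ≤
    t ^ 2 - ∫ y in (0 : ℝ)..t, (1 - χ y) * (k0 * (t - y)) := by
  set k : ℝ := ∫ z in (0 : ℝ)..1, χ z with hk
  set al : ℝ → ℝ := fun y => ∫ z in (0 : ℝ)..y, χ z with hal
  have hrho : ∀ y, ∫ z in y..1, χ z = k - al y := by
    intro y
    rw [hk, hal, ← intervalIntegral.integral_add_adjacent_intervals (chi_int hm h01 0 y)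
      (chi_int hm h01 y 1)]
    ring
  have hal0 : ∀ y, 0 ≤ y → 0 ≤ al y := fun y hy => int_nonneg hm h01 hy
  have haly : ∀ y, 0 ≤ y → al y ≤ y := fun y hy => by
    have := int_le hm h01 hy
    simpa using this
  have hr0 : ∀ y, y ≤ 1 → 0 ≤ k - al y := fun y hy => by
    rw [← hrho]
    exact int_nonneg hm h01 hy
  have hr1 : ∀ y, y ≤ 1 → y + (k - al y) ≤ 1 := fun y hy => by
    rw [← hrho]
    have := int_le hm h01 hy
    linarith
  have hsub : ∀ x y, x ≤ y → 0 ≤ al y - al x ∧ al y - al x ≤ y - x := by
    intro x y hxy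
    have h1 : al y - al x = ∫ z in x..y, χ z := by
      show (∫ z in (0 : ℝ)..y, χ z) - (∫ z in (0 : ℝ)..x, χ z) = _
      rw [← intervalIntegral.integral_add_adjacent_intervals (chi_int hm h01 0 x)
        (chi_int hm h01 x y)]
      ring
    rw [h1]
    exact ⟨int_nonneg hm h01 hxy, int_le hm h01 hxy⟩
  have hlip : LipschitzWith 1 al := by
    refine LipschitzWith.of_dist_le_mul fun x y => ?_
    simp only [NNReal.coe_one, one_mul, Real.dist_eq]
    rcases le_total x y with h | h
    · have := hsub x y h
      rw [abs_sub_comm, abs_of_nonneg this.1, abs_sub_comm, abs_of_nonneg (by linarith)]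
      exact this.2
    · have := hsub y x h
      rw [abs_of_nonneg this.1, abs_of_nonneg (by linarith)]
      exact this.2
  have hblip : LipschitzWith 1 (fun y => y + (k - al y)) := by
    refine LipschitzWith.of_dist_le_mul fun x y => ?_
    simp only [NNReal.coe_one, one_mul, Real.dist_eq]
    rcases le_total x y with h | h
    · have := hsub x y h
      rw [abs_sub_comm, abs_of_nonneg (by linarith), abs_sub_comm, abs_of_nonneg (by linarith)]
      linarith
    · have := hsub y x h
      rw [abs_of_nonneg (by linarith), abs_of_nonneg (by linarith)]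
      linarith
  have hmaps : MapsTo (fun y => y + (k - al y)) (Icc (0 : ℝ) 1) (Icc 0 1) := by
    intro y hy
    exact ⟨by have := hr0 y hy.2; have := hy.1; show 0 ≤ y + (k - al y); linarith, hr1 y hy.2⟩
  have hu : uIcc (0 : ℝ) 1 = Icc 0 1 := uIcc_of_le zero_le_one
  have acl : ∀ {F : ℝ → ℝ} {K : NNReal}, LipschitzOnWith K F (Icc 0 1) →
      AbsolutelyContinuousOnInterval F 0 1 := by
    intro F K h
    refine LipschitzOnWith.absolutelyContinuousOnInterval (K := K) ?_
    rw [hu]
    exact h
  have acid : AbsolutelyContinuousOnInterval (fun y : ℝ => y) 0 1 :=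
    acl (LipschitzWith.id.lipschitzOnWith (s := Icc (0 : ℝ) 1))
  have acal : AbsolutelyContinuousOnInterval al 0 1 := acl (hlip.lipschitzOnWith (s := Icc 0 1))
  have accomp : ∀ {F F' : ℝ → ℝ}, (∀ x, HasDerivAt F (F' x) x) → Continuous F' →
      AbsolutelyContinuousOnInterval (fun y => F (y + (k - al y))) 0 1 := by
    intro F F' h hc
    obtain ⟨K, hK⟩ := lip h hc
    exact acl (hK.comp (hblip.lipschitzOnWith (s := Icc 0 1)) hmaps)
  have acF : ∀ {F F' : ℝ → ℝ}, (∀ x, HasDerivAt F (F' x) x) → Continuous F' →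
      AbsolutelyContinuousOnInterval F 0 1 := by
    intro F F' h hc
    obtain ⟨K, hK⟩ := lip h hc
    exact acl hK
  have acc : ∀ c : ℝ, AbsolutelyContinuousOnInterval (fun _ : ℝ => c) 0 1 := fun c =>
    acl ((LipschitzWith.const c).lipschitzOnWith (s := Icc (0 : ℝ) 1))
  set Ψ : ℝ → ℝ := fun y => -((al y + 2 * (k - al y)) * R (y + (k - al y))) -
    ((k - al y) - al y) * R y + 2 * R1 y - 2 * R1 (y + (k - al y)) - P (y + (k - al y)) with hΨ
  have acΨ : AbsolutelyContinuousOnInterval Ψ 0 1 := by
    have a1 := acal.add (((acc k).sub acal).const_mul 2)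
    have a2 := a1.mul (accomp R_deriv (F' := fun x => -U x) U_cont.neg)
    have a3 := (((acc k).sub acal).sub acal).mul (acF R_deriv (F' := fun x => -U x) U_cont.neg)
    have a4 := (acF R1_deriv (F' := fun x => -R x) R_cont.neg).const_mul 2
    have a5 := (accomp R1_deriv (F' := fun x => -R x) R_cont.neg).const_mul 2
    have a6 := accomp P_deriv (F' := fun x => -(2 * max (t - x) 0)) m_cont.neg
    have a7 := (((a2.neg.sub a3).add a4).sub a5).sub a6
    exact a7
  have hend : Ψ 1 - Ψ 0 = t ^ 2 := by
    have e1 : Ψ 1 = 0 := by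
      rw [hΨ]
      have : al 1 = k := rfl
      simp only [this, sub_self, add_zero, R_one, R1_one, P_one]
      ring
    have e2 : Ψ 0 = -t ^ 2 := by
      rw [hΨ]
      have : al 0 = 0 := intervalIntegral.integral_same
      simp only [this]
      rw [← bdry k]
      simp only [sub_zero, zero_add]
      ring
    rw [e1, e2]
    ring
  -- the derivative
  have hder : ∀ᵐ y, y ∈ uIcc (0 : ℝ) 1 → deriv Ψ y =
      χ y * (U y * ((k - al y) - al y) + R (y + (k - al y))) + (1 - χ y) *
      ((al y + 2 * (k - al y)) * U (y + (k - al y)) + ((k - al y) - al y) * U y - 2 * R y +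
        2 * R (y + (k - al y)) + 2 * max (t - (y + (k - al y))) 0) := by
    filter_upwards [(chi_int hm h01 0 1).ae_hasDerivAt_integral] with y hy hy1
    have d0 : HasDerivAt al (χ y) y := hy hy1 0 (by simp)
    have db : HasDerivAt (fun y => y + (k - al y)) (1 + (0 - χ y)) y :=
      (hasDerivAt_id y).add ((hasDerivAt_const y k).sub d0)
    have dr : HasDerivAt (fun y => k - al y) (0 - χ y) y := (hasDerivAt_const y k).sub d0
    have dRb : HasDerivAt (fun y => R (y + (k - al y))) (-U (y + (k - al y)) * (1 + (0 - χ y))) y :=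
      (R_deriv _).comp y db
    have dR1b : HasDerivAt (fun y => R1 (y + (k - al y)))
        (-R (y + (k - al y)) * (1 + (0 - χ y))) y := (R1_deriv _).comp y db
    have dPb : HasDerivAt (fun y => P (y + (k - al y)))
        (-(2 * max (t - (y + (k - al y))) 0) * (1 + (0 - χ y))) y := (P_deriv _).comp y db
    have dall := (((((d0.add (dr.const_mul 2)).mul dRb).neg.sub ((dr.sub d0).mul
      (R_deriv y))).add ((R1_deriv y).const_mul 2)).sub (dR1b.const_mul 2)).sub dPb
    have dall' : HasDerivAt Ψ _ y := dall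
    rw [dall'.deriv]
    rcases h01 y with h | h
    · rw [h]
      simp only [Pi.add_apply, Pi.sub_apply]
      ring
    · rw [h]
      simp only [Pi.add_apply, Pi.sub_apply]
      ring
  have hcal : Continuous al := hlip.continuous
  have hcb : Continuous fun y => y + (k - al y) := hblip.continuous
  have hRb : Continuous fun y => R (y + (k - al y)) := R_cont.comp hcb
  have i1 : IntervalIntegrable (fun y => χ y * (U y * ((k - al y) - al y) + R (y + (k - al y))))
      volume 0 1 :=
    (chi_int hm h01 0 1).mul_continuousOn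
      ((U_cont.mul ((continuous_const.sub hcal).sub hcal)).add hRb).continuousOn
  have hone : IntervalIntegrable (fun y => 1 - χ y) volume 0 1 :=
    intervalIntegrable_const.sub (chi_int hm h01 0 1)
  have i2 : IntervalIntegrable (fun y => (1 - χ y) * (k0 * max (t - y) 0)) volume 0 1 :=
    hone.mul_continuousOn (by fun_prop)
  have hmono : ∫ y in (0 : ℝ)..1, (χ y * (U y * ((k - al y) - al y) + R (y + (k - al y))) +
      (1 - χ y) * (k0 * max (t - y) 0)) ≤ ∫ y in (0 : ℝ)..1, deriv Ψ y := by
    refine intervalIntegral.integral_mono_ae_restrict zero_le_one (i1.add i2)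
      acΨ.intervalIntegrable_deriv ?_
    rw [Filter.EventuallyLE, ae_restrict_iff' measurableSet_Icc]
    filter_upwards [hder] with y hy hy1
    rw [hy (by rw [hu]; exact hy1)]
    have h1 := lam52 (y := y) (a := al y) (r := k - al y) hy1.1 (haly y hy1.1) (hr0 y hy1.2)
    have h2 : 0 ≤ 1 - χ y := by linarith [chi_le hm h01 y]
    have h3 := mul_le_mul_of_nonneg_left h1 h2
    linarith
  rw [acΨ.integral_deriv_eq_sub, hend, intervalIntegral.integral_add i1 i2] at hmono
  have hsplit : ∫ y in (0 : ℝ)..1, (1 - χ y) * (k0 * max (t - y) 0) =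
      ∫ y in (0 : ℝ)..t, (1 - χ y) * (k0 * (t - y)) := by
    have hmid : t ∈ uIcc (0 : ℝ) 1 := by
      rw [hu]
      exact ⟨t_pos.le, t_lt.le⟩
    have s1 : IntervalIntegrable (fun y => (1 - χ y) * (k0 * max (t - y) 0)) volume 0 t :=
      (intervalIntegrable_const.sub (chi_int hm h01 0 t)).mul_continuousOn (by fun_prop)
    have s2 : IntervalIntegrable (fun y => (1 - χ y) * (k0 * max (t - y) 0)) volume t 1 :=
      (intervalIntegrable_const.sub (chi_int hm h01 t 1)).mul_continuousOn (by fun_prop)
    rw [← intervalIntegral.integral_add_adjacent_intervals s1 s2]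
    have z : ∫ y in t..1, (1 - χ y) * (k0 * max (t - y) 0) = ∫ y in t..1, (0 : ℝ) := by
      refine intervalIntegral.integral_congr fun y hy => ?_
      rw [uIcc_of_le t_lt.le] at hy
      show (1 - χ y) * (k0 * max (t - y) 0) = 0
      rw [max_eq_right (by linarith [hy.1])]
      ring
    have z' : ∫ y in (0 : ℝ)..t, (1 - χ y) * (k0 * max (t - y) 0) =
        ∫ y in (0 : ℝ)..t, (1 - χ y) * (k0 * (t - y)) := by
      refine intervalIntegral.integral_congr fun y hy => ?_
      rw [uIcc_of_le t_pos.le] at hy
      show (1 - χ y) * (k0 * max (t - y) 0) = (1 - χ y) * (k0 * (t - y))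
      rw [max_eq_left (by linarith [hy.2])]
    rw [z, z']
    simp
  rw [hsplit] at hmono
  have hL : ∫ y in (0 : ℝ)..1, χ y * (U y * ((∫ z in y..1, χ z) - ∫ z in (0 : ℝ)..y, χ z) +
      R (y + ∫ z in y..1, χ z)) =
      ∫ y in (0 : ℝ)..1, χ y * (U y * ((k - al y) - al y) + R (y + (k - al y))) := by
    refine intervalIntegral.integral_congr fun y _ => ?_
    simp only [hrho]
    rfl
  rw [hL]
  linarith

end main

end Pool.Agent.Lib.MP_efec9b_co.SL52
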