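import Pool.Agent.Lib.MP_efec9b_co.Glue24
import Pool.Agent.Lib.MP_efec9b_co.Cells16
import Pool.Agent.Lib.MP_efec9b_co.ID7
import Pool.Agent.Lib.MP_efec9b_co.SL52
import Pool.Agent.Lib.MP_efec9b_co.J89
import Pool.Agent.Lib.MP_efec9b_co.QB55
import Pool.Agent.Lib.MP_efec9b_co.Asm24

/-!
MP_efec9b_co, the matrix `(0 0; 0 1)`: assembly of the upper bound.
-/

set_option autoImplicit false

namespace Pool.Agent.Lib.MP_efec9b_co.E2

open Finset MeasureTheory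

/-- The estimate of the quadratic part. -/
def StQD : Prop := ∀ (ι : Type) [Fintype ι] (E : ι → Set ℝ) (μ : ι → ℝ), (∀ i, 0 ≤ μ i) →
  ∑ i, μ i = 1 → (∀ i, MeasurableSet (E i)) →
  ∫ y in (0 : ℝ)..1, ID7.br E μ y ≤
    (∫ y in (0 : ℝ)..(Real.exp (-1)), ((1 - Real.exp (-1)) / 2 - y) *
      (1 - ∑ i, μ i * ID7.one (E i) y) ^ 2) +
    1.051 * (∫ y in (0 : ℝ)..(Real.exp (-1)), (1 - ∑ i, μ i * ID7.one (E i) y)) ^ 2

theorem one01 (S : Set ℝ) (y : ℝ) : ID7.one S y = 0 ∨ ID7.one S y = 1 := by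
  unfold ID7.one
  by_cases h : y ∈ S <;> simp [h]

theorem S1_cells {n : ℕ} {w : Fin n → ℝ} (hw : ∀ i, 0 ≤ w i) (hs : ∑ i, w i = 1)
    (A B : Finset (Fin n)) :
    MAX87.S1 w A B = ID7.S1 (EF16.E w A) (EF16.E w B) :=
  EF16.kernel_cells hw hs A B

theorem T_add {n : ℕ} (w : Fin n → ℝ) (y : Fin n) :
    EF16.T w y + w y = ∑ i ∈ univ.filter (fun i => i ≤ y), w i := by
  have h : (univ.filter (fun i => i ≤ y)) = insert y (univ.filter (fun i => i < y)) := by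
    ext k
    simp only [mem_filter, mem_univ, true_and, mem_insert]
    exact le_iff_eq_or_lt
  rw [h, sum_insert (by simp)]
  unfold EF16.T
  ring

theorem J_le (hQD : StQD) {n : ℕ} (w : Fin n → ℝ) (μ : Finset (Fin n) → ℝ)
    (hw : w ∈ stdSimplex ℝ (Fin n)) (h1 : ∀ A, 0 ≤ μ A) (h2 : ∑ A, μ A = 1)
    (hcol : ∀ y, 0 < w y → 2 * Real.exp (-2) ≤
      (1 - ∑ i ∈ univ.filter (fun i => i ≤ y), w i) * MAX87.pr μ y ^ 2 / 2 +
        2 * (∑ i ∈ univ.filter (fun i => i < y), w i) * MAX87.pr μ y * (1 - MAX87.pr μ y)) :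
    MAX87.J w μ ≤ Real.exp (-2) := by
  have he : Real.exp (-2) = Real.exp (-1) ^ 2 := by
    rw [← Real.exp_nat_mul]
    norm_num
  have ht0 : 0 < Real.exp (-1) := Real.exp_pos _
  have ht1 : Real.exp (-1) < 1 := by
    rw [Real.exp_lt_one_iff]
    norm_num
  have hE : ∀ A, MeasurableSet (EF16.E w A) := fun A => EF16.measurableSet_E w A
  have hm : ∀ A, Measurable (ID7.one (EF16.E w A)) := fun A => ID7.one_meas (hE A)
  have hp0 : ∀ y, 0 ≤ ∑ A, μ A * ID7.one (EF16.E w A) y := fun y =>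
    sum_nonneg fun A _ => mul_nonneg (h1 A) (ID7.one_nonneg _ _)
  have hp1 : ∀ y, ∑ A, μ A * ID7.one (EF16.E w A) y ≤ 1 := fun y => by
    rw [← h2]
    exact sum_le_sum fun A _ => by
      have := mul_le_mul_of_nonneg_left (ID7.one_le (EF16.E w A) y) (h1 A)
      linarith
  have hq : ∀ y ∈ Set.Ioo (0 : ℝ) (Real.exp (-1)),
      1 - ∑ A, μ A * ID7.one (EF16.E w A) y ≤ 0.2655 + 0.573 * y := by
    intro y hy
    have h3 : 2 * Real.exp (-1) ^ 2 ≤ (1 - y) * (∑ A, μ A * EF16.one (EF16.E w A) y) ^ 2 / 2 +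
        2 * y * (∑ A, μ A * EF16.one (EF16.E w A) y) *
          (1 - ∑ A, μ A * EF16.one (EF16.E w A) y) := by
      refine EF16.column_point hw.1 hw.2 μ h1 h2 _ (fun i hi => ?_) ⟨hy.1, (hy.2.trans ht1).le⟩
      have h4 := hcol i hi
      rw [he, ← T_add] at h4
      have h5 : MAX87.pr μ i = ∑ A with i ∈ A, μ A := by
        unfold MAX87.pr
        rw [sum_filter]
      rw [← h5]
      exact h4
    have h6 := QB55.qb55 hy.1.le le_rfl le_rfl hy.2.le (hp0 y) (hp1 y) h3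
    linarith
  have hJ := J89.J (fun y => 1 - ∑ A, μ A * ID7.one (EF16.E w A) y)
    (measurable_const.sub (Finset.measurable_sum _ fun A _ => (hm A).const_mul _))
    (fun y _ => sub_nonneg.2 (hp1 y)) hq
  have hmain := assemble μ (fun A => ID7.one (EF16.E w A))
    (fun A B => ID7.S1 (EF16.E w A) (EF16.E w B)) (fun A => ID7.Lam (EF16.E w A))
    (Real.exp (-1)) (2 - 2 * Real.log 2) ((1 - Real.exp (-1)) / 2) 1.051 h1 h2 hm
    (fun A y => one01 _ y) ?_ (fun A => SL52.sl52 (hm A) (one01 _)) hJ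
  · rw [he]
    unfold MAX87.J
    simp only [S1_cells hw.1 hw.2]
    exact hmain
  · have h7 := ID7.id7 (E := fun A => EF16.E w A) μ hE
    have h8 := hQD _ (fun A => EF16.E w A) μ h1 h2 hE
    have h9 : ID7.tt = Real.exp (-1) := rfl
    rw [h9] at h7
    rw [h7]
    linarith

theorem stSup_of_QD (hQD : StQD) : StSup :=
  stSup_of_column fun _ _ w μ hw h1 h2 hc => J_le hQD w μ hw h1 h2 fun y hy => (hc y hy).le

end Pool.Agent.Lib.MP_efec9b_co.E2
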