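import Mathlib

/-!
MP_efec9b_co: unrestricted and monotone maximum density of a monotone matrix. Definitions.
-/

namespace Pool.Agent.Lib.MP_efec9b_co

/-- number of pairs (set of `h` rows, set of `h` columns) of the `n × n` matrix `M` whose submatrix
is `H`; a set of `h` rows is given by its increasing enumeration -/
noncomputable def copies {h n : ℕ} (H : Fin h → Fin h → ℕ) (M : Fin n → Fin n → ℕ) : ℕ :=
  Nat.card {p : (Fin h → Fin n) × (Fin h → Fin n) //
    StrictMono p.1 ∧ StrictMono p.2 ∧ ∀ i j, M (p.1 i) (p.2 j) = H i j}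

/-- the density `d(H, M)` -/
noncomputable def dens {h n : ℕ} (H : Fin h → Fin h → ℕ) (M : Fin n → Fin n → ℕ) : ℝ :=
  (copies H M : ℝ) / ((n.choose h : ℝ)) ^ 2

/-- `H` is monotone -/
def Mono {h : ℕ} (H : Fin h → Fin h → ℕ) : Prop :=
  ∀ i i' j j', i ≤ i' → j ≤ j' → H i j ≤ H i' j'

/-- the largest entry of `H` -/
def top {h : ℕ} (H : Fin h → Fin h → ℕ) : ℕ :=
  Finset.univ.sup fun i => Finset.univ.sup fun j => H i j

/-- `M` has no submatrix in `X_k`: no row (from left to right) and no column (from top to bottom)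
contains a symbol `u ≤ k` followed by a smaller one -/
def Avoids {n : ℕ} (k : ℕ) (M : Fin n → Fin n → ℕ) : Prop :=
  (∀ i j j', j < j' → M i j ≤ k → M i j ≤ M i j') ∧
  (∀ i i' j, i < i' → M i j ≤ k → M i j ≤ M i' j)

/-- `f(H, n)`: the maximum of `d(H, M)` over all `n × n` matrices -/
noncomputable def fAll {h : ℕ} (H : Fin h → Fin h → ℕ) (n : ℕ) : ℝ :=
  ⨆ M : Fin n → Fin n → ℕ, dens H M

/-- `f(X_{‖H‖}, H, n)`: the maximum of `d(H, M)` over the `n × n` matrices that avoid `X_{‖H‖}` -/
noncomputable def fMono {h : ℕ} (H : Fin h → Fin h → ℕ) (n : ℕ) : ℝ :=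
  ⨆ M : {M : Fin n → Fin n → ℕ // Avoids (top H) M}, dens H M.1

/-- number of rows of `H` equal to row `i` -/
def rowMult {h : ℕ} (H : Fin h → Fin h → ℕ) (i : Fin h) : ℕ :=
  (Finset.univ.filter fun i' => H i' = H i).card

/-- number of columns of `H` equal to column `j` -/
def colMult {h : ℕ} (H : Fin h → Fin h → ℕ) (j : Fin h) : ℕ :=
  (Finset.univ.filter fun j' => (fun i => H i j') = fun i => H i j).card

/-- the largest density of a word with the multiplicities of `τ`, as `h! / ∏ m! * ∏ (m / h) ^ m`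
(the product over the distinct values of `τ`, `m` = number of times a value is taken) -/
noncomputable def wordMax {h : ℕ} {ι : Type} [DecidableEq ι] (τ : Fin h → ι) : ℝ :=
  (h.factorial : ℝ) * ∏ b ∈ Finset.univ.image τ,
    ((((Finset.univ.filter fun i => τ i = b).card : ℝ) / h) ^
      (Finset.univ.filter fun i => τ i = b).card /
      ((Finset.univ.filter fun i => τ i = b).card.factorial : ℝ))

end Pool.Agent.Lib.MP_efec9b_co
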