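import Mathlib
import Pool.Agent.Lib.MP_efec9b_co.Defs77

/-!
MP_efec9b_co: counting lemmas (helper77).
-/

namespace Pool.Agent.Lib.MP_efec9b_co.BU77

open Finset

theorem amgm {h : ℕ} (hh : 0 < h) (z : Fin h → ℝ) (hz : ∀ i, 0 ≤ z i) :
    ∏ i, z i ≤ ((∑ i, z i) / h) ^ h := by
  have hR : (0 : ℝ) < h := by exact_mod_cast hh
  have key := Real.geom_mean_le_arith_mean_weighted (univ : Finset (Fin h)) (fun _ => 1 / (h : ℝ)) z
    (fun i _ => by positivity) (by rw [sum_const, card_univ, Fintype.card_fin, nsmul_eq_mul]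
                                   field_simp) (fun i _ => hz i)
  have e1 : ∑ i, 1 / (h : ℝ) * z i = (∑ i, z i) / h := by
    rw [← mul_sum]
    ring
  rw [e1] at key
  have e2 : ∏ i, z i = (∏ i, z i ^ (1 / (h : ℝ))) ^ h := by
    rw [← prod_pow]
    refine prod_congr rfl fun i _ => ?_
    rw [← Real.rpow_natCast, ← Real.rpow_mul (hz i)]
    rw [one_div, inv_mul_cancel₀ hR.ne', Real.rpow_one]
  rw [e2]
  exact pow_le_pow_left₀ (prod_nonneg fun i _ => Real.rpow_nonneg (hz i) _) key h

section gen

variable {h : ℕ} {ι : Type} [DecidableEq ι] (τ : Fin h → ι)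

/-- multiplicity -/
def mu (b : ι) : ℕ := (univ.filter fun i => τ i = b).card

theorem mu_pos (i : Fin h) : 0 < mu τ (τ i) := by
  unfold mu
  rw [card_pos]
  exact ⟨i, by simp⟩

theorem mu_pos' {b : ι} (hb : b ∈ univ.image τ) : 0 < mu τ b := by
  obtain ⟨i, -, rfl⟩ := mem_image.1 hb
  exact mu_pos τ i

theorem sum_mu : ∑ b ∈ univ.image τ, mu τ b = h := by
  have := card_eq_sum_card_image τ (univ : Finset (Fin h))
  rw [card_univ, Fintype.card_fin] at this
  exact this.symm

theorem fib_sum (a : ι → ℝ) :
    ∑ i, a (τ i) / mu τ (τ i) = ∑ b ∈ univ.image τ, a b := by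
  rw [sum_comp (fun b => a b / mu τ b) τ]
  refine sum_congr rfl fun b hb => ?_
  have : (0 : ℝ) < mu τ b := by exact_mod_cast mu_pos' τ hb
  change mu τ b • _ = _
  rw [nsmul_eq_mul]
  field_simp

theorem fib_prod (a : ι → ℝ) :
    ∏ i, a (τ i) = ∏ b ∈ univ.image τ, a b ^ mu τ b := by
  rw [prod_comp]
  rfl

theorem wordMax_eq : wordMax τ = (h.factorial : ℝ) * ∏ b ∈ univ.image τ,
    (((mu τ b : ℝ) / h) ^ mu τ b / ((mu τ b).factorial : ℝ)) := rfl

theorem wordMax_nonneg : 0 ≤ wordMax τ := by
  rw [wordMax_eq]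
  positivity

/-- the main inequality: `∏ a ^ m / m! ≤ (wordMax / h!) * (∑ a) ^ h` -/
theorem mainIneq (hh : 0 < h) (a : ι → ℝ) (ha : ∀ b, 0 ≤ a b) :
    ∏ b ∈ univ.image τ, (a b ^ mu τ b / ((mu τ b).factorial : ℝ)) ≤
      wordMax τ / h.factorial * (∑ b ∈ univ.image τ, a b) ^ h := by
  have hR : (0 : ℝ) < h := by exact_mod_cast hh
  have h1 := amgm hh (fun i => a (τ i) * h / mu τ (τ i)) (fun i => by
    have := ha (τ i)
    positivity)
  have e1 : (∑ i, a (τ i) * h / mu τ (τ i)) / (h : ℝ) = ∑ b ∈ univ.image τ, a b := by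
    rw [← fib_sum τ a, sum_div]
    refine sum_congr rfl fun i _ => ?_
    field_simp
  rw [e1, fib_prod τ (fun b => a b * h / mu τ b)] at h1
  have e2 : wordMax τ / h.factorial = ∏ b ∈ univ.image τ,
      (((mu τ b : ℝ) / h) ^ mu τ b / ((mu τ b).factorial : ℝ)) := by
    rw [wordMax_eq]
    have : (0 : ℝ) < h.factorial := by exact_mod_cast h.factorial_pos
    field_simp
  rw [e2]
  calc ∏ b ∈ univ.image τ, (a b ^ mu τ b / ((mu τ b).factorial : ℝ))
      = (∏ b ∈ univ.image τ, (((mu τ b : ℝ) / h) ^ mu τ b / ((mu τ b).factorial : ℝ))) *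
        ∏ b ∈ univ.image τ, (a b * h / mu τ b) ^ mu τ b := by
        rw [← prod_mul_distrib]
        refine prod_congr rfl fun b hb => ?_
        have hm : (0 : ℝ) < mu τ b := by exact_mod_cast mu_pos' τ hb
        have hf : (0 : ℝ) < (mu τ b).factorial := by exact_mod_cast (mu τ b).factorial_pos
        rw [div_pow, div_pow, mul_pow]
        field_simp
    _ ≤ _ := by
        refine mul_le_mul_of_nonneg_left h1 ?_
        positivity

open Classical in
theorem countG {n : ℕ} (A : ι → Finset (Fin n)) :
    (univ.filter fun c : Fin h → Fin n => StrictMono c ∧ ∀ j, c j ∈ A (τ j)).card ≤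
      ∏ b ∈ univ.image τ, (A b).card.choose (mu τ b) := by
  have e : ∏ b ∈ univ.image τ, (A b).card.choose (mu τ b) =
      ((univ.image τ).pi fun b => powersetCard (mu τ b) (A b)).card := by
    rw [card_pi]
    exact prod_congr rfl fun b _ => (card_powersetCard _ _).symm
  rw [e]
  refine card_le_card_of_injOn
    (fun c => fun b _ => (univ.filter fun j => τ j = b).image c) ?_ ?_
  · intro c hc
    rw [mem_coe, mem_filter] at hc
    obtain ⟨-, hc1, hc2⟩ := hc
    rw [mem_coe, mem_pi]
    intro b _
    rw [mem_powersetCard]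
    constructor
    · intro x hx
      obtain ⟨j, hj, rfl⟩ := mem_image.1 hx
      rw [mem_filter] at hj
      rw [← hj.2]
      exact hc2 j
    · rw [card_image_of_injective _ hc1.injective]
      rfl
  · intro c hc c' hc' hcc
    rw [mem_coe, mem_filter] at hc hc'
    refine (StrictMono.range_inj hc.2.1 hc'.2.1).1 ?_
    have hb : ∀ j, (univ.filter fun i => τ i = τ j).image c = (univ.filter fun i => τ i = τ j).image c' := by
      intro j
      have := congrFun (congrFun hcc (τ j)) (mem_image_of_mem τ (mem_univ j))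
      exact this
    ext x
    constructor
    · rintro ⟨j, rfl⟩
      have : c j ∈ (univ.filter fun i => τ i = τ j).image c := mem_image_of_mem c (by simp)
      rw [hb j] at this
      obtain ⟨i, -, hi⟩ := mem_image.1 this
      exact ⟨i, hi⟩
    · rintro ⟨j, rfl⟩
      have : c' j ∈ (univ.filter fun i => τ i = τ j).image c' := mem_image_of_mem c' (by simp)
      rw [← hb j] at this
      obtain ⟨i, -, hi⟩ := mem_image.1 this
      exact ⟨i, hi⟩

theorem choose_prod_le (hh : 0 < h) (a : ι → ℕ) :
    ((∏ b ∈ univ.image τ, (a b).choose (mu τ b) : ℕ) : ℝ) ≤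
      wordMax τ / h.factorial * (∑ b ∈ univ.image τ, (a b : ℝ)) ^ h := by
  refine le_trans ?_ (mainIneq τ hh (fun b => (a b : ℝ)) fun b => by positivity)
  push_cast
  refine prod_le_prod (fun b _ => by positivity) fun b _ => ?_
  exact Nat.choose_le_pow_div (mu τ b) (a b)

end gen

/-- two monotone functions with the same multiplicities are equal -/
theorem mono_unique {h : ℕ} (f g : Fin h → ℕ) (hf : Monotone f) (hg : Monotone g)
    (hfg : ∀ s, (univ.filter fun i => f i = s).card = (univ.filter fun i => g i = s).card) :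
    f = g := by
  have hle : ∀ s, (univ.filter fun i => f i ≤ s).card = (univ.filter fun i => g i ≤ s).card := by
    intro s
    have e : ∀ f : Fin h → ℕ, (univ.filter fun i => f i ≤ s).card =
        ∑ t ∈ range (s + 1), (univ.filter fun i => f i = t).card := by
      intro f
      rw [card_eq_sum_card_fiberwise (f := f) (t := range (s + 1))]
      · refine sum_congr rfl fun t ht => ?_
        congr 1
        ext i
        rw [mem_filter, mem_filter, mem_filter]
        rw [mem_range] at ht
        constructor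
        · rintro ⟨⟨h1, -⟩, h3⟩
          exact ⟨h1, h3⟩
        · rintro ⟨h1, h3⟩
          exact ⟨⟨h1, by omega⟩, h3⟩
      · intro i hi
        rw [mem_coe, mem_filter] at hi
        rw [mem_coe, mem_range]
        omega
    rw [e f, e g]
    exact sum_congr rfl fun t _ => hfg t
  have key : ∀ f g : Fin h → ℕ, Monotone f → Monotone g →
      (∀ s, (univ.filter fun i => f i ≤ s).card = (univ.filter fun i => g i ≤ s).card) →
      ∀ i, ¬ f i < g i := by
    intro f g hf hg hs i hi
    have h1 : (i : ℕ) + 1 ≤ (univ.filter fun j => f j ≤ f i).card := by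
      have : (Finset.Iic i).card = (i : ℕ) + 1 := Fin.card_Iic i
      rw [← this]
      refine card_le_card fun j hj => ?_
      rw [mem_filter]
      exact ⟨mem_univ _, hf (mem_Iic.1 hj)⟩
    have h2 : (univ.filter fun j => g j ≤ f i).card ≤ (i : ℕ) := by
      have : (Finset.Iio i).card = (i : ℕ) := Fin.card_Iio i
      rw [← this]
      refine card_le_card fun j hj => ?_
      rw [mem_filter] at hj
      rw [mem_Iio]
      by_contra hcon
      have := hg (not_lt.1 hcon)
      omega
    rw [hs] at h1
    omega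
  funext i
  have h1 := key f g hf hg hle i
  have h2 := key g f hg hf (fun s => (hle s).symm) i
  omega

open Classical in
/-- the blocks are in increasing order: all choices of subsets of the blocks occur -/
theorem countL {h n : ℕ} (τ : Fin h → Fin h → ℕ) (hτ : Monotone τ) (idx : Fin n → Fin h)
    (hidx : Monotone idx) :
    ∏ b ∈ univ.image τ, ((univ.filter fun x => τ (idx x) = b).card.choose (mu τ b)) ≤
      (univ.filter fun c : Fin h → Fin n => StrictMono c ∧ ∀ j, τ (idx (c j)) = τ j).card := by
  have e : ∏ b ∈ univ.image τ, ((univ.filter fun x => τ (idx x) = b).card.choose (mu τ b)) =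
      ((univ.image τ).pi fun b =>
        powersetCard (mu τ b) (univ.filter fun x => τ (idx x) = b)).card := by
    rw [card_pi]
    exact prod_congr rfl fun b _ => (card_powersetCard _ _).symm
  rw [e]
  refine card_le_card_of_surjOn
    (fun c => fun b _ => (univ.filter fun j => τ j = b).image c) ?_
  intro F hF
  rw [mem_coe, mem_pi] at hF
  have hF1 : ∀ b (hb : b ∈ univ.image τ), ∀ x ∈ F b hb, τ (idx x) = b := by
    intro b hb x hx
    have := (mem_powersetCard.1 (hF b hb)).1 hx
    rw [mem_filter] at this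
    exact this.2
  have hF2 : ∀ b (hb : b ∈ univ.image τ), (F b hb).card = mu τ b := fun b hb =>
    (mem_powersetCard.1 (hF b hb)).2
  set R : Finset (Fin n) := (univ.image τ).attach.biUnion fun b => F b.1 b.2 with hRdef
  have hRmem : ∀ b (hb : b ∈ univ.image τ) x, (x ∈ R ∧ τ (idx x) = b) ↔ x ∈ F b hb := by
    intro b hb x
    constructor
    · rintro ⟨h1, h2⟩
      rw [hRdef, mem_biUnion] at h1
      obtain ⟨b', -, hx⟩ := h1
      have : b'.1 = b := by rw [← h2]; exact (hF1 b'.1 b'.2 x hx).symm
      subst this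
      exact hx
    · intro hx
      refine ⟨?_, hF1 b hb x hx⟩
      rw [hRdef, mem_biUnion]
      exact ⟨⟨b, hb⟩, mem_attach _ _, hx⟩
  have hRcard : R.card = h := by
    rw [hRdef, card_biUnion]
    · have e3 : ∀ b ∈ (univ.image τ).attach, (F b.1 b.2).card = mu τ b.1 := fun b _ => hF2 b.1 b.2
      rw [sum_congr rfl e3, sum_attach (univ.image τ) (mu τ)]
      exact sum_mu τ
    · intro b _ b' _ hbb
      rw [Function.onFun, disjoint_left]
      intro x hx hx'
      apply hbb
      apply Subtype.ext
      rw [← hF1 b.1 b.2 x hx, hF1 b'.1 b'.2 x hx']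
  set c : Fin h → Fin n := fun i => R.orderEmbOfFin hRcard i with hcdef
  have hcmono : StrictMono c := (R.orderEmbOfFin hRcard).strictMono
  have hcR : ∀ x, x ∈ R ↔ ∃ i, c i = x := by
    intro x
    have := range_orderEmbOfFin R hRcard
    rw [← mem_coe, ← this]
    rfl
  set f : Fin h → ℕ := fun i => ∑ j, τ (idx (c i)) j with hf
  set g : Fin h → ℕ := fun i => ∑ j, τ i j with hg
  have hsep : ∀ a a' : Fin h, ∑ j, τ a j = ∑ j, τ a' j → τ a = τ a' := by
    have aux : ∀ a a' : Fin h, a ≤ a' → ∑ j, τ a j = ∑ j, τ a' j → τ a = τ a' := by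
      intro a a' haa hs
      funext j
      exact (sum_eq_sum_iff_of_le (fun j _ => hτ haa j)).1 hs j (mem_univ j)
    intro a a' hs
    rcases le_total a a' with h1 | h1
    · exact aux a a' h1 hs
    · exact (aux a' a h1 hs.symm).symm
  have hfg : f = g := by
    refine mono_unique f g ?_ ?_ ?_
    · intro i i' hi
      exact sum_le_sum fun j _ => hτ (hidx (hcmono.monotone hi)) j
    · intro i i' hi
      exact sum_le_sum fun j _ => hτ hi j
    · intro s
      by_cases hs : ∃ i0, g i0 = s
      · obtain ⟨i0, rfl⟩ := hs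
        have hb := mem_image_of_mem τ (mem_univ i0)
        have e1 : (univ.filter fun i => f i = g i0).image c = F (τ i0) hb := by
          ext x
          rw [← hRmem (τ i0) hb x, mem_image, hcR]
          constructor
          · rintro ⟨i, hi, rfl⟩
            rw [mem_filter] at hi
            exact ⟨⟨i, rfl⟩, hsep _ _ hi.2⟩
          · rintro ⟨⟨i, rfl⟩, h2⟩
            refine ⟨i, ?_, rfl⟩
            rw [mem_filter]
            refine ⟨mem_univ _, ?_⟩
            change ∑ j, τ (idx (c i)) j = ∑ j, τ i0 j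
            rw [h2]
        have e2 : (univ.filter fun i => f i = g i0).card = mu τ (τ i0) := by
          rw [← hF2 (τ i0) hb, ← e1, card_image_of_injective _ hcmono.injective]
        rw [e2]
        unfold mu
        congr 1
        ext i
        rw [mem_filter, mem_filter]
        constructor
        · rintro ⟨h1, h2⟩
          refine ⟨h1, ?_⟩
          change ∑ j, τ i j = ∑ j, τ i0 j
          rw [h2]
        · rintro ⟨h1, h2⟩
          exact ⟨h1, hsep _ _ h2⟩
      · rw [card_eq_zero.2, card_eq_zero.2]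
        · rw [filter_eq_empty_iff]
          intro i _ hi
          exact hs ⟨i, hi⟩
        · rw [filter_eq_empty_iff]
          intro i _ hi
          exact hs ⟨idx (c i), hi⟩
  have hcτ : ∀ i, τ (idx (c i)) = τ i := fun i => hsep _ _ (congrFun hfg i)
  refine ⟨c, ?_, ?_⟩
  · rw [mem_coe, mem_filter]
    exact ⟨mem_univ _, hcmono, hcτ⟩
  · funext b hb
    ext x
    rw [← hRmem b hb x, mem_image, hcR]
    constructor
    · rintro ⟨i, hi, rfl⟩
      rw [mem_filter] at hi
      exact ⟨⟨i, rfl⟩, by rw [hcτ i]; exact hi.2⟩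
    · rintro ⟨⟨i, rfl⟩, h2⟩
      refine ⟨i, ?_, rfl⟩
      rw [mem_filter]
      exact ⟨mem_univ _, by rw [← hcτ i]; exact h2⟩

end Pool.Agent.Lib.MP_efec9b_co.BU77
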