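import Mathlib
import Pool.Agent.Lib.MP_efec9b_co.Count77

/-!
MP_efec9b_co: the Lagrangian of the columns (helper77).
-/

namespace Pool.Agent.Lib.MP_efec9b_co

/-- any two rows of `H` are equal or differ in every column -/
def RowsApart {h : ℕ} (H : Fin h → Fin h → ℕ) : Prop :=
  ∀ i i', H i = H i' ∨ ∀ j, H i j ≠ H i' j

/-- if `K` is a set of symbols any two of which occur together in some column of `H`, then among
the columns with all entries in `K` no symbol occurs in two different rows (as vectors) of `H` -/
def CliqueClass {h : ℕ} (H : Fin h → Fin h → ℕ) : Prop :=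
  ∀ K : Set ℕ, (∀ s ∈ K, ∀ t ∈ K, s ≠ t → ∃ j i i', H i j = s ∧ H i' j = t) →
    ∀ j j' i i', (∀ a, H a j ∈ K) → (∀ a, H a j' ∈ K) → H i j = H i' j' → H i = H i'

/-- the distinct columns of `H` -/
def cols {h : ℕ} (H : Fin h → Fin h → ℕ) : Finset (Fin h → ℕ) := Finset.univ.image fun j i => H i j

/-- for nonnegative weights `x` on the symbols with sum at most `1`, the sum over the distinct
columns of the products of the weights of their entries is at most `∏ (rowMult / h)`, the value
for a single column -/
def ColumnLagrangian {h : ℕ} (H : Fin h → Fin h → ℕ) : Prop :=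
  ∀ (K : Finset ℕ) (x : ℕ → ℝ), (∀ s, 0 ≤ x s) → (∀ s, s ∉ K → x s = 0) → ∑ s ∈ K, x s ≤ 1 →
    ∑ v ∈ cols H, ∏ i, x (v i) ≤ ∏ i, ((rowMult H i : ℝ) / h)

namespace BU77

open Finset

variable {h : ℕ} (H : Fin h → Fin h → ℕ)

theorem mem_cols {v : Fin h → ℕ} : v ∈ cols H ↔ ∃ j, (fun i => H i j) = v := by
  unfold cols
  rw [mem_image]
  constructor
  · rintro ⟨j, -, hj⟩
    exact ⟨j, hj⟩
  · rintro ⟨j, hj⟩
    exact ⟨j, mem_univ _, hj⟩

theorem lag_clique (hh : 0 < h) (hK : CliqueClass H) (K : Finset ℕ)
    (hcl : ∀ s ∈ K, ∀ t ∈ K, s ≠ t → ∃ j i i', H i j = s ∧ H i' j = t) (x : ℕ → ℝ)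
    (hx : ∀ s, 0 ≤ x s) (hx0 : ∀ s, s ∉ K → x s = 0) (hsum : ∑ s ∈ K, x s ≤ 1) :
    ∑ v ∈ cols H, ∏ i, x (v i) ≤ ∏ i, ((mu (fun i => H i) (H i) : ℝ) / h) := by
  classical
  have hR : (0 : ℝ) < h := by exact_mod_cast hh
  set Kb : (Fin h → ℕ) → Finset ℕ := fun b =>
    K.filter fun s => ∃ j, (∀ a, H a j ∈ K) ∧ b j = s with hKb
  set Y : (Fin h → ℕ) → ℝ := fun b => ∑ s ∈ Kb b, x s with hY
  have hY0 : ∀ b, 0 ≤ Y b := fun b => sum_nonneg fun s _ => hx s
  have h1 : ∑ v ∈ cols H, ∏ i, x (v i) ≤ ∏ i, Y (H i) := by
    have e : ∏ i, Y (H i) = ∑ p ∈ Fintype.piFinset (fun i => Kb (H i)), ∏ i, x (p i) := by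
      rw [hY]
      exact prod_univ_sum (fun i => Kb (H i)) (fun _ s => x s)
    rw [e]
    have e2 : ∑ v ∈ cols H, ∏ i, x (v i) =
        ∑ v ∈ (cols H).filter (fun v => ∀ i, v i ∈ K), ∏ i, x (v i) := by
      rw [sum_filter]
      refine sum_congr rfl fun v _ => ?_
      by_cases hv : ∀ i, v i ∈ K
      · rw [if_pos hv]
      · rw [if_neg hv]
        push Not at hv
        obtain ⟨i, hi⟩ := hv
        exact prod_eq_zero (mem_univ i) (hx0 _ hi)
    rw [e2]
    refine sum_le_sum_of_subset_of_nonneg ?_ fun p _ _ => prod_nonneg fun i _ => hx _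
    intro v hv
    rw [mem_filter, mem_cols] at hv
    obtain ⟨⟨j, rfl⟩, hvK⟩ := hv
    rw [Fintype.mem_piFinset]
    intro i
    rw [hKb]
    rw [mem_filter]
    exact ⟨hvK i, j, hvK, rfl⟩
  have h2 : ∑ b ∈ univ.image (fun i => H i), Y b ≤ 1 := by
    refine le_trans ?_ hsum
    rw [hY]
    rw [← sum_biUnion]
    · refine sum_le_sum_of_subset_of_nonneg ?_ fun s _ _ => hx s
      intro s hs
      rw [mem_biUnion] at hs
      obtain ⟨b, -, hb⟩ := hs
      exact (mem_filter.1 hb).1
    · intro b hb b' hb' hbb
      rw [Function.onFun, disjoint_left]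
      intro s hs hs'
      apply hbb
      rw [mem_coe, mem_image] at hb hb'
      obtain ⟨i, -, rfl⟩ := hb
      obtain ⟨i', -, rfl⟩ := hb'
      obtain ⟨-, j, hj, hs1⟩ := mem_filter.1 hs
      obtain ⟨-, j', hj', hs2⟩ := mem_filter.1 hs'
      exact hK (K : Set ℕ) hcl j j' i i' hj hj' (hs1.trans hs2.symm)
  have h3 := amgm hh (fun i => Y (H i) * h / mu (fun i => H i) (H i)) (fun i => by
    have := hY0 (H i)
    positivity)
  have e3 : (∑ i, Y (H i) * h / mu (fun i => H i) (H i)) / (h : ℝ) =
      ∑ b ∈ univ.image (fun i => H i), Y b := by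
    rw [← fib_sum (fun i => H i) Y, sum_div]
    refine sum_congr rfl fun i _ => ?_
    field_simp
  rw [e3] at h3
  have h4 : (∑ b ∈ univ.image (fun i => H i), Y b) ^ h ≤ 1 :=
    pow_le_one₀ (sum_nonneg fun b _ => hY0 b) h2
  have h5 : ∏ i, Y (H i) = (∏ i, (Y (H i) * h / mu (fun i => H i) (H i))) *
      ∏ i, ((mu (fun i => H i) (H i) : ℝ) / h) := by
    rw [← prod_mul_distrib]
    refine prod_congr rfl fun i _ => ?_
    have hm : (0 : ℝ) < mu (fun i => H i) (H i) := by
      exact_mod_cast mu_pos (fun i => H i) i
    field_simp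
  rw [h5] at h1
  refine le_trans h1 ?_
  have h6 : 0 ≤ ∏ i, ((mu (fun i => H i) (H i) : ℝ) / h) := by positivity
  calc _ ≤ 1 * ∏ i, ((mu (fun i => H i) (H i) : ℝ) / h) :=
        mul_le_mul_of_nonneg_right (h3.trans h4) h6
    _ = _ := one_mul _

theorem lag (hh : 0 < h) (hK : CliqueClass H) : ∀ (N : ℕ) (K : Finset ℕ), K.card = N →
    ∀ x : ℕ → ℝ, (∀ s, 0 ≤ x s) → (∀ s, s ∉ K → x s = 0) → ∑ s ∈ K, x s ≤ 1 →
    ∑ v ∈ cols H, ∏ i, x (v i) ≤ ∏ i, ((mu (fun i => H i) (H i) : ℝ) / h) := by
  classical
  intro N
  induction N with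
  | zero =>
    intro K hK0 x hx hx0 hsum
    refine lag_clique H hh hK K ?_ x hx hx0 hsum
    intro s hs
    rw [card_eq_zero] at hK0
    rw [hK0] at hs
    exact absurd hs (notMem_empty s)
  | succ N ih =>
    intro K hKN x hx hx0 hsum
    by_cases hcl : ∀ s ∈ K, ∀ t ∈ K, s ≠ t → ∃ j i i', H i j = s ∧ H i' j = t
    · exact lag_clique H hh hK K hcl x hx hx0 hsum
    · push Not at hcl
      obtain ⟨s, hs, t, ht, hst, hno⟩ := hcl
      have hcs : (K.erase s).card = N := by rw [card_erase_of_mem hs]; omega
      have hct : (K.erase t).card = N := by rw [card_erase_of_mem ht]; omega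
      set T := x s + x t with hT
      rcases (add_nonneg (hx s) (hx t)).eq_or_lt' with hT0 | hT0
      · have hs0 : x s = 0 := by
          have := hx t
          have := hx s
          linarith
        refine ih (K.erase s) hcs x hx ?_ ?_
        · intro r hr
          by_cases hrs : r = s
          · rw [hrs]; exact hs0
          · exact hx0 r fun hrK => hr (mem_erase.2 ⟨hrs, hrK⟩)
        · have := sum_erase_add K x hs
          linarith [hx s]
      · have hTne : x s + x t ≠ 0 := hT0.ne'
        set x1 : ℕ → ℝ := fun r => if r = t then 0 else if r = s then T else x r with hx1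
        set x2 : ℕ → ℝ := fun r => if r = s then 0 else if r = t then T else x r with hx2
        have hT' : 0 ≤ T := hT0.le
        have n1 : ∀ r, 0 ≤ x1 r := by
          intro r
          rw [hx1]
          dsimp only
          split_ifs
          · exact le_rfl
          · exact hT'
          · exact hx r
        have n2 : ∀ r, 0 ≤ x2 r := by
          intro r
          rw [hx2]
          dsimp only
          split_ifs
          · exact le_rfl
          · exact hT'
          · exact hx r
        have hts : t ≠ s := hst.symm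
        have sum1 : ∑ r ∈ K.erase t, x1 r ≤ 1 := by
          have hs' : s ∈ K.erase t := mem_erase.2 ⟨hst, hs⟩
          rw [← sum_erase_add _ _ hs']
          have e1 : ∑ r ∈ (K.erase t).erase s, x1 r = ∑ r ∈ (K.erase t).erase s, x r := by
            refine sum_congr rfl fun r hr => ?_
            rw [mem_erase, mem_erase] at hr
            rw [hx1]
            dsimp only
            rw [if_neg hr.2.1, if_neg hr.1]
          have e2 : x1 s = T := by
            rw [hx1]
            dsimp only
            rw [if_neg hst, if_pos rfl]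
          rw [e1, e2]
          have e3 := sum_erase_add (K.erase t) x hs'
          have e4 := sum_erase_add K x ht
          linarith
        have sum2 : ∑ r ∈ K.erase s, x2 r ≤ 1 := by
          have ht' : t ∈ K.erase s := mem_erase.2 ⟨hts, ht⟩
          rw [← sum_erase_add _ _ ht']
          have e1 : ∑ r ∈ (K.erase s).erase t, x2 r = ∑ r ∈ (K.erase s).erase t, x r := by
            refine sum_congr rfl fun r hr => ?_
            rw [mem_erase, mem_erase] at hr
            rw [hx2]
            dsimp only
            rw [if_neg hr.2.1, if_neg hr.1]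
          have e2 : x2 t = T := by
            rw [hx2]
            dsimp only
            rw [if_neg hts, if_pos rfl]
          rw [e1, e2]
          have e3 := sum_erase_add (K.erase s) x ht'
          have e4 := sum_erase_add K x hs
          linarith
        have v1 := ih (K.erase t) hct x1 n1 (by
          intro r hr
          rw [hx1]
          dsimp only
          by_cases hrt : r = t
          · rw [if_pos hrt]
          · rw [if_neg hrt]
            have hrK : r ∉ K := fun hrK => hr (mem_erase.2 ⟨hrt, hrK⟩)
            have hrs : r ≠ s := fun hrs => hrK (hrs ▸ hs)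
            rw [if_neg hrs]
            exact hx0 r hrK) sum1
        have v2 := ih (K.erase s) hcs x2 n2 (by
          intro r hr
          rw [hx2]
          dsimp only
          by_cases hrs : r = s
          · rw [if_pos hrs]
          · rw [if_neg hrs]
            have hrK : r ∉ K := fun hrK => hr (mem_erase.2 ⟨hrs, hrK⟩)
            have hrt : r ≠ t := fun hrt => hrK (hrt ▸ ht)
            rw [if_neg hrt]
            exact hx0 r hrK) sum2
        have key : ∀ v ∈ cols H, ∏ i, x (v i) ≤
            x s / T * ∏ i, x1 (v i) + x t / T * ∏ i, x2 (v i) := by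
          intro v hv
          obtain ⟨j, hj⟩ := (mem_cols H).1 hv
          have hns : ∀ i i', v i = s → v i' = t → False := by
            intro i i' h1 h2
            rw [← hj] at h1 h2
            exact hno j i i' h1 h2
          have p1 : 0 ≤ ∏ i, x1 (v i) := prod_nonneg fun i _ => n1 _
          have p2 : 0 ≤ ∏ i, x2 (v i) := prod_nonneg fun i _ => n2 _
          have q1 : 0 ≤ x s / T := div_nonneg (hx s) hT'
          have q2 : 0 ≤ x t / T := div_nonneg (hx t) hT'
          by_cases hvs : ∃ i, v i = s
          · obtain ⟨i0, hi0⟩ := hvs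
            have hnt : ∀ i, v i ≠ t := fun i hi => hns i0 i hi0 hi
            have m1 : ∏ i ∈ univ.erase i0, x (v i) ≤ ∏ i ∈ univ.erase i0, x1 (v i) := by
              refine prod_le_prod (fun i _ => hx _) fun i _ => ?_
              rw [hx1]
              dsimp only
              rw [if_neg (hnt i)]
              split_ifs with hs1
              · rw [hs1, hT]
                linarith [hx t]
              · exact le_rfl
            have m2 : ∏ i, x (v i) = x s * ∏ i ∈ univ.erase i0, x (v i) := by
              rw [← mul_prod_erase univ (fun i => x (v i)) (mem_univ i0), hi0]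
            have m3 : ∏ i, x1 (v i) = T * ∏ i ∈ univ.erase i0, x1 (v i) := by
              rw [← mul_prod_erase univ (fun i => x1 (v i)) (mem_univ i0), hi0]
              congr 1
              rw [hx1]
              dsimp only
              rw [if_neg hst, if_pos rfl]
            have m4 : x s / T * ∏ i, x1 (v i) = x s * ∏ i ∈ univ.erase i0, x1 (v i) := by
              rw [m3, ← mul_assoc, div_mul_cancel₀ _ hTne]
            rw [m4, m2]
            have := mul_le_mul_of_nonneg_left m1 (hx s)
            have := mul_nonneg q2 p2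
            linarith
          · by_cases hvt : ∃ i, v i = t
            · obtain ⟨i0, hi0⟩ := hvt
              have hnt : ∀ i, v i ≠ s := fun i hi => hns i i0 hi hi0
              have m1 : ∏ i ∈ univ.erase i0, x (v i) ≤ ∏ i ∈ univ.erase i0, x2 (v i) := by
                refine prod_le_prod (fun i _ => hx _) fun i _ => ?_
                rw [hx2]
                dsimp only
                rw [if_neg (hnt i)]
                split_ifs with hs1
                · rw [hs1, hT]
                  linarith [hx s]
                · exact le_rfl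
              have m2 : ∏ i, x (v i) = x t * ∏ i ∈ univ.erase i0, x (v i) := by
                rw [← mul_prod_erase univ (fun i => x (v i)) (mem_univ i0), hi0]
              have m3 : ∏ i, x2 (v i) = T * ∏ i ∈ univ.erase i0, x2 (v i) := by
                rw [← mul_prod_erase univ (fun i => x2 (v i)) (mem_univ i0), hi0]
                congr 1
                rw [hx2]
                dsimp only
                rw [if_neg hts, if_pos rfl]
              have m4 : x t / T * ∏ i, x2 (v i) = x t * ∏ i ∈ univ.erase i0, x2 (v i) := by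
                rw [m3, ← mul_assoc, div_mul_cancel₀ _ hTne]
              rw [m4, m2]
              have := mul_le_mul_of_nonneg_left m1 (hx t)
              have := mul_nonneg q1 p1
              linarith
            · push Not at hvs hvt
              have m1 : ∏ i, x1 (v i) = ∏ i, x (v i) := by
                refine prod_congr rfl fun i _ => ?_
                rw [hx1]
                dsimp only
                rw [if_neg (hvt i), if_neg (hvs i)]
              have m2 : ∏ i, x2 (v i) = ∏ i, x (v i) := by
                refine prod_congr rfl fun i _ => ?_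
                rw [hx2]
                dsimp only
                rw [if_neg (hvs i), if_neg (hvt i)]
              rw [m1, m2, ← add_mul, ← add_div, div_self hTne, one_mul]
        have tot := sum_le_sum key
        rw [sum_add_distrib, ← mul_sum, ← mul_sum] at tot
        refine tot.trans ?_
        have q1 : 0 ≤ x s / T := div_nonneg (hx s) hT'
        have q2 : 0 ≤ x t / T := div_nonneg (hx t) hT'
        have w1 := mul_le_mul_of_nonneg_left v1 q1
        have w2 := mul_le_mul_of_nonneg_left v2 q2
        have e : x s / T + x t / T = 1 := by rw [← add_div]; exact div_self hTne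
        calc _ ≤ x s / T * ∏ i, ((mu (fun i => H i) (H i) : ℝ) / h) +
              x t / T * ∏ i, ((mu (fun i => H i) (H i) : ℝ) / h) := add_le_add w1 w2
          _ = _ := by rw [← add_mul, e, one_mul]

theorem rowMult_eq (i : Fin h) : rowMult H i = mu (fun i => H i) (H i) := rfl

theorem lagrangian_of_clique (hh : 0 < h) (hK : CliqueClass H) : ColumnLagrangian H :=
  fun K x hx hx0 hsum => lag H hh hK K.card K rfl x hx hx0 hsum

open Classical in
/-- words: the number of occurrences of the distinct columns -/
theorem word_bound (hh : 0 < h) (hN : RowsApart H) (hL : ColumnLagrangian H) {n : ℕ}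
    (w : Fin n → ℕ) :
    ∑ v ∈ cols H, ((univ.filter fun r : Fin h → Fin n => StrictMono r ∧
      ∀ i, w (r i) = v i).card : ℝ) ≤ wordMax (fun i => H i) / h.factorial * (n : ℝ) ^ h := by
  have hR : (0 : ℝ) < h := by exact_mod_cast hh
  set ρ : Fin h → Fin h → ℕ := fun i => H i with hρ
  set cnt : ℕ → ℕ := fun s => (univ.filter fun x : Fin n => w x = s).card with hcnt
  set P : ℝ := ∏ b ∈ univ.image ρ, ((mu ρ b).factorial : ℝ) with hP
  have hPpos : 0 < P := prod_pos fun b _ => by exact_mod_cast (mu ρ b).factorial_pos
  have one : ∀ v ∈ cols H, ((univ.filter fun r : Fin h → Fin n => StrictMono r ∧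
      ∀ i, w (r i) = v i).card : ℝ) ≤ (∏ i, (cnt (v i) : ℝ)) / P := by
    intro v hv
    obtain ⟨j, hj⟩ := (mem_cols H).1 hv
    have hvi : ∀ i, v i = ρ i j := fun i => (congrFun hj i).symm
    have c1 := countG v (fun s => univ.filter fun x : Fin n => w x = s)
    have e1 : (univ.filter fun r : Fin h → Fin n => StrictMono r ∧ ∀ i, w (r i) = v i) =
        (univ.filter fun c : Fin h → Fin n => StrictMono c ∧
          ∀ i, c i ∈ univ.filter fun x : Fin n => w x = v i) := by
      ext r
      simp only [mem_filter, mem_univ, true_and]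
    rw [e1]
    have inj : Set.InjOn (fun b : Fin h → ℕ => b j) (univ.image ρ : Finset (Fin h → ℕ)) := by
      intro b hb b' hb' hbb
      rw [mem_coe, mem_image] at hb hb'
      obtain ⟨i, -, rfl⟩ := hb
      obtain ⟨i', -, rfl⟩ := hb'
      rcases hN i i' with hE | hE
      · exact hE
      · exact absurd hbb (hE j)
    have himg : univ.image v = (univ.image ρ).image (fun b : Fin h → ℕ => b j) := by
      rw [image_image]
      refine image_congr fun i _ => ?_
      exact hvi i
    have hmu : ∀ b ∈ univ.image ρ, mu v (b j) = mu ρ b := by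
      intro b hb
      obtain ⟨i, -, rfl⟩ := mem_image.1 hb
      unfold mu
      congr 1
      ext i'
      rw [mem_filter, mem_filter, hvi i']
      constructor
      · rintro ⟨h1, h2⟩
        exact ⟨h1, inj (mem_coe.2 (mem_image_of_mem ρ (mem_univ i')))
          (mem_coe.2 (mem_image_of_mem ρ (mem_univ i))) h2⟩
      · rintro ⟨h1, h2⟩
        exact ⟨h1, by rw [h2]⟩
    have e2 : ∏ s ∈ univ.image v, (cnt s).choose (mu v s) =
        ∏ b ∈ univ.image ρ, (cnt (b j)).choose (mu ρ b) := by
      rw [himg, prod_image inj]
      exact prod_congr rfl fun b hb => by rw [hmu b hb]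
    have c2 : ((univ.filter fun c : Fin h → Fin n => StrictMono c ∧
          ∀ i, c i ∈ univ.filter fun x : Fin n => w x = v i).card : ℝ) ≤
        ((∏ b ∈ univ.image ρ, (cnt (b j)).choose (mu ρ b) : ℕ) : ℝ) := by
      rw [← e2]
      exact_mod_cast c1
    refine c2.trans ?_
    have e3 : (∏ i, (cnt (v i) : ℝ)) = ∏ b ∈ univ.image ρ, (cnt (b j) : ℝ) ^ mu ρ b := by
      rw [← fib_prod ρ (fun b => (cnt (b j) : ℝ))]
      exact prod_congr rfl fun i _ => by rw [hvi i]
    rw [e3, hP, ← prod_div_distrib]
    push_cast
    refine prod_le_prod (fun b _ => by positivity) fun b _ => ?_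
    exact Nat.choose_le_pow_div (mu ρ b) (cnt (b j))
  refine (sum_le_sum one).trans ?_
  rw [← sum_div]
  have e4 : wordMax ρ / h.factorial = (∏ i, ((mu ρ (ρ i) : ℝ) / h)) / P := by
    rw [wordMax_eq, fib_prod ρ (fun b => (mu ρ b : ℝ) / h), hP, ← prod_div_distrib]
    have : (0 : ℝ) < h.factorial := by exact_mod_cast h.factorial_pos
    field_simp
  rw [e4, div_mul_eq_mul_div]
  refine div_le_div_of_nonneg_right ?_ hPpos.le
  rcases Nat.eq_zero_or_pos n with hn | hn
  · subst hn
    have : ∀ s, cnt s = 0 := by
      intro s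
      rw [hcnt]
      dsimp only
      rw [card_eq_zero]
      exact filter_eq_empty_iff.2 fun x => x.elim0
    have z : ∑ v ∈ cols H, ∏ i, (cnt (v i) : ℝ) = 0 := by
      refine sum_eq_zero fun v _ => ?_
      refine prod_eq_zero (mem_univ (⟨0, hh⟩ : Fin h)) ?_
      rw [this]
      norm_num
    rw [z]
    positivity
  · have hnR : (0 : ℝ) < n := by exact_mod_cast hn
    set K : Finset ℕ := univ.image w with hKdef
    have l := hL K (fun s => (cnt s : ℝ) / n) (fun s => by positivity) (by
      intro s hs
      have : cnt s = 0 := by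
        rw [hcnt]
        dsimp only
        rw [card_eq_zero, filter_eq_empty_iff]
        intro x _ hx
        exact hs (mem_image.2 ⟨x, mem_univ _, hx⟩)
      rw [this]
      simp) (by
      rw [← sum_div]
      have : ∑ s ∈ K, (cnt s : ℝ) = n := by
        have := card_eq_sum_card_image w (univ : Finset (Fin n))
        rw [card_univ, Fintype.card_fin] at this
        rw [hKdef]
        exact_mod_cast this.symm
      rw [this, div_self hnR.ne'])
    have e5 : ∑ v ∈ cols H, ∏ i, (cnt (v i) : ℝ) =
        (∑ v ∈ cols H, ∏ i, ((cnt (v i) : ℝ) / n)) * (n : ℝ) ^ h := by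
      rw [sum_mul]
      refine sum_congr rfl fun v _ => ?_
      rw [prod_div_distrib, prod_const, card_univ, Fintype.card_fin]
      field_simp
    rw [e5]
    exact mul_le_mul_of_nonneg_right l (by positivity)

end BU77

end Pool.Agent.Lib.MP_efec9b_co
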