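import Mathlib
import Pool.Agent.Lib.MP_efec9b_co.Lag77

/-!
MP_efec9b_co: upper and lower bounds (helper77).
-/

namespace Pool.Agent.Lib.MP_efec9b_co.BU77

open Finset

variable {h : ℕ} (H : Fin h → Fin h → ℕ)

open Classical in
theorem copies_eq' {n : ℕ} (M : Fin n → Fin n → ℕ) : copies H M =
    (univ.filter fun p : (Fin h → Fin n) × (Fin h → Fin n) =>
      StrictMono p.1 ∧ StrictMono p.2 ∧ ∀ i j, M (p.1 i) (p.2 j) = H i j).card := by
  unfold copies
  rw [Nat.card_eq_fintype_card, Fintype.card_subtype]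

open Classical in
theorem copies_eq {n : ℕ} (M : Fin n → Fin n → ℕ) : copies H M =
    ∑ r ∈ univ.filter (fun r : Fin h → Fin n => StrictMono r),
      (univ.filter fun c : Fin h → Fin n => StrictMono c ∧ ∀ i j, M (r i) (c j) = H i j).card := by
  rw [copies_eq', card_filter, Fintype.sum_prod_type, sum_filter]
  refine sum_congr rfl fun r _ => ?_
  by_cases hr : StrictMono r
  · rw [if_pos hr, card_filter]
    refine sum_congr rfl fun c _ => ?_
    by_cases hc : StrictMono c ∧ ∀ i j, M (r i) (c j) = H i j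
    · rw [if_pos hc, if_pos ⟨hr, hc⟩]
    · rw [if_neg hc, if_neg fun hh => hc hh.2]
  · rw [if_neg hr]
    refine sum_eq_zero fun c _ => ?_
    rw [if_neg fun hh => hr hh.1]

open Classical in
theorem upper (hh : 0 < h) (hN : RowsApart H) (hL : ColumnLagrangian H) {n : ℕ}
    (M : Fin n → Fin n → ℕ) : (copies H M : ℝ) ≤
      wordMax (fun j i => H i j) / h.factorial * (wordMax (fun i => H i) / h.factorial) *
        (n : ℝ) ^ (2 * h) := by
  set κ : Fin h → Fin h → ℕ := fun j i => H i j with hκ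
  have hf : (0 : ℝ) < h.factorial := by exact_mod_cast h.factorial_pos
  have wκ : 0 ≤ wordMax κ / h.factorial := div_nonneg (wordMax_nonneg κ) hf.le
  have wρ : 0 ≤ wordMax (fun i => H i) / h.factorial := div_nonneg (wordMax_nonneg _) hf.le
  set A : (Fin h → Fin n) → (Fin h → ℕ) → Finset (Fin n) := fun r v =>
    univ.filter fun y => ∀ i, M (r i) y = v i with hA
  have hAsum : ∀ r, ∑ v ∈ cols H, ((A r v).card : ℝ) ≤ n := by
    intro r
    have : ∑ v ∈ cols H, (A r v).card ≤ n := by
      rw [← card_biUnion]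
      · have := card_le_univ ((cols H).biUnion fun v => A r v)
        rwa [Fintype.card_fin] at this
      · intro v _ v' _ hvv
        rw [Function.onFun, disjoint_left]
        intro y hy hy'
        apply hvv
        funext i
        rw [hA] at hy hy'
        rw [← (mem_filter.1 hy).2 i, ← (mem_filter.1 hy').2 i]
    exact_mod_cast this
  have hAnn : ∀ r, 0 ≤ ∑ v ∈ cols H, ((A r v).card : ℝ) := fun r =>
    sum_nonneg fun v _ => by positivity
  have step : ∀ r : Fin h → Fin n, ((univ.filter fun c : Fin h → Fin n =>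
      StrictMono c ∧ ∀ i j, M (r i) (c j) = H i j).card : ℝ) ≤
      wordMax κ / h.factorial * ((n : ℝ) ^ (h - 1) * ∑ v ∈ cols H, ((A r v).card : ℝ)) := by
    intro r
    have e1 : (univ.filter fun c : Fin h → Fin n => StrictMono c ∧ ∀ i j, M (r i) (c j) = H i j) =
        (univ.filter fun c : Fin h → Fin n => StrictMono c ∧ ∀ j, c j ∈ A r (κ j)) := by
      ext c
      rw [mem_filter, mem_filter]
      refine and_congr_right fun _ => and_congr_right fun _ => ?_
      constructor
      · intro hc j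
        rw [hA]
        exact mem_filter.2 ⟨mem_univ _, fun i => hc i j⟩
      · intro hc i j
        exact (mem_filter.1 (hc j)).2 i
    have c1 := countG κ (A r)
    have c2 := choose_prod_le κ hh (fun v => (A r v).card)
    have c3 : ((univ.filter fun c : Fin h → Fin n => StrictMono c ∧ ∀ j, c j ∈ A r (κ j)).card : ℝ)
        ≤ ((∏ b ∈ univ.image κ, (A r b).card.choose (mu κ b) : ℕ) : ℝ) := by exact_mod_cast c1
    rw [e1]
    refine (c3.trans c2).trans ?_
    refine mul_le_mul_of_nonneg_left ?_ wκ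
    have e2 : ∑ b ∈ univ.image κ, ((A r b).card : ℝ) = ∑ v ∈ cols H, ((A r v).card : ℝ) := rfl
    rw [e2]
    obtain ⟨g, rfl⟩ : ∃ g, h = g + 1 := ⟨h - 1, by omega⟩
    rw [pow_succ, Nat.add_sub_cancel]
    exact mul_le_mul_of_nonneg_right (pow_le_pow_left₀ (hAnn r) (hAsum r) g) (hAnn r)
  have dbl : ∑ r ∈ univ.filter (fun r : Fin h → Fin n => StrictMono r),
      ∑ v ∈ cols H, ((A r v).card : ℝ) =
      ∑ y : Fin n, ∑ v ∈ cols H, ((univ.filter fun r : Fin h → Fin n => StrictMono r ∧
        ∀ i, M (r i) y = v i).card : ℝ) := by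
    have e1 : ∀ r, ∀ v, ((A r v).card : ℝ) =
        ∑ y : Fin n, if ∀ i, M (r i) y = v i then (1 : ℝ) else 0 := by
      intro r v
      rw [hA]
      dsimp only
      rw [card_filter]
      push_cast
      rfl
    have e2 : ∀ (y : Fin n) (v : Fin h → ℕ), ((univ.filter fun r : Fin h → Fin n => StrictMono r ∧
        ∀ i, M (r i) y = v i).card : ℝ) =
        ∑ r ∈ univ.filter (fun r : Fin h → Fin n => StrictMono r),
          if ∀ i, M (r i) y = v i then (1 : ℝ) else 0 := by
      intro y v
      rw [← filter_filter, card_filter]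
      push_cast
      rfl
    simp_rw [e1, e2]
    rw [sum_comm]
    rw [sum_comm (s := (univ : Finset (Fin n)))]
    refine sum_congr rfl fun v _ => ?_
    rw [sum_comm]
  rw [copies_eq]
  push_cast
  calc ∑ r ∈ univ.filter (fun r : Fin h → Fin n => StrictMono r),
        ((univ.filter fun c : Fin h → Fin n =>
          StrictMono c ∧ ∀ i j, M (r i) (c j) = H i j).card : ℝ)
      ≤ ∑ r ∈ univ.filter (fun r : Fin h → Fin n => StrictMono r),
        wordMax κ / h.factorial * ((n : ℝ) ^ (h - 1) * ∑ v ∈ cols H, ((A r v).card : ℝ)) :=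
        sum_le_sum fun r _ => step r
    _ = wordMax κ / h.factorial * ((n : ℝ) ^ (h - 1) *
        ∑ y : Fin n, ∑ v ∈ cols H, ((univ.filter fun r : Fin h → Fin n => StrictMono r ∧
          ∀ i, M (r i) y = v i).card : ℝ)) := by
        rw [← dbl, mul_sum, mul_sum]
    _ ≤ wordMax κ / h.factorial * ((n : ℝ) ^ (h - 1) *
        ∑ y : Fin n, (wordMax (fun i => H i) / h.factorial * (n : ℝ) ^ h)) := by
        refine mul_le_mul_of_nonneg_left ?_ wκ
        refine mul_le_mul_of_nonneg_left ?_ (by positivity)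
        exact sum_le_sum fun y _ => word_bound H hh hN hL (fun x => M x y)
    _ = _ := by
        rw [sum_const, card_univ, Fintype.card_fin, nsmul_eq_mul]
        obtain ⟨g, rfl⟩ : ∃ g, h = g + 1 := ⟨h - 1, by omega⟩
        rw [Nat.add_sub_cancel]
        ring

/-- the index of the block -/
def idx (hh : 0 < h) (n : ℕ) (x : Fin n) : Fin h :=
  ⟨min ((x : ℕ) / (n / h)) (h - 1), lt_of_le_of_lt (min_le_right _ _) (by omega)⟩

theorem idx_mono (hh : 0 < h) (n : ℕ) : Monotone (idx hh n) := by
  intro x y hxy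
  rw [Fin.le_def]
  exact min_le_min_right _ (Nat.div_le_div_right hxy)

theorem blk (hh : 0 < h) (n : ℕ) (i : Fin h) :
    n / h ≤ (univ.filter fun x : Fin n => idx hh n x = i).card := by
  classical
  set k := n / h with hk
  rcases Nat.eq_zero_or_pos k with hk0 | hk0
  · rw [hk0]
    exact Nat.zero_le _
  have hhk : h * k ≤ n := by
    rw [hk]
    exact Nat.mul_div_le n h
  have hlt : ∀ t < k, (i : ℕ) * k + t < n := by
    intro t ht
    have h1 : ((i : ℕ) + 1) * k ≤ h * k := Nat.mul_le_mul_right k i.2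
    have h2 : ((i : ℕ) + 1) * k = (i : ℕ) * k + k := by ring
    omega
  have hc : (range k).card = k := card_range k
  have hn0 : 0 < n := by
    have := hlt 0 hk0
    omega
  rw [← hc]
  refine card_le_card_of_injOn
    (fun t => if ht : t < k then (⟨(i : ℕ) * k + t, hlt t ht⟩ : Fin n) else ⟨0, hn0⟩) ?_ ?_
  · intro t ht
    rw [mem_coe, mem_range] at ht
    rw [mem_coe, mem_filter]
    refine ⟨mem_univ _, ?_⟩
    dsimp only
    rw [dif_pos ht]
    apply Fin.ext
    change min (((i : ℕ) * k + t) / (n / h)) (h - 1) = (i : ℕ)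
    rw [← hk]
    have e : ((i : ℕ) * k + t) / k = i := by
      rw [mul_comm, Nat.mul_add_div hk0, Nat.div_eq_of_lt ht, add_zero]
    rw [e]
    have := i.2
    omega
  · intro t ht t' ht' htt
    rw [mem_coe, mem_range] at ht ht'
    dsimp only at htt
    rw [dif_pos ht, dif_pos ht'] at htt
    have := congrArg Fin.val htt
    dsimp only at this
    omega

open Classical in
theorem lowCount (hh : 0 < h) (τ : Fin h → Fin h → ℕ) (hτ : Monotone τ) (n : ℕ) (hn : h ≤ n) :
    wordMax τ / h.factorial * ((((n / h : ℕ) : ℝ) - 1) * h) ^ h ≤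
      ((univ.filter fun c : Fin h → Fin n => StrictMono c ∧
        ∀ j, τ (idx hh n (c j)) = τ j).card : ℝ) := by
  have hR : (0 : ℝ) < h := by exact_mod_cast hh
  set k := n / h with hk
  have hk1 : 1 ≤ k := by
    rw [hk, Nat.one_le_div_iff hh]
    exact hn
  have hkR : (0 : ℝ) ≤ (k : ℝ) - 1 := by
    have : (1 : ℝ) ≤ k := by exact_mod_cast hk1
    linarith
  have c1 := countL τ hτ (idx hh n) (idx_mono hh n)
  have c2 : ((∏ b ∈ univ.image τ, ((univ.filter fun x => τ (idx hh n x) = b).card.choose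
      (mu τ b)) : ℕ) : ℝ) ≤ ((univ.filter fun c : Fin h → Fin n => StrictMono c ∧
        ∀ j, τ (idx hh n (c j)) = τ j).card : ℝ) := by exact_mod_cast c1
  refine le_trans ?_ c2
  have e1 : wordMax τ / h.factorial * (((k : ℝ) - 1) * h) ^ h = ∏ b ∈ univ.image τ,
      ((((mu τ b : ℝ) * ((k : ℝ) - 1)) ^ mu τ b) / ((mu τ b).factorial : ℝ)) := by
    have e2 : (((k : ℝ) - 1) * h) ^ h = ∏ b ∈ univ.image τ, (((k : ℝ) - 1) * h) ^ mu τ b := by
      rw [prod_pow_eq_pow_sum, sum_mu]
    have hf : (0 : ℝ) < h.factorial := by exact_mod_cast h.factorial_pos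
    rw [e2, wordMax_eq, mul_comm (h.factorial : ℝ), mul_div_assoc, div_self hf.ne', mul_one,
      ← prod_mul_distrib]
    refine prod_congr rfl fun b _ => ?_
    rw [div_pow, mul_pow, mul_pow]
    field_simp
  rw [e1]
  push_cast
  refine prod_le_prod (fun b _ => by positivity) fun b hb => ?_
  have hbc : mu τ b * k ≤ (univ.filter fun x => τ (idx hh n x) = b).card := by
    have e : (univ.filter fun x => τ (idx hh n x) = b).card =
        ∑ i ∈ univ.filter (fun i => τ i = b), (univ.filter fun x => idx hh n x = i).card := by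
      rw [card_eq_sum_card_fiberwise (f := idx hh n) (t := univ.filter (fun i => τ i = b))]
      · refine sum_congr rfl fun i hi => ?_
        congr 1
        ext x
        rw [mem_filter] at hi
        rw [mem_filter, mem_filter, mem_filter]
        constructor
        · rintro ⟨⟨h1, -⟩, h3⟩
          exact ⟨h1, h3⟩
        · rintro ⟨h1, h3⟩
          exact ⟨⟨h1, by rw [h3]; exact hi.2⟩, h3⟩
      · intro x hx
        rw [mem_coe, mem_filter] at hx ⊢
        exact ⟨mem_univ _, hx.2⟩
    rw [e]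
    have := sum_le_sum fun (i : Fin h) (_ : i ∈ univ.filter (fun i => τ i = b)) => blk hh n i
    rw [sum_const, smul_eq_mul] at this
    exact this
  have hch : (mu τ b * k).choose (mu τ b) ≤
      ((univ.filter fun x => τ (idx hh n x) = b).card).choose (mu τ b) :=
    Nat.choose_le_choose _ hbc
  have hdf : (mu τ b * (k - 1)) ^ mu τ b ≤ (mu τ b).factorial * (mu τ b * k).choose (mu τ b) := by
    rw [← Nat.descFactorial_eq_factorial_mul_choose]
    refine le_trans ?_ (Nat.pow_sub_le_descFactorial _ _)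
    refine Nat.pow_le_pow_left ?_ _
    rw [Nat.mul_sub, mul_one]
    omega
  have hfac : (0 : ℝ) < (mu τ b).factorial := by exact_mod_cast (mu τ b).factorial_pos
  rw [div_le_iff₀ hfac]
  have h3 : ((mu τ b * (k - 1) : ℕ) : ℝ) ^ mu τ b ≤
      (mu τ b).factorial * ((mu τ b * k).choose (mu τ b) : ℝ) := by exact_mod_cast hdf
  have h4 : ((mu τ b * (k - 1) : ℕ) : ℝ) = (mu τ b : ℝ) * ((k : ℝ) - 1) := by
    rw [Nat.cast_mul, Nat.cast_sub hk1, Nat.cast_one]
  rw [h4] at h3
  have h5 : ((mu τ b * k).choose (mu τ b) : ℝ) ≤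
      (((univ.filter fun x => τ (idx hh n x) = b).card).choose (mu τ b) : ℝ) := by
    exact_mod_cast hch
  calc _ ≤ _ := h3
    _ ≤ _ := by
      rw [mul_comm]
      exact mul_le_mul_of_nonneg_right h5 hfac.le

/-- the blow up of `H` -/
def host (hh : 0 < h) (n : ℕ) : Fin n → Fin n → ℕ := fun x y => H (idx hh n x) (idx hh n y)

theorem host_avoids (hh : 0 < h) (hM : Mono H) (n k : ℕ) : Avoids k (host H hh n) := by
  constructor
  · intro i j j' hj _
    exact hM _ _ _ _ le_rfl (idx_mono hh n hj.le)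
  · intro i i' j hi _
    exact hM _ _ _ _ (idx_mono hh n hi.le) le_rfl

open Classical in
theorem lower (hh : 0 < h) (hM : Mono H) (n : ℕ) (hn : h ≤ n) :
    wordMax (fun j i => H i j) / h.factorial * (wordMax (fun i => H i) / h.factorial) *
      ((((n / h : ℕ) : ℝ) - 1) * h) ^ (2 * h) ≤ (copies H (host H hh n) : ℝ) := by
  set κ : Fin h → Fin h → ℕ := fun j i => H i j with hκ
  set ρ : Fin h → Fin h → ℕ := fun i => H i with hρ
  have mκ : Monotone κ := fun j j' hj i => hM _ _ _ _ le_rfl hj
  have mρ : Monotone ρ := fun i i' hi j => hM _ _ _ _ hi le_rfl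
  have l1 := lowCount hh κ mκ n hn
  have l2 := lowCount hh ρ mρ n hn
  set C := univ.filter fun c : Fin h → Fin n => StrictMono c ∧ ∀ j, κ (idx hh n (c j)) = κ j
    with hC
  set R := univ.filter fun c : Fin h → Fin n => StrictMono c ∧ ∀ j, ρ (idx hh n (c j)) = ρ j
    with hRd
  have hsub : R.card * C.card ≤ copies H (host H hh n) := by
    rw [copies_eq', ← card_product]
    refine card_le_card ?_
    rintro ⟨r, c⟩ hrc
    rw [mem_product, hRd, hC, mem_filter, mem_filter] at hrc
    rw [mem_filter]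
    refine ⟨mem_univ _, hrc.1.2.1, hrc.2.2.1, fun i j => ?_⟩
    have h1 : H (idx hh n (r i)) = H i := hrc.1.2.2 i
    have h2 : (fun i => H i (idx hh n (c j))) = fun i => H i j := hrc.2.2.2 j
    change H (idx hh n (r i)) (idx hh n (c j)) = H i j
    rw [h1]
    exact congrFun h2 i
  have hsub' : (R.card : ℝ) * C.card ≤ (copies H (host H hh n) : ℝ) := by exact_mod_cast hsub
  refine le_trans ?_ hsub'
  have hf : (0 : ℝ) < h.factorial := by exact_mod_cast h.factorial_pos
  have hk1 : 1 ≤ n / h := by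
    rw [Nat.one_le_div_iff hh]
    exact hn
  have hkR : (0 : ℝ) ≤ ((n / h : ℕ) : ℝ) - 1 := by
    have : (1 : ℝ) ≤ ((n / h : ℕ) : ℝ) := by exact_mod_cast hk1
    linarith
  have n1 : 0 ≤ wordMax κ / h.factorial * ((((n / h : ℕ) : ℝ) - 1) * h) ^ h :=
    mul_nonneg (div_nonneg (wordMax_nonneg κ) hf.le) (by positivity)
  have n2 : 0 ≤ wordMax ρ / h.factorial * ((((n / h : ℕ) : ℝ) - 1) * h) ^ h :=
    mul_nonneg (div_nonneg (wordMax_nonneg ρ) hf.le) (by positivity)
  have := mul_le_mul l2 l1 n1 (le_trans n2 l2)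
  refine le_trans (le_of_eq ?_) this
  rw [two_mul, pow_add]
  ring

end Pool.Agent.Lib.MP_efec9b_co.BU77
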