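import Mathlib
import Pool.Agent.Lib.MP_efec9b_co.Bnd77

/-!
MP_efec9b_co: the limits (helper77).
-/

namespace Pool.Agent.Lib.MP_efec9b_co.BU77

open Finset Filter Topology

variable {h : ℕ} (H : Fin h → Fin h → ℕ)

theorem dens_nonneg {n : ℕ} (M : Fin n → Fin n → ℕ) : 0 ≤ dens H M := by
  unfold dens
  positivity

theorem dens_upper (hh : 0 < h) (hN : RowsApart H) (hL : ColumnLagrangian H) {n : ℕ} (hn : h ≤ n)
    (M : Fin n → Fin n → ℕ) : dens H M ≤
      wordMax (fun i => H i) * wordMax (fun j i => H i j) *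
        ((n : ℝ) / ((n : ℝ) + 1 - h)) ^ (2 * h) := by
  have hf : (0 : ℝ) < h.factorial := by exact_mod_cast h.factorial_pos
  have u := upper H hh hN hL M
  have hnh : (h : ℝ) ≤ n := by exact_mod_cast hn
  have hpos : (0 : ℝ) < (n : ℝ) + 1 - h := by linarith
  have hC : ((n : ℝ) + 1 - h) ^ h / h.factorial ≤ (n.choose h : ℝ) := by
    rw [div_le_iff₀ hf]
    have h1 := Nat.pow_sub_le_descFactorial n h
    rw [Nat.descFactorial_eq_factorial_mul_choose] at h1
    have h2 : (((n + 1 - h : ℕ) : ℝ)) ^ h ≤ (h.factorial : ℝ) * (n.choose h : ℝ) := by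
      exact_mod_cast h1
    rw [Nat.cast_sub (by omega)] at h2
    push_cast at h2
    rw [mul_comm]
    exact h2
  have hCpos : (0 : ℝ) < ((n : ℝ) + 1 - h) ^ h / h.factorial := by positivity
  unfold dens
  have w1 := wordMax_nonneg (fun i => H i)
  have w2 := wordMax_nonneg (fun (j : Fin h) (i : Fin h) => H i j)
  calc (copies H M : ℝ) / (n.choose h : ℝ) ^ 2
      ≤ (wordMax (fun j i => H i j) / h.factorial * (wordMax (fun i => H i) / h.factorial) *
        (n : ℝ) ^ (2 * h)) / (((n : ℝ) + 1 - h) ^ h / h.factorial) ^ 2 := by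
        refine div_le_div₀ ?_ u (by positivity) (pow_le_pow_left₀ hCpos.le hC 2)
        positivity
    _ = _ := by
        rw [div_pow, div_pow, ← pow_mul, mul_comm h 2]
        field_simp

theorem dens_lower (hh : 0 < h) (hM : Mono H) {n : ℕ} (hn : 2 * h ≤ n) :
    wordMax (fun i => H i) * wordMax (fun j i => H i j) *
        (((n : ℝ) - 2 * h) / n) ^ (2 * h) ≤ dens H (host H hh n) := by
  have hf : (0 : ℝ) < h.factorial := by exact_mod_cast h.factorial_pos
  have hhR : (0 : ℝ) < h := by exact_mod_cast hh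
  have hn' : h ≤ n := by omega
  have hn0 : 0 < n := by omega
  have hnR : (0 : ℝ) < n := by exact_mod_cast hn0
  have l := lower H hh hM n hn'
  have hnh : 2 * (h : ℝ) ≤ n := by exact_mod_cast hn
  have hC : (n.choose h : ℝ) ≤ (n : ℝ) ^ h / h.factorial := Nat.choose_le_pow_div h n
  have hC0 : (0 : ℝ) < (n.choose h : ℝ) := by exact_mod_cast Nat.choose_pos hn'
  have hk : (n : ℝ) - 2 * h ≤ (((n / h : ℕ) : ℝ) - 1) * h := by
    have h1 := Nat.div_add_mod n h
    have h2 := Nat.mod_lt n hh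
    have h3 : n ≤ h * (n / h) + h := by omega
    have h4 : (n : ℝ) ≤ h * ((n / h : ℕ) : ℝ) + h := by exact_mod_cast h3
    linarith
  have w1 := wordMax_nonneg (fun i => H i)
  have w2 := wordMax_nonneg (fun (j : Fin h) (i : Fin h) => H i j)
  unfold dens
  have hpow : ((n : ℝ) - 2 * h) ^ (2 * h) ≤ ((((n / h : ℕ) : ℝ) - 1) * h) ^ (2 * h) :=
    pow_le_pow_left₀ (by linarith) hk _
  calc wordMax (fun i => H i) * wordMax (fun j i => H i j) *
        (((n : ℝ) - 2 * h) / n) ^ (2 * h)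
      = (wordMax (fun j i => H i j) / h.factorial * (wordMax (fun i => H i) / h.factorial) *
        ((n : ℝ) - 2 * h) ^ (2 * h)) / ((n : ℝ) ^ h / h.factorial) ^ 2 := by
        rw [div_pow, div_pow, ← pow_mul, mul_comm h 2]
        field_simp
    _ ≤ (copies H (host H hh n) : ℝ) / (n.choose h : ℝ) ^ 2 := by
        refine div_le_div₀ (by positivity) ?_ (by positivity) (pow_le_pow_left₀ hC0.le hC 2)
        refine le_trans ?_ l
        exact mul_le_mul_of_nonneg_left hpow (by positivity)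

theorem lim_upper (h : ℕ) :
    Tendsto (fun n : ℕ => ((n : ℝ) / ((n : ℝ) + 1 - h)) ^ (2 * h)) atTop (𝓝 1) := by
  have h1 : Tendsto (fun n : ℕ => (1 - (h : ℝ)) / (n : ℝ)) atTop (𝓝 0) :=
    tendsto_const_div_atTop_nhds_zero_nat _
  have h2 : Tendsto (fun n : ℕ => 1 / (1 + (1 - (h : ℝ)) / (n : ℝ))) atTop (𝓝 (1 / (1 + 0))) :=
    tendsto_const_nhds.div (tendsto_const_nhds.add h1) (by norm_num)
  have h3 : Tendsto (fun n : ℕ => (n : ℝ) / ((n : ℝ) + 1 - h)) atTop (𝓝 1) := by
    have e : (1 : ℝ) / (1 + 0) = 1 := by norm_num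
    rw [e] at h2
    refine h2.congr' ?_
    filter_upwards [eventually_gt_atTop (h + 1)] with n hn
    have hn0 : (0 : ℝ) < n := by
      have : 0 < n := by omega
      exact_mod_cast this
    have e2 : 1 + (1 - (h : ℝ)) / n = ((n : ℝ) + 1 - h) / n := by
      field_simp
      ring
    rw [e2, one_div_div]
  have := h3.pow (2 * h)
  rwa [one_pow] at this

theorem lim_lower (h : ℕ) :
    Tendsto (fun n : ℕ => (((n : ℝ) - 2 * h) / n) ^ (2 * h)) atTop (𝓝 1) := by
  have h1 : Tendsto (fun n : ℕ => (2 * (h : ℝ)) / (n : ℝ)) atTop (𝓝 0) :=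
    tendsto_const_div_atTop_nhds_zero_nat _
  have h2 : Tendsto (fun n : ℕ => 1 - (2 * (h : ℝ)) / (n : ℝ)) atTop (𝓝 (1 - 0)) :=
    tendsto_const_nhds.sub h1
  have h3 : Tendsto (fun n : ℕ => ((n : ℝ) - 2 * h) / n) atTop (𝓝 1) := by
    rw [sub_zero] at h2
    refine h2.congr' ?_
    filter_upwards [eventually_gt_atTop 0] with n hn
    have hn0 : (0 : ℝ) < n := by exact_mod_cast hn
    field_simp
  have := h3.pow (2 * h)
  rwa [one_pow] at this

theorem main (hh : 0 < h) (hM : Mono H) (hN : RowsApart H) (hL : ColumnLagrangian H) :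
    Tendsto (fAll H) atTop (𝓝 (wordMax (fun i => H i) * wordMax (fun j i => H i j))) ∧
    Tendsto (fMono H) atTop (𝓝 (wordMax (fun i => H i) * wordMax (fun j i => H i j))) := by
  set c := wordMax (fun i => H i) * wordMax (fun j i => H i j) with hc
  have hU : Tendsto (fun n : ℕ => c * ((n : ℝ) / ((n : ℝ) + 1 - h)) ^ (2 * h)) atTop (𝓝 c) := by
    have := (lim_upper h).const_mul c
    rwa [mul_one] at this
  have hLo : Tendsto (fun n : ℕ => c * (((n : ℝ) - 2 * h) / n) ^ (2 * h)) atTop (𝓝 c) := by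
    have := (lim_lower h).const_mul c
    rwa [mul_one] at this
  have bdd : ∀ n, h ≤ n → BddAbove (Set.range fun M : Fin n → Fin n → ℕ => dens H M) := by
    intro n hn
    refine ⟨c * ((n : ℝ) / ((n : ℝ) + 1 - h)) ^ (2 * h), ?_⟩
    rintro _ ⟨M, rfl⟩
    exact dens_upper H hh hN hL hn M
  have bdd' : ∀ n, h ≤ n → BddAbove (Set.range fun M : {M : Fin n → Fin n → ℕ //
      Avoids (top H) M} => dens H M.1) := by
    intro n hn
    refine ⟨c * ((n : ℝ) / ((n : ℝ) + 1 - h)) ^ (2 * h), ?_⟩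
    rintro _ ⟨M, rfl⟩
    exact dens_upper H hh hN hL hn M.1
  have a1 : ∀ᶠ n : ℕ in atTop, fAll H n ≤ c * ((n : ℝ) / ((n : ℝ) + 1 - h)) ^ (2 * h) := by
    filter_upwards [eventually_ge_atTop h] with n hn
    exact ciSup_le fun M => dens_upper H hh hN hL hn M
  have a2 : ∀ᶠ n : ℕ in atTop, fMono H n ≤ c * ((n : ℝ) / ((n : ℝ) + 1 - h)) ^ (2 * h) := by
    filter_upwards [eventually_ge_atTop h] with n hn
    have : Nonempty {M : Fin n → Fin n → ℕ // Avoids (top H) M} :=
      ⟨⟨host H hh n, host_avoids H hh hM n _⟩⟩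
    exact ciSup_le fun M => dens_upper H hh hN hL hn M.1
  have a3 : ∀ᶠ n : ℕ in atTop, c * (((n : ℝ) - 2 * h) / n) ^ (2 * h) ≤ fAll H n := by
    filter_upwards [eventually_ge_atTop (2 * h)] with n hn
    exact (dens_lower H hh hM hn).trans (le_ciSup (bdd n (by omega)) (host H hh n))
  have a4 : ∀ᶠ n : ℕ in atTop, c * (((n : ℝ) - 2 * h) / n) ^ (2 * h) ≤ fMono H n := by
    filter_upwards [eventually_ge_atTop (2 * h)] with n hn
    exact (dens_lower H hh hM hn).trans (le_ciSup (bdd' n (by omega))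
      (⟨host H hh n, host_avoids H hh hM n _⟩ : {M : Fin n → Fin n → ℕ // Avoids (top H) M}))
  exact ⟨tendsto_of_tendsto_of_tendsto_of_le_of_le' hLo hU a3 a1,
    tendsto_of_tendsto_of_tendsto_of_le_of_le' hLo hU a4 a2⟩

/-! ### transposition -/

theorem copies_tr {n : ℕ} (M : Fin n → Fin n → ℕ) :
    copies (fun i j => H j i) (fun x y => M y x) = copies H M := by
  unfold copies
  refine Nat.card_congr ⟨fun p => ⟨(p.1.2, p.1.1), p.2.2.1, p.2.1, fun i j => p.2.2.2 j i⟩,
    fun p => ⟨(p.1.2, p.1.1), p.2.2.1, p.2.1, fun i j => p.2.2.2 j i⟩, fun p => rfl, fun p => rfl⟩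

theorem dens_tr {n : ℕ} (M : Fin n → Fin n → ℕ) :
    dens (fun i j => H j i) (fun x y => M y x) = dens H M := by
  unfold dens
  rw [copies_tr]

theorem fAll_tr (n : ℕ) : fAll (fun i j => H j i) n = fAll H n := by
  unfold fAll
  refine Function.Surjective.iSup_congr (fun M => fun x y => M y x) ?_ ?_
  · intro M
    exact ⟨fun x y => M y x, rfl⟩
  · intro M
    exact (dens_tr H (fun x y => M y x)).symm

theorem top_tr : top (fun i j => H j i) = top H := by
  unfold top
  rw [Finset.sup_comm]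

theorem avoids_tr {n k : ℕ} {M : Fin n → Fin n → ℕ} (hM : Avoids k M) :
    Avoids k (fun x y => M y x) :=
  ⟨fun i j j' hj => hM.2 j j' i hj, fun i i' j hi => hM.1 j i i' hi⟩

theorem fMono_tr (n : ℕ) : fMono (fun i j => H j i) n = fMono H n := by
  unfold fMono
  rw [top_tr]
  refine Function.Surjective.iSup_congr
    (fun M => (⟨fun x y => M.1 y x, avoids_tr M.2⟩ : {M : Fin n → Fin n → ℕ // Avoids (top H) M}))
    ?_ ?_
  · intro M
    exact ⟨⟨fun x y => M.1 y x, avoids_tr M.2⟩, rfl⟩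
  · intro M
    exact (dens_tr H (fun x y => M.1 y x)).symm

theorem main_tr (hh : 0 < h) (hM : Mono H) (hN : RowsApart fun i j => H j i)
    (hL : ColumnLagrangian fun i j => H j i) :
    Tendsto (fAll H) atTop (𝓝 (wordMax (fun i => H i) * wordMax (fun j i => H i j))) ∧
    Tendsto (fMono H) atTop (𝓝 (wordMax (fun i => H i) * wordMax (fun j i => H i j))) := by
  have := main (fun i j => H j i) hh (fun i i' j j' hi hj => hM j j' i i' hj hi) hN hL
  rw [mul_comm] at this
  have e1 : fAll (fun i j => H j i) = fAll H := funext fun n => fAll_tr H n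
  have e2 : fMono (fun i j => H j i) = fMono H := funext fun n => fMono_tr H n
  rw [e1, e2] at this
  exact this

end Pool.Agent.Lib.MP_efec9b_co.BU77
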