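import Mathlib
import Pool.Agent.Lib.MP_efec9b_co.Lim77

/-!
MP_efec9b_co: special classes (helper77).
-/

namespace Pool.Agent.Lib.MP_efec9b_co.BU77

open Finset Filter Topology

variable {h : ℕ} (H : Fin h → Fin h → ℕ)

/-- any two rows are equal or have no common symbol -/
theorem disjoint_apart (hd : ∀ i i', H i = H i' ∨ ∀ j j', H i j ≠ H i' j') : RowsApart H := by
  intro i i'
  rcases hd i i' with h1 | h1
  · exact Or.inl h1
  · exact Or.inr fun j => h1 j j

theorem disjoint_clique (hd : ∀ i i', H i = H i' ∨ ∀ j j', H i j ≠ H i' j') : CliqueClass H := by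
  intro K _ j j' i i' _ _ hs
  rcases hd i i' with h1 | h1
  · exact h1
  · exact absurd hs (h1 j j')

/-- the case `H i j = g (i + j)` -/
theorem hankel_apart (g : ℕ → ℕ) (hg : StrictMono g) :
    RowsApart (fun i j : Fin h => g ((i : ℕ) + j)) := by
  intro i i'
  by_cases hi : i = i'
  · exact Or.inl (by rw [hi])
  · refine Or.inr fun j hj => hi ?_
    have := hg.injective hj
    apply Fin.ext
    omega

theorem hankel_clique (g : ℕ → ℕ) (hg : StrictMono g) :
    CliqueClass (fun i j : Fin h => g ((i : ℕ) + j)) := by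
  intro K hcl j j' i i' hj hj' hs
  dsimp only at hcl hj hj' hs
  have hsum := hg.injective hs
  have hi : i = i' := by
    by_contra hne
    have hjj : (j : ℕ) ≠ j' := by
      intro hjj
      apply hne
      apply Fin.ext
      omega
    have hh : 0 < h := lt_of_le_of_lt (Nat.zero_le _) i.2
    rcases lt_or_gt_of_ne hjj with hlt | hlt
    · have m1 := hj ⟨0, hh⟩
      have m2 := hj' ⟨h - 1, by omega⟩
      dsimp only at m1 m2
      obtain ⟨a, b, c, hb, hc⟩ := hcl _ m1 _ m2 (by
        intro hE
        have := hg.injective hE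
        omega)
      have e1 := hg.injective hb
      have e2 := hg.injective hc
      have := b.2
      have := c.2
      omega
    · have m1 := hj' ⟨0, hh⟩
      have m2 := hj ⟨h - 1, by omega⟩
      dsimp only at m1 m2
      obtain ⟨a, b, c, hb, hc⟩ := hcl _ m1 _ m2 (by
        intro hE
        have := hg.injective hE
        omega)
      have e1 := hg.injective hb
      have e2 := hg.injective hc
      have := b.2
      have := c.2
      omega
  rw [hi]

theorem wordMax_inj {ι : Type} [DecidableEq ι] (τ : Fin h → ι) (hτ : Function.Injective τ) :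
    wordMax τ = (h.factorial : ℝ) / (h : ℝ) ^ h := by
  have hm : ∀ b ∈ univ.image τ, mu τ b = 1 := by
    intro b hb
    obtain ⟨i, -, rfl⟩ := mem_image.1 hb
    unfold mu
    rw [card_eq_one]
    refine ⟨i, ?_⟩
    ext i'
    rw [mem_filter, mem_singleton]
    constructor
    · rintro ⟨-, h1⟩
      exact hτ h1
    · rintro rfl
      exact ⟨mem_univ _, rfl⟩
  rw [wordMax_eq]
  have e : ∏ b ∈ univ.image τ, (((mu τ b : ℝ) / h) ^ mu τ b / ((mu τ b).factorial : ℝ)) =
      ∏ b ∈ univ.image τ, (1 / (h : ℝ)) := by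
    refine prod_congr rfl fun b hb => ?_
    rw [hm b hb]
    norm_num
  rw [e, prod_const, card_image_of_injective _ hτ, card_univ, Fintype.card_fin, one_div,
    inv_pow]
  rfl

theorem hankel_rows (g : ℕ → ℕ) (hg : StrictMono g) :
    Function.Injective (fun i : Fin h => fun j : Fin h => g ((i : ℕ) + j)) := by
  intro i i' hi
  have := congrFun hi i
  have := hg.injective this
  apply Fin.ext
  omega

theorem hankel_cols (g : ℕ → ℕ) (hg : StrictMono g) :
    Function.Injective (fun j : Fin h => fun i : Fin h => g ((i : ℕ) + j)) := by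
  intro i i' hi
  have := congrFun hi i
  have := hg.injective this
  apply Fin.ext
  omega

theorem hankel (hh : 0 < h) (g : ℕ → ℕ) (hg : StrictMono g) :
    Tendsto (fAll fun i j : Fin h => g ((i : ℕ) + j)) atTop
      (𝓝 (((h.factorial : ℝ) / (h : ℝ) ^ h) ^ 2)) ∧
    Tendsto (fMono fun i j : Fin h => g ((i : ℕ) + j)) atTop
      (𝓝 (((h.factorial : ℝ) / (h : ℝ) ^ h) ^ 2)) := by
  have := main (fun i j : Fin h => g ((i : ℕ) + j)) hh (by
    intro i i' j j' hi hj
    apply hg.monotone
    have : (i : ℕ) ≤ i' := hi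
    have : (j : ℕ) ≤ j' := hj
    omega) (hankel_apart g hg) (lagrangian_of_clique _ hh (hankel_clique g hg))
  rw [wordMax_inj _ (hankel_rows g hg), wordMax_inj _ (hankel_cols g hg), ← sq] at this
  exact this

/-- two by two matrices: the rows are equal or differ in both columns -/
theorem two_clique (H : Fin 2 → Fin 2 → ℕ) (hM : Mono H) (hN : RowsApart H) : CliqueClass H := by
  intro K hcl j j' i i' hj hj' hs
  by_contra hne
  have hii : i ≠ i' := fun hE => hne (by rw [hE])
  have hN' : ∀ c, H i c ≠ H i' c := by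
    rcases hN i i' with h1 | h1
    · exact absurd h1 hne
    · exact h1
  have hjj : j ≠ j' := by
    intro hE
    rw [hE] at hs
    exact hN' j' hs
  -- the common symbol `s = H i j = H i' j'`
  have hK1 : H 0 j ∈ K := hj 0
  have hK2 : H 1 j ∈ K := hj 1
  have hK3 : H 0 j' ∈ K := hj' 0
  have hK4 : H 1 j' ∈ K := hj' 1
  have m1 : H 0 0 ≤ H 0 1 := hM 0 0 0 1 le_rfl (by decide)
  have m2 : H 1 0 ≤ H 1 1 := hM 1 1 0 1 le_rfl (by decide)
  have m3 : H 0 0 ≤ H 1 0 := hM 0 1 0 0 (by decide) le_rfl
  have m4 : H 0 1 ≤ H 1 1 := hM 0 1 1 1 (by decide) le_rfl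
  have key : H 0 0 ∈ K ∧ H 1 0 ∈ K ∧ H 0 1 ∈ K ∧ H 1 1 ∈ K := by
    fin_cases j <;> fin_cases j' <;> simp_all
  have hd0 : H 0 0 ≠ H 1 0 := by
    fin_cases i <;> fin_cases i' <;> first | exact absurd rfl hii | exact hN' 0 |
      exact (hN' 0).symm
  have hd1 : H 0 1 ≠ H 1 1 := by
    fin_cases i <;> fin_cases i' <;> first | exact absurd rfl hii | exact hN' 1 |
      exact (hN' 1).symm
  -- the equality forces `H 0 1 = H 1 0`
  have heq : H 0 1 = H 1 0 := by
    have c1 : H 0 0 < H 1 0 := lt_of_le_of_ne m3 hd0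
    have c2 : H 0 1 < H 1 1 := lt_of_le_of_ne m4 hd1
    fin_cases i <;> fin_cases i' <;> fin_cases j <;> fin_cases j' <;>
      first
        | exact absurd rfl hii
        | exact absurd rfl hjj
        | (simp at hs; omega)
  have c1 : H 0 0 < H 1 0 := lt_of_le_of_ne m3 hd0
  have c2 : H 0 1 < H 1 1 := lt_of_le_of_ne m4 hd1
  obtain ⟨a, b, c, hb, hc⟩ := hcl _ key.1 _ key.2.2.2 (by omega)
  fin_cases a <;> fin_cases b <;> fin_cases c <;> simp at hb hc <;> omega

/-- all monotone two by two matrices except the two types `(a a; a b)` and `(a b; b b)` -/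
theorem two (H : Fin 2 → Fin 2 → ℕ) (hM : Mono H)
    (h1 : ¬ (H 0 0 = H 0 1 ∧ H 0 0 = H 1 0 ∧ H 0 0 ≠ H 1 1))
    (h2 : ¬ (H 0 1 = H 1 1 ∧ H 1 0 = H 1 1 ∧ H 0 0 ≠ H 1 1)) :
    Tendsto (fAll H) atTop (𝓝 (wordMax (fun i => H i) * wordMax (fun j i => H i j))) ∧
    Tendsto (fMono H) atTop (𝓝 (wordMax (fun i => H i) * wordMax (fun j i => H i j))) := by
  have m1 : H 0 0 ≤ H 0 1 := hM 0 0 0 1 le_rfl (by decide)
  have m2 : H 1 0 ≤ H 1 1 := hM 1 1 0 1 le_rfl (by decide)
  have m3 : H 0 0 ≤ H 1 0 := hM 0 1 0 0 (by decide) le_rfl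
  have m4 : H 0 1 ≤ H 1 1 := hM 0 1 1 1 (by decide) le_rfl
  by_cases hR : (H 0 0 = H 1 0 ∧ H 0 1 = H 1 1) ∨ (H 0 0 ≠ H 1 0 ∧ H 0 1 ≠ H 1 1)
  · have hN : RowsApart H := by
      intro i i'
      rcases hR with ⟨e1, e2⟩ | ⟨e1, e2⟩
      · left
        funext j
        fin_cases i <;> fin_cases i' <;> fin_cases j <;> simp_all
      · by_cases hi : i = i'
        · exact Or.inl (by rw [hi])
        · right
          intro j
          fin_cases i <;> fin_cases i' <;> fin_cases j <;> simp_all
          all_goals first | exact fun hE => e1 hE.symm | exact fun hE => e2 hE.symm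
    exact main H (by norm_num) hM hN (lagrangian_of_clique H (by norm_num) (two_clique H hM hN))
  · have hC : (H 0 0 = H 0 1 ∧ H 1 0 = H 1 1) ∨ (H 0 0 ≠ H 0 1 ∧ H 1 0 ≠ H 1 1) := by
      by_contra hcon
      omega
    have hM' : Mono fun i j => H j i := fun i i' j j' hi hj => hM j j' i i' hj hi
    have hN : RowsApart fun i j => H j i := by
      intro i i'
      rcases hC with ⟨e1, e2⟩ | ⟨e1, e2⟩
      · left
        funext j
        fin_cases i <;> fin_cases i' <;> fin_cases j <;> simp_all
      · by_cases hi : i = i'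
        · exact Or.inl (by rw [hi])
        · right
          intro j
          fin_cases i <;> fin_cases i' <;> fin_cases j <;> simp_all
          all_goals first | exact fun hE => e1 hE.symm | exact fun hE => e2 hE.symm
    exact main_tr H (by norm_num) hM hN
      (lagrangian_of_clique _ (by norm_num) (two_clique _ hM' hN))

end Pool.Agent.Lib.MP_efec9b_co.BU77
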