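import Mathlib

open MeasureTheory intervalIntegral Set

namespace Pool.Agent.Lib.MP_efec9b_co.QD78

/-- bounded measurable -/
def BM (f : ℝ → ℝ) : Prop := Measurable f ∧ ∃ C : ℝ, ∀ x, |f x| ≤ C

theorem BM.ii {f : ℝ → ℝ} (h : BM f) (a b : ℝ) : IntervalIntegrable f volume a b := by
  obtain ⟨hm, C, hC⟩ := h
  have : IntervalIntegrable (fun _ : ℝ => C) volume a b := intervalIntegrable_const
  refine this.mono_fun hm.aestronglyMeasurable ?_
  filter_upwards with x
  rw [Real.norm_eq_abs, Real.norm_eq_abs]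
  exact (hC x).trans (le_abs_self C)

theorem BM.mul {f g : ℝ → ℝ} (hf : BM f) (hg : BM g) : BM (fun x => f x * g x) := by
  obtain ⟨hm, C, hC⟩ := hf
  obtain ⟨hm', C', hC'⟩ := hg
  refine ⟨hm.mul hm', C * C', fun x => ?_⟩
  rw [abs_mul]
  exact mul_le_mul (hC x) (hC' x) (abs_nonneg _) ((abs_nonneg _).trans (hC x))

theorem BM.add {f g : ℝ → ℝ} (hf : BM f) (hg : BM g) : BM (fun x => f x + g x) := by
  obtain ⟨hm, C, hC⟩ := hf
  obtain ⟨hm', C', hC'⟩ := hg
  exact ⟨hm.add hm', C + C', fun x => (abs_add_le _ _).trans (add_le_add (hC x) (hC' x))⟩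

theorem BM.const (c : ℝ) : BM (fun _ => c) := ⟨measurable_const, |c|, fun _ => le_rfl⟩

theorem BM.neg {f : ℝ → ℝ} (hf : BM f) : BM (fun x => - f x) := by
  obtain ⟨hm, C, hC⟩ := hf
  exact ⟨hm.neg, C, fun x => by rw [abs_neg]; exact hC x⟩

theorem BM.sub {f g : ℝ → ℝ} (hf : BM f) (hg : BM g) : BM (fun x => f x - g x) := by
  simpa [sub_eq_add_neg] using hf.add hg.neg

theorem BM.cmul {f : ℝ → ℝ} (c : ℝ) (hf : BM f) : BM (fun x => c * f x) :=
  (BM.const c).mul hf

theorem BM.sq {f : ℝ → ℝ} (hf : BM f) : BM (fun x => f x ^ 2) := by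
  simpa [pow_two] using hf.mul hf

theorem BM.abs {f : ℝ → ℝ} (hf : BM f) : BM (fun x => |f x|) := by
  obtain ⟨hm, C, hC⟩ := hf
  exact ⟨hm.abs, C, fun x => by rw [abs_abs]; exact hC x⟩

theorem BM.sum {ι : Type*} (s : Finset ι) {f : ι → ℝ → ℝ} (hf : ∀ i ∈ s, BM (f i)) :
    BM (fun x => ∑ i ∈ s, f i x) := by
  classical
  induction s using Finset.induction_on with
  | empty => simpa using BM.const 0
  | insert a s ha ih =>
    simp only [Finset.sum_insert ha]
    exact (hf a (by simp)).add (ih fun i hi => hf i (by simp [hi]))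

/-- exchange of the order of integration on a triangle -/
theorem swap {f g : ℝ → ℝ} (hf : BM f) (hg : BM g) {T : ℝ} (hT : 0 ≤ T) :
    ∫ y in (0:ℝ)..T, f y * ∫ z in y..T, g z = ∫ z in (0:ℝ)..T, g z * ∫ y in (0:ℝ)..z, f y := by
  set F : ℝ → ℝ → ℝ := fun y z => if y < z then f y * g z else 0 with hF
  have hFm : Measurable (Function.uncurry F) := by
    have : Function.uncurry F = fun p : ℝ × ℝ => if p.1 < p.2 then f p.1 * g p.2 else 0 := by
      ext ⟨a, b⟩; rfl
    rw [this]
    exact Measurable.ite (measurableSet_lt measurable_fst measurable_snd)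
      ((hf.1.comp measurable_fst).mul (hg.1.comp measurable_snd)) measurable_const
  obtain ⟨C, hC⟩ := hf.2
  obtain ⟨C', hC'⟩ := hg.2
  have hFb : ∀ p : ℝ × ℝ, |Function.uncurry F p| ≤ C * C' := by
    rintro ⟨a, b⟩
    simp only [Function.uncurry, hF]
    have h0 : (0:ℝ) ≤ C * C' :=
      mul_nonneg ((abs_nonneg _).trans (hC 0)) ((abs_nonneg _).trans (hC' 0))
    split_ifs
    · rw [abs_mul]
      exact mul_le_mul (hC a) (hC' b) (abs_nonneg _) ((abs_nonneg _).trans (hC 0))
    · simpa using h0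
  have hFi : IntegrableOn (Function.uncurry F) (uIoc (0:ℝ) T ×ˢ uIoc (0:ℝ) T) := by
    have hfin : volume (uIoc (0:ℝ) T ×ˢ uIoc (0:ℝ) T) ≠ ⊤ := by
      rw [Measure.volume_eq_prod, Measure.prod_prod]
      simp [uIoc_of_le hT, Real.volume_Ioc]
      exact ENNReal.mul_ne_top ENNReal.ofReal_ne_top ENNReal.ofReal_ne_top
    refine Measure.integrableOn_of_bounded (M := C * C') hfin hFm.aestronglyMeasurable ?_
    filter_upwards with p
    rw [Real.norm_eq_abs]
    exact hFb p
  have h1 : ∀ y ∈ Icc (0:ℝ) T, ∫ z in (0:ℝ)..T, F y z = f y * ∫ z in y..T, g z := by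
    intro y hy
    have hii : ∀ a b : ℝ, IntervalIntegrable (F y) volume a b := by
      intro a b
      refine BM.ii ⟨?_, C * C', fun z => hFb (y, z)⟩ a b
      exact hFm.comp (measurable_const.prodMk measurable_id)
    rw [← integral_add_adjacent_intervals (hii 0 y) (hii y T)]
    have e1 : ∫ z in (0:ℝ)..y, F y z = 0 := by
      rw [integral_congr (g := fun _ => (0:ℝ))]
      · simp
      · intro z hz
        rw [uIcc_of_le hy.1] at hz
        simp only [hF]
        rw [if_neg (not_lt.mpr hz.2)]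
    have e2 : ∫ z in y..T, F y z = ∫ z in y..T, f y * g z := by
      rw [integral_of_le hy.2, integral_of_le hy.2]
      refine setIntegral_congr_fun measurableSet_Ioc ?_
      intro z hz
      simp only [hF]
      rw [if_pos hz.1]
    rw [e1, e2, zero_add, intervalIntegral.integral_const_mul]
  have h2 : ∀ z ∈ Icc (0:ℝ) T, ∫ y in (0:ℝ)..T, F y z = g z * ∫ y in (0:ℝ)..z, f y := by
    intro z hz
    have hii : ∀ a b : ℝ, IntervalIntegrable (fun y => F y z) volume a b := by
      intro a b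
      refine BM.ii ⟨?_, C * C', fun y => hFb (y, z)⟩ a b
      exact hFm.comp (measurable_id.prodMk measurable_const)
    rw [← integral_add_adjacent_intervals (hii 0 z) (hii z T)]
    have e1 : ∫ y in z..T, F y z = 0 := by
      rw [integral_congr (g := fun _ => (0:ℝ))]
      · simp
      · intro y hy
        rw [uIcc_of_le hz.2] at hy
        simp only [hF]
        rw [if_neg (not_lt.mpr hy.1)]
    have e2 : ∫ y in (0:ℝ)..z, F y z = ∫ y in (0:ℝ)..z, g z * f y := by
      rw [integral_of_le hz.1, integral_of_le hz.1, integral_Ioc_eq_integral_Ioo,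
        integral_Ioc_eq_integral_Ioo]
      refine setIntegral_congr_fun measurableSet_Ioo ?_
      intro y hy
      simp only [hF]
      rw [if_pos hy.2, mul_comm]
    rw [e1, e2, add_zero, intervalIntegral.integral_const_mul]
  have e3 : ∫ y in (0:ℝ)..T, f y * ∫ z in y..T, g z = ∫ y in (0:ℝ)..T, ∫ z in (0:ℝ)..T, F y z := by
    refine integral_congr fun y hy => ?_
    rw [uIcc_of_le hT] at hy
    exact (h1 y hy).symm
  have e4 : ∫ z in (0:ℝ)..T, g z * ∫ y in (0:ℝ)..z, f y = ∫ z in (0:ℝ)..T, ∫ y in (0:ℝ)..T, F y z := by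
    refine integral_congr fun z hz => ?_
    rw [uIcc_of_le hT] at hz
    exact (h2 z hz).symm
  rw [e3, e4]
  exact MeasureTheory.intervalIntegral_intervalIntegral_swap hFi

end Pool.Agent.Lib.MP_efec9b_co.QD78
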