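import Mathlib
import Pool.Agent.Lib.MP_efec9b_co.Sw78

open MeasureTheory intervalIntegral Set

namespace Pool.Agent.Lib.MP_efec9b_co.QD78

noncomputable section

/-- `1/e` -/
def t : ℝ := Real.exp (-1)

/-- `min(1, t/x)` -/
def U (x : ℝ) : ℝ := t / max x t

def R (x : ℝ) : ℝ := ∫ z in x..1, U z

/-- step function `1` before `s` -/
def st (s z : ℝ) : ℝ := if z < s then 1 else 0

theorem t_pos : 0 < t := Real.exp_pos _

theorem t_lt : t < 0.3679 := by
  have := Real.exp_one_gt_d9
  rw [t, Real.exp_neg, inv_lt_comm₀ (Real.exp_pos 1) (by norm_num)]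
  refine lt_trans ?_ this
  norm_num

theorem lt_t : 0.3678 < t := by
  have := Real.exp_one_lt_d9
  rw [t, Real.exp_neg, lt_inv_comm₀ (by norm_num) (Real.exp_pos 1)]
  refine lt_trans this ?_
  norm_num

theorem U_cont : Continuous U := by
  unfold U
  refine continuous_const.div (continuous_id.max continuous_const) fun x => ?_
  have : t ≤ max x t := le_max_right _ _
  exact (t_pos.trans_le this).ne'

theorem U_pos (x : ℝ) : 0 < U x :=
  div_pos t_pos (t_pos.trans_le (le_max_right _ _))

theorem U_le (x : ℝ) : U x ≤ 1 := by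
  unfold U
  rw [div_le_one (t_pos.trans_le (le_max_right _ _))]
  exact le_max_right _ _

theorem U_one {x : ℝ} (h : x ≤ t) : U x = 1 := by
  unfold U
  rw [max_eq_right h, div_self t_pos.ne']

theorem U_gt {x : ℝ} (h : t ≤ x) : U x = t / x := by
  unfold U
  rw [max_eq_left h]

theorem U_BM : BM U := ⟨U_cont.measurable, 1, fun x => by rw [abs_of_pos (U_pos x)]; exact U_le x⟩

theorem st_BM (s : ℝ) : BM (st s) := by
  refine ⟨Measurable.ite measurableSet_Iio measurable_const measurable_const, 1, fun x => ?_⟩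
  unfold st
  split_ifs <;> simp

theorem st_mul (s s' z : ℝ) : st s z * st s' z = st (min s s') z := by
  unfold st
  by_cases h : z < s <;> by_cases h' : z < s' <;> simp [h, h', lt_min_iff]

theorem int_st {a s b : ℝ} (h1 : a ≤ s) (h2 : s ≤ b) {F : ℝ → ℝ} (hF : BM F) :
    ∫ z in a..b, st s z * F z = ∫ z in a..s, F z := by
  have hii := ((st_BM s).mul hF).ii
  rw [← integral_add_adjacent_intervals (hii a s) (hii s b)]
  have e1 : ∫ z in s..b, st s z * F z = 0 := by
    rw [integral_congr (g := fun _ => (0:ℝ))]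
    · simp
    · intro z hz
      rw [uIcc_of_le h2] at hz
      simp [st, not_lt.mpr hz.1]
  have e2 : ∫ z in a..s, st s z * F z = ∫ z in a..s, F z := by
    rw [integral_of_le h1, integral_of_le h1, integral_Ioc_eq_integral_Ioo,
      integral_Ioc_eq_integral_Ioo]
    refine setIntegral_congr_fun measurableSet_Ioo ?_
    intro z hz
    simp [st, hz.2]
  rw [e1, e2, add_zero]

theorem prim_cont {f : ℝ → ℝ} (hf : BM f) (b : ℝ) : Continuous fun y => ∫ z in y..b, f z := by
  have : (fun y => ∫ z in y..b, f z) = fun y => - ∫ z in b..y, f z := by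
    ext y
    rw [integral_symm]
  rw [this]
  exact (continuous_primitive (fun a b => hf.ii a b) b).neg

theorem prim_cont' {f : ℝ → ℝ} (hf : BM f) (b : ℝ) : Continuous fun y => ∫ z in b..y, f z :=
  continuous_primitive (fun a b => hf.ii a b) b

variable {ι : Type*} [Fintype ι] (μ : ι → ℝ) (χ : ι → ℝ → ℝ)

def rho (i : ι) (y : ℝ) : ℝ := ∫ z in y..1, χ i z

def al (i : ι) (y : ℝ) : ℝ := ∫ z in (0:ℝ)..y, χ i z

def pp (y : ℝ) : ℝ := ∑ i, μ i * χ i y

def SS (i j : ι) : ℝ :=
  ∫ y in (0:ℝ)..1, χ i y * χ j y * (max (rho χ i y) (rho χ j y) - ∫ z in y..1, χ i z * χ j z)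

def Sl (i : ι) : ℝ :=
  ∫ y in (0:ℝ)..1, χ i y * (U y * (rho χ i y - al χ i y) + R (y + rho χ i y))

/-- pair function at fixed `y` -/
def gg (y z : ℝ) : ℝ := ∑ i, μ i * χ i y * χ i z

def GG (y z : ℝ) : ℝ := ∑ i, μ i * χ i y * st (y + rho χ i y) z

section
variable {χ} (hm : ∀ i, Measurable (χ i)) (h01 : ∀ i y, χ i y = 0 ∨ χ i y = 1)
include hm h01

theorem chi_BM (i : ι) : BM (χ i) := by
  refine ⟨hm i, 1, fun x => ?_⟩
  rcases h01 i x with h | h <;> simp [h]

omit hm in
theorem chi_nonneg (i : ι) (y : ℝ) : 0 ≤ χ i y := by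
  rcases h01 i y with h | h <;> simp [h]

omit hm in
theorem chi_le (i : ι) (y : ℝ) : χ i y ≤ 1 := by
  rcases h01 i y with h | h <;> simp [h]

theorem rho_nonneg (i : ι) {y : ℝ} (hy : y ≤ 1) : 0 ≤ rho χ i y :=
  integral_nonneg hy fun z _ => chi_nonneg h01 i z

theorem rho_le (i : ι) {y : ℝ} (hy : y ≤ 1) : rho χ i y ≤ 1 - y := by
  have : ∫ z in y..1, χ i z ≤ ∫ _ in y..1, (1:ℝ) := by
    refine integral_mono_on hy ((chi_BM hm h01 i).ii _ _) intervalIntegrable_const
      fun z _ => chi_le h01 i z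
  simpa [rho] using this

theorem int_gamma (i : ι) {y : ℝ} (hy : y ≤ 1) : ∫ z in y..1, st (y + rho χ i y) z = rho χ i y := by
  have h := int_st (a := y) (s := y + rho χ i y) (b := 1) (by linarith [rho_nonneg hm h01 i hy])
    (by linarith [rho_le hm h01 i hy]) (BM.const 1)
  simpa using h

theorem int_gamma2 (i j : ι) {y : ℝ} (hy : y ≤ 1) :
    ∫ z in y..1, st (y + rho χ i y) z * st (y + rho χ j y) z = min (rho χ i y) (rho χ j y) := by
  have e : ∀ z, st (y + rho χ i y) z * st (y + rho χ j y) z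
      = st (y + min (rho χ i y) (rho χ j y)) z := by
    intro z
    rw [st_mul, min_add_add_left]
  simp_rw [e]
  have h0 := rho_nonneg hm h01 i hy
  have h0' := rho_nonneg hm h01 j hy
  have h1 := rho_le hm h01 i hy
  have h := int_st (a := y) (s := y + min (rho χ i y) (rho χ j y)) (b := 1)
    (by linarith [le_min h0 h0']) (by linarith [min_le_left (rho χ i y) (rho χ j y)]) (BM.const 1)
  simpa using h

/-- the inner identity -/
theorem inner_id {y : ℝ} (hy : y ≤ 1) :
    ∑ i, ∑ j, μ i * μ j * (χ i y * χ j y *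
      (max (rho χ i y) (rho χ j y) - ∫ z in y..1, χ i z * χ j z))
    = ∫ z in y..1, (pp μ χ y * gg μ χ y z + pp μ χ y * GG μ χ y z
        - gg μ χ y z ^ 2 - GG μ χ y z ^ 2) := by
  have e1 : ∀ z, (pp μ χ y * gg μ χ y z + pp μ χ y * GG μ χ y z
        - gg μ χ y z ^ 2 - GG μ χ y z ^ 2)
      = ∑ i, ∑ j, μ i * μ j * (χ i y * χ j y * (χ i z + st (y + rho χ i y) z
          - χ i z * χ j z - st (y + rho χ i y) z * st (y + rho χ j y) z)) := by
    intro z
    have a1 : pp μ χ y * gg μ χ y z = ∑ i, ∑ j, μ i * μ j * (χ i y * χ j y * χ i z) := by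
      rw [mul_comm, pp, gg, Finset.sum_mul_sum]
      refine Finset.sum_congr rfl fun i _ => Finset.sum_congr rfl fun j _ => by ring
    have a2 : pp μ χ y * GG μ χ y z
        = ∑ i, ∑ j, μ i * μ j * (χ i y * χ j y * st (y + rho χ i y) z) := by
      rw [mul_comm, pp, GG, Finset.sum_mul_sum]
      refine Finset.sum_congr rfl fun i _ => Finset.sum_congr rfl fun j _ => by ring
    have a3 : gg μ χ y z ^ 2 = ∑ i, ∑ j, μ i * μ j * (χ i y * χ j y * (χ i z * χ j z)) := by
      rw [pow_two, gg, Finset.sum_mul_sum]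
      refine Finset.sum_congr rfl fun i _ => Finset.sum_congr rfl fun j _ => by ring
    have a4 : GG μ χ y z ^ 2 = ∑ i, ∑ j, μ i * μ j * (χ i y * χ j y *
        (st (y + rho χ i y) z * st (y + rho χ j y) z)) := by
      rw [pow_two, GG, Finset.sum_mul_sum]
      refine Finset.sum_congr rfl fun i _ => Finset.sum_congr rfl fun j _ => by ring
    rw [a1, a2, a3, a4, ← Finset.sum_add_distrib, ← Finset.sum_sub_distrib,
      ← Finset.sum_sub_distrib]
    refine Finset.sum_congr rfl fun i _ => ?_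
    rw [← Finset.sum_add_distrib, ← Finset.sum_sub_distrib, ← Finset.sum_sub_distrib]
    refine Finset.sum_congr rfl fun j _ => by ring
  simp_rw [e1]
  have hc := chi_BM hm h01
  rw [intervalIntegral.integral_finsetSum]
  swap
  · intro i _
    refine (BM.sum _ fun j _ => ?_).ii _ _
    exact BM.cmul _ (BM.cmul _ ((((hc i).add (st_BM _)).sub ((hc i).mul (hc j))).sub
      ((st_BM _).mul (st_BM _))))
  have e2 : ∀ i, ∫ z in y..1, ∑ j, μ i * μ j * (χ i y * χ j y * (χ i z + st (y + rho χ i y) z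
          - χ i z * χ j z - st (y + rho χ i y) z * st (y + rho χ j y) z))
      = ∑ j, μ i * μ j * (χ i y * χ j y * (rho χ i y + rho χ i y
          - (∫ z in y..1, χ i z * χ j z) - min (rho χ i y) (rho χ j y))) := by
    intro i
    rw [intervalIntegral.integral_finsetSum]
    · refine Finset.sum_congr rfl fun j _ => ?_
      rw [intervalIntegral.integral_const_mul, intervalIntegral.integral_const_mul,
        intervalIntegral.integral_sub, intervalIntegral.integral_sub, intervalIntegral.integral_add,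
        int_gamma hm h01 i hy, int_gamma2 hm h01 i j hy]
      · rfl
      · exact (hc i).ii _ _
      · exact (st_BM _).ii _ _
      · exact ((hc i).add (st_BM _)).ii _ _
      · exact ((hc i).mul (hc j)).ii _ _
      · exact (((hc i).add (st_BM _)).sub ((hc i).mul (hc j))).ii _ _
      · exact ((st_BM _).mul (st_BM _)).ii _ _
    · intro j _
      refine BM.ii ?_ _ _
      exact BM.cmul _ (BM.cmul _ ((((hc i).add (st_BM _)).sub ((hc i).mul (hc j))).sub
        ((st_BM _).mul (st_BM _))))
  simp_rw [e2]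
  have e3 : ∑ i, ∑ j, μ i * μ j * (χ i y * χ j y * (rho χ i y - rho χ j y)) = 0 := by
    have s : ∑ i, ∑ j, μ i * μ j * (χ i y * χ j y * rho χ i y)
        = ∑ i, ∑ j, μ i * μ j * (χ i y * χ j y * rho χ j y) := by
      rw [Finset.sum_comm]
      refine Finset.sum_congr rfl fun i _ => Finset.sum_congr rfl fun j _ => by ring
    have : ∀ i j, μ i * μ j * (χ i y * χ j y * (rho χ i y - rho χ j y))
        = μ i * μ j * (χ i y * χ j y * rho χ i y) - μ i * μ j * (χ i y * χ j y * rho χ j y) :=
      fun i j => by ring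
    simp_rw [this, Finset.sum_sub_distrib]
    rw [s, sub_self]
  rw [← sub_eq_zero, ← Finset.sum_sub_distrib]
  rw [← neg_eq_zero, ← e3, ← Finset.sum_neg_distrib]
  refine Finset.sum_congr rfl fun i _ => ?_
  rw [← Finset.sum_sub_distrib, ← Finset.sum_neg_distrib]
  refine Finset.sum_congr rfl fun j _ => ?_
  have : max (rho χ i y) (rho χ j y) = rho χ i y + rho χ j y - min (rho χ i y) (rho χ j y) := by
    linarith [max_add_min (rho χ i y) (rho χ j y)]
  rw [this]
  ring

end

end

end Pool.Agent.Lib.MP_efec9b_co.QD78
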