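import Mathlib
import Pool.Agent.Lib.MP_efec9b_co.QDa78

open MeasureTheory intervalIntegral Set

namespace Pool.Agent.Lib.MP_efec9b_co.QD78

noncomputable section

variable {ι : Type*} [Fintype ι] (μ : ι → ℝ) (χ : ι → ℝ → ℝ)

def Lin (y : ℝ) : ℝ :=
  ∑ i, μ i * (χ i y * (2 * (U y * rho χ i y) - 2 * (∫ z in y..1, χ i z * U z)
    + 2 * R (y + rho χ i y))) - 2 * (U y * R y) + 2 * ∫ z in y..1, U z ^ 2

def qq (y : ℝ) : ℝ := 1 - pp μ χ y

def DD (y : ℝ) : ℝ := pp μ χ y - U y

def cc (z : ℝ) : ℝ := (1 - z) / (2 * t)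

def E1 : ℝ := ∫ z in t..1, (2 * cc z - cc z ^ 2) * DD μ χ z ^ 2

def E2 : ℝ := ∫ z in t..1, cc z * |DD μ χ z|

def Psi (y : ℝ) : ℝ :=
  ∑ i, ∑ j, μ i * μ j * (χ i y * χ j y *
      (max (rho χ i y) (rho χ j y) - ∫ z in y..1, χ i z * χ j z))

theorem R_sub {a b : ℝ} : R a - (∫ z in a..b, U z) = R b := by
  unfold R
  rw [← integral_add_adjacent_intervals (U_BM.ii a b) (U_BM.ii b 1)]
  ring

section
variable {μ χ} (hm : ∀ i, Measurable (χ i)) (h01 : ∀ i y, χ i y = 0 ∨ χ i y = 1)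
include hm h01

theorem gg_BM (y : ℝ) : BM (gg μ χ y) :=
  BM.sum _ fun i _ => BM.cmul _ (chi_BM hm h01 i)

omit hm h01 in
theorem GG_BM (y : ℝ) : BM (GG μ χ y) :=
  BM.sum _ fun i _ => BM.cmul _ (st_BM _)

theorem pp_BM : BM (pp μ χ) :=
  BM.sum _ fun i _ => BM.cmul _ (chi_BM hm h01 i)

theorem qq_BM : BM (qq μ χ) := (BM.const 1).sub (pp_BM hm h01)

theorem DD_BM : BM (DD μ χ) := (pp_BM hm h01).sub U_BM

theorem lin_int {y : ℝ} (hy : y ≤ 1) :
    ∫ z in y..1, ((U y - 2 * U z) * (gg μ χ y z + GG μ χ y z) + 2 * U z * pp μ χ y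
      - 2 * U y * U z + 2 * U z ^ 2) = Lin μ χ y := by
  have hc := chi_BM hm h01
  have e1 : ∀ z, ((U y - 2 * U z) * (gg μ χ y z + GG μ χ y z) + 2 * U z * pp μ χ y
      - 2 * U y * U z + 2 * U z ^ 2)
      = (∑ i, μ i * (χ i y * (U y * χ i z + U y * st (y + rho χ i y) z - 2 * (χ i z * U z)
          - 2 * (st (y + rho χ i y) z * U z) + 2 * U z)))
        - 2 * (U y * U z) + 2 * U z ^ 2 := by
    intro z
    have : (U y - 2 * U z) * (gg μ χ y z + GG μ χ y z) + 2 * U z * pp μ χ y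
      = ∑ i, μ i * (χ i y * (U y * χ i z + U y * st (y + rho χ i y) z - 2 * (χ i z * U z)
          - 2 * (st (y + rho χ i y) z * U z) + 2 * U z)) := by
      unfold gg GG pp
      rw [← Finset.sum_add_distrib, Finset.mul_sum, Finset.mul_sum, ← Finset.sum_add_distrib]
      refine Finset.sum_congr rfl fun i _ => by ring
    rw [this]
    ring
  simp_rw [e1]
  have b1 : ∀ i, BM (fun z => U y * χ i z + U y * st (y + rho χ i y) z - 2 * (χ i z * U z)
          - 2 * (st (y + rho χ i y) z * U z) + 2 * U z) := fun i =>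
    (((((hc i).cmul _).add ((st_BM _).cmul _)).sub (((hc i).mul U_BM).cmul _)).sub
      (((st_BM _).mul U_BM).cmul _)).add (U_BM.cmul _)
  have b2 : BM (fun z => ∑ i, μ i * (χ i y * (U y * χ i z + U y * st (y + rho χ i y) z
      - 2 * (χ i z * U z) - 2 * (st (y + rho χ i y) z * U z) + 2 * U z))) :=
    BM.sum _ fun i _ => ((b1 i).cmul _).cmul _
  rw [intervalIntegral.integral_add, intervalIntegral.integral_sub,
    intervalIntegral.integral_finsetSum]
  · rw [intervalIntegral.integral_const_mul, intervalIntegral.integral_const_mul,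
      intervalIntegral.integral_const_mul]
    unfold Lin
    have e2 : ∀ i, ∫ z in y..1, μ i * (χ i y * (U y * χ i z + U y * st (y + rho χ i y) z
        - 2 * (χ i z * U z) - 2 * (st (y + rho χ i y) z * U z) + 2 * U z))
        = μ i * (χ i y * (2 * (U y * rho χ i y) - 2 * (∫ z in y..1, χ i z * U z)
          + 2 * R (y + rho χ i y))) := by
      intro i
      rw [intervalIntegral.integral_const_mul, intervalIntegral.integral_const_mul,
        intervalIntegral.integral_add, intervalIntegral.integral_sub,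
        intervalIntegral.integral_sub, intervalIntegral.integral_add,
        intervalIntegral.integral_const_mul, intervalIntegral.integral_const_mul,
        intervalIntegral.integral_const_mul, intervalIntegral.integral_const_mul,
        intervalIntegral.integral_const_mul, int_gamma hm h01 i hy,
        int_st (by linarith [rho_nonneg hm h01 i hy]) (by linarith [rho_le hm h01 i hy]) U_BM,
        ← R_sub (a := y) (b := y + rho χ i y)]
      · simp only [rho, R]
        ring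
      · exact ((hc i).cmul _).ii _ _
      · exact ((st_BM _).cmul _).ii _ _
      · exact (((hc i).cmul _).add ((st_BM _).cmul _)).ii _ _
      · exact (((hc i).mul U_BM).cmul _).ii _ _
      · exact ((((hc i).cmul _).add ((st_BM _).cmul _)).sub (((hc i).mul U_BM).cmul _)).ii _ _
      · exact (((st_BM _).mul U_BM).cmul _).ii _ _
      · exact (((((hc i).cmul _).add ((st_BM _).cmul _)).sub (((hc i).mul U_BM).cmul _)).sub
          (((st_BM _).mul U_BM).cmul _)).ii _ _
      · exact (U_BM.cmul _).ii _ _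
    simp_rw [e2]
    simp only [R]
  · intro i _
    exact (((b1 i).cmul _).cmul _).ii _ _
  · exact b2.ii _ _
  · exact ((U_BM.cmul _).cmul _).ii _ _
  · exact (b2.sub ((U_BM.cmul _).cmul _)).ii _ _
  · exact (U_BM.sq.cmul _).ii _ _

variable (h0 : ∀ i, 0 ≤ μ i) (h1 : ∑ i, μ i = 1)
include h0

omit hm in
theorem gg_le (y z : ℝ) : gg μ χ y z ≤ pp μ χ y := by
  unfold gg pp
  refine Finset.sum_le_sum fun i _ => ?_
  have a := chi_nonneg h01 i y
  have b := chi_le h01 i z
  calc μ i * χ i y * χ i z ≤ μ i * χ i y * 1 :=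
        mul_le_mul_of_nonneg_left b (mul_nonneg (h0 i) a)
    _ = _ := mul_one _

omit hm in
theorem gg_le' (y z : ℝ) : gg μ χ y z ≤ pp μ χ z := by
  unfold gg pp
  refine Finset.sum_le_sum fun i _ => ?_
  have a := chi_nonneg h01 i z
  have b := chi_le h01 i y
  calc μ i * χ i y * χ i z = μ i * χ i z * χ i y := by ring
    _ ≤ μ i * χ i z * 1 := mul_le_mul_of_nonneg_left b (mul_nonneg (h0 i) a)
    _ = _ := mul_one _

omit hm in
theorem GG_le (y z : ℝ) : GG μ χ y z ≤ pp μ χ y := by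
  unfold GG pp
  refine Finset.sum_le_sum fun i _ => ?_
  have a := chi_nonneg h01 i y
  have b : st (y + rho χ i y) z ≤ 1 := by unfold st; split_ifs <;> norm_num
  calc μ i * χ i y * st (y + rho χ i y) z ≤ μ i * χ i y * 1 :=
        mul_le_mul_of_nonneg_left b (mul_nonneg (h0 i) a)
    _ = _ := mul_one _

include h1

omit hm in
theorem pp_sub_gg (y z : ℝ) : pp μ χ z - gg μ χ y z ≤ 1 - pp μ χ y := by
  rw [← h1]
  unfold gg pp
  rw [← Finset.sum_sub_distrib, ← Finset.sum_sub_distrib]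
  refine Finset.sum_le_sum fun i _ => ?_
  have a := chi_nonneg h01 i z
  have b := chi_le h01 i y
  have c := chi_le h01 i z
  have := mul_nonneg (h0 i) (mul_nonneg (sub_nonneg.2 b) (sub_nonneg.2 c))
  nlinarith

omit hm in
theorem pp_le_one (y : ℝ) : pp μ χ y ≤ 1 := by
  rw [← h1]
  unfold pp
  refine Finset.sum_le_sum fun i _ => ?_
  have b := chi_le h01 i y
  have := mul_nonneg (h0 i) (sub_nonneg.2 b)
  nlinarith

omit hm h1 in
theorem pp_nonneg (y : ℝ) : 0 ≤ pp μ χ y :=
  Finset.sum_nonneg fun i _ => mul_nonneg (h0 i) (chi_nonneg h01 i y)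

omit h1 h0 in
theorem inner_hi {y : ℝ} (hy : y ≤ 1) :
    Psi μ χ y ≤ Lin μ χ y + (1 - y) / 2 * DD μ χ y ^ 2 := by
  unfold Psi
  rw [inner_id μ hm h01 hy, ← lin_int hm h01 hy]
  have hg := gg_BM (μ := μ) hm h01 y
  have hG : BM (GG μ χ y) := GG_BM y
  have bl : BM (fun z => (U y - 2 * U z) * (gg μ χ y z + GG μ χ y z) + 2 * U z * pp μ χ y
      - 2 * U y * U z + 2 * U z ^ 2) :=
    (((((BM.const _).sub (U_BM.cmul _)).mul (hg.add hG)).add
      ((U_BM.cmul _).mul (BM.const _))).sub ((BM.const _).mul U_BM)).add (U_BM.sq.cmul _)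
  have bf : BM (fun z => (pp μ χ y * gg μ χ y z + pp μ χ y * GG μ χ y z
        - gg μ χ y z ^ 2 - GG μ χ y z ^ 2)) :=
    (((hg.cmul _).add (hG.cmul _)).sub hg.sq).sub hG.sq
  have e : (1 - y) / 2 * DD μ χ y ^ 2 = ∫ _ in y..1, DD μ χ y ^ 2 / 2 := by
    rw [intervalIntegral.integral_const, smul_eq_mul]
    ring
  rw [e, ← intervalIntegral.integral_add (bl.ii _ _) intervalIntegrable_const]
  refine integral_mono_on hy (bf.ii _ _) ((bl.add (BM.const _)).ii _ _) fun z _ => ?_
  unfold DD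
  nlinarith [sq_nonneg (gg μ χ y z - U z - (pp μ χ y - U y) / 2),
    sq_nonneg (GG μ χ y z - U z - (pp μ χ y - U y) / 2)]

theorem inner_lo {y : ℝ} (hy : y ≤ t) :
    Psi μ χ y ≤ Lin μ χ y + (qq μ χ y * (∫ z in y..t, qq μ χ z) - ∫ z in y..t, qq μ χ z ^ 2)
      + ((1 - t) / 2 * qq μ χ y ^ 2 - E1 μ χ + qq μ χ y * E2 μ χ) := by
  unfold Psi
  have ht1 : t ≤ 1 := by linarith [t_lt]
  rw [inner_id μ hm h01 (hy.trans ht1), ← lin_int hm h01 (hy.trans ht1)]
  have hg := gg_BM (μ := μ) hm h01 y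
  have hG : BM (GG μ χ y) := GG_BM y
  have hq := qq_BM (μ := μ) hm h01
  have hD := DD_BM (μ := μ) hm h01
  have bl : BM (fun z => (U y - 2 * U z) * (gg μ χ y z + GG μ χ y z) + 2 * U z * pp μ χ y
      - 2 * U y * U z + 2 * U z ^ 2) :=
    (((((BM.const _).sub (U_BM.cmul _)).mul (hg.add hG)).add
      ((U_BM.cmul _).mul (BM.const _))).sub ((BM.const _).mul U_BM)).add (U_BM.sq.cmul _)
  have bf : BM (fun z => (pp μ χ y * gg μ χ y z + pp μ χ y * GG μ χ y z
        - gg μ χ y z ^ 2 - GG μ χ y z ^ 2)) :=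
    (((hg.cmul _).add (hG.cmul _)).sub hg.sq).sub hG.sq
  have cont_c : Continuous cc := by unfold cc; fun_prop
  rw [← integral_add_adjacent_intervals (bf.ii y t) (bf.ii t 1),
    ← integral_add_adjacent_intervals (bl.ii y t) (bl.ii t 1)]
  have hUy : U y = 1 := U_one hy
  have part1 : ∫ z in y..t, (pp μ χ y * gg μ χ y z + pp μ χ y * GG μ χ y z
        - gg μ χ y z ^ 2 - GG μ χ y z ^ 2)
      ≤ (∫ z in y..t, ((U y - 2 * U z) * (gg μ χ y z + GG μ χ y z) + 2 * U z * pp μ χ y
      - 2 * U y * U z + 2 * U z ^ 2))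
        + (qq μ χ y * (∫ z in y..t, qq μ χ z) - ∫ z in y..t, qq μ χ z ^ 2) := by
    rw [← intervalIntegral.integral_const_mul,
      ← intervalIntegral.integral_sub ((hq.cmul _).ii _ _) (hq.sq.ii _ _),
      ← intervalIntegral.integral_add (bl.ii _ _) (((hq.cmul _).sub hq.sq).ii _ _)]
    refine integral_mono_on hy (bf.ii _ _) ((bl.add ((hq.cmul _).sub hq.sq)).ii _ _)
      fun z hz => ?_
    have hUz : U z = 1 := U_one hz.2
    rw [hUy, hUz]
    unfold qq
    have a1 := gg_le h01 h0 y z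
    have a2 := gg_le' h01 h0 y z
    have a3 := GG_le h01 h0 y z
    have a4 := pp_le_one h01 h0 h1 y
    have a5 := pp_le_one h01 h0 h1 z
    have m1 : (1 - GG μ χ y z) * (1 - GG μ χ y z - (1 - pp μ χ y)) ≥ 0 :=
      mul_nonneg (by linarith) (by linarith)
    have m2 : ((1 - gg μ χ y z) - (1 - pp μ χ z)) * ((1 - gg μ χ y z) + (1 - pp μ χ z)
        - (1 - pp μ χ y)) ≥ 0 := mul_nonneg (by linarith) (by linarith)
    nlinarith
  have part2 : ∫ z in t..1, (pp μ χ y * gg μ χ y z + pp μ χ y * GG μ χ y z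
        - gg μ χ y z ^ 2 - GG μ χ y z ^ 2)
      ≤ (∫ z in t..1, ((U y - 2 * U z) * (gg μ χ y z + GG μ χ y z) + 2 * U z * pp μ χ y
      - 2 * U y * U z + 2 * U z ^ 2))
        + ((1 - t) / 2 * qq μ χ y ^ 2 - E1 μ χ + qq μ χ y * E2 μ χ) := by
    have e : (1 - t) / 2 * qq μ χ y ^ 2 = ∫ _ in t..1, qq μ χ y ^ 2 / 2 := by
      rw [intervalIntegral.integral_const, smul_eq_mul]
      ring
    have i1 : IntervalIntegrable (fun z => (2 * cc z - cc z ^ 2) * DD μ χ z ^ 2) volume t 1 :=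
      (hD.sq.ii t 1).continuousOn_mul (by fun_prop)
    have i2 : IntervalIntegrable (fun z => cc z * |DD μ χ z|) volume t 1 :=
      (hD.abs.ii t 1).continuousOn_mul (by fun_prop)
    rw [e, E1, E2, ← intervalIntegral.integral_const_mul,
      ← intervalIntegral.integral_sub intervalIntegrable_const i1,
      ← intervalIntegral.integral_add (intervalIntegrable_const.sub i1) (i2.const_mul _),
      ← intervalIntegral.integral_add (bl.ii _ _)
        ((intervalIntegrable_const.sub i1).add (i2.const_mul _))]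
    refine integral_mono_on ht1 (bf.ii _ _) ((bl.ii _ _).add
      ((intervalIntegrable_const.sub i1).add (i2.const_mul _))) fun z hz => ?_
    rw [hUy]
    unfold qq DD
    have hc0 : 0 ≤ cc z := by
      unfold cc
      exact div_nonneg (by linarith [hz.2]) (by linarith [t_pos])
    have a2 := gg_le' h01 h0 y z
    have a3 := pp_sub_gg h01 h0 h1 y z
    have a4 := pp_le_one h01 h0 h1 y
    set c := cc z
    set q := 1 - pp μ χ y with hq'
    set D := pp μ χ z - U z with hD'
    set s := gg μ χ y z - U z + q / 2 with hs'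
    have hs : |D| - q / 2 ≤ |s| := by
      have h2 : s = D - (pp μ χ z - gg μ χ y z - q / 2) := by rw [hs', hD']; ring
      have h3 : |pp μ χ z - gg μ χ y z - q / 2| ≤ q / 2 := by
        rw [abs_le]; constructor <;> linarith
      have h4 := abs_sub_abs_le_abs_sub D (pp μ χ z - gg μ χ y z - q / 2)
      rw [← h2] at h4
      linarith
    have k1 : 0 ≤ (|s| - c * |D|) ^ 2 := sq_nonneg _
    have k2 : |s| ^ 2 = s ^ 2 := sq_abs s
    have k3 : |D| ^ 2 = D ^ 2 := sq_abs D
    have k4 : 0 ≤ c * |D| * (|s| - (|D| - q / 2)) :=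
      mul_nonneg (mul_nonneg hc0 (abs_nonneg _)) (by linarith)
    have k5 : 0 ≤ (GG μ χ y z - U z + q / 2) ^ 2 := sq_nonneg _
    have hg' : gg μ χ y z = s + U z - q / 2 := by rw [hs']; ring
    have hp' : pp μ χ y = 1 - q := by rw [hq']; ring
    have key : - s ^ 2 ≤ -((2 * c - c ^ 2) * D ^ 2) + q * (c * |D|) := by nlinarith
    rw [hg', hp']
    nlinarith
  linarith

end

end

end Pool.Agent.Lib.MP_efec9b_co.QD78
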