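import Mathlib
import Pool.Agent.Lib.MP_efec9b_co.QDb78

open MeasureTheory intervalIntegral Set

namespace Pool.Agent.Lib.MP_efec9b_co.QD78

noncomputable section

theorem t_bds : 0.367879 < t ∧ t < 0.36788 := by
  have h1 := Real.exp_one_gt_d9
  have h2 := Real.exp_one_lt_d9
  constructor
  · rw [t, Real.exp_neg, lt_inv_comm₀ (by norm_num) (Real.exp_pos 1)]
    refine lt_trans h2 ?_
    norm_num
  · rw [t, Real.exp_neg, inv_lt_comm₀ (Real.exp_pos 1) (by norm_num)]
    refine lt_trans ?_ h1
    norm_num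

theorem R_cont : Continuous R := prim_cont U_BM 1

/-- `∫_0^1 U = 2 t` -/
theorem R_zero : R 0 = 2 * t := by
  have ht := t_bds
  have e0 : ∫ z in (0:ℝ)..t, U z = t := by
    rw [integral_congr (g := fun _ => (1:ℝ))]
    · simp
    · intro z hz
      rw [uIcc_of_le t_pos.le] at hz
      exact U_one hz.2
  have e1 : ∫ z in t..1, U z = t := by
    rw [integral_congr (g := fun z => t * z⁻¹)]
    · rw [intervalIntegral.integral_const_mul, integral_inv_of_pos t_pos one_pos, one_div]
      have : Real.log t⁻¹ = 1 := by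
        rw [Real.log_inv, t, Real.log_exp]; norm_num
      rw [this, mul_one]
    · intro z hz
      rw [uIcc_of_le (by linarith)] at hz
      simp only
      rw [U_gt hz.1, div_eq_mul_inv]
  unfold R
  rw [← integral_add_adjacent_intervals (U_BM.ii 0 t) (U_BM.ii t 1), e0, e1]
  ring

theorem int_zU2 : ∫ z in (0:ℝ)..1, z * U z ^ 2 = 3 / 2 * t ^ 2 := by
  have ht := t_bds
  have hi : ∀ a b, IntervalIntegrable (fun z => z * U z ^ 2) volume a b := fun a b =>
    (continuous_id.mul (U_cont.pow 2)).intervalIntegrable a b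
  have e0 : ∫ z in (0:ℝ)..t, z * U z ^ 2 = t ^ 2 / 2 := by
    rw [integral_congr (g := fun z => z)]
    · rw [integral_id]; ring
    · intro z hz
      rw [uIcc_of_le t_pos.le] at hz
      simp only
      rw [U_one hz.2]; ring
  have e1 : ∫ z in t..1, z * U z ^ 2 = t ^ 2 := by
    rw [integral_congr (g := fun z => t ^ 2 * z⁻¹)]
    · rw [intervalIntegral.integral_const_mul, integral_inv_of_pos t_pos one_pos, one_div]
      have : Real.log t⁻¹ = 1 := by
        rw [Real.log_inv, t, Real.log_exp]; norm_num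
      rw [this, mul_one]
    · intro z hz
      rw [uIcc_of_le (by linarith)] at hz
      have hz0 : z ≠ 0 := by linarith [t_pos, hz.1]
      simp only
      rw [U_gt hz.1]
      field_simp
  rw [← integral_add_adjacent_intervals (hi 0 t) (hi t 1), e0, e1]
  ring

/-- swap with equal functions -/
theorem swap_self {f : ℝ → ℝ} (hf : BM f) {T : ℝ} (hT : 0 ≤ T) :
    ∫ y in (0:ℝ)..T, f y * ∫ z in y..T, f z = (∫ y in (0:ℝ)..T, f y) ^ 2 / 2 := by
  have h := swap hf hf hT
  have i1 : IntervalIntegrable (fun y => f y * ∫ z in y..T, f z) volume 0 T :=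
    (hf.ii 0 T).mul_continuousOn (prim_cont hf T).continuousOn
  have i2 : IntervalIntegrable (fun y => f y * ∫ z in (0:ℝ)..y, f z) volume 0 T :=
    (hf.ii 0 T).mul_continuousOn (prim_cont' hf 0).continuousOn
  have e : (∫ y in (0:ℝ)..T, f y * ∫ z in y..T, f z) + (∫ y in (0:ℝ)..T, f y * ∫ z in (0:ℝ)..y, f z)
      = (∫ y in (0:ℝ)..T, f y) ^ 2 := by
    rw [← intervalIntegral.integral_add i1 i2, pow_two, ← intervalIntegral.integral_mul_const]
    refine integral_congr fun y _ => ?_
    rw [← mul_add, add_comm (∫ z in y..T, f z),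
      integral_add_adjacent_intervals (hf.ii 0 y) (hf.ii y T)]
  linarith

theorem swap_one {g : ℝ → ℝ} (hg : BM g) {T : ℝ} (hT : 0 ≤ T) :
    ∫ y in (0:ℝ)..T, ∫ z in y..T, g z = ∫ z in (0:ℝ)..T, z * g z := by
  have h := swap (BM.const 1) hg hT
  simp only [one_mul, intervalIntegral.integral_const, smul_eq_mul, mul_one, sub_zero] at h
  rw [h]
  refine integral_congr fun y _ => ?_
  ring

variable {ι : Type*} [Fintype ι] {μ : ι → ℝ} {χ : ι → ℝ → ℝ}
  (hm : ∀ i, Measurable (χ i)) (h01 : ∀ i y, χ i y = 0 ∨ χ i y = 1)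

section
include hm h01

theorem rho_cont (i : ι) : Continuous (rho χ i) := prim_cont (chi_BM hm h01 i) 1

theorem al_cont (i : ι) : Continuous (al χ i) := prim_cont' (chi_BM hm h01 i) 0

theorem SS_ii (i j : ι) (a b : ℝ) : IntervalIntegrable (fun y => χ i y * χ j y *
    (max (rho χ i y) (rho χ j y) - ∫ z in y..1, χ i z * χ j z)) volume a b :=
  (((chi_BM hm h01 i).mul (chi_BM hm h01 j)).ii a b).mul_continuousOn
    (((rho_cont hm h01 i).max (rho_cont hm h01 j)).sub
      (prim_cont ((chi_BM hm h01 i).mul (chi_BM hm h01 j)) 1)).continuousOn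

theorem Psi_ii (a b : ℝ) : IntervalIntegrable (Psi μ χ) volume a b := by
  have : Psi μ χ = ∑ i, ∑ j, fun y => μ i * μ j * (χ i y * χ j y *
      (max (rho χ i y) (rho χ j y) - ∫ z in y..1, χ i z * χ j z)) := by
    ext y
    simp only [Finset.sum_apply]
    rfl
  rw [this]
  exact IntervalIntegrable.sum _ fun i _ => IntervalIntegrable.sum _ fun j _ =>
    (SS_ii hm h01 i j a b).const_mul _

theorem sum_SS : ∑ i, ∑ j, μ i * μ j * SS χ i j = ∫ y in (0:ℝ)..1, Psi μ χ y := by
  unfold Psi
  rw [intervalIntegral.integral_finsetSum]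
  · refine Finset.sum_congr rfl fun i _ => ?_
    rw [intervalIntegral.integral_finsetSum]
    · refine Finset.sum_congr rfl fun j _ => ?_
      rw [intervalIntegral.integral_const_mul]
      rfl
    · intro j _
      exact (SS_ii hm h01 i j 0 1).const_mul _
  · intro i _
    have : (fun y => ∑ j, μ i * μ j * (χ i y * χ j y *
      (max (rho χ i y) (rho χ j y) - ∫ z in y..1, χ i z * χ j z)))
      = ∑ j, fun y => μ i * μ j * (χ i y * χ j y *
      (max (rho χ i y) (rho χ j y) - ∫ z in y..1, χ i z * χ j z)) := by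
      ext y
      simp only [Finset.sum_apply]
    rw [this]
    exact IntervalIntegrable.sum _ fun j _ => (SS_ii hm h01 i j 0 1).const_mul _

theorem lin_term_ii (i : ι) (a b : ℝ) : IntervalIntegrable (fun y => μ i * (χ i y *
    (2 * (U y * rho χ i y) - 2 * (∫ z in y..1, χ i z * U z)
    + 2 * R (y + rho χ i y)))) volume a b := by
  refine IntervalIntegrable.const_mul (((chi_BM hm h01 i).ii a b).mul_continuousOn ?_) _
  refine Continuous.continuousOn ?_
  exact (((continuous_const.mul (U_cont.mul (rho_cont hm h01 i))).sub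
    (continuous_const.mul (prim_cont ((chi_BM hm h01 i).mul U_BM) 1))).add
    (continuous_const.mul (R_cont.comp (continuous_id.add (rho_cont hm h01 i)))))

theorem lin_sum_ii (a b : ℝ) : IntervalIntegrable (fun y => ∑ i, μ i * (χ i y *
    (2 * (U y * rho χ i y) - 2 * (∫ z in y..1, χ i z * U z)
    + 2 * R (y + rho χ i y)))) volume a b := by
  have : (fun y => ∑ i, μ i * (χ i y *
    (2 * (U y * rho χ i y) - 2 * (∫ z in y..1, χ i z * U z)
    + 2 * R (y + rho χ i y)))) = ∑ i, fun y => μ i * (χ i y *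
    (2 * (U y * rho χ i y) - 2 * (∫ z in y..1, χ i z * U z)
    + 2 * R (y + rho χ i y))) := by
    ext y
    simp only [Finset.sum_apply]
  rw [this]
  exact IntervalIntegrable.sum _ fun i _ => lin_term_ii hm h01 i a b

omit hm h01 [Fintype ι] in
theorem UR_ii (a b : ℝ) : IntervalIntegrable (fun y => 2 * (U y * R y)) volume a b :=
  (continuous_const.mul (U_cont.mul R_cont)).intervalIntegrable a b

omit hm h01 [Fintype ι] in
theorem U2_ii (a b : ℝ) : IntervalIntegrable (fun y => 2 * ∫ z in y..1, U z ^ 2) volume a b :=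
  (continuous_const.mul (prim_cont U_BM.sq 1)).intervalIntegrable a b

theorem Lin_ii (a b : ℝ) : IntervalIntegrable (Lin μ χ) volume a b := by
  unfold Lin
  exact ((lin_sum_ii hm h01 a b).sub (UR_ii a b)).add (U2_ii a b)

theorem int_Lin : ∫ y in (0:ℝ)..1, Lin μ χ y = 2 * ∑ i, μ i * Sl χ i - t ^ 2 := by
  unfold Lin
  rw [intervalIntegral.integral_add ((lin_sum_ii hm h01 0 1).sub (UR_ii 0 1)) (U2_ii 0 1),
    intervalIntegral.integral_sub (lin_sum_ii hm h01 0 1) (UR_ii 0 1),
    intervalIntegral.integral_finsetSum fun i _ => lin_term_ii hm h01 i 0 1,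
    intervalIntegral.integral_const_mul, intervalIntegral.integral_const_mul]
  have e1 : ∫ y in (0:ℝ)..1, U y * R y = 2 * t ^ 2 := by
    have := swap_self U_BM (zero_le_one)
    have h2 : (∫ y in (0:ℝ)..1, U y) = 2 * t := R_zero
    rw [h2] at this
    unfold R
    rw [this]
    ring
  have e2 : ∫ y in (0:ℝ)..1, ∫ z in y..1, U z ^ 2 = 3 / 2 * t ^ 2 := by
    rw [swap_one U_BM.sq zero_le_one, int_zU2]
  rw [e1, e2]
  have e3 : ∀ i, ∫ y in (0:ℝ)..1, μ i * (χ i y *
    (2 * (U y * rho χ i y) - 2 * (∫ z in y..1, χ i z * U z)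
    + 2 * R (y + rho χ i y))) = 2 * (μ i * Sl χ i) := by
    intro i
    have hc := chi_BM hm h01 i
    have hs := swap hc (hc.mul U_BM) (zero_le_one (α := ℝ))
    have i1 : IntervalIntegrable (fun y => χ i y * (U y * rho χ i y + R (y + rho χ i y)))
        volume 0 1 := by
      refine (hc.ii 0 1).mul_continuousOn (Continuous.continuousOn ?_)
      exact (U_cont.mul (rho_cont hm h01 i)).add
        (R_cont.comp (continuous_id.add (rho_cont hm h01 i)))
    have i2 : IntervalIntegrable (fun y => χ i y * ∫ z in y..1, χ i z * U z) volume 0 1 :=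
      (hc.ii 0 1).mul_continuousOn (prim_cont (hc.mul U_BM) 1).continuousOn
    have i3 : IntervalIntegrable (fun y => χ i y * U y * ∫ z in (0:ℝ)..y, χ i z) volume 0 1 :=
      ((hc.mul U_BM).ii 0 1).mul_continuousOn (prim_cont' hc 0).continuousOn
    have l : ∫ y in (0:ℝ)..1, μ i * (χ i y *
        (2 * (U y * rho χ i y) - 2 * (∫ z in y..1, χ i z * U z)
        + 2 * R (y + rho χ i y)))
        = 2 * μ i * ((∫ y in (0:ℝ)..1, χ i y * (U y * rho χ i y + R (y + rho χ i y)))
          - ∫ y in (0:ℝ)..1, χ i y * ∫ z in y..1, χ i z * U z) := by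
      rw [← intervalIntegral.integral_sub i1 i2, ← intervalIntegral.integral_const_mul]
      refine integral_congr fun y _ => ?_
      ring
    have r : Sl χ i = (∫ y in (0:ℝ)..1, χ i y * (U y * rho χ i y + R (y + rho χ i y)))
          - ∫ y in (0:ℝ)..1, χ i y * U y * ∫ z in (0:ℝ)..y, χ i z := by
      rw [← intervalIntegral.integral_sub i1 i3]
      unfold Sl al
      refine integral_congr fun y _ => ?_
      ring
    rw [l, hs, r]
    ring
  simp_rw [e3, ← Finset.mul_sum]
  ring

theorem quad_hi (m : ℝ) :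
    -(t * E1 μ χ) + m * E2 μ χ + ∫ z in t..1, (1 - z) / 2 * DD μ χ z ^ 2 ≤ 0.551 * m ^ 2 := by
  have ht := t_bds
  have hD := DD_BM (μ := μ) hm h01
  have hcc : Continuous cc := by unfold cc; fun_prop
  have i1 : IntervalIntegrable (fun z => (2 * cc z - cc z ^ 2) * DD μ χ z ^ 2) volume t 1 :=
    (hD.sq.ii t 1).continuousOn_mul (by fun_prop)
  have i2 : IntervalIntegrable (fun z => cc z * |DD μ χ z|) volume t 1 :=
    (hD.abs.ii t 1).continuousOn_mul (by fun_prop)
  have i3 : IntervalIntegrable (fun z => (1 - z) / 2 * DD μ χ z ^ 2) volume t 1 :=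
    (hD.sq.ii t 1).continuousOn_mul (by fun_prop)
  have hs : 0 < 3 * t - 1 := by linarith
  have hpos : ∀ z ∈ Icc t 1, 0 < z - (1 - 2 * t) := fun z hz => by linarith [hz.1]
  have i4 : IntervalIntegrable (fun z => m ^ 2 / (4 * t) * (2 * t * (z - (1 - 2 * t))⁻¹ - 1))
      volume t 1 := by
    refine ContinuousOn.intervalIntegrable ?_
    rw [uIcc_of_le (by linarith)]
    refine continuousOn_const.mul ((continuousOn_const.mul (ContinuousOn.inv₀ (by fun_prop) ?_)).sub
      continuousOn_const)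
    intro z hz
    exact (hpos z hz).ne'
  have n1 : IntervalIntegrable (fun z => -(t * ((2 * cc z - cc z ^ 2) * DD μ χ z ^ 2)))
      volume t 1 := (i1.const_mul _).neg
  have n2 : IntervalIntegrable (fun z => m * (cc z * |DD μ χ z|)) volume t 1 := i2.const_mul _
  have step : -(t * E1 μ χ) + m * E2 μ χ + ∫ z in t..1, (1 - z) / 2 * DD μ χ z ^ 2
      ≤ ∫ z in t..1, m ^ 2 / (4 * t) * (2 * t * (z - (1 - 2 * t))⁻¹ - 1) := by
    rw [E1, E2, ← intervalIntegral.integral_const_mul, ← intervalIntegral.integral_const_mul,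
      ← intervalIntegral.integral_neg,
      ← intervalIntegral.integral_add n1 n2,
      ← intervalIntegral.integral_add (n1.add n2) i3]
    refine integral_mono_on (by linarith) ((n1.add n2).add i3) i4
      fun z hz => ?_
    have hz' := hpos z hz
    have tne : t ≠ 0 := t_pos.ne'
    have zne : z - (1 - 2 * t) ≠ 0 := hz'.ne'
    have hc0 : 0 ≤ cc z := by
      unfold cc
      exact div_nonneg (by linarith [hz.2]) (by linarith)
    have hc1 : cc z < 1 := by
      unfold cc
      rw [div_lt_one (by linarith)]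
      linarith
    have e1 : (1 - z) / 2 = t * cc z := by
      unfold cc
      field_simp
    have e2 : 2 * t * (z - (1 - 2 * t))⁻¹ - 1 = cc z / (1 - cc z) := by
      have : (1 - cc z) = (z - (1 - 2 * t)) / (2 * t) := by
        unfold cc
        field_simp
        ring
      rw [this]
      unfold cc
      field_simp
      ring
    rw [e1, e2]
    have k3 : |DD μ χ z| ^ 2 = DD μ χ z ^ 2 := sq_abs _
    rw [← k3]
    set X := |DD μ χ z|
    set c := cc z
    have h1c : 0 < 1 - c := by linarith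
    have e3 : m ^ 2 / (4 * t) * (c / (1 - c)) - (-(t * ((2 * c - c ^ 2) * X ^ 2)) + m * (c * X)
        + t * c * X ^ 2) = c / (4 * t * (1 - c)) * (m - 2 * t * (1 - c) * X) ^ 2 := by
      have := t_pos
      field_simp
      ring
    have e4 : 0 ≤ c / (4 * t * (1 - c)) * (m - 2 * t * (1 - c) * X) ^ 2 := by
      refine mul_nonneg (div_nonneg hc0 ?_) (sq_nonneg _)
      have := t_pos
      positivity
    linarith
  refine step.trans ?_
  rw [intervalIntegral.integral_const_mul, intervalIntegral.integral_sub,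
    intervalIntegral.integral_const_mul]
  · have e5 : ∫ z in t..1, (z - (1 - 2 * t))⁻¹ = Real.log (2 * t / (3 * t - 1)) := by
      have := integral_comp_sub_right (fun x : ℝ => x⁻¹) (a := t) (b := 1) (1 - 2 * t)
      rw [this, integral_inv_of_pos (by linarith) (by linarith)]
      congr 1
      ring_nf
    rw [e5, intervalIntegral.integral_const, smul_eq_mul]
    have hlog : Real.log (2 * t / (3 * t - 1)) ≤ 1.961 := by
      have hx : 0 < 2 * t / (3 * t - 1) := div_pos (by linarith) hs
      have he : Real.exp 2 = Real.exp 1 * Real.exp 1 := by rw [← Real.exp_add]; norm_num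
      have he2 : (7.38905:ℝ) < Real.exp 2 := by
        rw [he]
        have := Real.exp_one_gt_d9
        nlinarith
      have h1 : Real.log (2 * t / (3 * t - 1)) = Real.log (2 * t / (3 * t - 1) / Real.exp 2) + 2 := by
        rw [Real.log_div hx.ne' (Real.exp_pos 2).ne', Real.log_exp]
        ring
      have h2 : Real.log (2 * t / (3 * t - 1) / Real.exp 2)
          ≤ 2 * t / (3 * t - 1) / Real.exp 2 - 1 :=
        Real.log_le_sub_one_of_pos (div_pos hx (Real.exp_pos 2))
      have h3 : 2 * t / (3 * t - 1) / Real.exp 2 ≤ 0.961 := by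
        rw [div_le_iff₀ (Real.exp_pos 2), div_le_iff₀ hs]
        nlinarith
      linarith
    have h4 : 2 * t * Real.log (2 * t / (3 * t - 1)) - (1 - t) * 1 ≤ 0.551 * (4 * t) := by
      have := t_pos
      nlinarith
    have h5 : m ^ 2 / (4 * t) * (2 * t * Real.log (2 * t / (3 * t - 1)) - (1 - t) * 1)
        ≤ m ^ 2 / (4 * t) * (0.551 * (4 * t)) := by
      have := t_pos
      exact mul_le_mul_of_nonneg_left h4 (by positivity)
    refine h5.trans (le_of_eq ?_)
    have := t_pos
    field_simp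
  · refine ContinuousOn.intervalIntegrable ?_
    rw [uIcc_of_le (by linarith)]
    refine continuousOn_const.mul (ContinuousOn.inv₀ (by fun_prop) ?_)
    intro z hz
    exact (hpos z hz).ne'
  · exact intervalIntegrable_const

variable (h0 : ∀ i, 0 ≤ μ i) (h1 : ∑ i, μ i = 1)
include h0 h1

/-- **Identity and quadratic bound** (row ID + QD). -/
theorem main :
    ∑ i, ∑ j, μ i * μ j * SS χ i j ≤ 2 * ∑ i, μ i * Sl χ i - t ^ 2
      + (∫ y in (0:ℝ)..t, ((1 - t) / 2 - y) * qq μ χ y ^ 2)
      + 1.051 * (∫ y in (0:ℝ)..t, qq μ χ y) ^ 2 := by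
  have ht := t_bds
  have ht1 : t ≤ 1 := by linarith
  have hq := qq_BM (μ := μ) hm h01
  have hD := DD_BM (μ := μ) hm h01
  rw [sum_SS hm h01, ← int_Lin hm h01]
  rw [← integral_add_adjacent_intervals (Psi_ii hm h01 0 t) (Psi_ii hm h01 t 1),
    ← integral_add_adjacent_intervals (Lin_ii hm h01 0 t) (Lin_ii hm h01 t 1)]
  have j1 : IntervalIntegrable (fun y => qq μ χ y * (∫ z in y..t, qq μ χ z)) volume 0 t :=
    (hq.ii 0 t).mul_continuousOn (prim_cont hq t).continuousOn
  have j2 : IntervalIntegrable (fun y => ∫ z in y..t, qq μ χ z ^ 2) volume 0 t :=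
    (prim_cont hq.sq t).intervalIntegrable 0 t
  have j3 : IntervalIntegrable (fun y => (1 - t) / 2 * qq μ χ y ^ 2) volume 0 t :=
    (hq.sq.cmul _).ii 0 t
  have j4 : IntervalIntegrable (fun _ : ℝ => E1 μ χ) volume 0 t := intervalIntegrable_const
  have j5 : IntervalIntegrable (fun y => qq μ χ y * E2 μ χ) volume 0 t :=
    (hq.ii 0 t).mul_const _
  have lo : ∫ y in (0:ℝ)..t, Psi μ χ y ≤ (∫ y in (0:ℝ)..t, Lin μ χ y)
      + ((∫ y in (0:ℝ)..t, qq μ χ y * (∫ z in y..t, qq μ χ z))
        - ∫ y in (0:ℝ)..t, ∫ z in y..t, qq μ χ z ^ 2)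
      + ((∫ y in (0:ℝ)..t, (1 - t) / 2 * qq μ χ y ^ 2) - t * E1 μ χ
        + (∫ y in (0:ℝ)..t, qq μ χ y) * E2 μ χ) := by
    have c1 : t * E1 μ χ = ∫ _ in (0:ℝ)..t, E1 μ χ := by
      rw [intervalIntegral.integral_const, smul_eq_mul, sub_zero]
    rw [c1, ← intervalIntegral.integral_mul_const, ← intervalIntegral.integral_sub j1 j2,
      ← intervalIntegral.integral_sub j3 j4, ← intervalIntegral.integral_add (j3.sub j4) j5,
      ← intervalIntegral.integral_add (Lin_ii hm h01 0 t) (j1.sub j2),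
      ← intervalIntegral.integral_add ((Lin_ii hm h01 0 t).add (j1.sub j2)) ((j3.sub j4).add j5)]
    refine integral_mono_on t_pos.le (Psi_ii hm h01 0 t)
      (((Lin_ii hm h01 0 t).add (j1.sub j2)).add ((j3.sub j4).add j5)) fun y hy => ?_
    exact inner_lo hm h01 h0 h1 hy.2
  have i3 : IntervalIntegrable (fun z => (1 - z) / 2 * DD μ χ z ^ 2) volume t 1 :=
    (hD.sq.ii t 1).continuousOn_mul (by fun_prop)
  have hi : ∫ y in t..1, Psi μ χ y ≤ (∫ y in t..1, Lin μ χ y)
      + ∫ z in t..1, (1 - z) / 2 * DD μ χ z ^ 2 := by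
    rw [← intervalIntegral.integral_add (Lin_ii hm h01 t 1) i3]
    refine integral_mono_on ht1 (Psi_ii hm h01 t 1) ((Lin_ii hm h01 t 1).add i3) fun y hy => ?_
    exact inner_hi hm h01 hy.2
  have s1 := swap_self hq t_pos.le
  have s2 := swap_one hq.sq t_pos.le
  have s3 := quad_hi (μ := μ) hm h01 (∫ y in (0:ℝ)..t, qq μ χ y)
  have s4 : ∫ y in (0:ℝ)..t, ((1 - t) / 2 - y) * qq μ χ y ^ 2
      = (∫ y in (0:ℝ)..t, (1 - t) / 2 * qq μ χ y ^ 2) - ∫ y in (0:ℝ)..t, y * qq μ χ y ^ 2 := by
    rw [← intervalIntegral.integral_sub j3 ((hq.sq.ii 0 t).continuousOn_mul (by fun_prop))]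
    refine integral_congr fun y _ => ?_
    ring
  rw [s1, s2] at lo
  rw [s4]
  nlinarith

end

end

end Pool.Agent.Lib.MP_efec9b_co.QD78
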