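import Pool.Agent.Lib.MP_efec9b_co.Fin24
import Pool.Agent.Lib.MP_efec9b_co.QD78

/-!
MP_efec9b_co, the matrix `(0 0; 0 1)`: the theorem, unconditionally.
-/

set_option autoImplicit false

namespace Pool.Agent.Lib.MP_efec9b_co.E2

open Finset Filter Topology MeasureTheory

theorem SS_eq {ι : Type} (E : ι → Set ℝ) (hE : ∀ i, MeasurableSet (E i)) (i j : ι) :
    QD78.SS (fun i => ID7.one (E i)) i j = ID7.S1 (E i) (E j) := by
  unfold QD78.SS ID7.S1
  refine intervalIntegral.integral_congr fun y _ => ?_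
  have h1 : (∫ x in y..1, ID7.one (E j) x * ID7.one (E i) x) =
      ∫ x in y..1, ID7.one (E i) x * ID7.one (E j) x := by
    simp_rw [mul_comm]
  simp only [ID7.al_diff (hE i) (hE j), ID7.al_diff (hE j) (hE i), h1, max_sub_sub_right]
  rfl

theorem qd24 : StQD := by
  intro ι _ E μ h0 h1 hE
  have hm : ∀ i, Measurable (ID7.one (E i)) := fun i => ID7.one_meas (hE i)
  have h2 := QD78.main (μ := μ) (χ := fun i => ID7.one (E i)) hm (fun i y => one01 _ y) h0 h1
  have h3 := ID7.id7 (E := E) μ hE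
  simp only [SS_eq E hE] at h2
  have h4 : ∀ i, QD78.Sl (fun i => ID7.one (E i)) i = ID7.Lam (E i) := fun i => rfl
  simp only [h4] at h2
  have h5 : QD78.t = Real.exp (-1) := rfl
  have h6 : ID7.tt = Real.exp (-1) := rfl
  have h7 : ∀ y, QD78.qq μ (fun i => ID7.one (E i)) y = 1 - ∑ i, μ i * ID7.one (E i) y :=
    fun y => rfl
  simp only [h5, h7] at h2
  rw [h6] at h3
  linarith

/-- The upper bound of the kernel. -/
theorem stSup : StSup := stSup_of_QD qd24

/-- Both limits for `(0 0; 0 1)`, no hypothesis. -/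
theorem both24 :
    Tendsto (fAll H2) atTop (𝓝 (2 * Real.exp (-2))) ∧
    Tendsto (fMono H2) atTop (𝓝 (2 * Real.exp (-2))) :=
  both_of_QD qd24

end Pool.Agent.Lib.MP_efec9b_co.E2
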