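import Pool.Agent.Lib.MP_efec9b_co.Frame24

/-!
MP_efec9b_co: from the matrix `(0 0; 0 1)` to all types `(a a; a b)` and `(a b; b b)`.
-/

set_option autoImplicit false

namespace Pool.Agent.Lib.MP_efec9b_co.Ext91

open Finset Filter Topology Pool.Agent.Lib.MP_efec9b_co Pool.Agent.Lib.MP_efec9b_co.E2

/-- the matrix `(a a; a b)` -/
def HA (a b : ℕ) : Fin 2 → Fin 2 → ℕ := fun i j => if i = 1 ∧ j = 1 then b else a

/-- the matrix `(a b; b b)` -/
def HB (a b : ℕ) : Fin 2 → Fin 2 → ℕ := fun i j => if i = 0 ∧ j = 0 then a else b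

theorem bdd {h : ℕ} (H : Fin h → Fin h → ℕ) (n : ℕ) :
    BddAbove (Set.range fun M : Fin n → Fin n → ℕ => dens H M) := by
  refine ⟨(Nat.card ((Fin h → Fin n) × (Fin h → Fin n)) : ℝ) / ((n.choose h : ℝ)) ^ 2, ?_⟩
  rintro _ ⟨M, rfl⟩
  unfold dens
  refine div_le_div_of_nonneg_right ?_ (by positivity)
  have := Nat.card_le_card_of_injective (α := {p : (Fin h → Fin n) × (Fin h → Fin n) //
    StrictMono p.1 ∧ StrictMono p.2 ∧ ∀ i j, M (p.1 i) (p.2 j) = H i j}) _ Subtype.val_injective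
  exact_mod_cast this

theorem bddM {h : ℕ} (H : Fin h → Fin h → ℕ) (n k : ℕ) :
    BddAbove (Set.range fun M : {M : Fin n → Fin n → ℕ // Avoids k M} => dens H M.1) := by
  obtain ⟨C, hC⟩ := bdd H n
  refine ⟨C, ?_⟩
  rintro _ ⟨M, rfl⟩
  exact hC ⟨M.1, rfl⟩

instance neM (n k : ℕ) : Nonempty {M : Fin n → Fin n → ℕ // Avoids k M} :=
  ⟨⟨fun _ _ => 0, fun _ _ _ _ _ => le_rfl, fun _ _ _ _ _ => le_rfl⟩⟩

theorem fMono_le {h : ℕ} (H : Fin h → Fin h → ℕ) (n : ℕ) : fMono H n ≤ fAll H n :=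
  ciSup_le fun M => le_ciSup (bdd H n) M.1

/-- relabelling of the symbols -/
theorem copies_relabel {h n : ℕ} (H : Fin h → Fin h → ℕ) (M : Fin n → Fin n → ℕ) (σ : ℕ → ℕ)
    (hσ : Function.Injective σ) :
    copies (fun i j => σ (H i j)) (fun i j => σ (M i j)) = copies H M := by
  unfold copies
  refine Nat.card_congr (Equiv.subtypeEquivRight fun p => ?_)
  simp only [hσ.eq_iff]

theorem rev_strictMono {h n : ℕ} {p : Fin h → Fin n} (hp : StrictMono p) :
    StrictMono (fun i => Fin.rev (p (Fin.rev i))) := by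
  intro i j hij
  have : Fin.rev j < Fin.rev i := Fin.rev_lt_rev.mpr hij
  exact Fin.rev_lt_rev.mpr (hp this)

/-- rotation by 180 degrees -/
theorem copies_rev {h n : ℕ} (H : Fin h → Fin h → ℕ) (M : Fin n → Fin n → ℕ) :
    copies (fun i j => H (Fin.rev i) (Fin.rev j)) (fun i j => M (Fin.rev i) (Fin.rev j)) =
      copies H M := by
  unfold copies
  have key : ∀ (q : Fin h → Fin n), (fun i => Fin.rev ((fun i => Fin.rev (q (Fin.rev i))) (Fin.rev i)))
      = q := by
    intro q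
    funext i
    simp
  refine Nat.card_congr ⟨fun p => ⟨(fun i => Fin.rev (p.1.1 (Fin.rev i)),
    fun i => Fin.rev (p.1.2 (Fin.rev i))), rev_strictMono p.2.1, rev_strictMono p.2.2.1, ?_⟩,
    fun p => ⟨(fun i => Fin.rev (p.1.1 (Fin.rev i)),
    fun i => Fin.rev (p.1.2 (Fin.rev i))), rev_strictMono p.2.1, rev_strictMono p.2.2.1, ?_⟩,
    ?_, ?_⟩
  · intro i j
    have := p.2.2.2 (Fin.rev i) (Fin.rev j)
    simpa using this
  · intro i j
    have := p.2.2.2 (Fin.rev i) (Fin.rev j)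
    simpa using this
  · intro p
    apply Subtype.ext
    exact Prod.ext (key p.1.1) (key p.1.2)
  · intro p
    apply Subtype.ext
    exact Prod.ext (key p.1.1) (key p.1.2)

theorem exists_perm (a b : ℕ) (hab : a ≠ b) : ∃ σ : Equiv.Perm ℕ, σ 0 = a ∧ σ 1 = b := by
  refine ⟨Equiv.swap (Equiv.swap 0 a 1) b * Equiv.swap 0 a, ?_, ?_⟩
  · have h1 : Equiv.swap 0 a 1 ≠ a := by
      intro h
      have : Equiv.swap 0 a 1 = Equiv.swap 0 a 0 := by rw [h, Equiv.swap_apply_left]
      have := (Equiv.swap 0 a).injective this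
      omega
    rw [Equiv.Perm.mul_apply, Equiv.swap_apply_left, Equiv.swap_apply_of_ne_of_ne h1.symm hab]
  · rw [Equiv.Perm.mul_apply, Equiv.swap_apply_left]

theorem HA_eq (a b : ℕ) (σ : ℕ → ℕ) (h0 : σ 0 = a) (h1 : σ 1 = b) :
    HA a b = fun i j => σ (H2 i j) := by
  funext i j
  unfold HA H2
  split_ifs <;> simp [h0, h1]

theorem HB_eq (a b : ℕ) (σ : ℕ → ℕ) (h0 : σ 0 = b) (h1 : σ 1 = a) :
    HB a b = fun i j => σ (H2 (Fin.rev i) (Fin.rev j)) := by
  funext i j
  unfold HB H2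
  fin_cases i <;> fin_cases j <;> simp [h0, h1, Fin.rev]

theorem fAll_HA (a b : ℕ) (hab : a ≠ b) (n : ℕ) : fAll (HA a b) n = fAll H2 n := by
  obtain ⟨σ, h0, h1⟩ := exists_perm a b hab
  unfold fAll
  rw [HA_eq a b σ h0 h1]
  refine le_antisymm (ciSup_le fun M => ?_) (ciSup_le fun M => ?_)
  · have : dens (fun i j => σ (H2 i j)) M = dens H2 (fun i j => σ.symm (M i j)) := by
      unfold dens
      rw [← copies_relabel H2 (fun i j => σ.symm (M i j)) σ σ.injective]
      simp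
    rw [this]
    exact le_ciSup (bdd H2 n) _
  · have : dens H2 M = dens (fun i j => σ (H2 i j)) (fun i j => σ (M i j)) := by
      unfold dens
      rw [copies_relabel H2 M σ σ.injective]
    rw [this]
    exact le_ciSup (bdd _ n) _

theorem fAll_HB (a b : ℕ) (hab : a ≠ b) (n : ℕ) : fAll (HB a b) n = fAll H2 n := by
  obtain ⟨σ, h0, h1⟩ := exists_perm b a hab.symm
  unfold fAll
  rw [HB_eq a b σ h0 h1]
  have key : ∀ M : Fin n → Fin n → ℕ, dens H2 M = dens (fun i j => σ (H2 (Fin.rev i) (Fin.rev j)))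
      (fun i j => σ (M (Fin.rev i) (Fin.rev j))) := by
    intro M
    unfold dens
    rw [copies_relabel (fun i j => H2 (Fin.rev i) (Fin.rev j)) (fun i j => M (Fin.rev i) (Fin.rev j))
      σ σ.injective, copies_rev]
  refine le_antisymm (ciSup_le fun M => ?_) (ciSup_le fun M => ?_)
  · have : dens (fun i j => σ (H2 (Fin.rev i) (Fin.rev j))) M =
        dens H2 (fun i j => σ.symm (M (Fin.rev i) (Fin.rev j))) := by
      rw [key]
      simp
    rw [this]
    exact le_ciSup (bdd H2 n) _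
  · rw [key]
    exact le_ciSup (bdd _ n) _

theorem top_H2 : top H2 = 1 := by
  decide

theorem top_HA (a b : ℕ) (hab : a < b) : top (HA a b) = b := by
  unfold top HA
  refine le_antisymm (Finset.sup_le fun i _ => Finset.sup_le fun j _ => ?_) ?_
  · split_ifs
    · exact le_rfl
    · exact hab.le
  · refine le_trans ?_ (Finset.le_sup (mem_univ (1 : Fin 2)))
    refine le_trans ?_ (Finset.le_sup (mem_univ (1 : Fin 2)))
    simp

theorem top_HB (a b : ℕ) (hab : a < b) : top (HB a b) = b := by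
  unfold top HB
  refine le_antisymm (Finset.sup_le fun i _ => Finset.sup_le fun j _ => ?_) ?_
  · split_ifs
    · exact hab.le
    · exact le_rfl
  · refine le_trans ?_ (Finset.le_sup (mem_univ (1 : Fin 2)))
    refine le_trans ?_ (Finset.le_sup (mem_univ (1 : Fin 2)))
    simp

/-- increasing relabelling `0 → a`, `1 → b`, `k + 2 → b + 1 + k` -/
def up (a b : ℕ) : ℕ → ℕ := fun k => if k = 0 then a else b + (k - 1)

theorem up_strictMono (a b : ℕ) (hab : a < b) : StrictMono (up a b) := by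
  intro k l hkl
  unfold up
  split_ifs <;> omega

theorem fMono_HA (a b : ℕ) (hab : a < b) (n : ℕ) : fMono H2 n ≤ fMono (HA a b) n := by
  refine ciSup_le fun ⟨M, hM⟩ => ?_
  have hs := up_strictMono a b hab
  have e : dens H2 M = dens (HA a b) (fun i j => up a b (M i j)) := by
    unfold dens
    rw [HA_eq a b (up a b) (by simp [up]) (by simp [up]), copies_relabel H2 M _ hs.injective]
  have hav : Avoids (top (HA a b)) (fun i j => up a b (M i j)) := by
    rw [top_HA a b hab]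
    rw [top_H2] at hM
    have hle : ∀ k, up a b k ≤ b → k ≤ 1 := by
      intro k hk
      unfold up at hk
      split_ifs at hk <;> omega
    exact ⟨fun i j j' hj h => hs.monotone (hM.1 i j j' hj (hle _ h)),
      fun i i' j hi h => hs.monotone (hM.2 i i' j hi (hle _ h))⟩
  rw [e]
  exact le_ciSup (bddM (HA a b) n (top (HA a b))) ⟨_, hav⟩

/-- relabelling `0 → b`, `1 → a`, `k + 2 → b + 1 + k` -/
def dn (a b : ℕ) : ℕ → ℕ := fun k => if k = 0 then b else if k = 1 then a else b + (k - 1)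

theorem dn_inj (a b : ℕ) (hab : a < b) : Function.Injective (dn a b) := by
  intro k l h
  unfold dn at h
  split_ifs at h <;> omega

theorem dn_le (a b : ℕ) (hab : a < b) (u v : ℕ) (h1 : dn a b v ≤ b) (h2 : u ≤ 1 → u ≤ v) :
    dn a b v ≤ dn a b u := by
  unfold dn at h1 ⊢
  by_cases hu : u ≤ 1
  · have := h2 hu
    split_ifs at h1 ⊢ <;> omega
  · split_ifs at h1 ⊢ <;> omega

theorem fMono_HB (a b : ℕ) (hab : a < b) (n : ℕ) : fMono H2 n ≤ fMono (HB a b) n := by
  refine ciSup_le fun ⟨M, hM⟩ => ?_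
  have e : dens H2 M = dens (HB a b) (fun i j => dn a b (M (Fin.rev i) (Fin.rev j))) := by
    unfold dens
    rw [HB_eq a b (dn a b) (by simp [dn]) (by simp [dn]),
      copies_relabel (fun i j => H2 (Fin.rev i) (Fin.rev j))
        (fun i j => M (Fin.rev i) (Fin.rev j)) _ (dn_inj a b hab), copies_rev]
  have hav : Avoids (top (HB a b)) (fun i j => dn a b (M (Fin.rev i) (Fin.rev j))) := by
    rw [top_HB a b hab]
    rw [top_H2] at hM
    constructor
    · intro i j j' hj h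
      exact dn_le a b hab _ _ h (hM.1 _ _ _ (Fin.rev_lt_rev.mpr hj))
    · intro i i' j hi h
      exact dn_le a b hab _ _ h (hM.2 _ _ _ (Fin.rev_lt_rev.mpr hi))
  rw [e]
  exact le_ciSup (bddM (HB a b) n (top (HB a b))) ⟨_, hav⟩

/-- both sequences have the same limit for all types `(a a; a b)`, `(a b; b b)` -/
theorem ext {c : ℝ} (h : Tendsto (fAll H2) atTop (𝓝 c) ∧ Tendsto (fMono H2) atTop (𝓝 c))
    (a b : ℕ) (hab : a < b) :
    (Tendsto (fAll (HA a b)) atTop (𝓝 c) ∧ Tendsto (fMono (HA a b)) atTop (𝓝 c)) ∧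
    (Tendsto (fAll (HB a b)) atTop (𝓝 c) ∧ Tendsto (fMono (HB a b)) atTop (𝓝 c)) := by
  have eA : fAll (HA a b) = fAll H2 := funext fun n => fAll_HA a b hab.ne n
  have eB : fAll (HB a b) = fAll H2 := funext fun n => fAll_HB a b hab.ne n
  refine ⟨⟨eA ▸ h.1, ?_⟩, ⟨eB ▸ h.1, ?_⟩⟩
  · refine tendsto_of_tendsto_of_tendsto_of_le_of_le h.2 h.1 (fun n => fMono_HA a b hab n) ?_
    intro n
    exact (fMono_le _ n).trans_eq (fAll_HA a b hab.ne n)
  · refine tendsto_of_tendsto_of_tendsto_of_le_of_le h.2 h.1 (fun n => fMono_HB a b hab n) ?_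
    intro n
    exact (fMono_le _ n).trans_eq (fAll_HB a b hab.ne n)

/-- the same for every monotone `2 × 2` matrix of one of the two types -/
theorem ext' {c : ℝ} (h : Tendsto (fAll H2) atTop (𝓝 c) ∧ Tendsto (fMono H2) atTop (𝓝 c))
    (H : Fin 2 → Fin 2 → ℕ) (hH : Mono H)
    (ht : (H 0 0 = H 0 1 ∧ H 0 0 = H 1 0 ∧ H 0 0 ≠ H 1 1) ∨
      (H 0 1 = H 1 1 ∧ H 1 0 = H 1 1 ∧ H 0 0 ≠ H 1 1)) :
    Tendsto (fAll H) atTop (𝓝 c) ∧ Tendsto (fMono H) atTop (𝓝 c) := by
  have h01 : H 0 0 ≤ H 1 1 := hH 0 1 0 1 (by decide) (by decide)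
  rcases ht with ⟨h1, h2, h3⟩ | ⟨h1, h2, h3⟩
  · have e : H = HA (H 0 0) (H 1 1) := by
      funext i j
      unfold HA
      fin_cases i <;> fin_cases j <;> simp [← h1, ← h2]
    rw [e]
    exact (ext h _ _ (lt_of_le_of_ne h01 h3)).1
  · have e : H = HB (H 0 0) (H 1 1) := by
      funext i j
      unfold HB
      fin_cases i <;> fin_cases j <;> simp [h1, h2]
    rw [e]
    exact (ext h _ _ (lt_of_le_of_ne h01 h3)).2

end Pool.Agent.Lib.MP_efec9b_co.Ext91
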