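import Pool.Agent.Lib.MP_efec9b_co.Defs77

/-!
MP_efec9b_co, the matrix (0 0; 0 1): the monotone lower bound `2 / e ^ 2`.
-/

set_option autoImplicit false

namespace Pool.Agent.Lib.MP_efec9b_co.LB85

open Finset Filter Topology

/-- the matrix (0 0; 0 1) -/
def H0 : Fin 2 → Fin 2 → ℕ := fun i j => if i = 1 ∧ j = 1 then 1 else 0

/-- the host matrix with zeros in the first `z i` places of row `i`, ones elsewhere -/
def host {n : ℕ} (z : Fin n → ℕ) : Fin n → Fin n → ℕ := fun i j => if (j : ℕ) < z i then 0 else 1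

theorem host_avoids {n : ℕ} {z : Fin n → ℕ} (hz : Antitone z) (k : ℕ) : Avoids k (host z) := by
  constructor
  · intro i j j' hj _
    unfold host
    have : (j : ℕ) < j' := hj
    split_ifs <;> omega
  · intro i i' j hi _
    unfold host
    have := hz hi.le
    split_ifs <;> omega

/-- the quadruples that are copies -/
def Good {n : ℕ} (z : Fin n → ℕ) (q : Fin n × Fin n × Fin n × Fin n) : Prop :=
  q.1 < q.2.1 ∧ (q.2.2.1 : ℕ) < z q.2.1 ∧ (q.2.2.2 : ℕ) < z q.1 ∧ z q.2.1 ≤ (q.2.2.2 : ℕ)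

theorem copies_lower {n : ℕ} {z : Fin n → ℕ} (hz : Antitone z)
    (T : Finset (Fin n × Fin n × Fin n × Fin n)) (hT : ∀ q ∈ T, Good z q) :
    T.card ≤ copies H0 (host z) := by
  unfold copies
  have hc : T.card = Nat.card T := by simp
  rw [hc]
  refine Nat.card_le_card_of_injective (fun q : T =>
    (⟨(![q.1.1, q.1.2.1], ![q.1.2.2.1, q.1.2.2.2]), ?_⟩ :
      {p : (Fin 2 → Fin n) × (Fin 2 → Fin n) //
        StrictMono p.1 ∧ StrictMono p.2 ∧ ∀ i j, host z (p.1 i) (p.2 j) = H0 i j})) ?_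
  · obtain ⟨h1, h2, h3, h4⟩ := hT q.1 q.2
    have h5 : q.1.2.2.1 < q.1.2.2.2 := by
      show (q.1.2.2.1 : ℕ) < (q.1.2.2.2 : ℕ)
      omega
    have h6 := hz h1.le
    refine ⟨?_, ?_, ?_⟩
    · rw [Fin.strictMono_iff_lt_succ]
      intro i
      fin_cases i
      simpa using h1
    · rw [Fin.strictMono_iff_lt_succ]
      intro i
      fin_cases i
      simpa using h5
    · intro i j
      fin_cases i <;> fin_cases j <;> simp [host, H0] <;> omega
  · rintro ⟨⟨a, b, c, d⟩, hq⟩ ⟨⟨a', b', c', d'⟩, hq'⟩ h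
    simp only [Subtype.mk.injEq, Prod.mk.injEq] at h
    obtain ⟨h1, h2⟩ := h
    have e1 := congrFun h1 0
    have e2 := congrFun h1 1
    have e3 := congrFun h2 0
    have e4 := congrFun h2 1
    simp at e1 e2 e3 e4
    subst e1 e2 e3 e4
    rfl

theorem card_Ico_fin {n a b : ℕ} (hb : b ≤ n) :
    (univ.filter (fun i : Fin n => a ≤ (i : ℕ) ∧ (i : ℕ) < b)).card = b - a := by
  rw [← Finset.card_map Fin.valEmbedding, ← Nat.card_Ico]
  congr 1
  ext x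
  simp only [Finset.mem_map, Finset.mem_filter, mem_univ, true_and, Fin.valEmbedding_apply, mem_Ico]
  constructor
  · rintro ⟨i, hi, rfl⟩
    exact hi
  · rintro ⟨h1, h2⟩
    exact ⟨⟨x, by omega⟩, ⟨h1, h2⟩, rfl⟩

/-- the block of a row -/
def blk (hi : ℕ → ℕ) (K : ℕ) (i : ℕ) : ℕ := ((range (K + 1)).filter (fun k => hi k ≤ i)).card

theorem blk_mono (hi : ℕ → ℕ) (K : ℕ) : Monotone (blk hi K) := by
  intro i j hij
  unfold blk
  refine card_le_card ?_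
  intro k hk
  rw [mem_filter] at hk ⊢
  exact ⟨hk.1, hk.2.trans hij⟩

theorem blk_eq {hi : ℕ → ℕ} (hh : Monotone hi) {K i k : ℕ} (hk : k ≤ K)
    (h1 : ∀ l < k, hi l ≤ i) (h2 : i < hi k) : blk hi K i = k := by
  unfold blk
  have : (range (K + 1)).filter (fun l => hi l ≤ i) = range k := by
    ext l
    rw [mem_filter, mem_range, mem_range]
    constructor
    · rintro ⟨_, h⟩
      by_contra hl
      have := hh (not_lt.1 hl)
      omega
    · intro h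
      exact ⟨by omega, h1 l h⟩
  rw [this, card_range]

/-- lower end of a block -/
def lo (hi : ℕ → ℕ) (k : ℕ) : ℕ := if k = 0 then 0 else hi (k - 1)

/-- the lower bound of the number of copies -/
def S (hi Z : ℕ → ℕ) (K : ℕ) : ℕ :=
  ∑ k' ∈ range (K + 1), ∑ k ∈ range k',
    (hi k - lo hi k) * ((hi k' - lo hi k') * (Z k' * (Z k - Z k')))

theorem copies_blocks {n K : ℕ} {hi Z : ℕ → ℕ} (hh : Monotone hi) (hhn : ∀ k ≤ K, hi k ≤ n)
    (hZ : Antitone Z) (hZn : ∀ k, Z k ≤ n) :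
    S hi Z K ≤ copies H0 (host (fun i : Fin n => Z (blk hi K i))) := by
  classical
  have hz : Antitone (fun i : Fin n => Z (blk hi K i)) := by
    intro i j hij
    exact hZ (blk_mono hi K hij)
  set B : ℕ → Finset (Fin n) := fun k =>
    univ.filter (fun i : Fin n => lo hi k ≤ (i : ℕ) ∧ (i : ℕ) < hi k) with hB
  set J : ℕ → ℕ → Finset (Fin n) := fun a b =>
    univ.filter (fun i : Fin n => a ≤ (i : ℕ) ∧ (i : ℕ) < b) with hJ
  have hblk : ∀ k ≤ K, ∀ i ∈ B k, blk hi K i = k := by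
    intro k hk i hi'
    rw [hB, mem_filter] at hi'
    refine blk_eq hh hk ?_ hi'.2.2
    intro l hl
    have h1 := hi'.2.1
    unfold lo at h1
    rw [if_neg (by omega)] at h1
    exact (hh (by omega : l ≤ k - 1)).trans h1
  set P : Finset ((_ : ℕ) × ℕ) := (range (K + 1)).sigma (fun k' => range k') with hP
  set Big : Finset ((_ : (_ : ℕ) × ℕ) × (Fin n × Fin n × Fin n × Fin n)) :=
    P.sigma (fun s => (B s.2) ×ˢ ((B s.1) ×ˢ ((J 0 (Z s.1)) ×ˢ (J (Z s.1) (Z s.2))))) with hBig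
  have hcard : Big.card = S hi Z K := by
    rw [hBig, card_sigma, hP, Finset.sum_sigma]
    unfold S
    refine Finset.sum_congr rfl fun k' hk' => Finset.sum_congr rfl fun k hk => ?_
    rw [mem_range] at hk hk'
    rw [card_product, card_product, card_product, hB, hJ]
    simp only []
    rw [card_Ico_fin (hhn k (by omega)), card_Ico_fin (hhn k' (by omega)),
      card_Ico_fin (hZn k'), card_Ico_fin (hZn k), Nat.sub_zero]
  rw [← hcard]
  set T : Finset (Fin n × Fin n × Fin n × Fin n) :=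
    univ.filter (fun q => Good (fun i : Fin n => Z (blk hi K i)) q) with hT
  refine le_trans ?_ (copies_lower hz T (fun q hq => (mem_filter.1 hq).2))
  have hmem : ∀ x ∈ Big, x.1.1 ≤ K ∧ x.1.2 < x.1.1 ∧ x.2.1 ∈ B x.1.2 ∧ x.2.2.1 ∈ B x.1.1 ∧
      x.2.2.2.1 ∈ J 0 (Z x.1.1) ∧ x.2.2.2.2 ∈ J (Z x.1.1) (Z x.1.2) := by
    intro x hx
    rw [hBig, mem_sigma, mem_product, mem_product, mem_product, hP, mem_sigma, mem_range,
      mem_range] at hx
    exact ⟨by omega, hx.1.2, hx.2.1, hx.2.2.1, hx.2.2.2.1, hx.2.2.2.2⟩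
  refine Finset.card_le_card_of_injOn (fun x => x.2) ?_ ?_
  · intro x hx
    obtain ⟨h1, h2, h3, h4, h5, h6⟩ := hmem x hx
    have e3 := hblk _ (by omega) _ h3
    have e4 := hblk _ h1 _ h4
    have g3 := (mem_filter.1 h3).2
    have g4 := (mem_filter.1 h4).2
    have g5 := (mem_filter.1 h5).2
    have g6 := (mem_filter.1 h6).2
    show x.2 ∈ (T : Set _)
    rw [Finset.mem_coe, hT, mem_filter]
    refine ⟨mem_univ _, ?_, ?_, ?_, ?_⟩
    · show (x.2.1 : ℕ) < (x.2.2.1 : ℕ)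
      have h7 : hi x.1.2 ≤ lo hi x.1.1 := by
        unfold lo
        rw [if_neg (by omega)]
        exact hh (by omega)
      omega
    · show (x.2.2.2.1 : ℕ) < Z (blk hi K x.2.2.1)
      rw [e4]; exact g5.2
    · show (x.2.2.2.2 : ℕ) < Z (blk hi K x.2.1)
      rw [e3]; exact g6.2
    · show Z (blk hi K x.2.2.1) ≤ (x.2.2.2.2 : ℕ)
      rw [e4]; exact g6.1
  · intro x hx y hy hxy
    obtain ⟨h1, h2, h3, h4, -, -⟩ := hmem x hx
    obtain ⟨h1', h2', h3', h4', -, -⟩ := hmem y hy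
    obtain ⟨⟨a, b⟩, q⟩ := x
    obtain ⟨⟨a', b'⟩, q'⟩ := y
    simp only at hxy h1 h2 h3 h4 h1' h2' h3' h4'
    subst hxy
    have e1 := (hblk _ (by omega) _ h3).symm.trans (hblk _ (by omega) _ h3')
    have e2 := (hblk _ h1 _ h4).symm.trans (hblk _ h1' _ h4')
    subst e1 e2
    rfl

/-- end of block `k`, `n` rows, ratio `r`, last block `K` -/
noncomputable def hiN (r : ℝ) (K n k : ℕ) : ℕ := ⌊(r ^ k / r ^ K) * (n : ℝ)⌋₊

/-- number of zeros of a row of block `k` -/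
noncomputable def ZN (r : ℝ) (n k : ℕ) : ℕ := ⌊(r ^ k)⁻¹ * (n : ℝ)⌋₊

theorem hiN_mono {r : ℝ} (hr : 1 ≤ r) (K n : ℕ) : Monotone (hiN r K n) := by
  intro a b hab
  unfold hiN
  refine Nat.floor_le_floor ?_
  have h1 : r ^ a ≤ r ^ b := pow_le_pow_right₀ hr hab
  have h2 : 0 < r ^ K := by positivity
  have h3 : r ^ a / r ^ K ≤ r ^ b / r ^ K := by gcongr
  exact mul_le_mul_of_nonneg_right h3 (Nat.cast_nonneg n)

theorem hiN_le {r : ℝ} (hr : 1 ≤ r) (K n k : ℕ) (hk : k ≤ K) : hiN r K n k ≤ n := by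
  unfold hiN
  refine Nat.floor_le_of_le ?_
  have h1 : r ^ k ≤ r ^ K := pow_le_pow_right₀ hr hk
  have h2 : 0 < r ^ K := by positivity
  have h3 : r ^ k / r ^ K ≤ 1 := (div_le_one h2).2 h1
  have h4 : (0 : ℝ) ≤ n := Nat.cast_nonneg n
  nlinarith

theorem ZN_anti {r : ℝ} (hr : 1 ≤ r) (n : ℕ) : Antitone (ZN r n) := by
  intro a b hab
  unfold ZN
  refine Nat.floor_le_floor ?_
  have h1 : r ^ a ≤ r ^ b := pow_le_pow_right₀ hr hab
  have h2 : 0 < r ^ a := by positivity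
  exact mul_le_mul_of_nonneg_right (inv_anti₀ h2 h1) (Nat.cast_nonneg n)

theorem ZN_le {r : ℝ} (hr : 1 ≤ r) (n k : ℕ) : ZN r n k ≤ n := by
  unfold ZN
  refine Nat.floor_le_of_le ?_
  have h1 : (1 : ℝ) ≤ r ^ k := one_le_pow₀ hr
  have h3 : (r ^ k)⁻¹ ≤ 1 := inv_le_one_of_one_le₀ h1
  have h4 : (0 : ℝ) ≤ n := Nat.cast_nonneg n
  nlinarith

theorem lim_floor {a : ℝ} (ha : 0 ≤ a) :
    Tendsto (fun n : ℕ => ((⌊a * (n : ℝ)⌋₊ : ℕ) : ℝ) / (n : ℝ)) atTop (𝓝 a) :=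
  (tendsto_nat_floor_mul_div_atTop ha).comp tendsto_natCast_atTop_atTop

theorem lim_sub {a b : ℕ → ℕ} {α β : ℝ} (h : ∀ n, b n ≤ a n)
    (ha : Tendsto (fun n : ℕ => (a n : ℝ) / (n : ℝ)) atTop (𝓝 α))
    (hb : Tendsto (fun n : ℕ => (b n : ℝ) / (n : ℝ)) atTop (𝓝 β)) :
    Tendsto (fun n : ℕ => ((a n - b n : ℕ) : ℝ) / (n : ℝ)) atTop (𝓝 (α - β)) := by
  have : (fun n : ℕ => ((a n - b n : ℕ) : ℝ) / (n : ℝ)) =
      fun n : ℕ => (a n : ℝ) / (n : ℝ) - (b n : ℝ) / (n : ℝ) := by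
    funext n
    rw [Nat.cast_sub (h n), sub_div]
  rw [this]
  exact ha.sub hb

/-- the limit of the lower end of a block -/
noncomputable def xlo (r : ℝ) (K k : ℕ) : ℝ := if k = 0 then 0 else r ^ (k - 1) / r ^ K

theorem lim_lo {r : ℝ} (hr : 1 ≤ r) (K k : ℕ) :
    Tendsto (fun n : ℕ => (lo (hiN r K n) k : ℝ) / (n : ℝ)) atTop (𝓝 (xlo r K k)) := by
  unfold lo xlo
  split_ifs with h
  · simp
  · exact lim_floor (by positivity)

theorem lo_le {r : ℝ} (hr : 1 ≤ r) (K n k : ℕ) : lo (hiN r K n) k ≤ hiN r K n k := by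
  unfold lo
  split_ifs with h
  · exact Nat.zero_le _
  · exact hiN_mono hr K n (by omega)

/-- the limit of the lower bound -/
noncomputable def Lim (r : ℝ) (K : ℕ) : ℝ :=
  ∑ k' ∈ range (K + 1), ∑ k ∈ range k',
    (r ^ k / r ^ K - xlo r K k) * ((r ^ k' / r ^ K - xlo r K k') *
      ((r ^ k')⁻¹ * ((r ^ k)⁻¹ - (r ^ k')⁻¹)))

theorem lim_S {r : ℝ} (hr : 1 ≤ r) (K : ℕ) :
    Tendsto (fun n : ℕ => (S (hiN r K n) (ZN r n) K : ℝ) / (n : ℝ) ^ 4) atTop
      (𝓝 (Lim r K)) := by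
  have hEq : (fun n : ℕ => (S (hiN r K n) (ZN r n) K : ℝ) / (n : ℝ) ^ 4) =
      fun n : ℕ => ∑ k' ∈ range (K + 1), ∑ k ∈ range k',
        (((hiN r K n k - lo (hiN r K n) k : ℕ) : ℝ) / (n : ℝ)) *
          ((((hiN r K n k' - lo (hiN r K n) k' : ℕ) : ℝ) / (n : ℝ)) *
            (((ZN r n k' : ℕ) : ℝ) / (n : ℝ) *
              (((ZN r n k - ZN r n k' : ℕ) : ℝ) / (n : ℝ)))) := by
    funext n
    unfold S
    rw [Nat.cast_sum, Finset.sum_div]
    refine Finset.sum_congr rfl fun k' _ => ?_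
    rw [Nat.cast_sum, Finset.sum_div]
    refine Finset.sum_congr rfl fun k _ => ?_
    rw [Nat.cast_mul, Nat.cast_mul, Nat.cast_mul]
    ring
  rw [hEq]
  unfold Lim
  refine tendsto_finsetSum _ fun k' _ => tendsto_finsetSum _ fun k hk => ?_
  have hk' : k ≤ k' := (mem_range.1 hk).le
  refine Tendsto.mul ?_ (Tendsto.mul ?_ (Tendsto.mul ?_ ?_))
  · exact lim_sub (fun n => lo_le hr K n k) (lim_floor (by positivity)) (lim_lo hr K k)
  · exact lim_sub (fun n => lo_le hr K n k') (lim_floor (by positivity)) (lim_lo hr K k')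
  · exact lim_floor (by positivity)
  · exact lim_sub (fun n => ZN_anti hr n hk') (lim_floor (by positivity))
      (lim_floor (by positivity))

theorem inner_sum {r : ℝ} (hr : 1 ≤ r) (K : ℕ) (z : ℝ) (j : ℕ) :
    ∑ k ∈ range (j + 1), (r ^ k / r ^ K - xlo r K k) * ((r ^ k)⁻¹ - z) =
      1 / r ^ K + (j : ℝ) * (1 / r ^ K) * (1 - 1 / r) - r ^ j / r ^ K * z := by
  have hr0 : r ≠ 0 := by positivity
  induction j with
  | zero =>
    simp [xlo]
    ring
  | succ j ih =>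
    rw [Finset.sum_range_succ, ih]
    unfold xlo
    rw [if_neg (by omega), Nat.add_sub_cancel]
    push_cast
    field_simp
    ring

theorem Lim_eq {r : ℝ} (hr : 1 ≤ r) (K : ℕ) :
    Lim r K = (1 / r ^ K) ^ 2 * (1 - 1 / r) ^ 2 * ((K : ℝ) * (K + 1) / 2) := by
  have hr0 : r ≠ 0 := by positivity
  have h1 : ∀ m : ℕ, ∑ k ∈ range m,
      (r ^ k / r ^ K - xlo r K k) * ((r ^ m / r ^ K - xlo r K m) *
        ((r ^ m)⁻¹ * ((r ^ k)⁻¹ - (r ^ m)⁻¹))) =
      (1 / r ^ K) ^ 2 * (1 - 1 / r) ^ 2 * (m : ℝ) := by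
    intro m
    cases m with
    | zero => simp
    | succ j =>
      have e1 : ∀ k, (r ^ k / r ^ K - xlo r K k) * ((r ^ (j + 1) / r ^ K - xlo r K (j + 1)) *
          ((r ^ (j + 1))⁻¹ * ((r ^ k)⁻¹ - (r ^ (j + 1))⁻¹))) =
          ((r ^ (j + 1) / r ^ K - xlo r K (j + 1)) * (r ^ (j + 1))⁻¹) *
            ((r ^ k / r ^ K - xlo r K k) * ((r ^ k)⁻¹ - (r ^ (j + 1))⁻¹)) := by
        intro k; ring
      rw [Finset.sum_congr rfl fun k _ => e1 k, ← Finset.mul_sum, inner_sum hr K]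
      unfold xlo
      rw [if_neg (by omega), Nat.add_sub_cancel]
      push_cast
      field_simp
      ring
  unfold Lim
  rw [Finset.sum_congr rfl fun m _ => h1 m, ← Finset.mul_sum]
  congr 1
  induction K with
  | zero => simp
  | succ K ih =>
    rw [Finset.sum_range_succ]
    have : ∑ i ∈ range (K + 1), (i : ℝ) = (K : ℝ) * (K + 1) / 2 := by
      clear ih h1
      induction K with
      | zero => simp
      | succ K ih =>
        rw [Finset.sum_range_succ, ih]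
        push_cast
        ring
    rw [this]
    push_cast
    ring

theorem top_H0 : top H0 = 1 := by
  decide

theorem copies_le_all {n : ℕ} (M : Fin n → Fin n → ℕ) :
    copies H0 M ≤ Nat.card ((Fin 2 → Fin n) × (Fin 2 → Fin n)) := by
  unfold copies
  exact Nat.card_le_card_of_injective Subtype.val Subtype.val_injective

theorem dens_le_fMono {n : ℕ} (M : Fin n → Fin n → ℕ) (hM : Avoids (top H0) M) :
    dens H0 M ≤ fMono H0 n := by
  unfold fMono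
  refine le_ciSup (f := fun M : {M : Fin n → Fin n → ℕ // Avoids (top H0) M} => dens H0 M.1)
    ?_ ⟨M, hM⟩
  refine ⟨(Nat.card ((Fin 2 → Fin n) × (Fin 2 → Fin n)) : ℝ) / ((n.choose 2 : ℝ)) ^ 2, ?_⟩
  rintro _ ⟨N, rfl⟩
  show dens H0 N.1 ≤ _
  unfold dens
  have := copies_le_all N.1
  have h2 : (copies H0 N.1 : ℝ) ≤ (Nat.card ((Fin 2 → Fin n) × (Fin 2 → Fin n)) : ℝ) := by
    exact_mod_cast this
  exact div_le_div_of_nonneg_right h2 (by positivity)

theorem dens_ge {n : ℕ} (hn : 2 ≤ n) (M : Fin n → Fin n → ℕ) {s : ℕ} (hs : s ≤ copies H0 M) :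
    4 * ((s : ℝ) / (n : ℝ) ^ 4) ≤ dens H0 M := by
  unfold dens
  have h1 : (n.choose 2 : ℝ) = (n : ℝ) * ((n : ℝ) - 1) / 2 := Nat.cast_choose_two ℝ n
  rw [h1]
  have h2 : (2 : ℝ) ≤ n := by exact_mod_cast hn
  have h3 : (s : ℝ) ≤ copies H0 M := by exact_mod_cast hs
  have h4 : 0 < (n : ℝ) * ((n : ℝ) - 1) / 2 := by
    have : 0 < (n : ℝ) * ((n : ℝ) - 1) := mul_pos (by linarith) (by linarith)
    linarith
  have h5 : (n : ℝ) * ((n : ℝ) - 1) / 2 ≤ (n : ℝ) ^ 2 / 2 := by nlinarith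
  have h6 : ((n : ℝ) * ((n : ℝ) - 1) / 2) ^ 2 ≤ ((n : ℝ) ^ 2 / 2) ^ 2 := by gcongr
  have h7 : 4 * ((s : ℝ) / (n : ℝ) ^ 4) = (s : ℝ) / ((n : ℝ) ^ 2 / 2) ^ 2 := by
    have : (n : ℝ) ≠ 0 := by positivity
    field_simp
    ring
  rw [h7]
  have h8 : (0 : ℝ) ≤ s := Nat.cast_nonneg s
  calc (s : ℝ) / ((n : ℝ) ^ 2 / 2) ^ 2 ≤ (s : ℝ) / ((n : ℝ) * ((n : ℝ) - 1) / 2) ^ 2 := by
        apply div_le_div_of_nonneg_left h8 (by positivity) h6
    _ ≤ _ := div_le_div_of_nonneg_right h3 (by positivity)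

theorem fMono_ge {r : ℝ} (hr : 1 ≤ r) (K n : ℕ) (hn : 2 ≤ n) :
    4 * ((S (hiN r K n) (ZN r n) K : ℝ) / (n : ℝ) ^ 4) ≤ fMono H0 n := by
  have h1 := copies_blocks (hiN_mono hr K n) (hiN_le hr K n) (ZN_anti hr n) (ZN_le hr n)
  have hz : Antitone (fun i : Fin n => ZN r n (blk (hiN r K n) K i)) := by
    intro i j hij
    exact ZN_anti hr n (blk_mono _ K hij)
  exact (dens_ge hn _ h1).trans (dens_le_fMono _ (host_avoids hz _))

theorem value_K {K : ℕ} (hK : 1 ≤ K) :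
    2 / Real.exp 1 ^ 2 * (1 - 1 / ((K : ℝ) + 1)) ≤ 4 * Lim (1 + 1 / (K : ℝ)) K := by
  have hK0 : (0 : ℝ) < K := by exact_mod_cast hK
  have hr : (1 : ℝ) ≤ 1 + 1 / (K : ℝ) := by
    have : 0 < 1 / (K : ℝ) := by positivity
    linarith
  rw [Lim_eq hr]
  have h1 : (1 + 1 / (K : ℝ)) ^ K ≤ Real.exp 1 := by
    have h2 : 1 + 1 / (K : ℝ) ≤ Real.exp (1 / (K : ℝ)) := by
      have := Real.add_one_le_exp (1 / (K : ℝ))
      linarith
    calc (1 + 1 / (K : ℝ)) ^ K ≤ (Real.exp (1 / (K : ℝ))) ^ K := by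
          apply pow_le_pow_left₀ (by positivity) h2
      _ = Real.exp 1 := by
          rw [← Real.exp_nat_mul]
          congr 1
          field_simp
  have h3 : 1 - 1 / (1 + 1 / (K : ℝ)) = 1 / ((K : ℝ) + 1) := by
    field_simp
    ring
  rw [h3]
  have h4 : (1 / Real.exp 1) ^ 2 ≤ (1 / (1 + 1 / (K : ℝ)) ^ K) ^ 2 := by
    have : (1 / Real.exp 1) ≤ (1 / (1 + 1 / (K : ℝ)) ^ K) :=
      one_div_le_one_div_of_le (by positivity) h1
    exact pow_le_pow_left₀ (by positivity) this 2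
  have h5 : 4 * ((1 / (1 + 1 / (K : ℝ)) ^ K) ^ 2 * (1 / ((K : ℝ) + 1)) ^ 2 *
      ((K : ℝ) * (K + 1) / 2)) =
      (1 / (1 + 1 / (K : ℝ)) ^ K) ^ 2 * (2 * (1 - 1 / ((K : ℝ) + 1))) := by
    have : ((1 / ((K : ℝ) + 1)) ^ 2 * ((K : ℝ) * (K + 1) / 2)) * 4 =
        2 * (1 - 1 / ((K : ℝ) + 1)) := by
      field_simp
      ring
    rw [← this]
    ring
  rw [h5]
  have h6 : 0 ≤ 2 * (1 - 1 / ((K : ℝ) + 1)) := by
    have : 1 / ((K : ℝ) + 1) ≤ 1 := by
      rw [div_le_one (by positivity)]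
      linarith
    linarith
  calc 2 / Real.exp 1 ^ 2 * (1 - 1 / ((K : ℝ) + 1)) =
        (1 / Real.exp 1) ^ 2 * (2 * (1 - 1 / ((K : ℝ) + 1))) := by ring
    _ ≤ _ := mul_le_mul_of_nonneg_right h4 h6

/-- the monotone lower bound -/
theorem lower (ε : ℝ) (hε : 0 < ε) :
    ∃ n0 : ℕ, ∀ n ≥ n0, 2 / Real.exp 1 ^ 2 - ε ≤ fMono H0 n := by
  obtain ⟨K, hK⟩ := exists_nat_one_div_lt (show (0 : ℝ) < ε / 4 by positivity)
  have hK1 : 1 ≤ K + 1 := by omega
  have hr : (1 : ℝ) ≤ 1 + 1 / ((K + 1 : ℕ) : ℝ) := by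
    have : 0 < 1 / ((K + 1 : ℕ) : ℝ) := by positivity
    linarith
  have h1 := value_K hK1
  have h2 := (lim_S hr (K + 1)).const_mul 4
  have h3 : 2 / Real.exp 1 ^ 2 - ε < 4 * Lim (1 + 1 / ((K + 1 : ℕ) : ℝ)) (K + 1) := by
    refine lt_of_lt_of_le ?_ h1
    have h4 : 1 / (((K + 1 : ℕ) : ℝ) + 1) ≤ ε / 4 := by
      refine le_trans ?_ hK.le
      apply one_div_le_one_div_of_le (by positivity)
      push_cast
      linarith
    have h5 : 2 / Real.exp 1 ^ 2 ≤ 2 := by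
      apply div_le_self (by norm_num)
      have : (1 : ℝ) ≤ Real.exp 1 := by
        have := Real.add_one_le_exp (1 : ℝ)
        linarith
      exact one_le_pow₀ this
    have h6 : 0 ≤ 2 / Real.exp 1 ^ 2 := by positivity
    have h7 : 0 ≤ 1 / (((K + 1 : ℕ) : ℝ) + 1) := by positivity
    nlinarith
  have h8 := (tendsto_order.1 h2).1 _ h3
  obtain ⟨n0, hn0⟩ := eventually_atTop.1 h8
  refine ⟨max n0 2, fun n hn => ?_⟩
  exact (hn0 n (le_trans (le_max_left _ _) hn)).le.trans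
    (fMono_ge hr (K + 1) n (le_trans (le_max_right _ _) hn))

end Pool.Agent.Lib.MP_efec9b_co.LB85
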