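import Pool.Agent.Lib.MP_efec9b_co.All24
import Pool.Agent.Lib.MP_efec9b_co.LB85

/-!
MP_efec9b_co, the matrix `(0 0; 0 1)`: both limits.
-/

set_option autoImplicit false

namespace Pool.Agent.Lib.MP_efec9b_co.E2

open Finset Filter Topology

theorem lb (ε : ℝ) (hε : 0 < ε) : ∀ᶠ n : ℕ in atTop, 2 * Real.exp (-2) - ε ≤ fMono H2 n := by
  obtain ⟨n0, h⟩ := LB85.lower ε hε
  filter_upwards [eventually_ge_atTop n0] with n hn
  have h1 : 2 / Real.exp 1 ^ 2 = 2 * Real.exp (-2) := by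
    rw [Real.exp_neg, div_eq_mul_inv, ← Real.exp_nat_mul]
    norm_num
  rw [← h1]
  exact h n hn

/-- Both limits for `(0 0; 0 1)`. -/
theorem both_of_QD (hQD : StQD) :
    Tendsto (fAll H2) atTop (𝓝 (2 * Real.exp (-2))) ∧
    Tendsto (fMono H2) atTop (𝓝 (2 * Real.exp (-2))) :=
  both (stSup_of_QD hQD) lb

end Pool.Agent.Lib.MP_efec9b_co.E2
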