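import Pool.Agent.Lib.MP_efec9b_co.Defs77

/-!
MP_efec9b_co, the matrix `(0 0; 0 1)`: from matrices to laws on sets of columns.
-/

set_option autoImplicit false

namespace Pool.Agent.Lib.MP_efec9b_co.E2

open Finset Filter Topology

/-- the kernel -/
def S1 {n : ℕ} (A B : Finset (Fin n)) : ℕ :=
  ∑ x ∈ A ∩ B, max ((A \ B).filter (fun t => x < t)).card ((B \ A).filter (fun t => x < t)).card

/-- the matrix `(0 0; 0 1)` -/
def H2 : Fin 2 → Fin 2 → ℕ := fun i j => if i = 1 ∧ j = 1 then 1 else 0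

/-- the zeros of row `i` -/
def Z {n : ℕ} (M : Fin n → Fin n → ℕ) (i : Fin n) : Finset (Fin n) :=
  univ.filter (fun j => M i j = 0)

/-- what remains to be shown: `1/e²` is the value of the kernel -/
def StSup : Prop := ∀ ε : ℝ, 0 < ε → ∃ n0 : ℕ, ∀ n : ℕ, n0 ≤ n → ∀ μ : Finset (Fin n) → ℝ,
  (∀ A, 0 ≤ μ A) → ∑ A, μ A = 1 →
  ∑ A, ∑ B, μ A * μ B * (S1 A B : ℝ) ≤ (Real.exp (-2) + ε) * (n : ℝ) ^ 2

theorem S1_comm {n : ℕ} (A B : Finset (Fin n)) : S1 A B = S1 B A := by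
  unfold S1
  rw [inter_comm]
  exact sum_congr rfl fun x _ => max_comm _ _

theorem mem_Z {n : ℕ} {M : Fin n → Fin n → ℕ} {i j : Fin n} : j ∈ Z M i ↔ M i j = 0 := by
  simp [Z]

theorem pair_count {n : ℕ} (A B : Finset (Fin n)) :
    ((univ : Finset (Fin n × Fin n)).filter
      (fun q => q.1 ∈ A ∩ B ∧ q.2 ∈ A \ B ∧ q.1 < q.2)).card ≤ S1 A B := by
  have h : (univ : Finset (Fin n × Fin n)).filter
      (fun q => q.1 ∈ A ∩ B ∧ q.2 ∈ A \ B ∧ q.1 < q.2) =
      (A ∩ B).biUnion (fun x => ((A \ B).filter (fun t => x < t)).map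
        ⟨fun t => (x, t), fun a b hab => by simpa using hab⟩) := by
    ext ⟨x, y⟩
    simp only [mem_filter, mem_univ, true_and, mem_biUnion, Finset.mem_map, Function.Embedding.coeFn_mk,
      Prod.mk.injEq]
    constructor
    · rintro ⟨h1, h2, h3⟩
      exact ⟨x, h1, y, ⟨h2, h3⟩, rfl, rfl⟩
    · rintro ⟨x', h1, y', ⟨h2, h3⟩, rfl, rfl⟩
      exact ⟨h1, h2, h3⟩
  rw [h]
  refine card_biUnion_le.trans ?_
  unfold S1
  refine sum_le_sum fun x _ => ?_
  rw [card_map]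
  exact le_max_left _ _

theorem copies_le {n : ℕ} (M : Fin n → Fin n → ℕ) :
    2 * copies H2 M ≤ ∑ i, ∑ i', S1 (Z M i) (Z M i') := by
  classical
  set T : Finset ((Fin n × Fin n) × (Fin n × Fin n)) := univ.filter
    (fun q => q.1.1 < q.1.2 ∧ q.2.1 ∈ Z M q.1.1 ∩ Z M q.1.2 ∧ q.2.2 ∈ Z M q.1.1 \ Z M q.1.2 ∧
      q.2.1 < q.2.2) with hT
  have h1 : copies H2 M ≤ T.card := by
    unfold copies
    have hc : Nat.card {q // q ∈ T} = T.card := by
      rw [Nat.card_eq_fintype_card, Fintype.card_coe]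
    rw [← hc]
    refine Nat.card_le_card_of_injective (fun p => ⟨((p.1.1 0, p.1.1 1), (p.1.2 0, p.1.2 1)), ?_⟩) ?_
    · obtain ⟨⟨r, c⟩, h1, h2, h3⟩ := p
      simp only [hT, mem_filter, mem_univ, true_and, mem_inter, Finset.mem_sdiff, mem_Z]
      have e00 := h3 0 0
      have e01 := h3 0 1
      have e10 := h3 1 0
      have e11 := h3 1 1
      simp only [H2] at e00 e01 e10 e11
      simp at e00 e01 e10 e11
      refine ⟨h1 (by decide), ⟨e00, e10⟩, ⟨e01, by rw [e11]; decide⟩, h2 (by decide)⟩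
    · rintro ⟨⟨r, c⟩, h1, h2, h3⟩ ⟨⟨r', c'⟩, h1', h2', h3'⟩ he
      simp only [Subtype.mk.injEq, Prod.mk.injEq] at he ⊢
      obtain ⟨⟨a1, a2⟩, a3, a4⟩ := he
      constructor
      · funext i
        fin_cases i
        · exact a1
        · exact a2
      · funext i
        fin_cases i
        · exact a3
        · exact a4
  have h2 : T.card ≤ ∑ i, ∑ i', (if i < i' then S1 (Z M i) (Z M i') else 0) := by
    rw [hT, card_filter, Fintype.sum_prod_type,
      ← Fintype.sum_prod_type' (f := fun i i' => if i < i' then S1 (Z M i) (Z M i') else 0)]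
    refine sum_le_sum fun p _ => ?_
    by_cases hp : p.1 < p.2
    · rw [if_pos hp]
      refine le_trans (le_of_eq ?_) (pair_count (Z M p.1) (Z M p.2))
      rw [card_filter]
      refine sum_congr rfl fun r _ => ?_
      simp [hp]
    · rw [if_neg hp]
      simp [hp]
  have h3 : ∑ i, ∑ i', (if i < i' then S1 (Z M i) (Z M i') else 0) =
      ∑ i, ∑ i', (if i' < i then S1 (Z M i) (Z M i') else 0) := by
    rw [sum_comm]
    refine sum_congr rfl fun i _ => sum_congr rfl fun i' _ => ?_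
    rw [S1_comm]
  have h4 : ∑ i, ∑ i', (if i < i' then S1 (Z M i) (Z M i') else 0) +
      ∑ i, ∑ i', (if i' < i then S1 (Z M i) (Z M i') else 0) ≤
      ∑ i, ∑ i', S1 (Z M i) (Z M i') := by
    rw [← sum_add_distrib]
    refine sum_le_sum fun i _ => ?_
    rw [← sum_add_distrib]
    refine sum_le_sum fun i' _ => ?_
    rcases lt_trichotomy i i' with h | h | h
    · simp [h, h.not_gt]
    · simp [h]
    · simp [h, h.not_gt]
  omega

theorem dens_le (K : ℝ) {n : ℕ} (hn : 2 ≤ n)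
    (hK : ∀ μ : Finset (Fin n) → ℝ, (∀ A, 0 ≤ μ A) → ∑ A, μ A = 1 →
      ∑ A, ∑ B, μ A * μ B * (S1 A B : ℝ) ≤ K * (n : ℝ) ^ 2) (M : Fin n → Fin n → ℕ) :
    dens H2 M ≤ 2 * K * ((n : ℝ) / (n - 1)) ^ 2 := by
  classical
  have hn0 : (0 : ℝ) < n := by
    have : 0 < n := by omega
    exact_mod_cast this
  have hn1 : (0 : ℝ) < (n : ℝ) - 1 := by
    have : (2 : ℝ) ≤ n := by exact_mod_cast hn
    linarith
  -- the law of the rows
  set μ : Finset (Fin n) → ℝ := fun A => ∑ i : Fin n, if Z M i = A then (n : ℝ)⁻¹ else 0 with hμ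
  have h1 : ∀ A, 0 ≤ μ A := by
    intro A
    refine sum_nonneg fun i _ => ?_
    split_ifs
    · positivity
    · exact le_rfl
  have hg : ∀ g : Finset (Fin n) → ℝ, ∑ A, μ A * g A = ∑ i, (n : ℝ)⁻¹ * g (Z M i) := by
    intro g
    simp only [hμ, sum_mul]
    rw [sum_comm]
    refine sum_congr rfl fun i _ => ?_
    rw [sum_eq_single (Z M i)]
    · simp
    · intro A _ hA
      rw [if_neg (Ne.symm hA), zero_mul]
    · simp
  have h2 : ∑ A, μ A = 1 := by
    have := hg (fun _ => 1)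
    simp only [mul_one] at this
    rw [this, sum_const, card_univ, Fintype.card_fin, nsmul_eq_mul, mul_inv_cancel₀ hn0.ne']
  have h3 : ∑ A, ∑ B, μ A * μ B * (S1 A B : ℝ) =
      ((n : ℝ)⁻¹) ^ 2 * ∑ i, ∑ i', (S1 (Z M i) (Z M i') : ℝ) := by
    have e1 : ∀ A, ∑ B, μ A * μ B * (S1 A B : ℝ) =
        μ A * ∑ i', (n : ℝ)⁻¹ * (S1 A (Z M i') : ℝ) := by
      intro A
      rw [← hg (fun B => (S1 A B : ℝ)), mul_sum]
      exact sum_congr rfl fun B _ => by ring
    rw [sum_congr rfl fun A _ => e1 A, hg (fun A => ∑ i', (n : ℝ)⁻¹ * (S1 A (Z M i') : ℝ)), mul_sum]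
    refine sum_congr rfl fun i _ => ?_
    rw [← mul_sum]
    ring
  have h4 := hK μ h1 h2
  rw [h3] at h4
  have h5 : (2 : ℝ) * copies H2 M ≤ ∑ i, ∑ i', (S1 (Z M i) (Z M i') : ℝ) := by
    exact_mod_cast copies_le M
  have h6 : (2 : ℝ) * copies H2 M ≤ K * (n : ℝ) ^ 4 := by
    have e : ∑ i, ∑ i', (S1 (Z M i) (Z M i') : ℝ) =
        (n : ℝ) ^ 2 * (((n : ℝ)⁻¹) ^ 2 * ∑ i, ∑ i', (S1 (Z M i) (Z M i') : ℝ)) := by
      field_simp
    rw [e] at h5
    calc (2 : ℝ) * copies H2 M ≤ (n : ℝ) ^ 2 * (K * (n : ℝ) ^ 2) :=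
          h5.trans (mul_le_mul_of_nonneg_left h4 (by positivity))
      _ = K * (n : ℝ) ^ 4 := by ring
  have h7 : ((n.choose 2 : ℕ) : ℝ) = (n : ℝ) * (n - 1) / 2 := Nat.cast_choose_two ℝ n
  unfold dens
  rw [h7, div_le_iff₀ (by positivity)]
  calc (copies H2 M : ℝ) ≤ K * (n : ℝ) ^ 4 / 2 := by linarith
    _ = 2 * K * ((n : ℝ) / (n - 1)) ^ 2 * ((n : ℝ) * (n - 1) / 2) ^ 2 := by
        field_simp

theorem bdd_all (n : ℕ) : BddAbove (Set.range fun M : Fin n → Fin n → ℕ => dens H2 M) := by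
  refine ⟨(Nat.card ((Fin 2 → Fin n) × (Fin 2 → Fin n)) : ℝ) / ((n.choose 2 : ℝ)) ^ 2, ?_⟩
  rintro _ ⟨M, rfl⟩
  unfold dens
  refine div_le_div_of_nonneg_right ?_ (by positivity)
  have := Nat.card_le_card_of_injective (α := {p : (Fin 2 → Fin n) × (Fin 2 → Fin n) //
    StrictMono p.1 ∧ StrictMono p.2 ∧ ∀ i j, M (p.1 i) (p.2 j) = H2 i j}) _ Subtype.val_injective
  exact_mod_cast this

theorem fMono_le_fAll (n : ℕ) : fMono H2 n ≤ fAll H2 n := by
  have : Nonempty {M : Fin n → Fin n → ℕ // Avoids (top H2) M} := by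
    refine ⟨⟨fun _ _ => 0, ?_, ?_⟩⟩
    · intro _ _ _ _ _
      exact le_rfl
    · intro _ _ _ _ _
      exact le_rfl
  exact ciSup_le fun M => le_ciSup (bdd_all n) M.1

/-- (F2) -/
theorem upper (hS : StSup) : ∀ ε : ℝ, 0 < ε → ∀ᶠ n : ℕ in atTop,
    fAll H2 n ≤ 2 * Real.exp (-2) + ε := by
  intro ε hε
  set δ : ℝ := ε / 4 with hδ
  have hδ0 : 0 < δ := by positivity
  obtain ⟨n0, hn0⟩ := hS δ hδ0
  have hlim : Tendsto (fun n : ℕ => 2 * (Real.exp (-2) + δ) * ((n : ℝ) / (n - 1)) ^ 2) atTop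
      (𝓝 (2 * (Real.exp (-2) + δ) * 1 ^ 2)) := by
    refine Tendsto.const_mul _ (Tendsto.pow ?_ 2)
    have h1 : Tendsto (fun n : ℕ => (1 : ℝ) / (n : ℝ)) atTop (𝓝 0) :=
      tendsto_const_div_atTop_nhds_zero_nat _
    have h2 : Tendsto (fun n : ℕ => 1 / (1 - (1 : ℝ) / (n : ℝ))) atTop (𝓝 (1 / (1 - 0))) :=
      tendsto_const_nhds.div (tendsto_const_nhds.sub h1) (by norm_num)
    rw [show (1 : ℝ) / (1 - 0) = 1 by norm_num] at h2
    refine h2.congr' ?_
    filter_upwards [eventually_gt_atTop 1] with n hn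
    have hn' : (1 : ℝ) < n := by exact_mod_cast hn
    have h3 : (n : ℝ) ≠ 0 := by positivity
    have h4 : (n : ℝ) - 1 ≠ 0 := by linarith
    field_simp
  have hlt : 2 * (Real.exp (-2) + δ) * 1 ^ 2 < 2 * Real.exp (-2) + ε := by
    rw [hδ]
    linarith
  filter_upwards [hlim.eventually (gt_mem_nhds hlt), eventually_ge_atTop n0,
    eventually_ge_atTop 2] with n h1 h2 h3
  refine le_trans ?_ h1.le
  exact ciSup_le fun M => dens_le (Real.exp (-2) + δ) h3 (fun μ a b => hn0 n h2 μ a b) M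

/-- (F3) -/
theorem both (hS : StSup)
    (hL : ∀ ε : ℝ, 0 < ε → ∀ᶠ n : ℕ in atTop, 2 * Real.exp (-2) - ε ≤ fMono H2 n) :
    Tendsto (fAll H2) atTop (𝓝 (2 * Real.exp (-2))) ∧
    Tendsto (fMono H2) atTop (𝓝 (2 * Real.exp (-2))) := by
  constructor
  · rw [Metric.tendsto_atTop']
    intro ε hε
    have h1 := upper hS (ε / 2) (by positivity)
    have h2 := hL (ε / 2) (by positivity)
    obtain ⟨N, hN⟩ := (h1.and h2).exists_forall_of_atTop
    refine ⟨N, fun n hn => ?_⟩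
    obtain ⟨a, b⟩ := hN n hn.le
    have c := fMono_le_fAll n
    rw [Real.dist_eq, abs_lt]
    constructor <;> linarith
  · rw [Metric.tendsto_atTop']
    intro ε hε
    have h1 := upper hS (ε / 2) (by positivity)
    have h2 := hL (ε / 2) (by positivity)
    obtain ⟨N, hN⟩ := (h1.and h2).exists_forall_of_atTop
    refine ⟨N, fun n hn => ?_⟩
    obtain ⟨a, b⟩ := hN n hn.le
    have c := fMono_le_fAll n
    rw [Real.dist_eq, abs_lt]
    constructor <;> linarith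

end Pool.Agent.Lib.MP_efec9b_co.E2
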