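import Mathlib

/-!
MP_efec9b (87): weighted columns, the kernel S1, existence of a maximizer, column condition.
-/

namespace Pool.Agent.Lib.MP_efec9b_co.MAX87

open Finset

variable {n : ℕ}

/-- Weight of the part of A to the right of column j. -/
def tail (w : Fin n → ℝ) (j : Fin n) (A : Finset (Fin n)) : ℝ :=
  ∑ i ∈ A.filter (fun i => j < i), w i

/-- The larger of the two differences, to the right of column j. -/
noncomputable def Dj (w : Fin n → ℝ) (j : Fin n) (A B : Finset (Fin n)) : ℝ :=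
  max (tail w j (A \ B)) (tail w j (B \ A))

/-- The pointwise kernel. -/
noncomputable def S1 (w : Fin n → ℝ) (A B : Finset (Fin n)) : ℝ :=
  ∑ j ∈ A ∩ B, w j * Dj w j A B

/-- The quadratic form. -/
noncomputable def J (w : Fin n → ℝ) (μ : Finset (Fin n) → ℝ) : ℝ :=
  ∑ A, ∑ B, μ A * μ B * S1 w A B

lemma continuous_J : Continuous (fun x : (Fin n → ℝ) × (Finset (Fin n) → ℝ) => J x.1 x.2) := by
  unfold J S1 Dj tail
  refine continuous_finsetSum _ fun A _ => continuous_finsetSum _ fun B _ => ?_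
  refine Continuous.mul ?_ ?_
  · exact ((continuous_apply A).comp continuous_snd).mul ((continuous_apply B).comp continuous_snd)
  · refine continuous_finsetSum _ fun j _ => ?_
    refine ((continuous_apply j).comp continuous_fst).mul ?_
    exact (continuous_finsetSum _ fun i _ => (continuous_apply i).comp continuous_fst).max
      (continuous_finsetSum _ fun i _ => (continuous_apply i).comp continuous_fst)

theorem exists_max (hn : 0 < n) : ∃ w ∈ stdSimplex ℝ (Fin n),
    ∃ μ ∈ stdSimplex ℝ (Finset (Fin n)), ∀ w' ∈ stdSimplex ℝ (Fin n),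
      ∀ μ' ∈ stdSimplex ℝ (Finset (Fin n)), J w' μ' ≤ J w μ := by
  have hK : IsCompact ((stdSimplex ℝ (Fin n)) ×ˢ (stdSimplex ℝ (Finset (Fin n)))) :=
    (isCompact_stdSimplex ℝ (Fin n)).prod (isCompact_stdSimplex ℝ (Finset (Fin n)))
  have : Nonempty (Fin n) := ⟨⟨0, hn⟩⟩
  have hne : ((stdSimplex ℝ (Fin n)) ×ˢ (stdSimplex ℝ (Finset (Fin n)))).Nonempty := by
    refine Set.Nonempty.prod ?_ ?_
    · exact ⟨_, single_mem_stdSimplex ℝ (Classical.arbitrary (Fin n))⟩
    · exact ⟨_, single_mem_stdSimplex ℝ (∅ : Finset (Fin n))⟩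
  obtain ⟨x, hx, hmax⟩ := hK.exists_isMaxOn hne continuous_J.continuousOn
  refine ⟨x.1, hx.1, x.2, hx.2, fun w' hw' μ' hμ' => ?_⟩
  exact hmax (show (w', μ') ∈ _ from ⟨hw', hμ'⟩)

lemma tail_smul (c : ℝ) (w : Fin n → ℝ) (j : Fin n) (A : Finset (Fin n)) :
    tail (fun i => c * w i) j A = c * tail w j A := by
  unfold tail
  rw [Finset.mul_sum]

lemma Dj_smul {c : ℝ} (hc : 0 ≤ c) (w : Fin n → ℝ) (j : Fin n) (A B : Finset (Fin n)) :
    Dj (fun i => c * w i) j A B = c * Dj w j A B := by
  unfold Dj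
  rw [tail_smul, tail_smul, mul_max_of_nonneg _ _ hc]

lemma S1_smul {c : ℝ} (hc : 0 ≤ c) (w : Fin n → ℝ) (A B : Finset (Fin n)) :
    S1 (fun i => c * w i) A B = c ^ 2 * S1 w A B := by
  unfold S1
  rw [Finset.mul_sum]
  refine Finset.sum_congr rfl fun j _ => ?_
  rw [Dj_smul hc]
  ring

lemma J_smul {c : ℝ} (hc : 0 ≤ c) (w : Fin n → ℝ) (μ : Finset (Fin n) → ℝ) :
    J (fun i => c * w i) μ = c ^ 2 * J w μ := by
  unfold J
  rw [Finset.mul_sum]
  refine Finset.sum_congr rfl fun A _ => ?_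
  rw [Finset.mul_sum]
  refine Finset.sum_congr rfl fun B _ => ?_
  rw [S1_smul hc]
  ring

/-- The weights with column y shrunk by s. -/
noncomputable def shr (w : Fin n → ℝ) (y : Fin n) (s : ℝ) : Fin n → ℝ :=
  fun i => w i - if i = y then s else 0

lemma tail_shr (w : Fin n → ℝ) (y : Fin n) (s : ℝ) (j : Fin n) (A : Finset (Fin n)) :
    tail (shr w y s) j A = tail w j A - if (y ∈ A ∧ j < y) then s else 0 := by
  unfold tail shr
  rw [Finset.sum_sub_distrib]
  congr 1
  rw [Finset.sum_ite_eq']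
  simp only [Finset.mem_filter]

lemma tail_nonneg {w : Fin n → ℝ} (hw : ∀ i, 0 ≤ w i) (j : Fin n) (A : Finset (Fin n)) :
    0 ≤ tail w j A := Finset.sum_nonneg fun i _ => hw i

lemma Dj_nonneg {w : Fin n → ℝ} (hw : ∀ i, 0 ≤ w i) (j : Fin n) (A B : Finset (Fin n)) :
    0 ≤ Dj w j A B := le_max_of_le_left (tail_nonneg hw _ _)

lemma Dj_le_shr {w : Fin n → ℝ} (y : Fin n) {s : ℝ} (hs : 0 ≤ s) (j : Fin n)
    (A B : Finset (Fin n)) :
    Dj w j A B ≤ Dj (shr w y s) j A B +
      if (j < y ∧ ((y ∈ A ∧ y ∉ B) ∨ (y ∈ B ∧ y ∉ A))) then s else 0 := by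
  unfold Dj
  rw [tail_shr, tail_shr]
  by_cases hj : j < y
  · by_cases hA : y ∈ A <;> by_cases hB : y ∈ B <;>
      simp only [hj, hA, hB, Finset.mem_sdiff, not_true_eq_false, not_false_eq_true,
        and_true, and_false, or_false, false_or, if_true, if_false, sub_zero, and_self, or_self,
        add_zero, le_refl]
    · refine max_le ?_ ?_
      · linarith [le_max_left (tail w j (A \ B) - s) (tail w j (B \ A))]
      · linarith [le_max_right (tail w j (A \ B) - s) (tail w j (B \ A))]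
    · refine max_le ?_ ?_
      · linarith [le_max_left (tail w j (A \ B)) (tail w j (B \ A) - s)]
      · linarith [le_max_right (tail w j (A \ B)) (tail w j (B \ A) - s)]
  · simp only [hj, and_false, false_and, if_false, sub_zero, add_zero, le_refl]

lemma Dj_shr_self (w : Fin n → ℝ) (y : Fin n) (s : ℝ) (A B : Finset (Fin n)) :
    Dj (shr w y s) y A B = Dj w y A B := by
  unfold Dj
  rw [tail_shr, tail_shr]
  simp

/-- One pair: shrinking column y by s. -/
lemma S1_le_shr {w : Fin n → ℝ} (hw : ∀ i, 0 ≤ w i) (y : Fin n) {s : ℝ} (hs : 0 ≤ s)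
    (A B : Finset (Fin n)) :
    S1 w A B ≤ S1 (shr w y s) A B + s * ((if y ∈ A ∩ B then Dj w y A B else 0) +
      (if ((y ∈ A ∧ y ∉ B) ∨ (y ∈ B ∧ y ∉ A)) then ∑ j ∈ univ.filter (fun j => j < y), w j
        else 0)) := by
  have key : S1 w A B ≤ S1 (shr w y s) A B + (∑ j ∈ A ∩ B, if j = y then s * Dj w y A B else 0) +
      ∑ j ∈ A ∩ B, w j * (if (j < y ∧ ((y ∈ A ∧ y ∉ B) ∨ (y ∈ B ∧ y ∉ A))) then s else 0) := by
    unfold S1
    rw [← Finset.sum_add_distrib, ← Finset.sum_add_distrib]
    refine Finset.sum_le_sum fun j _ => ?_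
    by_cases hj : j = y
    · subst hj
      rw [Dj_shr_self]
      simp only [shr, if_true, lt_irrefl, false_and, if_false, mul_zero, add_zero]
      linarith
    · have h1 := Dj_le_shr (w := w) y hs j A B
      have h2 : shr w y s j = w j := by simp [shr, hj]
      rw [h2, if_neg hj, add_zero, ← mul_add]
      exact mul_le_mul_of_nonneg_left h1 (hw j)
  refine key.trans ?_
  rw [Finset.sum_ite_eq', mul_add, ← add_assoc]
  have e1 : (if y ∈ A ∩ B then s * Dj w y A B else 0) =
      s * (if y ∈ A ∩ B then Dj w y A B else 0) := by split_ifs <;> simp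
  rw [e1]
  refine add_le_add le_rfl ?_
  by_cases hx : (y ∈ A ∧ y ∉ B) ∨ (y ∈ B ∧ y ∉ A)
  · simp only [hx, and_true, if_true]
    rw [Finset.mul_sum]
    have : ∑ j ∈ A ∩ B, w j * (if j < y then s else 0) =
        ∑ j ∈ (A ∩ B).filter (fun j => j < y), s * w j := by
      rw [Finset.sum_filter]
      refine Finset.sum_congr rfl fun j _ => ?_
      split_ifs <;> ring
    rw [this]
    refine Finset.sum_le_sum_of_subset_of_nonneg ?_ fun j _ _ => mul_nonneg hs (hw j)
    intro j hj
    simp only [Finset.mem_filter, Finset.mem_univ, true_and] at hj ⊢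
    exact hj.2
  · simp only [hx, and_false, if_false, mul_zero, Finset.sum_const_zero, le_refl]

/-- For a fixed law there are best column weights. -/
theorem exists_max_w (hn : 0 < n) (μ : Finset (Fin n) → ℝ) : ∃ w ∈ stdSimplex ℝ (Fin n),
    ∀ w' ∈ stdSimplex ℝ (Fin n), J w' μ ≤ J w μ := by
  have : Nonempty (Fin n) := ⟨⟨0, hn⟩⟩
  have hne : (stdSimplex ℝ (Fin n)).Nonempty :=
    ⟨_, single_mem_stdSimplex ℝ (Classical.arbitrary (Fin n))⟩
  have hc : Continuous (fun w : Fin n → ℝ => J w μ) :=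
    continuous_J.comp (continuous_id.prodMk continuous_const)
  obtain ⟨w, hw, hmax⟩ := (isCompact_stdSimplex ℝ (Fin n)).exists_isMaxOn hne hc.continuousOn
  exact ⟨w, hw, fun w' hw' => hmax hw'⟩

/-- Probability that y belongs to the random set. -/
noncomputable def pr (μ : Finset (Fin n) → ℝ) (y : Fin n) : ℝ := ∑ A, if y ∈ A then μ A else 0

lemma sum_ite_mem (μ : Finset (Fin n) → ℝ) (y : Fin n) (f : Finset (Fin n) → ℝ) :
    (∑ A, μ A * (if y ∈ A then f A else 0)) = ∑ A, (if y ∈ A then μ A else 0) * f A := by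
  refine Finset.sum_congr rfl fun A _ => ?_
  split_ifs <;> simp

lemma sum_xor {μ : Finset (Fin n) → ℝ} (h1 : ∑ A, μ A = 1) (y : Fin n) :
    (∑ A, ∑ B, μ A * μ B * (if ((y ∈ A ∧ y ∉ B) ∨ (y ∈ B ∧ y ∉ A)) then (1 : ℝ) else 0)) =
      2 * pr μ y * (1 - pr μ y) := by
  have hq : ∑ A, (if y ∈ A then 0 else μ A) = 1 - pr μ y := by
    unfold pr
    rw [← h1, ← Finset.sum_sub_distrib]
    refine Finset.sum_congr rfl fun A _ => ?_
    split_ifs <;> simp
  have e : ∀ A B, μ A * μ B * (if ((y ∈ A ∧ y ∉ B) ∨ (y ∈ B ∧ y ∉ A)) then (1 : ℝ) else 0) =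
      (if y ∈ A then μ A else 0) * (if y ∈ B then 0 else μ B) +
      (if y ∈ A then 0 else μ A) * (if y ∈ B then μ B else 0) := by
    intro A B
    by_cases hA : y ∈ A <;> by_cases hB : y ∈ B <;> simp [hA, hB]
  simp_rw [e, Finset.sum_add_distrib, ← Finset.mul_sum, ← Finset.sum_mul]
  rw [hq]
  unfold pr
  ring

lemma Dj_eq (w : Fin n → ℝ) (j : Fin n) (A B : Finset (Fin n)) :
    Dj w j A B = (tail w j (A \ B) + tail w j (B \ A) + |tail w j A - tail w j B|) / 2 := by
  have h1 : tail w j A = tail w j (A \ B) + tail w j (A ∩ B) := by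
    unfold tail
    rw [← Finset.sum_union]
    · congr 1
      ext i
      simp only [Finset.mem_filter, Finset.mem_union, Finset.mem_sdiff, Finset.mem_inter]
      tauto
    · rw [Finset.disjoint_left]
      intro i hi hi'
      simp only [Finset.mem_filter, Finset.mem_sdiff, Finset.mem_inter] at hi hi'
      exact hi.1.2 hi'.1.2
  have h2 : tail w j B = tail w j (B \ A) + tail w j (A ∩ B) := by
    unfold tail
    rw [← Finset.sum_union]
    · congr 1
      ext i
      simp only [Finset.mem_filter, Finset.mem_union, Finset.mem_sdiff, Finset.mem_inter]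
      tauto
    · rw [Finset.disjoint_left]
      intro i hi hi'
      simp only [Finset.mem_filter, Finset.mem_sdiff, Finset.mem_inter] at hi hi'
      exact hi.1.2 hi'.1.1
  rw [h1, h2]
  unfold Dj
  rcases le_total (tail w j (A \ B)) (tail w j (B \ A)) with h | h
  · rw [max_eq_right h, abs_of_nonpos (by linarith)]
    ring
  · rw [max_eq_left h, abs_of_nonneg (by linarith)]
    ring

/-- Symmetric differences: at most half. -/
lemma symm_bound {w : Fin n → ℝ} (hw : ∀ i, 0 ≤ w i) (j : Fin n) (m : Finset (Fin n) → ℝ)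
    (hm : ∀ A, 0 ≤ m A) :
    (∑ A, ∑ B, m A * m B * (tail w j (A \ B) + tail w j (B \ A))) ≤
      (∑ A, m A) ^ 2 * tail w j univ / 2 := by
  have e : ∀ A B : Finset (Fin n), tail w j (A \ B) + tail w j (B \ A) =
      ∑ i ∈ univ.filter (fun i => j < i), w i *
        ((if i ∈ A then 1 else 0) * (if i ∈ B then 0 else 1) +
          (if i ∈ A then 0 else 1) * (if i ∈ B then 1 else 0)) := by
    intro A B
    unfold tail
    rw [Finset.sum_filter, Finset.sum_filter, Finset.sum_filter]
    have a1 : ∀ C : Finset (Fin n), ∑ a ∈ C, (if j < a then w a else 0) =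
        ∑ a, (if a ∈ C then (if j < a then w a else 0) else 0) := by
      intro C
      rw [Finset.sum_ite_mem, Finset.univ_inter]
    rw [a1, a1, ← Finset.sum_add_distrib]
    refine Finset.sum_congr rfl fun i _ => ?_
    by_cases hA : i ∈ A <;> by_cases hB : i ∈ B <;> by_cases hj : j < i <;> simp [hA, hB, hj]
  simp_rw [e]
  have swap : (∑ A, ∑ B, m A * m B * ∑ i ∈ univ.filter (fun i => j < i), w i *
        ((if i ∈ A then 1 else 0) * (if i ∈ B then 0 else 1) +
          (if i ∈ A then 0 else 1) * (if i ∈ B then 1 else 0))) =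
      ∑ i ∈ univ.filter (fun i => j < i), w i *
        (2 * (∑ A, m A * (if i ∈ A then 1 else 0)) * (∑ A, m A * (if i ∈ A then 0 else 1))) := by
    have c1 : ∀ A B : Finset (Fin n), m A * m B * ∑ i ∈ univ.filter (fun i => j < i), w i *
        ((if i ∈ A then 1 else 0) * (if i ∈ B then 0 else 1) +
          (if i ∈ A then 0 else 1) * (if i ∈ B then 1 else 0)) =
        ∑ i ∈ univ.filter (fun i => j < i), w i *
        ((m A * (if i ∈ A then 1 else 0)) * (m B * (if i ∈ B then 0 else 1)) +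
          (m A * (if i ∈ A then 0 else 1)) * (m B * (if i ∈ B then 1 else 0))) := by
      intro A B
      rw [Finset.mul_sum]
      refine Finset.sum_congr rfl fun i _ => ?_
      ring
    simp_rw [c1]
    have c2 : ∀ A : Finset (Fin n), ∑ B, ∑ i ∈ univ.filter (fun i => j < i), w i *
        ((m A * (if i ∈ A then 1 else 0)) * (m B * (if i ∈ B then 0 else 1)) +
          (m A * (if i ∈ A then 0 else 1)) * (m B * (if i ∈ B then 1 else 0))) =
        ∑ i ∈ univ.filter (fun i => j < i), ∑ B, w i *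
        ((m A * (if i ∈ A then 1 else 0)) * (m B * (if i ∈ B then 0 else 1)) +
          (m A * (if i ∈ A then 0 else 1)) * (m B * (if i ∈ B then 1 else 0))) :=
      fun A => Finset.sum_comm
    simp_rw [c2]
    rw [Finset.sum_comm]
    refine Finset.sum_congr rfl fun i _ => ?_
    simp_rw [← Finset.mul_sum, Finset.sum_add_distrib, ← Finset.mul_sum, ← Finset.sum_mul]
    ring
  rw [swap]
  have hT : (∑ A, m A) ^ 2 * tail w j univ / 2 =
      ∑ i ∈ univ.filter (fun i => j < i), w i * ((∑ A, m A) ^ 2 / 2) := by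
    unfold tail
    rw [← Finset.sum_mul]
    ring
  rw [hT]
  refine Finset.sum_le_sum fun i _ => mul_le_mul_of_nonneg_left ?_ (hw i)
  have hs : (∑ A, m A * (if i ∈ A then 1 else 0)) + (∑ A, m A * (if i ∈ A then 0 else 1)) =
      ∑ A, m A := by
    rw [← Finset.sum_add_distrib]
    refine Finset.sum_congr rfl fun A _ => ?_
    split_ifs <;> simp
  rw [← hs]
  nlinarith [sq_nonneg ((∑ A, m A * (if i ∈ A then 1 else 0)) -
    (∑ A, m A * (if i ∈ A then (0 : ℝ) else 1)))]

/-- Sizes: at most half. -/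
lemma size_bound (m ρ : Finset (Fin n) → ℝ) (hm : ∀ A, 0 ≤ m A) {L : ℝ}
    (h0 : ∀ A, 0 ≤ ρ A) (hL : ∀ A, ρ A ≤ L) :
    (∑ A, ∑ B, m A * m B * |ρ A - ρ B|) ≤ (∑ A, m A) ^ 2 * L / 2 := by
  have hL0 : 0 ≤ L := (h0 ∅).trans (hL ∅)
  rcases hL0.eq_or_lt with h | h
  · have hz : ∀ A, ρ A = 0 := fun A => le_antisymm (h ▸ hL A) (h0 A)
    simp [hz, ← h]
  · have key : L * (∑ A, ∑ B, m A * m B * |ρ A - ρ B|) ≤
        2 * (∑ A, m A * ρ A) * (L * (∑ A, m A) - ∑ A, m A * ρ A) := by
      have e : 2 * (∑ A, m A * ρ A) * (L * (∑ A, m A) - ∑ A, m A * ρ A) =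
          ∑ A, ∑ B, m A * m B * (ρ A * (L - ρ B) + ρ B * (L - ρ A)) := by
        have a : ∀ A B : Finset (Fin n), m A * m B * (ρ A * (L - ρ B) + ρ B * (L - ρ A)) =
            (m A * ρ A) * (L * m B - m B * ρ B) + (L * m A - m A * ρ A) * (m B * ρ B) := by
          intro A B
          ring
        simp_rw [a, Finset.sum_add_distrib, ← Finset.mul_sum, ← Finset.sum_mul,
          Finset.sum_sub_distrib, ← Finset.mul_sum]
        ring
      rw [e, Finset.mul_sum]
      refine Finset.sum_le_sum fun A _ => ?_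
      rw [Finset.mul_sum]
      refine Finset.sum_le_sum fun B _ => ?_
      have h1 : L * |ρ A - ρ B| ≤ ρ A * (L - ρ B) + ρ B * (L - ρ A) := by
        rcases abs_cases (ρ A - ρ B) with ⟨h2, _⟩ | ⟨h2, _⟩
        · rw [h2]
          nlinarith [mul_nonneg (h0 B) (sub_nonneg.2 (hL A))]
        · rw [h2]
          nlinarith [mul_nonneg (h0 A) (sub_nonneg.2 (hL B))]
      have h3 := mul_le_mul_of_nonneg_left h1 (mul_nonneg (hm A) (hm B))
      linarith
    have k2 : 2 * (∑ A, m A * ρ A) * (L * (∑ A, m A) - ∑ A, m A * ρ A) ≤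
        L * ((∑ A, m A) ^ 2 * L / 2) := by
      nlinarith [sq_nonneg (L * (∑ A, m A) - 2 * ∑ A, m A * ρ A)]
    exact le_of_mul_le_mul_left (key.trans k2) h

/-- The pairs that contain y: distance at most half of the remaining length. -/
lemma pair_bound {w : Fin n → ℝ} (hw : ∀ i, 0 ≤ w i) (μ : Finset (Fin n) → ℝ)
    (hμ : ∀ A, 0 ≤ μ A) (y : Fin n) :
    (∑ A, ∑ B, μ A * μ B * (if y ∈ A ∩ B then Dj w y A B else 0)) ≤
      pr μ y ^ 2 * tail w y univ / 2 := by
  set m : Finset (Fin n) → ℝ := fun A => if y ∈ A then μ A else 0 with hmdef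
  have hm : ∀ A, 0 ≤ m A := fun A => by
    simp only [hmdef]
    split_ifs
    · exact hμ A
    · exact le_rfl
  have e : ∀ A B, μ A * μ B * (if y ∈ A ∩ B then Dj w y A B else 0) =
      (m A * m B * (tail w y (A \ B) + tail w y (B \ A)) +
        m A * m B * |tail w y A - tail w y B|) / 2 := by
    intro A B
    simp only [hmdef]
    by_cases hA : y ∈ A <;> by_cases hB : y ∈ B
    · simp only [hA, hB, Finset.mem_inter, and_self, if_true]
      rw [Dj_eq]
      ring
    all_goals simp [hA, hB]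
  simp_rw [e, ← Finset.sum_div, Finset.sum_add_distrib]
  have b1 := symm_bound hw y m hm
  have b2 := size_bound m (fun A => tail w y A) hm (L := tail w y univ)
    (fun A => tail_nonneg hw y A) (fun A => by
      unfold tail
      refine Finset.sum_le_sum_of_subset_of_nonneg ?_ fun i _ _ => hw i
      intro i hi
      simp only [Finset.mem_filter, Finset.mem_univ, true_and] at hi ⊢
      exact hi.2)
  have hp : ∑ A, m A = pr μ y := rfl
  rw [hp] at b1 b2
  linarith

/-- COLUMN CONDITION at the best weights: l, r are the ends of column y. -/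
theorem column_condition {μ : Finset (Fin n) → ℝ} (hμ : ∀ A, 0 ≤ μ A) (h1 : ∑ A, μ A = 1)
    {w : Fin n → ℝ} (hw : w ∈ stdSimplex ℝ (Fin n))
    (hmax : ∀ w' ∈ stdSimplex ℝ (Fin n), J w' μ ≤ J w μ) (y : Fin n) (hy : 0 < w y) :
    2 * J w μ ≤ (1 - ∑ i ∈ univ.filter (fun i => i ≤ y), w i) * pr μ y ^ 2 / 2 +
      2 * (∑ i ∈ univ.filter (fun i => i < y), w i) * pr μ y * (1 - pr μ y) := by
  set l := ∑ i ∈ univ.filter (fun i => i < y), w i with hl
  set R := (1 - ∑ i ∈ univ.filter (fun i => i ≤ y), w i) * pr μ y ^ 2 / 2 +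
      2 * l * pr μ y * (1 - pr μ y) with hR
  have hw0 : ∀ i, 0 ≤ w i := hw.1
  have hwy1 : w y ≤ 1 := by
    rw [← hw.2]
    exact Finset.single_le_sum (fun i _ => hw0 i) (Finset.mem_univ y)
  have htail : tail w y univ = 1 - ∑ i ∈ univ.filter (fun i => i ≤ y), w i := by
    unfold tail
    rw [← hw.2, ← Finset.sum_filter_add_sum_filter_not univ (fun i => i ≤ y)]
    simp only [not_le]
    ring
  -- loss when the column is shrunk
  have hloss : ∀ s, 0 ≤ s → J w μ ≤ J (shr w y s) μ + s * R := by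
    intro s hs
    have step : J w μ ≤ J (shr w y s) μ +
        s * ((∑ A, ∑ B, μ A * μ B * (if y ∈ A ∩ B then Dj w y A B else 0)) +
          l * (∑ A, ∑ B, μ A * μ B *
            (if ((y ∈ A ∧ y ∉ B) ∨ (y ∈ B ∧ y ∉ A)) then (1 : ℝ) else 0))) := by
      unfold J
      rw [Finset.mul_sum, ← Finset.sum_add_distrib, Finset.mul_sum, ← Finset.sum_add_distrib]
      refine Finset.sum_le_sum fun A _ => ?_
      rw [Finset.mul_sum, ← Finset.sum_add_distrib, Finset.mul_sum, ← Finset.sum_add_distrib]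
      refine Finset.sum_le_sum fun B _ => ?_
      have h2 := mul_le_mul_of_nonneg_left (S1_le_shr hw0 y hs A B) (mul_nonneg (hμ A) (hμ B))
      refine h2.trans (le_of_eq ?_)
      rw [← hl]
      split_ifs <;> ring
    rw [sum_xor h1] at step
    have hb := pair_bound hw0 μ hμ y
    rw [htail] at hb
    have : (∑ A, ∑ B, μ A * μ B * (if y ∈ A ∩ B then Dj w y A B else 0)) +
        l * (2 * pr μ y * (1 - pr μ y)) ≤ R := by
      rw [hR]
      nlinarith [hb]
    nlinarith [mul_le_mul_of_nonneg_left this hs]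
  -- the shrunk weights, normalized
  have hgain : ∀ s, 0 < s → s < w y → s < 1 → J w μ * (2 - s) ≤ R := by
    intro s hs hsw hs1
    have hsum : ∑ i, shr w y s i = 1 - s := by
      unfold shr
      rw [Finset.sum_sub_distrib, hw.2, Finset.sum_ite_eq']
      simp
    have hnn : ∀ i, 0 ≤ shr w y s i := by
      intro i
      unfold shr
      split_ifs with h
      · subst h
        linarith
      · linarith [hw0 i]
    have hpos : 0 < 1 - s := by linarith
    have hmem : (fun i => (1 - s)⁻¹ * shr w y s i) ∈ stdSimplex ℝ (Fin n) := by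
      refine ⟨fun i => mul_nonneg (inv_nonneg.2 hpos.le) (hnn i), ?_⟩
      rw [← Finset.mul_sum, hsum]
      field_simp
    have h3 := hmax _ hmem
    rw [J_smul (inv_nonneg.2 hpos.le)] at h3
    have h4 : J (shr w y s) μ ≤ (1 - s) ^ 2 * J w μ := by
      have h5 := mul_le_mul_of_nonneg_left h3 (sq_nonneg (1 - s))
      have h6 : (1 - s) ^ 2 * ((1 - s)⁻¹ ^ 2 * J (shr w y s) μ) = J (shr w y s) μ := by
        field_simp
      rw [h6] at h5
      exact h5
    have h7 := hloss s hs.le
    have h8 : s * (J w μ * (2 - s)) ≤ s * R := by nlinarith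
    exact le_of_mul_le_mul_left h8 hs
  by_contra hcon
  push Not at hcon
  -- J w mu * 2 > R, take s small
  have hJ : 0 < J w μ ∨ J w μ ≤ 0 := lt_or_ge 0 _
  rcases hJ with hJ | hJ
  · obtain ⟨s, hs0, hs1⟩ : ∃ s, 0 < s ∧ s < min (min (w y) 1) ((2 * J w μ - R) / J w μ) := by
      refine ⟨min (min (w y) 1) ((2 * J w μ - R) / J w μ) / 2, ?_, ?_⟩
      · have : 0 < min (min (w y) 1) ((2 * J w μ - R) / J w μ) :=
          lt_min (lt_min hy one_pos) (div_pos (by linarith) hJ)
        linarith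
      · have : 0 < min (min (w y) 1) ((2 * J w μ - R) / J w μ) :=
          lt_min (lt_min hy one_pos) (div_pos (by linarith) hJ)
        linarith
    have a1 : s < w y := hs1.trans_le ((min_le_left _ _).trans (min_le_left _ _))
    have a2 : s < 1 := hs1.trans_le ((min_le_left _ _).trans (min_le_right _ _))
    have a3 : s < (2 * J w μ - R) / J w μ := hs1.trans_le (min_le_right _ _)
    rw [lt_div_iff₀ hJ] at a3
    have := hgain s hs0 a1 a2
    nlinarith
  · have hmin : 0 < min (w y) 1 / 2 := by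
      have := lt_min hy one_pos
      linarith
    have := hgain (min (w y) 1 / 2) hmin
      (by linarith [min_le_left (w y) 1, lt_min hy one_pos])
      (by linarith [min_le_right (w y) 1, lt_min hy one_pos])
    nlinarith

end Pool.Agent.Lib.MP_efec9b_co.MAX87
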