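import Pool.Agent.Lib.MP_efec9b_co.Frame24
import Pool.Agent.Lib.MP_efec9b_co.MAX87

/-!
MP_efec9b_co, the matrix `(0 0; 0 1)`: from weighted columns to the kernel `S1`.
-/

set_option autoImplicit false

namespace Pool.Agent.Lib.MP_efec9b_co.E2

open Finset Filter Topology

/-- equal weights -/
theorem weights_eq {n : ℕ} (c : ℝ) (hc : 0 ≤ c) (A B : Finset (Fin n)) :
    MAX87.S1 (fun _ => c) A B = c ^ 2 * (S1 A B : ℝ) := by
  unfold MAX87.S1 S1 MAX87.Dj MAX87.tail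
  push_cast
  rw [mul_sum]
  refine sum_congr rfl fun x _ => ?_
  rw [sum_const, sum_const, nsmul_eq_mul, nsmul_eq_mul, ← max_mul_of_nonneg _ _ hc]
  ring

/-- The value of the weighted problem gives `StSup`. -/
theorem stSup_of_weighted
    (h : ∀ (n : ℕ), 0 < n → ∀ (w : Fin n → ℝ) (μ : Finset (Fin n) → ℝ),
      w ∈ stdSimplex ℝ (Fin n) → (∀ A, 0 ≤ μ A) → ∑ A, μ A = 1 →
      MAX87.J w μ ≤ Real.exp (-2)) : StSup := by
  intro ε hε
  refine ⟨1, fun n hn μ h1 h2 => ?_⟩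
  have hn0 : (0 : ℝ) < n := by
    have : 0 < n := by omega
    exact_mod_cast this
  have hw : ∑ _j : Fin n, (n : ℝ)⁻¹ = 1 := by
    rw [sum_const, card_univ, Fintype.card_fin, nsmul_eq_mul, mul_inv_cancel₀ hn0.ne']
  have h3 := h n (by omega) (fun _ => (n : ℝ)⁻¹) μ ⟨fun _ => by positivity, hw⟩ h1 h2
  unfold MAX87.J at h3
  simp only [weights_eq ((n : ℝ)⁻¹) (by positivity)] at h3
  have h4 : ∑ A, ∑ B, μ A * μ B * (((n : ℝ)⁻¹) ^ 2 * (S1 A B : ℝ)) =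
      ((n : ℝ)⁻¹) ^ 2 * ∑ A, ∑ B, μ A * μ B * (S1 A B : ℝ) := by
    rw [mul_sum]
    refine sum_congr rfl fun A _ => ?_
    rw [mul_sum]
    exact sum_congr rfl fun B _ => by ring
  rw [h4] at h3
  have h5 : ∑ A, ∑ B, μ A * μ B * (S1 A B : ℝ) =
      (n : ℝ) ^ 2 * (((n : ℝ)⁻¹) ^ 2 * ∑ A, ∑ B, μ A * μ B * (S1 A B : ℝ)) := by
    field_simp
  rw [h5]
  calc (n : ℝ) ^ 2 * (((n : ℝ)⁻¹) ^ 2 * ∑ A, ∑ B, μ A * μ B * (S1 A B : ℝ))
      ≤ (n : ℝ) ^ 2 * Real.exp (-2) := mul_le_mul_of_nonneg_left h3 (by positivity)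
    _ ≤ (Real.exp (-2) + ε) * (n : ℝ) ^ 2 := by nlinarith [mul_pos (pow_pos hn0 2) hε]

/-- It is enough to treat the weights that are optimal for the given law, under the column
condition. -/
theorem stSup_of_column
    (h : ∀ (n : ℕ), 0 < n → ∀ (w : Fin n → ℝ) (μ : Finset (Fin n) → ℝ),
      w ∈ stdSimplex ℝ (Fin n) → (∀ A, 0 ≤ μ A) → ∑ A, μ A = 1 →
      (∀ y, 0 < w y → 2 * Real.exp (-2) < (1 - ∑ i ∈ univ.filter (fun i => i ≤ y), w i) *
        MAX87.pr μ y ^ 2 / 2 + 2 * (∑ i ∈ univ.filter (fun i => i < y), w i) *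
        MAX87.pr μ y * (1 - MAX87.pr μ y)) →
      MAX87.J w μ ≤ Real.exp (-2)) : StSup := by
  refine stSup_of_weighted fun n hn w μ hw h1 h2 => ?_
  obtain ⟨w', hw', hmax⟩ := MAX87.exists_max_w hn μ
  refine (hmax w hw).trans ?_
  by_contra hc
  push Not at hc
  refine absurd (h n hn w' μ hw' h1 h2 fun y hy => ?_) (not_le.mpr hc)
  have := MAX87.column_condition h1 h2 hw' hmax y hy
  linarith

end Pool.Agent.Lib.MP_efec9b_co.E2
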