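import Pool.Agent.Lib.MP_efec9b_co.MAX87
import Pool.Agent.Lib.MP_efec9b_co.Frame24

/-!
MP_efec9b (87): from the analytic statement (at weights with the column condition) to the
statement on laws of sets of columns.
-/

set_option autoImplicit false

namespace Pool.Agent.Lib.MP_efec9b_co.Glue87

open Finset Pool.Agent.Lib.MP_efec9b_co.MAX87

/-- The column condition. -/
def ColCond {n : ℕ} (μ : Finset (Fin n) → ℝ) (w : Fin n → ℝ) : Prop :=
  ∀ y, 0 < w y → 2 * J w μ ≤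
    (1 - ∑ i ∈ univ.filter (fun i => i ≤ y), w i) * pr μ y ^ 2 / 2 +
      2 * (∑ i ∈ univ.filter (fun i => i < y), w i) * pr μ y * (1 - pr μ y)

/-- The analytic statement: this is what the identity, the slack and the estimate give. -/
def StAn : Prop := ∀ (n : ℕ) (μ : Finset (Fin n) → ℝ) (w : Fin n → ℝ), (∀ A, 0 ≤ μ A) →
  ∑ A, μ A = 1 → w ∈ stdSimplex ℝ (Fin n) → ColCond μ w → J w μ ≤ Real.exp (-2)

/-- All weights, all laws. -/
theorem all_weights (h : StAn) (n : ℕ) (μ : Finset (Fin n) → ℝ) (w : Fin n → ℝ)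
    (hμ : ∀ A, 0 ≤ μ A) (h1 : ∑ A, μ A = 1) (hw : w ∈ stdSimplex ℝ (Fin n)) :
    J w μ ≤ Real.exp (-2) := by
  have hn : 0 < n := by
    rcases Nat.eq_zero_or_pos n with h0 | h0
    · subst h0
      have := hw.2
      simp at this
    · exact h0
  obtain ⟨w0, hw0, hmax⟩ := exists_max_w hn μ
  exact (hmax w hw).trans (h n μ w0 hμ h1 hw0 fun y hy => column_condition hμ h1 hw0 hmax y hy)

lemma S1_unif {n : ℕ} (A B : Finset (Fin n)) :
    S1 (fun _ => (n : ℝ)⁻¹) A B = (n : ℝ)⁻¹ ^ 2 * (E2.S1 A B : ℝ) := by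
  have ht : ∀ (j : Fin n) (C : Finset (Fin n)), tail (fun _ => (n : ℝ)⁻¹) j C =
      (n : ℝ)⁻¹ * ((C.filter (fun t => j < t)).card : ℝ) := by
    intro j C
    unfold tail
    rw [Finset.sum_const, nsmul_eq_mul, mul_comm]
  unfold S1 Dj E2.S1
  push_cast
  rw [Finset.mul_sum]
  refine Finset.sum_congr rfl fun j _ => ?_
  rw [ht, ht, ← mul_max_of_nonneg _ _ (by positivity)]
  ring

theorem stSup (h : StAn) : E2.StSup := by
  intro ε hε
  refine ⟨1, fun n hn μ hμ h1 => ?_⟩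
  have hn' : (0 : ℝ) < n := by exact_mod_cast hn
  have hw : (fun _ : Fin n => (n : ℝ)⁻¹) ∈ stdSimplex ℝ (Fin n) := by
    refine ⟨fun _ => by positivity, ?_⟩
    rw [Finset.sum_const, Finset.card_univ, Fintype.card_fin, nsmul_eq_mul]
    field_simp
  have hJ := all_weights h n μ _ hμ h1 hw
  have e : J (fun _ : Fin n => (n : ℝ)⁻¹) μ =
      (n : ℝ)⁻¹ ^ 2 * ∑ A, ∑ B, μ A * μ B * (E2.S1 A B : ℝ) := by
    unfold J
    rw [Finset.mul_sum]
    refine Finset.sum_congr rfl fun A _ => ?_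
    rw [Finset.mul_sum]
    refine Finset.sum_congr rfl fun B _ => ?_
    rw [S1_unif]
    ring
  rw [e] at hJ
  have h2 : ∑ A, ∑ B, μ A * μ B * (E2.S1 A B : ℝ) ≤ Real.exp (-2) * (n : ℝ) ^ 2 := by
    have h3 := mul_le_mul_of_nonneg_right hJ (sq_nonneg (n : ℝ))
    have h4 : (n : ℝ)⁻¹ ^ 2 * (∑ A, ∑ B, μ A * μ B * (E2.S1 A B : ℝ)) * (n : ℝ) ^ 2 =
        ∑ A, ∑ B, μ A * μ B * (E2.S1 A B : ℝ) := by
      field_simp
    rw [h4] at h3
    exact h3
  nlinarith [mul_nonneg hε.le (sq_nonneg (n : ℝ))]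

end Pool.Agent.Lib.MP_efec9b_co.Glue87
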