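import Mathlib

/-!
Row ID of the proof of `f (0 0; 0 1) = 2 / e ^ 2`: the exact expansion of the mean value of the
pointwise kernel `S1` of a law on finite sets of columns around a nested profile `U`.
All sums are finite, there is no error term and `U` is arbitrary.
-/

open Finset

namespace Pool.Agent.Lib.Efec90

/-- number of elements of `A` after `y` -/
noncomputable def rho (A : Finset ℕ) (y : ℕ) : ℕ := (A.filter (y < ·)).card

/-- number of elements of `A` before `y` -/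
noncomputable def lft (A : Finset ℕ) (y : ℕ) : ℕ := (A.filter (· < y)).card

/-- the pointwise kernel -/
noncomputable def S1 (A B : Finset ℕ) : ℝ :=
  ∑ x ∈ A ∩ B, max ((((A \ B).filter (x < ·)).card : ℝ)) (((B \ A).filter (x < ·)).card : ℝ)

/-- indicator -/
noncomputable def ind (A : Finset ℕ) (y : ℕ) : ℝ := if y ∈ A then 1 else 0

/-- level indicator -/
noncomputable def lev (A : Finset ℕ) (y s : ℕ) : ℝ := if s < rho A y then 1 else 0

/-- value of a set against the nested profile `U` -/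
noncomputable def L (n : ℕ) (U : ℕ → ℝ) (A : Finset ℕ) : ℝ :=
  ∑ y ∈ A, (U y * ((rho A y : ℝ) - (lft A y : ℝ)) + ∑ Y ∈ Ioo (y + rho A y) n, U Y)

noncomputable def W (n : ℕ) (U : ℕ → ℝ) (y : ℕ) : ℝ := ∑ Y ∈ Ioo y n, U Y

noncomputable def K (n : ℕ) (U : ℕ → ℝ) : ℝ :=
  ∑ y ∈ range n, (2 * U y * W n U y - 2 * ∑ Y ∈ Ioo y n, U Y ^ 2)

variable {ι : Type*} [Fintype ι]

noncomputable def p (μ : ι → ℝ) (A : ι → Finset ℕ) (y : ℕ) : ℝ := ∑ i, μ i * ind (A i) y

noncomputable def P (μ : ι → ℝ) (A : ι → Finset ℕ) (y Y : ℕ) : ℝ :=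
  ∑ i, μ i * (ind (A i) y * ind (A i) Y)

noncomputable def G (μ : ι → ℝ) (A : ι → Finset ℕ) (y s : ℕ) : ℝ :=
  ∑ i, μ i * (ind (A i) y * lev (A i) y s)

noncomputable def Q (n : ℕ) (U : ℕ → ℝ) (μ : ι → ℝ) (A : ι → Finset ℕ) : ℝ :=
  ∑ y ∈ range n, (2 * (p μ A y - U y) * (∑ Y ∈ Ioo y n, (P μ A y Y - U Y))
    - ∑ Y ∈ Ioo y n, (P μ A y Y - U Y) ^ 2
    - ∑ s ∈ range (n - 1 - y), (G μ A y s - U (y + 1 + s)) ^ 2)

theorem rho_eq {n : ℕ} {A : Finset ℕ} (hA : A ⊆ range n) (y : ℕ) :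
    (rho A y : ℝ) = ∑ Y ∈ Ioo y n, ind A Y := by
  unfold rho ind
  rw [← Finset.sum_filter, Finset.sum_const, nsmul_eq_mul, mul_one]
  congr 1
  apply congrArg
  ext Y
  simp only [mem_filter, mem_Ioo]
  constructor
  · rintro ⟨h1, h2⟩
    exact ⟨⟨h2, mem_range.1 (hA h1)⟩, h1⟩
  · rintro ⟨⟨h1, _⟩, h2⟩
    exact ⟨h2, h1⟩

theorem rho_le {n : ℕ} {A : Finset ℕ} (hA : A ⊆ range n) (y : ℕ) : rho A y ≤ n - 1 - y := by
  unfold rho
  have h : A.filter (y < ·) ⊆ Ioo y n := by
    intro Y hY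
    rw [mem_filter] at hY
    exact mem_Ioo.2 ⟨hY.2, mem_range.1 (hA hY.1)⟩
  have := card_le_card h
  rw [Nat.card_Ioo] at this
  omega

theorem sum_lev {m : ℕ} {A : Finset ℕ} {y : ℕ} (h : rho A y ≤ m) (f : ℕ → ℝ) :
    ∑ s ∈ range m, lev A y s * f s = ∑ s ∈ range (rho A y), f s := by
  unfold lev
  simp only [ite_mul, one_mul, zero_mul]
  rw [← Finset.sum_filter]
  apply Finset.sum_congr _ (fun _ _ => rfl)
  ext s
  simp only [mem_filter, mem_range]
  constructor
  · exact fun h => h.2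
  · exact fun h' => ⟨by omega, h'⟩

theorem sum_lev_one {m : ℕ} {A : Finset ℕ} {y : ℕ} (h : rho A y ≤ m) :
    ∑ s ∈ range m, lev A y s = (rho A y : ℝ) := by
  have := sum_lev h (fun _ => (1 : ℝ))
  simpa using this

theorem sum_lev_lev {m : ℕ} {A B : Finset ℕ} {y : ℕ} (h : rho A y ≤ m) (_ : rho B y ≤ m) :
    ∑ s ∈ range m, lev A y s * lev B y s = (min (rho A y) (rho B y) : ℕ) := by
  unfold lev
  simp only [ite_mul, one_mul, zero_mul]
  rw [← Finset.sum_filter, ← Finset.sum_filter, Finset.filter_filter, Finset.sum_const,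
    nsmul_eq_mul, mul_one]
  congr 1
  have : (range m).filter (fun a => a < rho A y ∧ a < rho B y)
      = range (min (rho A y) (rho B y)) := by
    ext s
    simp only [mem_filter, mem_range, lt_min_iff]
    constructor
    · exact fun h => h.2
    · exact fun h'' => ⟨by omega, h''⟩
  rw [this, card_range]

theorem ind_sq (A : Finset ℕ) (y : ℕ) : ind A y * ind A y = ind A y := by
  unfold ind
  split_ifs <;> norm_num

theorem S1_eq {n : ℕ} {A B : Finset ℕ} (hA : A ⊆ range n) (hB : B ⊆ range n) :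
    S1 A B = ∑ y ∈ range n, (ind A y * ind B y) * ((rho A y : ℝ) + rho B y
      - ∑ s ∈ range (n - 1 - y), lev A y s * lev B y s
      - ∑ Y ∈ Ioo y n, ind A Y * ind B Y) := by
  unfold S1
  have h1 : ∑ y ∈ range n, (ind A y * ind B y) * ((rho A y : ℝ) + rho B y
      - ∑ s ∈ range (n - 1 - y), lev A y s * lev B y s
      - ∑ Y ∈ Ioo y n, ind A Y * ind B Y)
      = ∑ y ∈ range n, if y ∈ A ∩ B then ((rho A y : ℝ) + rho B y
      - ∑ s ∈ range (n - 1 - y), lev A y s * lev B y s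
      - ∑ Y ∈ Ioo y n, ind A Y * ind B Y) else 0 := by
    apply Finset.sum_congr rfl
    intro y _
    by_cases ha : y ∈ A <;> by_cases hb : y ∈ B <;> simp [ind, ha, hb]
  rw [h1, ← Finset.sum_filter]
  have h2 : (range n).filter (fun y => y ∈ A ∩ B) = A ∩ B := by
    ext y
    simp only [mem_filter, mem_range, and_iff_right_iff_imp]
    intro hy
    exact mem_range.1 (hA (mem_inter.1 hy).1)
  rw [h2]
  apply Finset.sum_congr rfl
  intro y _
  rw [sum_lev_lev (rho_le hA y) (rho_le hB y)]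
  have hI : ∑ Y ∈ Ioo y n, ind A Y * ind B Y = (((A ∩ B).filter (y < ·)).card : ℝ) := by
    have := rho_eq (n := n) (A := A ∩ B) (fun x hx => hA (mem_inter.1 hx).1) y
    unfold rho at this
    rw [this]
    apply Finset.sum_congr rfl
    intro Y _
    by_cases ha : Y ∈ A <;> by_cases hb : Y ∈ B <;> simp [ind, ha, hb]
  rw [hI]
  have c1 : ((A \ B).filter (y < ·)).card + ((A ∩ B).filter (y < ·)).card = rho A y := by
    unfold rho
    rw [← card_union_of_disjoint]
    · congr 1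
      ext Y
      simp only [mem_union, mem_filter, mem_sdiff, mem_inter]
      tauto
    · rw [Finset.disjoint_left]
      intro Y h h'
      simp only [mem_filter, mem_sdiff, mem_inter] at h h'
      exact h.1.2 h'.1.2
  have c2 : ((B \ A).filter (y < ·)).card + ((A ∩ B).filter (y < ·)).card = rho B y := by
    unfold rho
    rw [← card_union_of_disjoint]
    · congr 1
      ext Y
      simp only [mem_union, mem_filter, mem_sdiff, mem_inter]
      tauto
    · rw [Finset.disjoint_left]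
      intro Y h h'
      simp only [mem_filter, mem_sdiff, mem_inter] at h h'
      exact h.1.2 h'.1.1
  rw [← c1, ← c2]
  push_cast
  rcases le_total (((A \ B).filter (y < ·)).card) (((B \ A).filter (y < ·)).card) with h | h
  · have h' : ((((A \ B).filter (y < ·)).card : ℝ)) ≤ (((B \ A).filter (y < ·)).card : ℝ) := by
      exact_mod_cast h
    rw [max_eq_right h', min_eq_left (by linarith)]
    ring
  · have h' : ((((B \ A).filter (y < ·)).card : ℝ)) ≤ (((A \ B).filter (y < ·)).card : ℝ) := by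
      exact_mod_cast h
    rw [max_eq_left h', min_eq_right (by linarith)]
    ring

/-- sums over the levels are sums over the columns after `y` -/
theorem sum_shift {n : ℕ} {y : ℕ} (f : ℕ → ℝ) :
    ∑ s ∈ range (n - 1 - y), f (y + 1 + s) = ∑ Y ∈ Ioo y n, f Y := by
  have h : Ioo y n = Ico (y + 1) n := by
    ext Y
    simp only [mem_Ioo, mem_Ico]
    omega
  rw [h, Finset.sum_Ico_eq_sum_range]
  have h' : n - (y + 1) = n - 1 - y := by omega
  rw [h']

theorem tail_eq {n : ℕ} {A : Finset ℕ} (hA : A ⊆ range n) (y : ℕ) (U : ℕ → ℝ) :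
    W n U y - ∑ s ∈ range (rho A y), U (y + 1 + s) = ∑ Y ∈ Ioo (y + rho A y) n, U Y := by
  have hr := rho_le hA y
  unfold W
  rw [← sum_shift (n := n) (y := y) U, ← sum_shift (n := n) (y := y + rho A y) U]
  have h1 : n - 1 - y = rho A y + (n - 1 - (y + rho A y)) := by omega
  rw [h1, Finset.sum_range_add]
  have h2 : ∀ s, y + rho A y + 1 + s = y + 1 + (rho A y + s) := by intro s; omega
  simp only [h2]
  ring

theorem double_count (A : Finset ℕ) (U : ℕ → ℝ) :
    ∑ y ∈ A, ∑ Y ∈ A.filter (y < ·), U Y = ∑ Y ∈ A, U Y * (lft A Y : ℝ) := by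
  unfold lft
  simp only [Finset.sum_filter]
  rw [Finset.sum_comm]
  apply Finset.sum_congr rfl
  intro Y _
  rw [← Finset.sum_filter, Finset.sum_const, nsmul_eq_mul, mul_comm]

/-- first form of `L` -/
theorem L_eq {n : ℕ} {A : Finset ℕ} (hA : A ⊆ range n) (U : ℕ → ℝ) :
    L n U A = ∑ y ∈ range n, ind A y * (U y * (rho A y : ℝ) + W n U y
      - ∑ Y ∈ Ioo y n, ind A Y * U Y
      - ∑ s ∈ range (n - 1 - y), lev A y s * U (y + 1 + s)) := by
  have h1 : ∑ y ∈ range n, ind A y * (U y * (rho A y : ℝ) + W n U y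
      - ∑ Y ∈ Ioo y n, ind A Y * U Y
      - ∑ s ∈ range (n - 1 - y), lev A y s * U (y + 1 + s))
      = ∑ y ∈ range n, if y ∈ A then (U y * (rho A y : ℝ) + W n U y
      - ∑ Y ∈ Ioo y n, ind A Y * U Y
      - ∑ s ∈ range (n - 1 - y), lev A y s * U (y + 1 + s)) else 0 := by
    apply Finset.sum_congr rfl
    intro y _
    by_cases ha : y ∈ A <;> simp [ind, ha]
  rw [h1, ← Finset.sum_filter]
  have h2 : (range n).filter (fun y => y ∈ A) = A := by
    ext y
    simp only [mem_filter, mem_range, and_iff_right_iff_imp]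
    intro hy
    exact mem_range.1 (hA hy)
  rw [h2]
  have h3 : ∀ y ∈ A, (U y * (rho A y : ℝ) + W n U y
      - ∑ Y ∈ Ioo y n, ind A Y * U Y
      - ∑ s ∈ range (n - 1 - y), lev A y s * U (y + 1 + s))
      = (U y * (rho A y : ℝ) + ∑ Y ∈ Ioo (y + rho A y) n, U Y)
        - ∑ Y ∈ A.filter (y < ·), U Y := by
    intro y _
    rw [sum_lev (rho_le hA y) (fun s => U (y + 1 + s)), ← tail_eq hA y U]
    have h4 : ∑ Y ∈ Ioo y n, ind A Y * U Y = ∑ Y ∈ A.filter (y < ·), U Y := by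
      unfold ind
      simp only [ite_mul, one_mul, zero_mul]
      rw [← Finset.sum_filter]
      apply Finset.sum_congr _ (fun _ _ => rfl)
      ext Y
      simp only [mem_filter, mem_Ioo]
      constructor
      · rintro ⟨⟨a, _⟩, b⟩
        exact ⟨b, a⟩
      · rintro ⟨a, b⟩
        exact ⟨⟨b, mem_range.1 (hA a)⟩, a⟩
    rw [h4]
    ring
  rw [Finset.sum_congr rfl h3, Finset.sum_sub_distrib, double_count, ← Finset.sum_sub_distrib]
  unfold L
  apply Finset.sum_congr rfl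
  intro y _
  ring

/-- mean future of the sets that contain `y` -/
noncomputable def X (μ : ι → ℝ) (A : ι → Finset ℕ) (y : ℕ) : ℝ :=
  ∑ i, μ i * (ind (A i) y * (rho (A i) y : ℝ))

theorem X_eq_P {n : ℕ} (μ : ι → ℝ) {A : ι → Finset ℕ} (hA : ∀ i, A i ⊆ range n) (y : ℕ) :
    ∑ Y ∈ Ioo y n, P μ A y Y = X μ A y := by
  unfold P X
  rw [Finset.sum_comm]
  apply Finset.sum_congr rfl
  intro i _
  rw [rho_eq (hA i) y, ← Finset.mul_sum, ← Finset.mul_sum]

theorem X_eq_G {n : ℕ} (μ : ι → ℝ) {A : ι → Finset ℕ} (hA : ∀ i, A i ⊆ range n) (y : ℕ) :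
    ∑ s ∈ range (n - 1 - y), G μ A y s = X μ A y := by
  unfold G X
  rw [Finset.sum_comm]
  apply Finset.sum_congr rfl
  intro i _
  rw [← sum_lev_one (rho_le (hA i) y), ← Finset.mul_sum, ← Finset.mul_sum]

theorem mean_S1 {n : ℕ} (μ : ι → ℝ) {A : ι → Finset ℕ} (hA : ∀ i, A i ⊆ range n) :
    ∑ i, ∑ j, μ i * μ j * S1 (A i) (A j) = ∑ y ∈ range n, (2 * p μ A y * X μ A y
      - ∑ Y ∈ Ioo y n, P μ A y Y ^ 2 - ∑ s ∈ range (n - 1 - y), G μ A y s ^ 2) := by
  have h1 : ∀ i j, μ i * μ j * S1 (A i) (A j) = ∑ y ∈ range n,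
      ((μ i * (ind (A i) y * (rho (A i) y : ℝ))) * (μ j * ind (A j) y)
      + (μ i * ind (A i) y) * (μ j * (ind (A j) y * (rho (A j) y : ℝ)))
      - ∑ Y ∈ Ioo y n, (μ i * (ind (A i) y * ind (A i) Y)) * (μ j * (ind (A j) y * ind (A j) Y))
      - ∑ s ∈ range (n - 1 - y),
        (μ i * (ind (A i) y * lev (A i) y s)) * (μ j * (ind (A j) y * lev (A j) y s))) := by
    intro i j
    rw [S1_eq (hA i) (hA j), Finset.mul_sum]
    apply Finset.sum_congr rfl
    intro y _
    have e1 : ∑ Y ∈ Ioo y n,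
        (μ i * (ind (A i) y * ind (A i) Y)) * (μ j * (ind (A j) y * ind (A j) Y))
        = μ i * μ j * (ind (A i) y * ind (A j) y) * ∑ Y ∈ Ioo y n, ind (A i) Y * ind (A j) Y := by
      rw [Finset.mul_sum]
      apply Finset.sum_congr rfl
      intro Y _
      ring
    have e2 : ∑ s ∈ range (n - 1 - y),
        (μ i * (ind (A i) y * lev (A i) y s)) * (μ j * (ind (A j) y * lev (A j) y s))
        = μ i * μ j * (ind (A i) y * ind (A j) y)
          * ∑ s ∈ range (n - 1 - y), lev (A i) y s * lev (A j) y s := by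
      rw [Finset.mul_sum]
      apply Finset.sum_congr rfl
      intro s _
      ring
    rw [e1, e2]
    ring
  simp only [h1]
  have h2 : ∀ i, ∑ j, ∑ y ∈ range n,
      ((μ i * (ind (A i) y * (rho (A i) y : ℝ))) * (μ j * ind (A j) y)
      + (μ i * ind (A i) y) * (μ j * (ind (A j) y * (rho (A j) y : ℝ)))
      - ∑ Y ∈ Ioo y n, (μ i * (ind (A i) y * ind (A i) Y)) * (μ j * (ind (A j) y * ind (A j) Y))
      - ∑ s ∈ range (n - 1 - y),
        (μ i * (ind (A i) y * lev (A i) y s)) * (μ j * (ind (A j) y * lev (A j) y s)))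
      = ∑ y ∈ range n, ((μ i * (ind (A i) y * (rho (A i) y : ℝ))) * p μ A y
      + (μ i * ind (A i) y) * X μ A y
      - ∑ Y ∈ Ioo y n, (μ i * (ind (A i) y * ind (A i) Y)) * P μ A y Y
      - ∑ s ∈ range (n - 1 - y),
        (μ i * (ind (A i) y * lev (A i) y s)) * G μ A y s) := by
    intro i
    rw [Finset.sum_comm]
    apply Finset.sum_congr rfl
    intro y _
    rw [Finset.sum_sub_distrib, Finset.sum_sub_distrib, Finset.sum_add_distrib,
      ← Finset.mul_sum, ← Finset.mul_sum, Finset.sum_comm (s := univ) (t := Ioo y n),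
      Finset.sum_comm (s := univ) (t := range (n - 1 - y))]
    simp only [← Finset.mul_sum]
    rfl
  simp only [h2]
  rw [Finset.sum_comm]
  apply Finset.sum_congr rfl
  intro y _
  rw [Finset.sum_sub_distrib, Finset.sum_sub_distrib, Finset.sum_add_distrib,
    ← Finset.sum_mul, ← Finset.sum_mul, Finset.sum_comm (s := univ) (t := Ioo y n),
    Finset.sum_comm (s := univ) (t := range (n - 1 - y))]
  simp only [← Finset.sum_mul]
  have e1 : ∑ i, μ i * (ind (A i) y * (rho (A i) y : ℝ)) = X μ A y := rfl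
  have e2 : ∑ i, μ i * ind (A i) y = p μ A y := rfl
  have e3 : ∀ Y, ∑ i, μ i * (ind (A i) y * ind (A i) Y) = P μ A y Y := fun _ => rfl
  have e4 : ∀ s, ∑ i, μ i * (ind (A i) y * lev (A i) y s) = G μ A y s := fun _ => rfl
  simp only [e1, e2, e3, e4]
  have e5 : ∀ Y, P μ A y Y * P μ A y Y = P μ A y Y ^ 2 := fun _ => by ring
  have e6 : ∀ s, G μ A y s * G μ A y s = G μ A y s ^ 2 := fun _ => by ring
  simp only [e5, e6]
  ring

theorem sum_L {n : ℕ} (μ : ι → ℝ) {A : ι → Finset ℕ} (hA : ∀ i, A i ⊆ range n) (U : ℕ → ℝ) :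
    ∑ i, μ i * L n U (A i) = ∑ y ∈ range n, (U y * X μ A y + p μ A y * W n U y
      - ∑ Y ∈ Ioo y n, P μ A y Y * U Y
      - ∑ s ∈ range (n - 1 - y), G μ A y s * U (y + 1 + s)) := by
  have h1 : ∀ i, μ i * L n U (A i) = ∑ y ∈ range n,
      (U y * (μ i * (ind (A i) y * (rho (A i) y : ℝ))) + (μ i * ind (A i) y) * W n U y
      - ∑ Y ∈ Ioo y n, (μ i * (ind (A i) y * ind (A i) Y)) * U Y
      - ∑ s ∈ range (n - 1 - y), (μ i * (ind (A i) y * lev (A i) y s)) * U (y + 1 + s)) := by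
    intro i
    rw [L_eq (hA i), Finset.mul_sum]
    apply Finset.sum_congr rfl
    intro y _
    have e1 : ∑ Y ∈ Ioo y n, (μ i * (ind (A i) y * ind (A i) Y)) * U Y
        = μ i * ind (A i) y * ∑ Y ∈ Ioo y n, ind (A i) Y * U Y := by
      rw [Finset.mul_sum]
      apply Finset.sum_congr rfl
      intro Y _
      ring
    have e2 : ∑ s ∈ range (n - 1 - y), (μ i * (ind (A i) y * lev (A i) y s)) * U (y + 1 + s)
        = μ i * ind (A i) y * ∑ s ∈ range (n - 1 - y), lev (A i) y s * U (y + 1 + s) := by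
      rw [Finset.mul_sum]
      apply Finset.sum_congr rfl
      intro s _
      ring
    rw [e1, e2]
    ring
  simp only [h1]
  rw [Finset.sum_comm]
  apply Finset.sum_congr rfl
  intro y _
  rw [Finset.sum_sub_distrib, Finset.sum_sub_distrib, Finset.sum_add_distrib,
    ← Finset.sum_mul, ← Finset.mul_sum, Finset.sum_comm (s := univ) (t := Ioo y n),
    Finset.sum_comm (s := univ) (t := range (n - 1 - y))]
  simp only [← Finset.sum_mul]
  rfl

/-- THE IDENTITY -/
theorem identity {n : ℕ} (μ : ι → ℝ) {A : ι → Finset ℕ} (hA : ∀ i, A i ⊆ range n) (U : ℕ → ℝ) :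
    ∑ i, ∑ j, μ i * μ j * S1 (A i) (A j)
      = 2 * ∑ i, μ i * L n U (A i) - K n U + Q n U μ A := by
  rw [mean_S1 μ hA, sum_L μ hA U]
  unfold K Q
  rw [Finset.mul_sum, ← Finset.sum_sub_distrib, ← Finset.sum_add_distrib]
  apply Finset.sum_congr rfl
  intro y _
  have h1 : ∑ Y ∈ Ioo y n, (P μ A y Y - U Y) = X μ A y - W n U y := by
    rw [Finset.sum_sub_distrib, X_eq_P μ hA y]
    rfl
  have h2 : ∑ Y ∈ Ioo y n, (P μ A y Y - U Y) ^ 2 = ∑ Y ∈ Ioo y n, P μ A y Y ^ 2
      - 2 * ∑ Y ∈ Ioo y n, P μ A y Y * U Y + ∑ Y ∈ Ioo y n, U Y ^ 2 := by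
    rw [Finset.mul_sum, ← Finset.sum_sub_distrib, ← Finset.sum_add_distrib]
    apply Finset.sum_congr rfl
    intro Y _
    ring
  have h3 : ∑ s ∈ range (n - 1 - y), (G μ A y s - U (y + 1 + s)) ^ 2
      = ∑ s ∈ range (n - 1 - y), G μ A y s ^ 2
      - 2 * ∑ s ∈ range (n - 1 - y), G μ A y s * U (y + 1 + s)
      + ∑ Y ∈ Ioo y n, U Y ^ 2 := by
    rw [← sum_shift (n := n) (y := y) (fun Y => U Y ^ 2), Finset.mul_sum,
      ← Finset.sum_sub_distrib, ← Finset.sum_add_distrib]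
    apply Finset.sum_congr rfl
    intro s _
    ring
  rw [h1, h2, h3]
  ring

/-- both forms of `dX` -/
theorem dX_eq {n : ℕ} (μ : ι → ℝ) {A : ι → Finset ℕ} (hA : ∀ i, A i ⊆ range n) (U : ℕ → ℝ)
    (y : ℕ) : ∑ Y ∈ Ioo y n, (P μ A y Y - U Y)
      = ∑ s ∈ range (n - 1 - y), (G μ A y s - U (y + 1 + s)) := by
  rw [Finset.sum_sub_distrib, Finset.sum_sub_distrib, X_eq_P μ hA y, X_eq_G μ hA y,
    sum_shift (n := n) (y := y) U]

end Pool.Agent.Lib.Efec90
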