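import Mathlib

/-! MP_efec9b: the closing estimate for the quadratic part. -/

namespace Pool.Agent.Lib.MP_efec9b_co.J29

open MeasureTheory intervalIntegral Set

theorem t_lo : (0.3678794 : ℝ) < Real.exp (-1) := by
  rw [Real.exp_neg]
  have h := Real.exp_one_lt_d9
  have h1 := Real.exp_pos 1
  rw [lt_inv_comm₀ (by norm_num) h1]
  refine h.trans ?_
  norm_num

theorem t_hi : Real.exp (-1) < (0.3678795 : ℝ) := by
  rw [Real.exp_neg]
  have h := Real.exp_one_gt_d9
  have h1 := Real.exp_pos 1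
  rw [inv_lt_comm₀ h1 (by norm_num)]
  refine lt_trans ?_ h
  norm_num

/-- `∫_y^t (0.2655 + 0.573 z) dz` -/
noncomputable def N (t y : ℝ) : ℝ := 0.2655 * (t - y) + 0.2865 * (t ^ 2 - y ^ 2)

theorem N_self (t : ℝ) : N t t = 0 := by simp [N]

theorem N_cont (t : ℝ) : Continuous (N t) := by
  unfold N
  fun_prop

theorem N_deriv (t y : ℝ) : HasDerivAt (N t) (-(0.2655 + 0.573 * y)) y := by
  unfold N
  have h1 : HasDerivAt (fun y : ℝ => 0.2655 * (t - y)) (0.2655 * (-1)) y := by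
    have h := ((hasDerivAt_id y).const_sub t).const_mul (0.2655 : ℝ)
    simpa using h
  have h2 : HasDerivAt (fun y : ℝ => 0.2865 * (t ^ 2 - y ^ 2)) (0.2865 * (-(2 * y))) y := by
    have h := ((hasDerivAt_pow 2 y).const_sub (t ^ 2)).const_mul (0.2865 : ℝ)
    simpa using h
  refine (h1.add h2).congr_deriv ?_
  ring

theorem N_anti {t y z : ℝ} (h0 : 0 ≤ y) (h : y ≤ z) : N t z ≤ N t y := by
  unfold N
  nlinarith [mul_self_nonneg (z - y)]

theorem int_QN (t c : ℝ) :
    ∫ y in c..t, (0.2655 + 0.573 * y) * (N t y - N t c) = -(N t c) ^ 2 / 2 := by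
  have h : ∀ y ∈ uIcc c t, HasDerivAt (fun y => -(N t y - N t c) ^ 2 / 2)
      ((0.2655 + 0.573 * y) * (N t y - N t c)) y := by
    intro y _
    have h1 := (((N_deriv t y).sub_const (N t c)).pow 2).neg.div_const 2
    refine h1.congr_deriv ?_
    push_cast
    ring
  rw [integral_eq_sub_of_hasDerivAt h]
  · rw [N_self]
    ring
  · apply Continuous.intervalIntegrable
    have := N_cont t
    fun_prop

variable {q : ℝ → ℝ} {t : ℝ}

theorem low (ht : 0 ≤ t) (hq : IntervalIntegrable q volume 0 t)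
    (h0 : ∀ y ∈ Icc 0 t, 0 ≤ q y) (hQ : ∀ y ∈ Icc 0 t, q y ≤ 0.2655 + 0.573 * y)
    {c : ℝ} (hc : c ∈ Icc 0 t) :
    -(N t c) ^ 2 / 2 ≤ ∫ y in (0 : ℝ)..t, q y * (N t y - N t c) := by
  have hcont : Continuous fun y => N t y - N t c := (N_cont t).sub continuous_const
  have hI : IntervalIntegrable (fun y => q y * (N t y - N t c)) volume 0 t :=
    hq.mul_continuousOn hcont.continuousOn
  have hs1 : uIcc 0 c ⊆ uIcc 0 t := by
    rw [uIcc_of_le hc.1, uIcc_of_le ht]
    exact Icc_subset_Icc le_rfl hc.2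
  have hs2 : uIcc c t ⊆ uIcc 0 t := by
    rw [uIcc_of_le hc.2, uIcc_of_le ht]
    exact Icc_subset_Icc hc.1 le_rfl
  have hI1 := hI.mono_set hs1
  have hI2 := hI.mono_set hs2
  rw [← integral_add_adjacent_intervals hI1 hI2]
  have h1 : 0 ≤ ∫ y in (0 : ℝ)..c, q y * (N t y - N t c) := by
    apply integral_nonneg hc.1
    intro y hy
    exact mul_nonneg (h0 y ⟨hy.1, hy.2.trans hc.2⟩) (sub_nonneg.2 (N_anti hy.1 hy.2))
  have h2 : -(N t c) ^ 2 / 2 ≤ ∫ y in c..t, q y * (N t y - N t c) := by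
    rw [← int_QN]
    apply integral_mono_on hc.2
    · apply Continuous.intervalIntegrable
      fun_prop
    · exact hI2
    · intro y hy
      have h3 := N_anti (t := t) hc.1 hy.1
      have h4 := hQ y ⟨hc.1.trans hy.1, hy.2⟩
      nlinarith
  linarith

theorem intN (t : ℝ) : ∫ y in (0 : ℝ)..t, (0.2655 + 0.573 * y) = N t 0 := by
  have h : ∀ y ∈ uIcc 0 t, HasDerivAt (fun y => -(N t y)) (0.2655 + 0.573 * y) y := by
    intro y _
    have h1 := (N_deriv t y).neg
    refine h1.congr_deriv ?_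
    ring
  rw [integral_eq_sub_of_hasDerivAt h]
  · rw [N_self]
    ring
  · apply Continuous.intervalIntegrable
    fun_prop

theorem sq_mass (ht : 0 ≤ t) (hq : IntervalIntegrable q volume 0 t)
    (h0 : ∀ y ∈ Icc 0 t, 0 ≤ q y) (hQ : ∀ y ∈ Icc 0 t, q y ≤ 0.2655 + 0.573 * y) :
    (∫ y in (0 : ℝ)..t, q y) ^ 2 ≤ 2 * ∫ y in (0 : ℝ)..t, q y * N t y := by
  have hm0 : 0 ≤ ∫ y in (0 : ℝ)..t, q y := integral_nonneg ht h0
  have hm1 : ∫ y in (0 : ℝ)..t, q y ≤ N t 0 := by
    rw [← intN]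
    apply integral_mono_on ht hq
    · apply Continuous.intervalIntegrable
      fun_prop
    · exact hQ
  obtain ⟨c, hc, hcm⟩ : (∫ y in (0 : ℝ)..t, q y) ∈ N t '' Icc 0 t := by
    apply intermediate_value_Icc' ht (N_cont t).continuousOn
    rw [N_self]
    exact ⟨hm0, hm1⟩
  have h := low ht hq h0 hQ hc
  rw [hcm] at h
  have hI1 : IntervalIntegrable (fun y => q y * N t y) volume 0 t :=
    hq.mul_continuousOn (N_cont t).continuousOn
  have hI2 : IntervalIntegrable (fun y => q y * (∫ y in (0 : ℝ)..t, q y)) volume 0 t :=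
    hq.mul_const _
  have h3 : ∫ y in (0 : ℝ)..t, q y * (N t y - ∫ y in (0 : ℝ)..t, q y) =
      (∫ y in (0 : ℝ)..t, q y * N t y) - (∫ y in (0 : ℝ)..t, q y) ^ 2 := by
    rw [show (fun y => q y * (N t y - ∫ y in (0 : ℝ)..t, q y)) =
      fun y => q y * N t y - q y * (∫ y in (0 : ℝ)..t, q y) by ext y; ring,
      integral_sub hI1 hI2, intervalIntegral.integral_mul_const]
    ring
  rw [h3] at h
  linarith

theorem k0_lo : (1.2274 : ℝ) ≤ 2 * (2 - 2 * Real.log 2) := by
  have := Real.log_two_lt_d9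
  linarith

theorem poly {t y : ℝ} (h1 : 0.3678794 < t) (h2 : t < 0.3678795) (hy : 0 ≤ y) (hyt : y ≤ t)
    {s : ℝ} (hs0 : 0 ≤ s) (hs : s ≤ 0.2655 + 0.573 * y) :
    ((1 - t) / 2 - y) * s + 2.102 * N t y ≤ 1.2274 * (t - y) := by
  unfold N
  by_cases hB : y ≤ (1 - t) / 2
  · have h3 : ((1 - t) / 2 - y) * s ≤ ((1 - t) / 2 - y) * (0.2655 + 0.573 * y) :=
      mul_le_mul_of_nonneg_left hs (by linarith)
    have h4 : ((1 - t) / 2 - y) * (0.2655 + 0.573 * y) ≤
        (0.3160603 - y) * (0.2655 + 0.573 * y) :=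
      mul_le_mul_of_nonneg_right (by linarith) (by linarith)
    have h5 : t ^ 2 ≤ 0.1353354 := by nlinarith
    nlinarith [sq_nonneg (y - 0.24886)]
  · rw [not_le] at hB
    have h3 : ((1 - t) / 2 - y) * s ≤ 0 := mul_nonpos_of_nonpos_of_nonneg (by linarith) hs0
    have h5 : 0.2655 * (t - y) + 0.2865 * (t ^ 2 - y ^ 2) ≤ 0.4764 * (t - y) := by
      have : t ^ 2 - y ^ 2 = (t + y) * (t - y) := by ring
      rw [this]
      nlinarith [mul_nonneg (sub_nonneg.2 hyt) (sub_nonneg.2 hyt)]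
    nlinarith

theorem closing (q : ℝ → ℝ) (hq : IntervalIntegrable q volume 0 (Real.exp (-1)))
    (h0 : ∀ y ∈ Icc 0 (Real.exp (-1)), 0 ≤ q y)
    (hQ : ∀ y ∈ Icc 0 (Real.exp (-1)), q y ≤ 0.2655 + 0.573 * y) :
    (∫ y in (0 : ℝ)..(Real.exp (-1)), ((1 - Real.exp (-1)) / 2 - y) * (q y) ^ 2) +
      1.051 * (∫ y in (0 : ℝ)..(Real.exp (-1)), q y) ^ 2 ≤
      2 * (2 - 2 * Real.log 2) * ∫ y in (0 : ℝ)..(Real.exp (-1)), (Real.exp (-1) - y) * q y := by
  have hl := t_lo
  have hh := t_hi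
  generalize Real.exp (-1) = t at *
  have ht : (0 : ℝ) ≤ t := by linarith
  have hsq := sq_mass ht hq h0 hQ
  have hI1 : IntervalIntegrable (fun y => q y * N t y) volume 0 t :=
    hq.mul_continuousOn (N_cont t).continuousOn
  have hIr : IntervalIntegrable (fun y => (t - y) * q y) volume 0 t :=
    hq.continuousOn_mul (by fun_prop)
  have hr0 : 0 ≤ ∫ y in (0 : ℝ)..t, (t - y) * q y :=
    integral_nonneg ht fun y hy => mul_nonneg (sub_nonneg.2 hy.2) (h0 y hy)
  have hk := k0_lo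
  have hgoal : (∫ y in (0 : ℝ)..t, ((1 - t) / 2 - y) * (q y) ^ 2) +
      2.102 * (∫ y in (0 : ℝ)..t, q y * N t y) ≤ 1.2274 * ∫ y in (0 : ℝ)..t, (t - y) * q y := by
    have hIs : IntervalIntegrable (fun y => ((1 - t) / 2 - y) * (q y) ^ 2) volume 0 t := by
      have h1 : IntervalIntegrable (fun y => q y * q y) volume 0 t := by
        rw [intervalIntegrable_iff_integrableOn_Ioc_of_le ht] at hq ⊢
        refine Integrable.bdd_mul (c := 1) hq hq.aestronglyMeasurable ?_
        refine (ae_restrict_mem measurableSet_Ioc).mono fun y hy => ?_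
        have h2 := h0 y ⟨hy.1.le, hy.2⟩
        have h3 := hQ y ⟨hy.1.le, hy.2⟩
        have h4 := hy.2
        rw [Real.norm_eq_abs, abs_of_nonneg h2]
        linarith
      have h2 : IntervalIntegrable (fun y => ((1 - t) / 2 - y) * (q y * q y)) volume 0 t :=
        h1.continuousOn_mul (by fun_prop)
      refine h2.congr ?_
      intro y _
      simp only [sq]
    rw [← intervalIntegral.integral_const_mul, ← intervalIntegral.integral_const_mul,
      ← integral_add hIs (hI1.const_mul _)]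
    apply integral_mono_on ht (hIs.add (hI1.const_mul _)) (hIr.const_mul _)
    intro y hy
    have h1 := poly hl hh hy.1 hy.2 (h0 y hy) (hQ y hy)
    have h2 := mul_le_mul_of_nonneg_right h1 (h0 y hy)
    nlinarith
  nlinarith

end Pool.Agent.Lib.MP_efec9b_co.J29
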