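import Mathlib

/-!
Row J of MP_efec9b_co: the closing estimate for `q` (helper51).
-/

namespace Pool.Agent.Lib.MP_efec9b_co.J51

open MeasureTheory Set

/-- the pointwise inequality -/
theorem point51 {t y x : ℝ} (ht1 : 0.36787944 < t) (ht2 : t < 0.36787945)
    (hy0 : 0 ≤ y) (hyt : y ≤ t) (hx0 : 0 ≤ x) (hx : x ≤ 0.2655 + 0.573 * y) {k : ℝ}
    (hk : 1.2274 ≤ 2 * k) :
    ((1 - t) / 2 - y) * x ^ 2 + 2.102 * (x * (0.2655 * (t - y) + 0.2865 * (t ^ 2 - y ^ 2)))
      ≤ 2 * k * ((t - y) * x) := by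
  have key : ((1 - t) / 2 - y) * x + 2.102 * (0.2655 * (t - y) + 0.2865 * (t ^ 2 - y ^ 2))
      ≤ 1.2274 * (t - y) := by
    obtain ⟨s, rfl⟩ : ∃ s, y = t - s := ⟨t - y, by ring⟩
    have hs0 : 0 ≤ s := by linarith
    have hs1 : s ≤ t := by linarith
    rcases le_total 0 ((1 - t) / 2 - (t - s)) with h | h
    · have h1 : ((1 - t) / 2 - (t - s)) * x ≤ ((1 - t) / 2 - (t - s)) * (0.2655 + 0.573 * (t - s)) :=
        mul_le_mul_of_nonneg_left hx h
      have h2 : ((1 - t) / 2 - (t - s)) * (0.2655 + 0.573 * (t - s))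
          + 2.102 * (0.2655 * (t - (t - s)) + 0.2865 * (t ^ 2 - (t - s) ^ 2))
          ≤ 1.2274 * (t - (t - s)) := by
        nlinarith [sq_nonneg (s - 0.119), mul_nonneg hs0 (sub_nonneg.2 hs1), mul_nonneg hs0 hs0,
          mul_nonneg hs0 (sub_nonneg.2 ht1.le), mul_nonneg hs0 (sub_nonneg.2 ht2.le),
          mul_nonneg (sub_nonneg.2 ht1.le) (sub_nonneg.2 ht2.le)]
      linarith
    · have h1 : ((1 - t) / 2 - (t - s)) * x ≤ 0 := mul_nonpos_of_nonpos_of_nonneg h hx0
      have h2 : 2.102 * (0.2655 * (t - (t - s)) + 0.2865 * (t ^ 2 - (t - s) ^ 2))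
          ≤ 1.2274 * (t - (t - s)) := by
        nlinarith [mul_nonneg hs0 (sub_nonneg.2 hs1), mul_nonneg hs0 hs0,
          mul_nonneg hs0 (sub_nonneg.2 ht1.le), mul_nonneg hs0 (sub_nonneg.2 ht2.le)]
      linarith
  have h3 : 1.2274 * (t - y) ≤ 2 * k * (t - y) :=
    mul_le_mul_of_nonneg_right hk (by linarith)
  have h4 := mul_le_mul_of_nonneg_right (key.trans h3) hx0
  nlinarith [h4]

/-- the square of an integral as a double integral over `y ≤ z` -/
theorem sq51 {t : ℝ} (ht : 0 ≤ t) {q : ℝ → ℝ} (hm : Measurable q) (h0 : ∀ y, 0 ≤ q y)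
    (h1 : ∀ y, q y ≤ 1) :
    (∫ y in (0 : ℝ)..t, q y) ^ 2 ≤
      2 * ∫ y in (0 : ℝ)..t, q y * ∫ z in y..t, q z := by
  set ν : Measure ℝ := volume.restrict (Ioc 0 t) with hν
  have : IsFiniteMeasure ν := by rw [hν]; infer_instance
  have hq : Integrable q ν :=
    Integrable.of_bound hm.aestronglyMeasurable 1
      (Filter.Eventually.of_forall fun y => by rw [Real.norm_of_nonneg (h0 y)]; exact h1 y)
  set F : ℝ × ℝ → ℝ := fun p => q p.1 * q p.2 * (if p.1 ≤ p.2 then 1 else 0) with hF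
  have hFm : Measurable F := by
    refine ((hm.comp measurable_fst).mul (hm.comp measurable_snd)).mul ?_
    exact Measurable.ite (measurableSet_le measurable_fst measurable_snd)
      measurable_const measurable_const
  have hFb : ∀ p, ‖F p‖ ≤ 1 := by
    intro p
    have a := h0 p.1
    have b := h0 p.2
    have a1 := h1 p.1
    have b1 := h1 p.2
    simp only [hF]
    rw [Real.norm_eq_abs, abs_le]
    split_ifs <;> constructor <;> nlinarith [mul_nonneg a b, mul_le_mul a1 b1 b zero_le_one]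
  have hFi : Integrable F (ν.prod ν) :=
    Integrable.of_bound hFm.aestronglyMeasurable 1 (Filter.Eventually.of_forall hFb)
  have hsw : ∫ p, F p.swap ∂(ν.prod ν) = ∫ p, F p ∂(ν.prod ν) := integral_prod_swap F
  have hFi' : Integrable (fun p : ℝ × ℝ => F p.swap) (ν.prod ν) := hFi.swap
  have hprod : ∫ p : ℝ × ℝ, q p.1 * q p.2 ∂(ν.prod ν) = (∫ y, q y ∂ν) * ∫ y, q y ∂ν :=
    integral_prod_mul q q
  have hle : ∫ p : ℝ × ℝ, q p.1 * q p.2 ∂(ν.prod ν) ≤
      ∫ p, (F p + F p.swap) ∂(ν.prod ν) := by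
    refine integral_mono (hq.mul_prod hq) (hFi.add hFi') fun p => ?_
    have ab := mul_nonneg (h0 p.1) (h0 p.2)
    simp only [hF, Prod.fst_swap, Prod.snd_swap]
    rcases le_total p.1 p.2 with h | h
    · rw [if_pos h]
      have : 0 ≤ q p.2 * q p.1 * (if p.2 ≤ p.1 then (1 : ℝ) else 0) := by
        split_ifs <;> nlinarith
      linarith
    · rw [if_pos h]
      have : 0 ≤ q p.1 * q p.2 * (if p.1 ≤ p.2 then (1 : ℝ) else 0) := by
        split_ifs <;> nlinarith
      linarith
  rw [integral_add hFi hFi', hsw] at hle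
  have hFv : ∫ p, F p ∂(ν.prod ν) = ∫ y in (0 : ℝ)..t, q y * ∫ z in y..t, q z := by
    rw [integral_prod F hFi, intervalIntegral.integral_of_le ht]
    refine setIntegral_congr_fun measurableSet_Ioc fun y hy => ?_
    simp only [hF]
    have e1 : (∫ z, q y * q z * (if y ≤ z then (1 : ℝ) else 0) ∂ν) =
        q y * ∫ z, q z * (if y ≤ z then (1 : ℝ) else 0) ∂ν := by
      rw [← integral_const_mul]
      congr 1
      funext z
      ring
    rw [e1]
    congr 1
    have e3 : ∫ z in y..t, q z = ∫ z in Icc y t, q z := by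
      rw [intervalIntegral.integral_of_le hy.2, integral_Icc_eq_integral_Ioc]
    rw [e3, hν]
    have e2 : (fun z => q z * (if y ≤ z then (1 : ℝ) else 0)) = (Ici y).indicator q := by
      funext z
      by_cases hz : y ≤ z
      · rw [if_pos hz, indicator_of_mem (show z ∈ Ici y from hz), mul_one]
      · rw [if_neg hz, indicator_of_notMem (show z ∉ Ici y from hz), mul_zero]
    rw [e2, integral_indicator measurableSet_Ici, Measure.restrict_restrict measurableSet_Ici]
    congr 2
    ext z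
    constructor
    · rintro ⟨h2, h3, h4⟩
      exact ⟨h2, h4⟩
    · rintro ⟨h2, h3⟩
      exact ⟨h2, lt_of_lt_of_le hy.1 h2, h3⟩
  rw [hFv] at hle
  rw [hprod] at hle
  rw [intervalIntegral.integral_of_le ht, sq]
  rw [intervalIntegral.integral_of_le ht] at hle ⊢
  linarith

theorem exp_bounds51 : 0.36787944 < Real.exp (-1) ∧ Real.exp (-1) < 0.36787945 :=
  ⟨lt_trans (by norm_num) Real.exp_neg_one_gt_d9, lt_trans Real.exp_neg_one_lt_d9 (by norm_num)⟩

theorem j51 {q : ℝ → ℝ} (hm : Measurable q) (h0 : ∀ y ∈ Icc 0 (Real.exp (-1)), 0 ≤ q y)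
    (h1 : ∀ y ∈ Icc 0 (Real.exp (-1)), q y ≤ 0.2655 + 0.573 * y) :
    (∫ y in (0 : ℝ)..Real.exp (-1), ((1 - Real.exp (-1)) / 2 - y) * q y ^ 2) +
        1.051 * (∫ y in (0 : ℝ)..Real.exp (-1), q y) ^ 2 ≤
      2 * (2 - 2 * Real.log 2) * ∫ y in (0 : ℝ)..Real.exp (-1), (Real.exp (-1) - y) * q y := by
  obtain ⟨ht1, ht2⟩ := exp_bounds51
  set t := Real.exp (-1) with htdef
  have ht : 0 ≤ t := by linarith
  -- replace q by its restriction
  set r : ℝ → ℝ := (Icc 0 t).indicator q with hr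
  have hrm : Measurable r := hm.indicator measurableSet_Icc
  have hr0 : ∀ y, 0 ≤ r y := fun y => by
    by_cases h : y ∈ Icc 0 t
    · rw [hr, indicator_of_mem h]; exact h0 y h
    · rw [hr, indicator_of_notMem h]
  have hrQ : ∀ y ∈ Icc 0 t, r y ≤ 0.2655 + 0.573 * y := fun y h => by
    rw [hr, indicator_of_mem h]; exact h1 y h
  have hr1 : ∀ y, r y ≤ 1 := fun y => by
    by_cases h : y ∈ Icc 0 t
    · have := hrQ y h
      have := h.2
      linarith
    · rw [hr, indicator_of_notMem h]; exact zero_le_one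
  have hcongr : ∀ G : ℝ → ℝ → ℝ, (∫ y in (0 : ℝ)..t, G y (q y)) = ∫ y in (0 : ℝ)..t, G y (r y) := by
    intro G
    refine intervalIntegral.integral_congr fun y hy => ?_
    rw [uIcc_of_le ht] at hy
    simp only [hr, indicator_of_mem hy]
  rw [hcongr fun y x => ((1 - t) / 2 - y) * x ^ 2, hcongr fun _ x => x,
    hcongr fun y x => (t - y) * x]
  have bint : ∀ (f : ℝ → ℝ), Measurable f → (∀ y ∈ Icc 0 t, |f y| ≤ 10) →
      IntervalIntegrable f volume 0 t := by
    intro f hf hb
    rw [intervalIntegrable_iff_integrableOn_Ioc_of_le ht]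
    refine Measure.integrableOn_of_bounded (M := 10) (by simp) hf.aestronglyMeasurable ?_
    refine (ae_restrict_iff' measurableSet_Ioc).2 (Filter.Eventually.of_forall fun y hy => ?_)
    exact hb y ⟨hy.1.le, hy.2⟩
  have hM : ∀ y ∈ Icc 0 t, (∫ z in y..t, r z) ≤ 0.2655 * (t - y) + 0.2865 * (t ^ 2 - y ^ 2) := by
    intro y hy
    have e : (∫ z in y..t, (0.2655 + 0.573 * z)) = 0.2655 * (t - y) + 0.2865 * (t ^ 2 - y ^ 2) := by
      rw [intervalIntegral.integral_add (by simp) (by
        exact (Continuous.intervalIntegrable (by fun_prop) _ _)), intervalIntegral.integral_const,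
        intervalIntegral.integral_const_mul, integral_id]
      simp only [smul_eq_mul]
      ring
    rw [← e]
    refine intervalIntegral.integral_mono_on hy.2 ?_ (Continuous.intervalIntegrable (by fun_prop) _ _)
      fun z hz => hrQ z ⟨hy.1.trans hz.1, hz.2⟩
    refine (bint r hrm fun z hz => ?_).mono_set ?_
    · rw [abs_of_nonneg (hr0 z)]; linarith [hr1 z]
    · rw [uIcc_of_le ht, uIcc_of_le hy.2]
      exact Icc_subset_Icc hy.1 le_rfl
  have hsq := sq51 ht hrm hr0 hr1
  have i1 : IntervalIntegrable (fun y => ((1 - t) / 2 - y) * r y ^ 2) volume 0 t := by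
    refine bint _ (by fun_prop) fun y hy => ?_
    have a := hr0 y
    have b := hr1 y
    have c : |(1 - t) / 2 - y| ≤ 2 := by
      rw [abs_le]; constructor <;> linarith [hy.1, hy.2]
    rw [abs_mul, abs_of_nonneg (sq_nonneg (r y))]
    nlinarith [mul_le_mul c (show r y ^ 2 ≤ 1 by nlinarith) (sq_nonneg _) (by norm_num : (0:ℝ) ≤ 2)]
  have i3 : IntervalIntegrable (fun y => (t - y) * r y) volume 0 t := by
    refine bint _ (by fun_prop) fun y hy => ?_
    have a := hr0 y
    have b := hr1 y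
    have c : |t - y| ≤ 1 := by
      rw [abs_le]; constructor <;> linarith [hy.1, hy.2]
    rw [abs_mul, abs_of_nonneg a]
    nlinarith [mul_le_mul c b a (by norm_num : (0:ℝ) ≤ 1)]
  have i2 : IntervalIntegrable
      (fun y => r y * (0.2655 * (t - y) + 0.2865 * (t ^ 2 - y ^ 2))) volume 0 t := by
    refine bint _ (by fun_prop) fun y hy => ?_
    have a := hr0 y
    have b := hr1 y
    have c : |0.2655 * (t - y) + 0.2865 * (t ^ 2 - y ^ 2)| ≤ 1 := by
      rw [abs_le]
      constructor <;> nlinarith [hy.1, hy.2, mul_nonneg hy.1 (sub_nonneg.2 hy.2)]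
    rw [abs_mul, abs_of_nonneg a]
    nlinarith [mul_le_mul b c (abs_nonneg _) (by norm_num : (0:ℝ) ≤ 1)]
  have hin : (∫ y in (0 : ℝ)..t, r y * ∫ z in y..t, r z) ≤
      ∫ y in (0 : ℝ)..t, r y * (0.2655 * (t - y) + 0.2865 * (t ^ 2 - y ^ 2)) := by
    have hcont : Continuous fun y => ∫ z in y..t, r z := by
      have hii : ∀ a b, IntervalIntegrable r volume a b := by
        intro a b
        rw [intervalIntegrable_iff]
        refine Measure.integrableOn_of_bounded (M := 1) (by simp [uIoc]) hrm.aestronglyMeasurable ?_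
        refine Filter.Eventually.of_forall fun y => ?_
        rw [Real.norm_of_nonneg (hr0 y)]; exact hr1 y
      have : (fun y => ∫ z in y..t, r z) = fun y => -(∫ z in t..y, r z) := by
        funext y
        rw [intervalIntegral.integral_symm]
      rw [this]
      exact (intervalIntegral.continuous_primitive hii t).neg
    refine intervalIntegral.integral_mono_on ht ?_ i2 fun y hy =>
      mul_le_mul_of_nonneg_left (hM y hy) (hr0 y)
    refine bint _ (hrm.mul hcont.measurable) fun y hy => ?_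
    have a := hr0 y
    have b := hr1 y
    have c1 := hM y hy
    have c0 : 0 ≤ ∫ z in y..t, r z :=
      intervalIntegral.integral_nonneg hy.2 fun z _ => hr0 z
    have c : (∫ z in y..t, r z) ≤ 1 := by
      nlinarith [hy.1, hy.2, mul_nonneg hy.1 (sub_nonneg.2 hy.2)]
    rw [abs_of_nonneg (mul_nonneg a c0)]
    nlinarith [mul_le_mul b c c0 (by norm_num : (0:ℝ) ≤ 1)]
  have hk : (1.2274 : ℝ) ≤ 2 * (2 - 2 * Real.log 2) := by
    have := Real.log_two_lt_d9
    linarith
  have hfin : (∫ y in (0 : ℝ)..t, ((1 - t) / 2 - y) * r y ^ 2) +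
      2.102 * (∫ y in (0 : ℝ)..t, r y * (0.2655 * (t - y) + 0.2865 * (t ^ 2 - y ^ 2))) ≤
      2 * (2 - 2 * Real.log 2) * ∫ y in (0 : ℝ)..t, (t - y) * r y := by
    rw [← intervalIntegral.integral_const_mul, ← intervalIntegral.integral_const_mul,
      ← intervalIntegral.integral_add i1 (i2.const_mul _)]
    refine intervalIntegral.integral_mono_on ht (i1.add (i2.const_mul _)) (i3.const_mul _)
      fun y hy => ?_
    exact point51 ht1 ht2 hy.1 hy.2 (hr0 y) (hrQ y hy) hk
  linarith

end Pool.Agent.Lib.MP_efec9b_co.J51
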