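import Mathlib

/-!
MP_efec9b_co, the matrix `(0 0; 0 1)`: the closing inequality of the uniform discrete route.
-/

set_option autoImplicit false

namespace Pool.Agent.Lib.MP_efec9b_co.Jd63

open Finset Real

/-- the weight of a hole at `y` (the form of `SL59`) -/
noncomputable def lamT (T y : ℝ) : ℝ :=
  2 * T * (Real.sqrt (1 - y / T) - Real.log (1 + Real.sqrt (1 - y / T)))

theorem log_one_add_le {v : ℝ} (h0 : 0 ≤ v) (h1 : v ≤ 1) :
    (1 - Real.log 2) * v ^ 2 ≤ v - Real.log (1 + v) := by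
  have hl1 : (0.6931471803 : ℝ) < Real.log 2 := Real.log_two_gt_d9
  have hl2 : Real.log 2 < (0.6931471808 : ℝ) := Real.log_two_lt_d9
  set c : ℝ := 1 - Real.log 2 with hc
  have hc0 : 0 < c := by rw [hc]; linarith
  set f : ℝ → ℝ := fun v => v - Real.log (1 + v) - c * v ^ 2 with hf
  have hder : ∀ x : ℝ, 0 ≤ x → HasDerivAt f (1 - 1 / (1 + x) - c * (2 * x)) x := by
    intro x hx
    have hpos : (1 + x) ≠ 0 := by positivity
    have e1 : HasDerivAt (fun v : ℝ => 1 + v) 1 x := by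
      simpa using (hasDerivAt_id x).const_add 1
    have e2 : HasDerivAt (fun v : ℝ => Real.log (1 + v)) (1 / (1 + x)) x := e1.log hpos
    have e3 : HasDerivAt (fun v : ℝ => c * v ^ 2) (c * (2 * x)) x := by
      simpa using ((hasDerivAt_id x).pow 2).const_mul c
    exact ((hasDerivAt_id x).sub e2).sub e3
  have hcont : ∀ a b : ℝ, 0 ≤ a → ContinuousOn f (Set.Icc a b) := fun a b ha x hx =>
    (hder x (ha.trans hx.1)).continuousAt.continuousWithinAt
  have hfac : ∀ x : ℝ, 0 ≤ x → 1 - 1 / (1 + x) - c * (2 * x) =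
      x / (1 + x) * (1 - 2 * c * (1 + x)) := by
    intro x hx
    have hpos : (1 + x) ≠ 0 := by positivity
    field_simp
    ring
  set w : ℝ := 1 / (2 * c) - 1 with hw
  have hw0 : 0 ≤ w := by
    rw [hw, sub_nonneg, le_div_iff₀ (by positivity)]
    rw [hc]; linarith
  have hw2 : 2 * c * (1 + w) = 1 := by
    rw [hw]
    field_simp
    ring
  have f0 : f 0 = 0 := by simp [hf]
  have f1 : f 1 = 0 := by
    simp only [hf, hc]
    norm_num
  have goal : 0 ≤ f v := by
    by_cases hv : v ≤ w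
    · have hm : MonotoneOn f (Set.Icc 0 w) := by
        refine monotoneOn_of_deriv_nonneg (convex_Icc 0 w) (hcont 0 w le_rfl) ?_ ?_
        · intro x hx
          rw [interior_Icc] at hx
          exact (hder x hx.1.le).differentiableAt.differentiableWithinAt
        · intro x hx
          rw [interior_Icc] at hx
          rw [(hder x hx.1.le).deriv, hfac x hx.1.le]
          have : 0 ≤ 1 - 2 * c * (1 + x) := by nlinarith [hx.2]
          exact mul_nonneg (div_nonneg hx.1.le (by linarith [hx.1])) this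
      have := hm ⟨le_rfl, hw0⟩ ⟨h0, hv⟩ h0
      rwa [f0] at this
    · push Not at hv
      have hm : AntitoneOn f (Set.Icc w 1) := by
        refine antitoneOn_of_deriv_nonpos (convex_Icc w 1) (hcont w 1 hw0) ?_ ?_
        · intro x hx
          rw [interior_Icc] at hx
          exact (hder x (hw0.trans hx.1.le)).differentiableAt.differentiableWithinAt
        · intro x hx
          rw [interior_Icc] at hx
          have hx0 : 0 ≤ x := hw0.trans hx.1.le
          rw [(hder x hx0).deriv, hfac x hx0]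
          have : 1 - 2 * c * (1 + x) ≤ 0 := by nlinarith [hx.1]
          exact mul_nonpos_of_nonneg_of_nonpos (div_nonneg hx0 (by linarith)) this
      have := hm ⟨hv.le, h1⟩ ⟨hv.le.trans h1, le_rfl⟩ h1
      rwa [f1] at this
  simp only [hf] at goal
  linarith

theorem lamT_ge {T y : ℝ} (hT : 0 < T) (hy0 : 0 ≤ y) (hyT : y ≤ T) :
    (2 - 2 * Real.log 2) * (T - y) ≤ lamT T y := by
  have h1 : 0 ≤ 1 - y / T := by
    rw [sub_nonneg, div_le_one hT]
    exact hyT
  have h2 : 1 - y / T ≤ 1 := by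
    have : 0 ≤ y / T := by positivity
    linarith
  have h5 : Real.sqrt (1 - y / T) ≤ 1 := by
    rw [Real.sqrt_le_left (by norm_num)]
    linarith
  have h3 := log_one_add_le (Real.sqrt_nonneg (1 - y / T)) h5
  rw [Real.sq_sqrt h1] at h3
  unfold lamT
  have h4 : 2 * T * ((1 - Real.log 2) * (1 - y / T)) = (2 - 2 * Real.log 2) * (T - y) := by
    field_simp
  rw [← h4]
  exact mul_le_mul_of_nonneg_left h3 (by positivity)

theorem exp_bounds : (0.367879 : ℝ) < Real.exp (-1) ∧ Real.exp (-1) < 0.36788 := by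
  have h1 := Real.exp_one_gt_d9
  have h2 := Real.exp_one_lt_d9
  rw [Real.exp_neg]
  constructor
  · rw [lt_inv_comm₀ (by norm_num) (Real.exp_pos 1)]
    refine h2.trans ?_
    norm_num
  · rw [inv_lt_comm₀ (Real.exp_pos 1) (by norm_num)]
    refine lt_trans ?_ h1
    norm_num

/-- the one variable inequality -/
theorem br {t s : ℝ} (ht1 : 0.367879 < t) (ht2 : t < 0.36788) (hs0 : 0 ≤ s) (hst : s ≤ t) :
    max ((1 - t) / 2 - s) 0 * (0.2643 + 0.573 * s) +
      2.14088 * (0.2643 * (t - s) + 0.2865 * (t ^ 2 - s ^ 2)) ≤ 1.2274 * (t - s) := by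
  rcases le_total s ((1 - t) / 2) with h | h
  · rw [max_eq_left (by linarith)]
    have e : 1.2274 * (t - s) - (((1 - t) / 2 - s) * (0.2643 + 0.573 * s) +
        2.14088 * (0.2643 * (t - s) + 0.2865 * (t ^ 2 - s ^ 2))) =
        (t - 0.367879) * (1.2274 + (0.2643 + 0.573 * s) / 2 -
          2.14088 * (0.2643 + 0.2865 * (t + 0.367879))) +
        (1.2274 * (0.367879 - s) - (((1 - 0.367879) / 2 - s) * (0.2643 + 0.573 * s) +
        2.14088 * (0.2643 * (0.367879 - s) + 0.2865 * (0.367879 ^ 2 - s ^ 2)))) := by ring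
    have e1 : 0 ≤ (t - 0.367879) * (1.2274 + (0.2643 + 0.573 * s) / 2 -
          2.14088 * (0.2643 + 0.2865 * (t + 0.367879))) :=
      mul_nonneg (by linarith) (by nlinarith)
    have e2 : 0 ≤ 1.2274 * (0.367879 - s) - (((1 - 0.367879) / 2 - s) * (0.2643 + 0.573 * s) +
        2.14088 * (0.2643 * (0.367879 - s) + 0.2865 * (0.367879 ^ 2 - s ^ 2))) := by
      nlinarith [sq_nonneg (s - 0.24376)]
    linarith
  · rw [max_eq_right (by linarith), zero_mul, zero_add]
    have : 2.14088 * (0.2643 * (t - s) + 0.2865 * (t ^ 2 - s ^ 2)) =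
        (t - s) * (2.14088 * (0.2643 + 0.2865 * (t + s))) := by ring
    rw [this]
    have h5 : 2.14088 * (0.2643 + 0.2865 * (t + s)) ≤ 1.2274 := by nlinarith
    nlinarith [mul_le_mul_of_nonneg_left h5 (sub_nonneg.2 hst)]

theorem tail_le (n : ℕ) (hn : 1 ≤ n) (T : ℝ) (k : ℕ) (hk : (k : ℝ) - 1 ≤ T) (q : ℕ → ℝ)
    (hq : ∀ y, y < k → q y ≤ 0.2643 + 0.573 * (y / n)) :
    ∀ d y : ℕ, y + 1 + d = k → ∑ Y ∈ Ico (y + 1) k, q Y ≤
      0.2643 * (T - y) + 0.2865 * (T ^ 2 - (y : ℝ) ^ 2) / n + 0.2865 * (T - y) / n := by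
  have hn0 : (0 : ℝ) < n := by exact_mod_cast hn
  intro d
  induction d with
  | zero =>
    intro y hy
    have : k = y + 1 := by omega
    subst this
    rw [Ico_self, sum_empty]
    push_cast at hk
    have h1 : (y : ℝ) ≤ T := by linarith
    have h2 : (0 : ℝ) ≤ y := Nat.cast_nonneg y
    have h3 : 0 ≤ T ^ 2 - (y : ℝ) ^ 2 := by nlinarith
    have h4 : 0 ≤ T - (y : ℝ) := by linarith
    positivity
  | succ d ih =>
    intro y hy
    have h1 := ih (y + 1) (by omega)
    rw [sum_eq_sum_Ico_succ_bot (by omega)]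
    have h2 := hq (y + 1) (by omega)
    push_cast at h1 h2
    have e : 0.2643 * (T - y) + 0.2865 * (T ^ 2 - (y : ℝ) ^ 2) / n + 0.2865 * (T - y) / n =
        (0.2643 + 0.573 * (((y : ℝ) + 1) / n)) +
        (0.2643 * (T - (y + 1)) + 0.2865 * (T ^ 2 - ((y : ℝ) + 1) ^ 2) / n +
          0.2865 * (T - (y + 1)) / n) := by
      field_simp
      ring
    rw [e]
    linarith

theorem sq_sum (k : ℕ) (q : ℕ → ℝ) :
    (∑ y ∈ range k, q y) ^ 2 = ∑ y ∈ range k, q y * (q y + 2 * ∑ Y ∈ Ico (y + 1) k, q Y) := by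
  have h := sum_range_sub' (fun y => (∑ Y ∈ Ico y k, q Y) ^ 2) k
  simp only [Ico_self, sum_empty] at h
  rw [range_eq_Ico, show (∑ y ∈ Ico 0 k, q y) ^ 2 = (∑ Y ∈ Ico 0 k, q Y) ^ 2 - 0 ^ 2 by ring, ← h]
  rw [range_eq_Ico]
  refine sum_congr rfl fun y hy => ?_
  rw [mem_Ico] at hy
  rw [sum_eq_sum_Ico_succ_bot hy.2]
  ring

/-- **(Jd)** -/
theorem jd63 (n : ℕ) (hn : 1 ≤ n) (T : ℝ) (hT : T = n * Real.exp (-1)) (k : ℕ)
    (hk1 : T ≤ k) (hk2 : (k : ℝ) - 1 ≤ T) (q : ℕ → ℝ) (hq0 : ∀ y, y < k → 0 ≤ q y)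
    (hq : ∀ y, y < k → q y ≤ 0.2643 + 0.573 * (y / n)) :
    ∑ y ∈ range k, (((n : ℝ) - k) / 2 - y) * q y ^ 2 +
      (1 / 2 + (5 * (k : ℝ) - n) / (4 * k)) * (∑ y ∈ range k, q y) ^ 2 ≤
      2 * (2 - 2 * Real.log 2) * ∑ y ∈ range k, (T - y) * q y + 2 * n := by
  obtain ⟨ht1, ht2⟩ := exp_bounds
  have hl2 : Real.log 2 < (0.6931471808 : ℝ) := Real.log_two_lt_d9
  set t : ℝ := Real.exp (-1) with ht
  have hn0 : (0 : ℝ) < n := by exact_mod_cast hn
  have hn1 : (1 : ℝ) ≤ n := by exact_mod_cast hn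
  have hT0 : 0 < T := by rw [hT]; positivity
  have hk0 : (0 : ℝ) < k := hT0.trans_le hk1
  have hkn : (k : ℝ) ≤ 1.37 * n := by
    have : (k : ℝ) ≤ n * t + 1 := by rw [← hT]; linarith
    nlinarith
  -- every term
  have hq1 : ∀ y, y < k → q y ≤ 0.6 := by
    intro y hy
    have h1 := hq y hy
    have h2 : (y : ℝ) / n ≤ t := by
      rw [div_le_iff₀ hn0, mul_comm, ← hT]
      have : (y : ℝ) + 1 ≤ k := by exact_mod_cast hy
      linarith
    linarith
  have key : ∀ y ∈ range k, (((n : ℝ) - k) / 2 - y) * q y ^ 2 +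
      1.07044 * (q y * (q y + 2 * ∑ Y ∈ Ico (y + 1) k, q Y)) ≤
      2 * (2 - 2 * Real.log 2) * ((T - y) * q y) + 0.6 := by
    intro y hy
    rw [mem_range] at hy
    have a0 := hq0 y hy
    have a1 := hq y hy
    have a2 := hq1 y hy
    have a3 := tail_le n hn T k hk2 q hq (k - (y + 1)) y (by omega)
    have hyT : (y : ℝ) ≤ T := by
      have : (y : ℝ) + 1 ≤ k := by exact_mod_cast hy
      linarith
    set s : ℝ := (y : ℝ) / n with hs
    have hys : (y : ℝ) = n * s := by rw [hs]; field_simp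
    have hs0 : 0 ≤ s := by positivity
    have hst : s ≤ t := by
      rw [hs, div_le_iff₀ hn0, mul_comm, ← hT]
      exact hyT
    have b := br ht1 ht2 hs0 hst
    have a4 : ∑ Y ∈ Ico (y + 1) k, q Y ≤
        n * (0.2643 * (t - s) + 0.2865 * (t ^ 2 - s ^ 2)) + 0.2865 * (t - s) := by
      refine a3.trans (le_of_eq ?_)
      rw [hT, hys]
      field_simp
    have a5 : (((n : ℝ) - k) / 2 - y) * q y ≤
        n * (max ((1 - t) / 2 - s) 0 * (0.2643 + 0.573 * s)) := by
      have c1 : ((n : ℝ) - k) / 2 - y ≤ n * ((1 - t) / 2 - s) := by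
        rw [hys]
        have : n * t ≤ k := by rw [← hT]; exact hk1
        linarith
      have c2 : ((n : ℝ) - k) / 2 - y ≤ n * max ((1 - t) / 2 - s) 0 :=
        c1.trans (mul_le_mul_of_nonneg_left (le_max_left _ _) hn0.le)
      calc (((n : ℝ) - k) / 2 - y) * q y ≤ (n * max ((1 - t) / 2 - s) 0) * q y :=
            mul_le_mul_of_nonneg_right c2 a0
        _ ≤ (n * max ((1 - t) / 2 - s) 0) * (0.2643 + 0.573 * s) :=
            mul_le_mul_of_nonneg_left a1 (mul_nonneg hn0.le (le_max_right _ _))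
        _ = _ := by ring
    have a6 : (((n : ℝ) - k) / 2 - y) * q y +
        1.07044 * (q y + 2 * ∑ Y ∈ Ico (y + 1) k, q Y) ≤ 1.2274 * (T - y) + 1 := by
      have hTy : T - y = n * (t - s) := by rw [hT, hys]; ring
      rw [hTy]
      have b' := mul_le_mul_of_nonneg_left b hn0.le
      nlinarith [a4, a5, b', a2, hst, hs0, ht2]
    have a7 : 1.2274 * (T - y) ≤ 2 * (2 - 2 * Real.log 2) * (T - y) := by
      refine mul_le_mul_of_nonneg_right ?_ (by linarith)
      linarith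
    have a8 := mul_le_mul_of_nonneg_left (a6.trans (add_le_add_left a7 1)) a0
    nlinarith [a8, a2, a0]
  have hsum := sum_le_sum key
  rw [sum_add_distrib, sum_add_distrib, ← mul_sum, ← mul_sum, ← sq_sum, sum_const, card_range,
    nsmul_eq_mul] at hsum
  -- the constant
  set m : ℝ := ∑ y ∈ range k, q y with hm
  have hm0 : 0 ≤ m := sum_nonneg fun y hy => hq0 y (mem_range.1 hy)
  have hmk : m ≤ 0.6 * k := by
    calc m ≤ ∑ y ∈ range k, (0.6 : ℝ) := sum_le_sum fun y hy => hq1 y (mem_range.1 hy)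
      _ = 0.6 * k := by rw [sum_const, card_range, nsmul_eq_mul]; ring
  have hc : (1 / 2 + (5 * (k : ℝ) - n) / (4 * k)) ≤ 1.07044 + 0.68 / k := by
    have e : (5 * (k : ℝ) - n) / (4 * k) = 5 / 4 - n / (4 * k) := by
      field_simp
    rw [e]
    have e2 : 0.67956 - 0.68 / (k : ℝ) ≤ n / (4 * k) := by
      rw [le_div_iff₀ (by positivity)]
      have e3 : (0.67956 - 0.68 / (k : ℝ)) * (4 * k) = 2.71824 * k - 2.72 := by
        field_simp
        ring
      rw [e3]
      have : (k : ℝ) ≤ n * t + 1 := by rw [← hT]; linarith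
      nlinarith
    linarith
  have hm2 : m ^ 2 ≤ 0.36 * k ^ 2 := by nlinarith
  have h9 : (1 / 2 + (5 * (k : ℝ) - n) / (4 * k)) * m ^ 2 ≤ 1.07044 * m ^ 2 + 0.25 * k := by
    calc (1 / 2 + (5 * (k : ℝ) - n) / (4 * k)) * m ^ 2 ≤ (1.07044 + 0.68 / k) * m ^ 2 :=
          mul_le_mul_of_nonneg_right hc (by positivity)
      _ = 1.07044 * m ^ 2 + 0.68 / k * m ^ 2 := by ring
      _ ≤ 1.07044 * m ^ 2 + 0.68 / k * (0.36 * k ^ 2) := by
          have : 0 ≤ 0.68 / (k : ℝ) := by positivity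
          have := mul_le_mul_of_nonneg_left hm2 this
          linarith
      _ = 1.07044 * m ^ 2 + 0.2448 * k := by field_simp; ring
      _ ≤ _ := by nlinarith
  rw [mul_sum] at hsum ⊢
  nlinarith [hsum, h9, hkn]

end Pool.Agent.Lib.MP_efec9b_co.Jd63
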