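import Mathlib

/-!
# The constant of the uniform discrete form
-/

set_option autoImplicit false

namespace Pool.Agent.Lib.MP_efec9b_co.Kd55

open Real Finset

/-- The weights. -/
noncomputable def U (T : ℝ) (j : ℕ) : ℝ := if (j : ℝ) ≤ T then 1 else T / j

/-- `1 / j ≥ log ((j + 1) / j)`, summed. -/
theorem sum_inv_ge {a b : ℕ} (ha : 0 < a) (hab : a ≤ b) :
    log (b / a) ≤ ∑ j ∈ Ico a b, (1 : ℝ) / j := by
  induction b, hab using Nat.le_induction with
  | base =>
    have : (a : ℝ) ≠ 0 := by positivity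
    simp [div_self this]
  | succ b hab ih =>
    rw [sum_Ico_succ_top hab]
    have ha' : (0 : ℝ) < a := by exact_mod_cast ha
    have hb' : (0 : ℝ) < b := by exact_mod_cast ha.trans_le hab
    have e1 : ((b + 1 : ℕ) : ℝ) / a = (b / a) * ((b + 1) / b) := by
      push_cast
      field_simp
    rw [e1, log_mul (by positivity) (by positivity)]
    have h1 : log ((b + 1) / b) ≤ (b + 1) / b - 1 := log_le_sub_one_of_pos (by positivity)
    have e2 : ((b : ℝ) + 1) / b - 1 = 1 / b := by field_simp; ring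
    rw [e2] at h1
    linarith

/-- `1 / j ≤ log (j / (j - 1))`, summed. -/
theorem sum_inv_le {a b : ℕ} (ha : 0 < a) (hab : a ≤ b) :
    ∑ j ∈ Ico (a + 1) (b + 1), (1 : ℝ) / j ≤ log (b / a) := by
  induction b, hab using Nat.le_induction with
  | base =>
    have : (a : ℝ) ≠ 0 := by positivity
    simp [div_self this]
  | succ b hab ih =>
    rw [sum_Ico_succ_top (by omega)]
    have ha' : (0 : ℝ) < a := by exact_mod_cast ha
    have hb' : (0 : ℝ) < b := by exact_mod_cast ha.trans_le hab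
    have e1 : ((b + 1 : ℕ) : ℝ) / a = (b / a) * ((b + 1) / b) := by
      push_cast
      field_simp
    rw [e1, log_mul (by positivity) (by positivity)]
    have h1 : 1 - (((b : ℝ) + 1) / b)⁻¹ ≤ log ((b + 1) / b) :=
      one_sub_inv_le_log_of_pos (by positivity)
    have e2 : 1 - (((b : ℝ) + 1) / b)⁻¹ = 1 / ((b + 1 : ℕ) : ℝ) := by
      push_cast
      field_simp
      ring
    rw [e2] at h1
    linarith

theorem sum_pair {n : ℕ} (u : ℕ → ℝ) :
    ∑ y ∈ range n, (2 * u y * (∑ Y ∈ Ioo y n, u Y) - 2 * ∑ Y ∈ Ioo y n, u Y ^ 2) =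
      (∑ j ∈ range n, u j) ^ 2 - ∑ j ∈ range n, u j ^ 2 - 2 * ∑ j ∈ range n, j * u j ^ 2 := by
  induction n with
  | zero => simp
  | succ n ih =>
    have hI : ∀ y ∈ range n, Ioo y (n + 1) = insert n (Ioo y n) := by
      intro y hy
      ext x
      have := mem_range.1 hy
      simp only [mem_Ioo, mem_insert]
      omega
    have hn : ∀ y, n ∉ Ioo y n := fun y h => by simp at h
    have h0 : Ioo n (n + 1) = ∅ := by
      ext x
      simp only [mem_Ioo, notMem_empty, iff_false]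
      omega
    rw [sum_range_succ, h0, sum_range_succ (fun j => u j), sum_range_succ (fun j => u j ^ 2),
      sum_range_succ (fun j => (j : ℝ) * u j ^ 2)]
    have h1 : ∑ y ∈ range n, (2 * u y * (∑ Y ∈ Ioo y (n + 1), u Y) -
        2 * ∑ Y ∈ Ioo y (n + 1), u Y ^ 2) =
        ∑ y ∈ range n, (2 * u y * (∑ Y ∈ Ioo y n, u Y) - 2 * ∑ Y ∈ Ioo y n, u Y ^ 2) +
          (2 * u n * (∑ j ∈ range n, u j) - 2 * n * u n ^ 2) := by
      have h2 : ∀ y ∈ range n, (2 * u y * (∑ Y ∈ Ioo y (n + 1), u Y) -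
          2 * ∑ Y ∈ Ioo y (n + 1), u Y ^ 2) =
          (2 * u y * (∑ Y ∈ Ioo y n, u Y) - 2 * ∑ Y ∈ Ioo y n, u Y ^ 2) +
            (2 * u n * u y - 2 * u n ^ 2) := by
        intro y hy
        rw [hI y hy, sum_insert (hn y), sum_insert (hn y)]
        ring
      have h3 : ∑ y ∈ range n, (2 * u n * u y - 2 * u n ^ 2) =
          2 * u n * (∑ j ∈ range n, u j) - 2 * n * u n ^ 2 := by
        rw [sum_sub_distrib, ← mul_sum, sum_const, card_range, nsmul_eq_mul]
        ring
      rw [sum_congr rfl h2, sum_add_distrib, h3]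
    rw [h1, ih]
    rw [sum_empty, sum_empty]
    ring

/-- Row Kd. -/
theorem kd55 {n : ℕ} (hn : 1 ≤ n) :
    ((n : ℝ) / exp 1) ^ 2 - 6 * n ≤ ∑ y ∈ range n, (2 * U (n / exp 1) y *
      (∑ Y ∈ Ioo y n, U (n / exp 1) Y) - 2 * ∑ Y ∈ Ioo y n, U (n / exp 1) Y ^ 2) := by
  set T : ℝ := (n : ℝ) / exp 1 with hT
  have hn' : (1 : ℝ) ≤ n := by exact_mod_cast hn
  have he := Real.exp_one_gt_d9
  have he' := Real.exp_one_lt_d9
  have hT0 : 0 < T := by positivity
  have hTn : T < n := by
    rw [hT, div_lt_iff₀ (exp_pos 1)]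
    nlinarith
  have hTn2 : T * 2.7182818283 ≤ n := by
    have h1 : T * exp 1 = n := by rw [hT]; field_simp
    nlinarith
  rw [sum_pair]
  -- the number of full places
  set k : ℕ := ⌊T⌋₊ + 1 with hk
  have hk1 : (k : ℝ) ≤ T + 1 := by
    rw [hk]
    push_cast
    have := Nat.floor_le hT0.le
    linarith
  have hk2 : T < k := by
    rw [hk]
    push_cast
    exact Nat.lt_floor_add_one T
  have hkn : k ≤ n := by
    have h1 : ⌊T⌋₊ < n := (Nat.floor_lt hT0.le).2 hTn
    omega
  have hk0 : 0 < k := by omega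
  have hU1 : ∀ j ∈ range k, U T j = 1 := by
    intro j hj
    rw [mem_range] at hj
    have h1 : j ≤ ⌊T⌋₊ := by omega
    have h2 : (j : ℝ) ≤ T := (Nat.le_floor_iff hT0.le).1 h1
    rw [U, if_pos h2]
  have hU2 : ∀ j ∈ Ico k n, U T j = T * (1 / j) := by
    intro j hj
    rw [mem_Ico] at hj
    have h2 : T < (j : ℝ) := hk2.trans_le (by exact_mod_cast hj.1)
    rw [U, if_neg (not_le.2 h2)]
    ring
  have hsplit : ∀ f : ℕ → ℝ, ∑ j ∈ range n, f j = ∑ j ∈ range k, f j + ∑ j ∈ Ico k n, f j := by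
    intro f
    rw [range_eq_Ico, range_eq_Ico, sum_Ico_consecutive f (Nat.zero_le k) hkn]
  -- lower bound of the sum
  have hlog1 : log ((n : ℝ) / k) ≤ ∑ j ∈ Ico k n, (1 : ℝ) / j := sum_inv_ge hk0 hkn
  have hS1 : 2 * T - 1 ≤ ∑ j ∈ range n, U T j := by
    rw [hsplit, sum_congr rfl hU1, sum_congr rfl hU2, ← mul_sum]
    simp only [sum_const, card_range, nsmul_eq_mul, mul_one]
    have h1 : log ((k : ℝ) / T) ≤ k / T - 1 := log_le_sub_one_of_pos (by positivity)
    have h2 : log ((n : ℝ) / k) = 1 - log (k / T) := by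
      have h3 : (n : ℝ) / k = exp 1 * (k / T)⁻¹ := by
        rw [hT]
        field_simp
      rw [h3, log_mul (exp_pos 1).ne' (by positivity), log_exp, log_inv]
      ring
    have h4 : T * (2 - k / T) ≤ T * ∑ j ∈ Ico k n, (1 : ℝ) / j := by
      refine mul_le_mul_of_nonneg_left ?_ hT0.le
      linarith
    have h5 : T * (2 - k / T) = 2 * T - k := by field_simp
    linarith
  -- upper bound of the sum of the squares
  have hS2 : ∑ j ∈ range n, U T j ^ 2 ≤ n := by
    have h1 : ∀ j ∈ range n, U T j ^ 2 ≤ 1 := by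
      intro j _
      rw [U]
      split_ifs with h
      · norm_num
      · rw [not_le] at h
        have h2 : T / j ≤ 1 := (div_le_one (hT0.trans h)).2 h.le
        have h3 : 0 ≤ T / j := by positivity
        nlinarith
    refine (sum_le_sum h1).trans ?_
    simp
  have hS3 : ∑ j ∈ range n, (j : ℝ) * U T j ^ 2 ≤ T ^ 2 * 3 / 2 + 3 * T + 1 := by
    rw [hsplit]
    have h1 : ∑ j ∈ range k, (j : ℝ) * U T j ^ 2 = ∑ j ∈ range k, (j : ℝ) :=
      sum_congr rfl fun j hj => by rw [hU1 j hj]; ring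
    have h2 : ∑ j ∈ range k, (j : ℝ) = k * (k - 1) / 2 := by
      have h3 := Finset.sum_range_id_mul_two k
      have h4 : ((∑ j ∈ range k, j : ℕ) : ℝ) * 2 = k * (k - 1) := by
        rw [← Nat.cast_pred hk0]
        exact_mod_cast h3
      push_cast at h4
      linarith
    have h5 : ∑ j ∈ Ico k n, (j : ℝ) * U T j ^ 2 = T ^ 2 * ∑ j ∈ Ico k n, (1 : ℝ) / j := by
      rw [mul_sum]
      refine sum_congr rfl fun j hj => ?_
      rw [hU2 j hj]
      have hj0 : (0 : ℝ) < j := by
        have := (mem_Ico.1 hj).1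
        exact_mod_cast hk0.trans_le this
      field_simp
    have h6 : ∑ j ∈ Ico k n, (1 : ℝ) / j ≤ 1 + 1 / T := by
      rcases Nat.lt_or_ge k n with hlt | hge
      · have h7 : ∑ j ∈ Ico (k + 1) n, (1 : ℝ) / j ≤ log (n / k) := by
          have h8 := sum_inv_le hk0 hkn
          refine le_trans (sum_le_sum_of_subset_of_nonneg (Ico_subset_Ico_right (Nat.le_succ n))
            fun j _ _ => by positivity) h8
        rw [sum_eq_sum_Ico_succ_bot hlt]
        have h9 : log ((n : ℝ) / k) ≤ 1 := by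
          rw [log_le_iff_le_exp (by positivity), div_le_iff₀ (by positivity)]
          have h10 : (n : ℝ) = exp 1 * T := by rw [hT]; field_simp
          rw [h10]
          exact mul_le_mul_of_nonneg_left hk2.le (exp_pos 1).le
        have h11 : (1 : ℝ) / k ≤ 1 / T := one_div_le_one_div_of_le hT0 hk2.le
        linarith
      · rw [Ico_eq_empty_of_le hge, sum_empty]
        positivity
    rw [h1, h2, h5]
    have h12 : T ^ 2 * ∑ j ∈ Ico k n, (1 : ℝ) / j ≤ T ^ 2 * (1 + 1 / T) :=
      mul_le_mul_of_nonneg_left h6 (sq_nonneg T)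
    have h13 : T ^ 2 * (1 + 1 / T) = T ^ 2 + T := by field_simp
    have h14 : (k : ℝ) * (k - 1) ≤ (T + 1) * T := by
      have : (1 : ℝ) ≤ k := by exact_mod_cast hk0
      nlinarith
    nlinarith
  have h20 : (∑ j ∈ range n, U T j) ^ 2 ≥ 4 * T ^ 2 - 4 * T := by
    rcases le_total 1 (2 * T) with h | h
    · have h21 : 0 ≤ 2 * T - 1 := by linarith
      nlinarith
    · have h22 : 0 ≤ (∑ j ∈ range n, U T j) ^ 2 := sq_nonneg _
      nlinarith
  nlinarith

end Pool.Agent.Lib.MP_efec9b_co.Kd55
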