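import Mathlib

/-!
MP_efec9b_co, the matrix `(0 0; 0 1)`: the constant of the uniform discrete route.
-/

set_option autoImplicit false

namespace Pool.Agent.Lib.MP_efec9b_co.Kd63

open Finset Real

/-- the extremal profile (the form of `SL59`) -/
noncomputable def U (T : ℝ) (j : ℕ) : ℝ := if (j : ℝ) ≤ T then 1 else T / j

theorem Ioo_eq (y n : ℕ) : Ioo y n = Ico (y + 1) n := by
  ext x
  simp only [mem_Ioo, mem_Ico]
  omega

theorem sq_sum (k : ℕ) (q : ℕ → ℝ) :
    (∑ y ∈ range k, q y) ^ 2 = ∑ y ∈ range k, q y * (q y + 2 * ∑ Y ∈ Ico (y + 1) k, q Y) := by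
  have h := sum_range_sub' (fun y => (∑ Y ∈ Ico y k, q Y) ^ 2) k
  simp only [Ico_self, sum_empty] at h
  rw [range_eq_Ico, show (∑ y ∈ Ico 0 k, q y) ^ 2 = (∑ Y ∈ Ico 0 k, q Y) ^ 2 - 0 ^ 2 by ring, ← h]
  rw [range_eq_Ico]
  refine sum_congr rfl fun y hy => ?_
  rw [mem_Ico] at hy
  rw [sum_eq_sum_Ico_succ_bot hy.2]
  ring

theorem sum_tail (n : ℕ) (V : ℕ → ℝ) :
    ∑ y ∈ range n, ∑ Y ∈ Ioo y n, V Y = ∑ Y ∈ range n, (Y : ℝ) * V Y := by
  rw [sum_comm' (s' := fun Y => range Y) (t' := range n)]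
  · refine sum_congr rfl fun Y _ => ?_
    rw [sum_const, card_range, nsmul_eq_mul]
  · intro x y
    simp only [mem_range, mem_Ioo]
    omega

theorem K_eq (n : ℕ) (V : ℕ → ℝ) :
    ∑ y ∈ range n, (2 * V y * ∑ Y ∈ Ioo y n, V Y - 2 * ∑ Y ∈ Ioo y n, V Y ^ 2) =
      (∑ y ∈ range n, V y) ^ 2 - ∑ y ∈ range n, (2 * (y : ℝ) + 1) * V y ^ 2 := by
  rw [sq_sum, sum_sub_distrib, ← mul_sum, sum_tail n (fun Y => V Y ^ 2), mul_sum,
    ← sum_sub_distrib, ← sum_sub_distrib]
  refine sum_congr rfl fun y _ => ?_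
  rw [Ioo_eq]
  ring

theorem log_step_le {m : ℕ} (hm : 1 ≤ m) :
    Real.log ((m : ℝ) + 1) - Real.log m ≤ 1 / m := by
  have h0 : (0 : ℝ) < m := by exact_mod_cast hm
  rw [← Real.log_div (by positivity) h0.ne']
  have := Real.log_le_sub_one_of_pos (x := ((m : ℝ) + 1) / m) (by positivity)
  refine this.trans (le_of_eq ?_)
  field_simp
  ring

theorem log_step_ge {m : ℕ} (hm : 1 ≤ m) :
    1 / ((m : ℝ) + 1) ≤ Real.log ((m : ℝ) + 1) - Real.log m := by
  have h0 : (0 : ℝ) < m := by exact_mod_cast hm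
  have := Real.log_le_sub_one_of_pos (x := (m : ℝ) / (m + 1)) (by positivity)
  rw [Real.log_div h0.ne' (by positivity)] at this
  have e : (m : ℝ) / (m + 1) - 1 = - (1 / (m + 1)) := by
    field_simp
    ring
  rw [e] at this
  linarith

theorem low (T : ℝ) (hT : 0 < T) (k : ℕ) (hk1 : T ≤ k) (hk2 : (k : ℝ) - 1 ≤ T) :
    ∀ m : ℕ, k ≤ m → T + T * (Real.log m - Real.log k) ≤ ∑ y ∈ range m, U T y := by
  have hk0 : 1 ≤ k := by
    have : (0 : ℝ) < k := hT.trans_le hk1
    exact_mod_cast this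
  intro m hm
  induction m, hm using Nat.le_induction with
  | base =>
    have : ∑ y ∈ range k, U T y = ∑ y ∈ range k, (1 : ℝ) := by
      refine sum_congr rfl fun y hy => ?_
      have : (y : ℝ) + 1 ≤ k := by exact_mod_cast mem_range.1 hy
      unfold U
      rw [if_pos (by linarith)]
    rw [this, sum_const, card_range, nsmul_eq_mul]
    linarith
  | succ m hm ih =>
    rw [sum_range_succ]
    have hm0 : (0 : ℝ) < m := by
      have : 0 < m := by omega
      exact_mod_cast this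
    have hTm : T ≤ m := hk1.trans (by exact_mod_cast hm)
    have h1 : T / m ≤ U T m := by
      unfold U
      split_ifs
      · rw [div_le_one hm0]
        exact hTm
      · exact le_rfl
    have h2 := log_step_le (m := m) (by omega)
    have h3 := mul_le_mul_of_nonneg_left h2 hT.le
    have h4 : T * (1 / (m : ℝ)) = T / m := by ring
    push_cast
    linarith

theorem high (T : ℝ) (hT : 0 < T) (k : ℕ) (hk1 : T ≤ k) :
    ∀ m : ℕ, k ≤ m → ∑ y ∈ range m, (2 * (y : ℝ) + 1) * U T y ^ 2 ≤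
      (k : ℝ) ^ 2 + 2 * T ^ 2 * (Real.log m - Real.log k) + 4 * T ^ 2 * (1 / k - 1 / m) := by
  have hk0 : 1 ≤ k := by
    have : (0 : ℝ) < k := hT.trans_le hk1
    exact_mod_cast this
  have hU1 : ∀ y : ℕ, 0 ≤ U T y ∧ U T y ≤ 1 := by
    intro y
    unfold U
    split_ifs with h
    · exact ⟨zero_le_one, le_rfl⟩
    · push Not at h
      exact ⟨div_nonneg hT.le (hT.le.trans h.le), (div_le_one (hT.trans h)).2 h.le⟩
  intro m hm
  induction m, hm using Nat.le_induction with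
  | base =>
    have h1 : ∑ y ∈ range k, (2 * (y : ℝ) + 1) * U T y ^ 2 ≤ ∑ y ∈ range k, (2 * (y : ℝ) + 1) := by
      refine sum_le_sum fun y _ => ?_
      obtain ⟨a, b⟩ := hU1 y
      have : U T y ^ 2 ≤ 1 := by nlinarith
      have h2 : (0 : ℝ) ≤ 2 * (y : ℝ) + 1 := by positivity
      nlinarith
    have h2 : ∀ r : ℕ, ∑ y ∈ range r, (2 * (y : ℝ) + 1) = (r : ℝ) ^ 2 := by
      intro r
      induction r with
      | zero => simp
      | succ r ih =>
        rw [sum_range_succ, ih]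
        push_cast
        ring
    rw [h2] at h1
    simpa using h1
  | succ m hm ih =>
    rw [sum_range_succ]
    have hm1 : 1 ≤ m := by omega
    have hm0 : (0 : ℝ) < m := by exact_mod_cast hm1
    have hm1' : (1 : ℝ) ≤ m := by exact_mod_cast hm1
    have hTm : T ≤ m := hk1.trans (by exact_mod_cast hm)
    have h1 : U T m ≤ T / m := by
      unfold U
      split_ifs with h
      · have : (m : ℝ) = T := le_antisymm h hTm
        rw [this, div_self hT.ne']
      · exact le_rfl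
    have h1' : U T m ^ 2 ≤ (T / m) ^ 2 := pow_le_pow_left₀ (hU1 m).1 h1 2
    have h2 := log_step_ge (m := m) hm1
    have h3 := mul_le_mul_of_nonneg_left h2 (by positivity : 0 ≤ 2 * T ^ 2)
    have h4 : (2 * (m : ℝ) + 1) * U T m ^ 2 ≤ 2 * T ^ 2 / m + T ^ 2 / m ^ 2 := by
      calc (2 * (m : ℝ) + 1) * U T m ^ 2 ≤ (2 * (m : ℝ) + 1) * (T / m) ^ 2 :=
            mul_le_mul_of_nonneg_left h1' (by positivity)
        _ = _ := by
            field_simp
    have h5 : 2 * T ^ 2 / m + T ^ 2 / m ^ 2 ≤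
        2 * T ^ 2 * (1 / ((m : ℝ) + 1)) + 4 * T ^ 2 * (1 / m - 1 / ((m : ℝ) + 1)) := by
      have e : 2 * T ^ 2 * (1 / ((m : ℝ) + 1)) + 4 * T ^ 2 * (1 / m - 1 / ((m : ℝ) + 1)) -
          (2 * T ^ 2 / m + T ^ 2 / m ^ 2) = T ^ 2 * (m - 1) / (m ^ 2 * (m + 1)) := by
        field_simp
        ring
      have : 0 ≤ T ^ 2 * ((m : ℝ) - 1) / (m ^ 2 * (m + 1)) := by
        have : 0 ≤ (m : ℝ) - 1 := by linarith
        positivity
      linarith
    push_cast
    linarith

/-- **(Kd)** -/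
theorem kd63 (n : ℕ) (hn : 1 ≤ n) (T : ℝ) (hT : T = n * Real.exp (-1)) :
    T ^ 2 - 5 * n ≤
      ∑ y ∈ range n, (2 * U T y * ∑ Y ∈ Ioo y n, U T Y - 2 * ∑ Y ∈ Ioo y n, U T Y ^ 2) := by
  have hn0 : (0 : ℝ) < n := by exact_mod_cast hn
  have hn1 : (1 : ℝ) ≤ n := by exact_mod_cast hn
  have he : Real.exp (-1) < 0.37 := by
    have h1 := Real.exp_one_gt_d9
    rw [Real.exp_neg, inv_lt_comm₀ (Real.exp_pos 1) (by norm_num)]
    refine lt_trans ?_ h1
    norm_num
  have hT0 : 0 < T := by rw [hT]; positivity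
  have hTn : T ≤ 0.37 * n := by rw [hT]; nlinarith
  set k : ℕ := ⌊T⌋₊ + 1 with hk
  have hk1 : T ≤ k := by
    rw [hk]
    push_cast
    exact (Nat.lt_floor_add_one T).le
  have hk2 : (k : ℝ) - 1 ≤ T := by
    rw [hk]
    push_cast
    have := Nat.floor_le hT0.le
    linarith
  have hkn : k ≤ n := by
    rw [hk]
    have : ⌊T⌋₊ < n := by
      rw [Nat.floor_lt hT0.le]
      nlinarith
    omega
  have hk0 : (0 : ℝ) < k := hT0.trans_le hk1
  have hlogT : Real.log n - Real.log T = 1 := by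
    rw [hT, Real.log_mul hn0.ne' (Real.exp_pos _).ne', Real.log_exp]
    ring
  have hlk1 : Real.log T ≤ Real.log k := Real.log_le_log hT0 hk1
  have hlk2 : T * Real.log k ≤ T * Real.log T + 1 := by
    have h1 : Real.log (k / T) ≤ k / T - 1 := Real.log_le_sub_one_of_pos (by positivity)
    rw [Real.log_div hk0.ne' hT0.ne'] at h1
    have h2 := mul_le_mul_of_nonneg_left h1 hT0.le
    have h3 : T * ((k : ℝ) / T - 1) = k - T := by
      field_simp
    rw [h3] at h2
    nlinarith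
  have hS := low T hT0 k hk1 hk2 n hkn
  have hR := high T hT0 k hk1 n hkn
  rw [K_eq]
  set S : ℝ := ∑ y ∈ range n, U T y
  set R : ℝ := ∑ y ∈ range n, (2 * (y : ℝ) + 1) * U T y ^ 2
  have hS1 : 2 * T - 1 ≤ S := by nlinarith
  have hS0 : T ≤ S := by
    have h1 : Real.log k ≤ Real.log n := Real.log_le_log hk0 (by exact_mod_cast hkn)
    have h2 : 0 ≤ T * (Real.log n - Real.log k) := mul_nonneg hT0.le (by linarith)
    linarith
  have hR1 : R ≤ 3 * T ^ 2 + 6 * T + 1 := by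
    have h1 : (k : ℝ) ^ 2 ≤ (T + 1) ^ 2 := by nlinarith
    have h2 : 2 * T ^ 2 * (Real.log n - Real.log k) ≤ 2 * T ^ 2 * 1 :=
      mul_le_mul_of_nonneg_left (by linarith) (by positivity)
    have h3 : 4 * T ^ 2 * (1 / (k : ℝ) - 1 / n) ≤ 4 * T := by
      have h4 : 4 * T ^ 2 * (1 / (k : ℝ) - 1 / n) ≤ 4 * T ^ 2 * (1 / T) := by
        refine mul_le_mul_of_nonneg_left ?_ (by positivity)
        have h5 : 1 / (k : ℝ) ≤ 1 / T := one_div_le_one_div_of_le hT0 hk1
        have h6 : 0 ≤ 1 / (n : ℝ) := by positivity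
        linarith
      refine h4.trans (le_of_eq ?_)
      field_simp
    nlinarith
  have hS2 : 4 * T ^ 2 - 4 * T ≤ S ^ 2 := by
    rcases le_total (2 * T) S with h | h
    · nlinarith
    · nlinarith
  nlinarith

end Pool.Agent.Lib.MP_efec9b_co.Kd63
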