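import Mathlib

/-!
MP_efec9b_co, uniform discrete route, row QDd (helper84): the quadratic part.
-/

namespace Pool.Agent.Lib.MP_efec9b_co.QD84

open Finset

theorem pw1 (a b : ℝ) : a * b - b ^ 2 ≤ a ^ 2 / 4 := by nlinarith [sq_nonneg (a / 2 - b)]

theorem pw2 (q x z : ℝ) (hz : 0 ≤ z) (hxq : q ≤ x) (hxz : z ≤ x) :
    q * x - x ^ 2 ≤ q * z - z ^ 2 := by
  nlinarith [mul_nonneg (sub_nonneg.2 hxz) (show 0 ≤ x + z - q by linarith)]

theorem pw3 (q D r c : ℝ) (hr0 : 0 ≤ r) (hrq : r ≤ q) (hc : 0 ≤ c) :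
    -q * (D - r) - (D - r) ^ 2 ≤ q ^ 2 / 4 - (2 * c - c ^ 2) * D ^ 2 + c * |D| * q := by
  have h1 : |D| - q / 2 ≤ |D - r + q / 2| := by
    have h2 : |D| ≤ |D - r + q / 2| + |r - q / 2| := by
      have := abs_add_le (D - r + q / 2) (r - q / 2)
      have e : D - r + q / 2 + (r - q / 2) = D := by ring
      rw [e] at this
      exact this
    have h3 : |r - q / 2| ≤ q / 2 := by
      rw [abs_le]; constructor <;> linarith
    linarith
  have hD : 0 ≤ |D| := abs_nonneg D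
  have hDD : |D| ^ 2 = D ^ 2 := sq_abs D
  have hvv : |D - r + q / 2| ^ 2 = (D - r + q / 2) ^ 2 := sq_abs _
  have h4 : 0 ≤ (|D - r + q / 2| - c * |D|) ^ 2 := sq_nonneg _
  have h5 : 0 ≤ c * |D| * (|D - r + q / 2| - (|D| - q / 2)) :=
    mul_nonneg (mul_nonneg hc hD) (by linarith)
  nlinarith [h4, h5, hDD, hvv]

/-- harmonic sum -/
theorem harm (N m : ℕ) (hm : m < N) :
    ∑ j ∈ range m, (1 : ℝ) / ((N : ℝ) - j) ≤ Real.log ((N : ℝ) / ((N : ℝ) - m)) := by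
  induction m with
  | zero => simp; 
  | succ m ih =>
    rw [sum_range_succ]
    have h1 : (m : ℝ) + 1 < N := by exact_mod_cast hm
    have ih' := ih (by omega)
    have h2 : (0 : ℝ) < (N : ℝ) - m := by linarith
    have h3 : (0 : ℝ) < (N : ℝ) - (m + 1) := by linarith
    have h4 : (0 : ℝ) < N := by
      have : (0 : ℝ) ≤ m := Nat.cast_nonneg m
      linarith
    have h5 : (1 : ℝ) / ((N : ℝ) - m) ≤ Real.log (((N : ℝ) - m) / ((N : ℝ) - (m + 1))) := by
      have := Real.one_sub_inv_le_log_of_pos (x := ((N : ℝ) - m) / ((N : ℝ) - (m + 1)))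
        (div_pos h2 h3)
      refine le_trans (le_of_eq ?_) this
      field_simp
      ring
    have h6 : Real.log ((N : ℝ) / ((N : ℝ) - (m + 1))) =
        Real.log ((N : ℝ) / ((N : ℝ) - m)) + Real.log (((N : ℝ) - m) / ((N : ℝ) - (m + 1))) := by
      rw [← Real.log_mul (by positivity) (by positivity)]
      congr 1
      field_simp
    push_cast
    rw [h6]
    linarith

theorem harm2 (n k : ℕ) (hk : 0 < k) (hkn : k ≤ n) (he : (n : ℝ) ≤ Real.exp 1 * k) :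
    ∑ j ∈ range (n - k), (1 : ℝ) / ((2 * k : ℕ) - (j : ℝ)) ≤ 2 := by
  have hkr : (0 : ℝ) < k := by exact_mod_cast hk
  have e1 := Real.exp_one_gt_d9
  have e2 := Real.exp_one_lt_d9
  have h3 : (n : ℝ) < 3 * k := by nlinarith
  have h3' : n < 3 * k := by exact_mod_cast h3
  have h := harm (2 * k) (n - k) (by omega)
  refine h.trans ?_
  have hc : ((n - k : ℕ) : ℝ) = (n : ℝ) - k := by
    rw [Nat.cast_sub hkn]
  rw [hc]
  push_cast
  have hpos : (0 : ℝ) < 2 * (k : ℝ) - ((n : ℝ) - k) := by linarith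
  rw [Real.log_le_iff_le_exp (div_pos (by linarith) hpos), div_le_iff₀ hpos]
  have h2 : Real.exp 2 = Real.exp 1 * Real.exp 1 := by
    rw [← Real.exp_add]; norm_num
  rw [h2]
  have h7 : (7.389 : ℝ) ≤ Real.exp 1 * Real.exp 1 := by nlinarith
  have h8 : (3 - Real.exp 1) * k ≤ 2 * (k : ℝ) - ((n : ℝ) - k) := by nlinarith
  have h9 : (0.2817 : ℝ) * k ≤ 2 * (k : ℝ) - ((n : ℝ) - k) := by nlinarith
  nlinarith

theorem zsum (n k : ℕ) (hk : 0 < k) (hkn : k ≤ n) (he : (n : ℝ) ≤ Real.exp 1 * k) :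
    ∑ z ∈ Ico k n, (((n : ℝ) - 1 - z) / 2) / (4 * k * (k - ((n : ℝ) - 1 - z) / 2)) ≤
      (5 * (k : ℝ) - n) / (4 * k) := by
  have hkr : (0 : ℝ) < k := by exact_mod_cast hk
  have e2 := Real.exp_one_lt_d9
  have h3 : (n : ℝ) < 3 * k := by nlinarith
  have h3' : n < 3 * k := by exact_mod_cast h3
  have h := harm2 n k hk hkn he
  have key : ∑ z ∈ Ico k n, (((n : ℝ) - 1 - z) / 2) / (4 * k * (k - ((n : ℝ) - 1 - z) / 2)) =
      ∑ j ∈ range (n - k), (1 / (4 * (k : ℝ))) * (2 * k * (1 / ((2 * k : ℕ) - (j : ℝ))) - 1) := by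
    rw [Finset.sum_Ico_eq_sum_range, ← Finset.sum_range_reflect]
    refine sum_congr rfl fun j hj => ?_
    rw [mem_range] at hj
    have hz : ((k + (n - k - 1 - j) : ℕ) : ℝ) = (n : ℝ) - 1 - j := by
      have : k + (n - k - 1 - j) + 1 + j = n := by omega
      have h' : ((k + (n - k - 1 - j) + 1 + j : ℕ) : ℝ) = n := by exact_mod_cast this
      push_cast at h' ⊢
      linarith
    rw [hz]
    have hj' : j < 2 * k := by omega
    have hj2 : (j : ℝ) < 2 * k := by exact_mod_cast hj'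
    have e : (n : ℝ) - 1 - ((n : ℝ) - 1 - j) = j := by ring
    rw [e]
    push_cast
    have h1 : (0 : ℝ) < 2 * k - j := by linarith
    have h2 : (0 : ℝ) < k - j / 2 := by linarith
    field_simp
    ring
  rw [key, ← mul_sum, sum_sub_distrib, ← mul_sum]
  simp only [sum_const, card_range, nsmul_eq_mul, mul_one]
  have hc : ((n - k : ℕ) : ℝ) = (n : ℝ) - k := by
    rw [Nat.cast_sub hkn]
  rw [hc]
  rw [show (5 * (k : ℝ) - n) / (4 * k) = (1 / (4 * (k : ℝ))) * (5 * (k : ℝ) - n) by ring]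
  refine mul_le_mul_of_nonneg_left ?_ (by positivity)
  nlinarith

/-- one column `y` at or beyond the threshold -/
theorem colHi (n y : ℕ) (d : ℝ) (dP dG : ℕ → ℝ)
    (hX : ∑ Y ∈ Ioo y n, dP Y = ∑ s ∈ range (n - 1 - y), dG s) (hy : y < n) :
    2 * d * (∑ Y ∈ Ioo y n, dP Y) - ∑ Y ∈ Ioo y n, dP Y ^ 2 - ∑ s ∈ range (n - 1 - y), dG s ^ 2 ≤
      ((n : ℝ) - 1 - y) / 2 * d ^ 2 := by
  have h1 : ∑ Y ∈ Ioo y n, (d * dP Y - dP Y ^ 2) ≤ ∑ _Y ∈ Ioo y n, d ^ 2 / 4 :=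
    sum_le_sum fun Y _ => pw1 _ _
  have h2 : ∑ s ∈ range (n - 1 - y), (d * dG s - dG s ^ 2) ≤
      ∑ _s ∈ range (n - 1 - y), d ^ 2 / 4 := sum_le_sum fun Y _ => pw1 _ _
  rw [sum_sub_distrib, ← mul_sum, sum_const, Nat.card_Ioo, nsmul_eq_mul] at h1
  rw [sum_sub_distrib, ← mul_sum, sum_const, card_range, nsmul_eq_mul] at h2
  have e1 : ((n - y - 1 : ℕ) : ℝ) = (n : ℝ) - 1 - y := by
    have : n - y - 1 + y + 1 = n := by omega
    have h' : ((n - y - 1 + y + 1 : ℕ) : ℝ) = n := by exact_mod_cast this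
    push_cast at h'
    linarith
  have e2 : ((n - 1 - y : ℕ) : ℝ) = (n : ℝ) - 1 - y := by
    have : n - 1 - y + y + 1 = n := by omega
    have h' : ((n - 1 - y + y + 1 : ℕ) : ℝ) = n := by exact_mod_cast this
    push_cast at h'
    linarith
  rw [e1] at h1
  rw [e2] at h2
  rw [← hX] at h2
  linarith

/-- one column `y` before the threshold `k` -/
theorem colLo (n k y : ℕ) (hy : y < k) (hkn : k ≤ n) (q : ℕ → ℝ) (D : ℕ → ℝ) (c : ℕ → ℝ)
    (hq0 : ∀ z, z < n → 0 ≤ q z)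
    (dP dG : ℕ → ℝ)
    (hX : ∑ Y ∈ Ioo y n, dP Y = ∑ s ∈ range (n - 1 - y), dG s)
    (hP1 : ∀ z ∈ Ioo y k, q y ≤ -dP z ∧ q z ≤ -dP z)
    (hP2 : ∀ z ∈ Ico k n, 0 ≤ D z - dP z ∧ D z - dP z ≤ q y)
    (hG : ∀ s, y + 1 + s < k → q y ≤ - dG s)
    (hc : ∀ z, 0 ≤ c z) :
    2 * (-q y) * (∑ Y ∈ Ioo y n, dP Y) - ∑ Y ∈ Ioo y n, dP Y ^ 2 -
      ∑ s ∈ range (n - 1 - y), dG s ^ 2 ≤
      ∑ z ∈ Ioo y k, (q y * q z - q z ^ 2) + ((n : ℝ) - k) / 2 * q y ^ 2 +
      ∑ z ∈ Ico k n, (- (2 * c z - c z ^ 2) * D z ^ 2 + c z * |D z| * q y) := by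
  have hyn : y < n := lt_of_lt_of_le hy hkn
  have hsplit : Ioo y n = Ioo y k ∪ Ico k n := by
    ext z; simp only [mem_Ioo, mem_union, mem_Ico]; omega
  have hdisj : Disjoint (Ioo y k) (Ico k n) := by
    rw [disjoint_left]; intro z; simp only [mem_Ioo, mem_Ico]; omega
  have h1 : ∑ Y ∈ Ioo y n, (-q y * dP Y - dP Y ^ 2) ≤
      ∑ z ∈ Ioo y k, (q y * q z - q z ^ 2) + ∑ z ∈ Ico k n,
        (q y ^ 2 / 4 + (- (2 * c z - c z ^ 2) * D z ^ 2 + c z * |D z| * q y)) := by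
    rw [hsplit, sum_union hdisj]
    refine add_le_add (sum_le_sum fun z hz => ?_) (sum_le_sum fun z hz => ?_)
    · have h := hP1 z hz
      have hzn : z < n := by
        have := (mem_Ioo.1 hz).2
        omega
      have := pw2 (q y) (-dP z) (q z) (hq0 z hzn) h.1 h.2
      nlinarith
    · have h := hP2 z hz
      have := pw3 (q y) (D z) (D z - dP z) (c z) h.1 h.2 (hc z)
      have e : D z - (D z - dP z) = dP z := by ring
      rw [e] at this
      linarith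
  have h2 : ∑ s ∈ range (n - 1 - y), (-q y * dG s - dG s ^ 2) ≤
      ∑ s ∈ range (n - 1 - y), (if y + 1 + s < k then 0 else q y ^ 2 / 4) := by
    refine sum_le_sum fun s _ => ?_
    split_ifs with h
    · have h' := hG s h
      have := pw2 (q y) (-dG s) (q y) (hq0 y hyn) h' h'
      nlinarith
    · have := pw1 (-q y) (dG s)
      nlinarith
  have h3 : ∑ s ∈ range (n - 1 - y), (if y + 1 + s < k then (0 : ℝ) else q y ^ 2 / 4) =
      ((n : ℝ) - k) * (q y ^ 2 / 4) := by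
    rw [sum_ite, sum_const_zero, zero_add, sum_const, nsmul_eq_mul]
    congr 1
    have : (filter (fun s => ¬ (y + 1 + s < k)) (range (n - 1 - y))) = Ico (k - 1 - y) (n - 1 - y) := by
      ext s; simp only [mem_filter, mem_range, mem_Ico]; omega
    rw [this, Nat.card_Ico]
    have h' : n - 1 - y - (k - 1 - y) + k = n := by omega
    have h'' : ((n - 1 - y - (k - 1 - y) + k : ℕ) : ℝ) = n := by exact_mod_cast h'
    push_cast at h''
    linarith
  rw [sum_sub_distrib, ← mul_sum] at h1 h2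
  rw [h3, ← hX] at h2
  rw [sum_add_distrib, sum_const, Nat.card_Ico, nsmul_eq_mul] at h1
  have hc' : ((n - k : ℕ) : ℝ) = (n : ℝ) - k := by
    rw [Nat.cast_sub hkn]
  rw [hc'] at h1
  linarith

theorem tri (k : ℕ) (q : ℕ → ℝ) :
    ∑ y ∈ range k, ∑ z ∈ Ioo y k, (q y * q z - q z ^ 2) ≤
      (∑ y ∈ range k, q y) ^ 2 / 2 - ∑ y ∈ range k, (y : ℝ) * q y ^ 2 := by
  induction k with
  | zero => simp
  | succ k ih =>
    have h1 : ∑ y ∈ range (k + 1), ∑ z ∈ Ioo y (k + 1), (q y * q z - q z ^ 2) =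
        ∑ y ∈ range k, ∑ z ∈ Ioo y k, (q y * q z - q z ^ 2) +
        ∑ y ∈ range k, (q y * q k - q k ^ 2) := by
      rw [sum_range_succ]
      have e : Ioo k (k + 1) = ∅ := by ext z; simp only [mem_Ioo, notMem_empty, iff_false]; omega
      rw [e, sum_empty, add_zero, ← sum_add_distrib]
      refine sum_congr rfl fun y hy => ?_
      rw [mem_range] at hy
      have e2 : Ioo y (k + 1) = insert k (Ioo y k) := by
        ext z; simp only [mem_Ioo, mem_insert]; omega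
      rw [e2, sum_insert (by simp only [mem_Ioo]; omega)]
      ring
    rw [h1, sum_range_succ, sum_range_succ]
    rw [sum_sub_distrib, ← sum_mul, sum_const, card_range, nsmul_eq_mul]
    nlinarith [sq_nonneg (q k)]

/-- ROW QDd -/
theorem QD (n k : ℕ) (hk : 0 < k) (hkn : k ≤ n) (he : (n : ℝ) ≤ Real.exp 1 * k)
    (Uf : ℕ → ℝ) (hU : ∀ j < k, Uf j = 1)
    (p : ℕ → ℝ) (P G : ℕ → ℕ → ℝ)
    (hp1 : ∀ y, p y ≤ 1)
    (hP1 : ∀ y z, P y z ≤ p y) (hP2 : ∀ y z, P y z ≤ p z)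
    (hP3 : ∀ y z, p z - P y z ≤ 1 - p y)
    (hG : ∀ y s, G y s ≤ p y)
    (hX : ∀ y < n, ∑ Y ∈ Ioo y n, (P y Y - Uf Y) =
      ∑ s ∈ range (n - 1 - y), (G y s - Uf (y + 1 + s))) :
    ∑ y ∈ range n, (2 * (p y - Uf y) * (∑ Y ∈ Ioo y n, (P y Y - Uf Y)) -
        ∑ Y ∈ Ioo y n, (P y Y - Uf Y) ^ 2 -
        ∑ s ∈ range (n - 1 - y), (G y s - Uf (y + 1 + s)) ^ 2) ≤
      ∑ y ∈ range k, (((n : ℝ) - k) / 2 - y) * (1 - p y) ^ 2 +
      (1 / 2 + (5 * (k : ℝ) - n) / (4 * k)) * (∑ y ∈ range k, (1 - p y)) ^ 2 := by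
  have hkr : (0 : ℝ) < k := by exact_mod_cast hk
  have e2 := Real.exp_one_lt_d9
  have h3 : (n : ℝ) < 3 * k := by nlinarith
  set q : ℕ → ℝ := fun y => 1 - p y with hq
  set D : ℕ → ℝ := fun z => p z - Uf z with hD
  set b : ℕ → ℝ := fun z => ((n : ℝ) - 1 - z) / 2 with hb
  set c : ℕ → ℝ := fun z => max (b z / k) 0 with hc
  have hq0 : ∀ z, 0 ≤ q z := fun z => by simp only [hq]; linarith [hp1 z]
  set m : ℝ := ∑ y ∈ range k, q y with hm
  have hlo : ∀ y ∈ range k, (2 * (p y - Uf y) * (∑ Y ∈ Ioo y n, (P y Y - Uf Y)) -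
        ∑ Y ∈ Ioo y n, (P y Y - Uf Y) ^ 2 -
        ∑ s ∈ range (n - 1 - y), (G y s - Uf (y + 1 + s)) ^ 2) ≤
      ∑ z ∈ Ioo y k, (q y * q z - q z ^ 2) + ((n : ℝ) - k) / 2 * q y ^ 2 +
      ∑ z ∈ Ico k n, (- (2 * c z - c z ^ 2) * D z ^ 2 + c z * |D z| * q y) := by
    intro y hy
    rw [mem_range] at hy
    have e : p y - Uf y = - q y := by simp only [hq]; rw [hU y hy]; ring
    rw [e]
    refine colLo n k y hy hkn q D c (fun z _ => hq0 z) (fun Y => P y Y - Uf Y)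
      (fun s => G y s - Uf (y + 1 + s)) (hX y (lt_of_lt_of_le hy hkn)) ?_ ?_ ?_ ?_
    · intro z hz
      have hz' := mem_Ioo.1 hz
      have := hU z hz'.2
      simp only [hq]
      rw [this]
      constructor
      · linarith [hP1 y z]
      · linarith [hP2 y z]
    · intro z _
      simp only [hq, hD]
      constructor
      · linarith [hP2 y z]
      · linarith [hP3 y z]
    · intro s hs
      simp only [hq]
      rw [hU _ hs]
      linarith [hG y s]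
    · intro z
      exact le_max_right _ _
  have hhi : ∀ y ∈ Ico k n, (2 * (p y - Uf y) * (∑ Y ∈ Ioo y n, (P y Y - Uf Y)) -
        ∑ Y ∈ Ioo y n, (P y Y - Uf Y) ^ 2 -
        ∑ s ∈ range (n - 1 - y), (G y s - Uf (y + 1 + s)) ^ 2) ≤ b y * D y ^ 2 := by
    intro y hy
    have hy' := (mem_Ico.1 hy).2
    exact colHi n y (p y - Uf y) (fun Y => P y Y - Uf Y) (fun s => G y s - Uf (y + 1 + s))
      (hX y hy') hy'
  rw [← Finset.sum_range_add_sum_Ico _ hkn]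
  have H1 := sum_le_sum hlo
  have H2 := sum_le_sum hhi
  rw [sum_add_distrib, sum_add_distrib] at H1
  have H3 := tri k q
  have H4 : ∑ y ∈ range k, ∑ z ∈ Ico k n,
      (- (2 * c z - c z ^ 2) * D z ^ 2 + c z * |D z| * q y) =
      ∑ z ∈ Ico k n, (- (2 * c z - c z ^ 2) * k * D z ^ 2 + c z * |D z| * m) := by
    rw [sum_comm]
    refine sum_congr rfl fun z _ => ?_
    rw [sum_add_distrib, sum_const, card_range, nsmul_eq_mul, ← mul_sum]
    ring
  have H5 : ∑ z ∈ Ico k n, (- (2 * c z - c z ^ 2) * k * D z ^ 2 + c z * |D z| * m) +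
      ∑ z ∈ Ico k n, b z * D z ^ 2 ≤
      ∑ z ∈ Ico k n, (((n : ℝ) - 1 - z) / 2) / (4 * k * (k - ((n : ℝ) - 1 - z) / 2)) * m ^ 2 := by
    rw [← sum_add_distrib]
    refine sum_le_sum fun z hz => ?_
    have hz' := mem_Ico.1 hz
    have hz1 : (k : ℝ) ≤ z := by exact_mod_cast hz'.1
    have hz2 : (z : ℝ) + 1 ≤ n := by exact_mod_cast hz'.2
    have hb0 : 0 ≤ b z := by simp only [hb]; linarith
    have hbk : b z < k := by simp only [hb]; linarith
    have hcz : c z = b z / k := max_eq_left (div_nonneg hb0 hkr.le)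
    change _ ≤ b z / (4 * k * (k - b z)) * m ^ 2
    rw [hcz]
    have hDD : |D z| ^ 2 = D z ^ 2 := sq_abs _
    have hpos : 0 < 4 * (k : ℝ) * (k - b z) := by
      have : 0 < (k : ℝ) - b z := by linarith
      positivity
    have hne : (k : ℝ) - b z ≠ 0 := by
      have : 0 < (k : ℝ) - b z := by linarith
      exact this.ne'
    have key : b z / (4 * k * (k - b z)) * m ^ 2 -
        (-(2 * (b z / k) - (b z / k) ^ 2) * k * D z ^ 2 + b z / k * |D z| * m + b z * D z ^ 2) =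
        b z / (4 * k * (k - b z)) * (m - 2 * (k - b z) * |D z|) ^ 2 := by
      rw [← hDD]
      field_simp
      ring
    have : 0 ≤ b z / (4 * k * (k - b z)) * (m - 2 * (k - b z) * |D z|) ^ 2 :=
      mul_nonneg (div_nonneg hb0 hpos.le) (sq_nonneg _)
    linarith
  have H6 := zsum n k hk hkn he
  rw [← sum_mul] at H5
  have H7 : (∑ z ∈ Ico k n, (((n : ℝ) - 1 - z) / 2) / (4 * k * (k - ((n : ℝ) - 1 - z) / 2))) *
      m ^ 2 ≤ (5 * (k : ℝ) - n) / (4 * k) * m ^ 2 :=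
    mul_le_mul_of_nonneg_right H6 (sq_nonneg m)
  have H8 : ∑ y ∈ range k, (((n : ℝ) - k) / 2 - y) * (1 - p y) ^ 2 =
      ∑ y ∈ range k, ((n : ℝ) - k) / 2 * q y ^ 2 - ∑ y ∈ range k, (y : ℝ) * q y ^ 2 := by
    rw [← sum_sub_distrib]
    refine sum_congr rfl fun y _ => ?_
    simp only [hq]
    ring
  rw [H8]
  rw [H4] at H1
  linarith

end Pool.Agent.Lib.MP_efec9b_co.QD84
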