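import Pool.Agent.Lib.MP_efec9b_co.ID7

/-!
# MP_efec9b, row QD on top of `ID7` (55)
-/

set_option autoImplicit false

namespace Pool.Agent.Lib.MP_efec9b_co.QD55

open MeasureTheory Set intervalIntegral Finset
open Pool.Agent.Lib.MP_efec9b_co.ID7

variable {ι : Type*} [Fintype ι] {E : ι → Set ℝ} {μ : ι → ℝ}

theorem P_nonneg (h0 : ∀ i, 0 ≤ μ i) (y : ℝ) : 0 ≤ P E μ y :=
  Finset.sum_nonneg fun i _ => mul_nonneg (h0 i) (one_nonneg _ _)

theorem P_le (h0 : ∀ i, 0 ≤ μ i) (h1 : ∑ i, μ i = 1) (y : ℝ) : P E μ y ≤ 1 := by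
  rw [← h1]
  exact Finset.sum_le_sum fun i _ => mul_le_of_le_one_right (h0 i) (one_le _ _)

theorem g_nonneg (h0 : ∀ i, 0 ≤ μ i) (y Y : ℝ) : 0 ≤ g E μ y Y :=
  Finset.sum_nonneg fun i _ => mul_nonneg (mul_nonneg (h0 i) (one_nonneg _ _)) (one_nonneg _ _)

theorem g_le_left (h0 : ∀ i, 0 ≤ μ i) (y Y : ℝ) : g E μ y Y ≤ P E μ y :=
  Finset.sum_le_sum fun i _ =>
    mul_le_of_le_one_right (mul_nonneg (h0 i) (one_nonneg _ _)) (one_le _ _)

theorem g_le_right (h0 : ∀ i, 0 ≤ μ i) (y Y : ℝ) : g E μ y Y ≤ P E μ Y :=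
  Finset.sum_le_sum fun i _ =>
    mul_le_mul_of_nonneg_right (mul_le_of_le_one_right (h0 i) (one_le _ _)) (one_nonneg _ _)

theorem h_le (h0 : ∀ i, 0 ≤ μ i) (h1 : ∑ i, μ i = 1) (y Y : ℝ) :
    P E μ Y - g E μ y Y ≤ 1 - P E μ y := by
  unfold P g
  rw [← h1, ← Finset.sum_sub_distrib, ← Finset.sum_sub_distrib]
  refine Finset.sum_le_sum fun i _ => ?_
  have a := one_le (E i) y
  have b := one_le (E i) Y
  have c := one_nonneg (E i) y
  have d := one_nonneg (E i) Y
  have : μ i * one (E i) Y - μ i * one (E i) y * one (E i) Y =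
      μ i * ((1 - one (E i) y) * one (E i) Y) := by ring
  rw [this]
  have : μ i - μ i * one (E i) y = μ i * (1 - one (E i) y) := by ring
  rw [this]
  exact mul_le_mul_of_nonneg_left (mul_le_of_le_one_right (by linarith) b) (h0 i)

theorem st_nonneg (a s : ℝ) : 0 ≤ st a s := by unfold st; split_ifs <;> simp
theorem st_le (a s : ℝ) : st a s ≤ 1 := by unfold st; split_ifs <;> simp

theorem G_nonneg (h0 : ∀ i, 0 ≤ μ i) (y s : ℝ) : 0 ≤ G E μ y s :=
  Finset.sum_nonneg fun i _ => mul_nonneg (mul_nonneg (h0 i) (one_nonneg _ _)) (st_nonneg _ _)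

theorem G_le (h0 : ∀ i, 0 ≤ μ i) (y s : ℝ) : G E μ y s ≤ P E μ y :=
  Finset.sum_le_sum fun i _ =>
    mul_le_of_le_one_right (mul_nonneg (h0 i) (one_nonneg _ _)) (st_le _ _)

theorem P_meas (hE : ∀ i, MeasurableSet (E i)) : Measurable (P E μ) := by
  unfold P
  exact Finset.measurable_sum _ fun i _ => (one_meas (hE i)).const_mul _

theorem g_meas2 (hE : ∀ i, MeasurableSet (E i)) :
    Measurable fun p : ℝ × ℝ => g E μ p.1 p.2 := by
  unfold g
  exact Finset.measurable_sum _ fun i _ =>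
    (((one_meas (hE i)).comp measurable_fst).const_mul _).mul
      ((one_meas (hE i)).comp measurable_snd)

theorem g_meas_right (hE : ∀ i, MeasurableSet (E i)) (y : ℝ) : Measurable (g E μ y) :=
  (g_meas2 hE).comp (measurable_const.prodMk measurable_id)

theorem g_meas_left (hE : ∀ i, MeasurableSet (E i)) (Y : ℝ) : Measurable fun y => g E μ y Y :=
  (g_meas2 hE).comp (measurable_id.prodMk measurable_const)

theorem G_meas (y : ℝ) : Measurable (G E μ y) := by
  unfold G
  exact Finset.measurable_sum _ fun i _ => (st_meas _).const_mul _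

theorem int_g (hE : ∀ i, MeasurableSet (E i)) (y : ℝ) :
    ∫ Y in y..1, g E μ y Y = X E μ y := by
  unfold g X
  rw [intervalIntegral.integral_finsetSum fun i _ => (ii_one (hE i) y 1).const_mul _]
  refine Finset.sum_congr rfl fun i _ => ?_
  rw [intervalIntegral.integral_const_mul]
  rfl

theorem int_st {a L : ℝ} (ha : 0 ≤ a) (hL : a ≤ L) : ∫ s in (0 : ℝ)..L, st a s = a := by
  have := cut (h := fun _ => (1 : ℝ)) (a := a) (L := L) (by simp) ha hL
  simpa using this

theorem int_G (hE : ∀ i, MeasurableSet (E i)) {y : ℝ} (hy : y ≤ 1) :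
    ∫ s in (0 : ℝ)..(1 - y), G E μ y s = X E μ y := by
  unfold G X
  rw [intervalIntegral.integral_finsetSum fun i _ =>
    (ii (st_meas (al (E i) y)) 1 (st_abs _) 0 (1 - y)).const_mul _]
  refine Finset.sum_congr rfl fun i _ => ?_
  rw [intervalIntegral.integral_const_mul, int_st (al_nonneg _ hy) (al_le (hE i) hy)]

section fixed

variable (hE : ∀ i, MeasurableSet (E i)) (h0 : ∀ i, 0 ≤ μ i) (h1 : ∑ i, μ i = 1)

include hE h0 h1

theorem g_abs (y Y : ℝ) : |g E μ y Y| ≤ 1 := by
  rw [abs_of_nonneg (g_nonneg h0 y Y)]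
  exact (g_le_left h0 y Y).trans (P_le h0 h1 y)

theorem G_abs (y s : ℝ) : |G E μ y s| ≤ 1 := by
  rw [abs_of_nonneg (G_nonneg h0 y s)]
  exact (G_le h0 y s).trans (P_le h0 h1 y)

theorem gU_abs (y Y : ℝ) : |g E μ y Y - U Y| ≤ 1 := by
  have a := g_nonneg (E := E) h0 y Y
  have b := (g_le_left (E := E) h0 y Y).trans (P_le h0 h1 y)
  have c := U_nonneg Y
  have d := U_le Y
  rw [abs_le]
  constructor <;> linarith

theorem GU_abs (y s : ℝ) : |G E μ y s - U (y + s)| ≤ 1 := by
  have a := G_nonneg (E := E) h0 y s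
  have b := (G_le (E := E) h0 y s).trans (P_le h0 h1 y)
  have c := U_nonneg (y + s)
  have d := U_le (y + s)
  rw [abs_le]
  constructor <;> linarith

theorem gU_meas (y : ℝ) : Measurable fun Y => g E μ y Y - U Y :=
  (g_meas_right hE y).sub U_cont.measurable

theorem GU_meas (y : ℝ) : Measurable fun s => G E μ y s - U (y + s) :=
  (G_meas y).sub (U_cont.measurable.comp (measurable_const_add y))

theorem ii_gU (y a b : ℝ) : IntervalIntegrable (fun Y => g E μ y Y - U Y) volume a b :=
  ii (gU_meas hE h0 h1 y) 1 (gU_abs hE h0 h1 y) a b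

theorem ii_gU2 (y a b : ℝ) : IntervalIntegrable (fun Y => (g E μ y Y - U Y) ^ 2) volume a b :=
  ii ((gU_meas hE h0 h1 y).pow_const 2) 1 (fun x => by
    rw [abs_pow]; exact pow_le_one₀ (abs_nonneg _) (gU_abs hE h0 h1 y x)) a b

theorem ii_GU (y a b : ℝ) : IntervalIntegrable (fun s => G E μ y s - U (y + s)) volume a b :=
  ii (GU_meas hE h0 h1 y) 1 (GU_abs hE h0 h1 y) a b

theorem ii_GU2 (y a b : ℝ) :
    IntervalIntegrable (fun s => (G E μ y s - U (y + s)) ^ 2) volume a b :=
  ii ((GU_meas hE h0 h1 y).pow_const 2) 1 (fun x => by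
    rw [abs_pow]; exact pow_le_one₀ (abs_nonneg _) (GU_abs hE h0 h1 y x)) a b

theorem br_eq {y : ℝ} (hy : y ≤ 1) :
    br E μ y = (∫ Y in y..1, ((P E μ y - U y) * (g E μ y Y - U Y) - (g E μ y Y - U Y) ^ 2)) +
      ∫ s in (0 : ℝ)..(1 - y), ((P E μ y - U y) * (G E μ y s - U (y + s)) -
        (G E μ y s - U (y + s)) ^ 2) := by
  rw [intervalIntegral.integral_sub ((ii_gU hE h0 h1 y y 1).const_mul _)
      (ii_gU2 hE h0 h1 y y 1),
    intervalIntegral.integral_sub ((ii_GU hE h0 h1 y 0 (1 - y)).const_mul _)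
      (ii_GU2 hE h0 h1 y 0 (1 - y)),
    intervalIntegral.integral_const_mul, intervalIntegral.integral_const_mul]
  have a1 : ∫ Y in y..1, (g E μ y Y - U Y) = X E μ y - W y := by
    rw [intervalIntegral.integral_sub (ii (g_meas_right hE y) 1 (g_abs hE h0 h1 y) y 1)
      (U_cont.intervalIntegrable y 1), int_g hE]
    rfl
  have a2 : ∫ s in (0 : ℝ)..(1 - y), (G E μ y s - U (y + s)) = X E μ y - W y := by
    have hU : IntervalIntegrable (fun s => U (y + s)) volume 0 (1 - y) :=
      (U_cont.comp (continuous_const.add continuous_id)).intervalIntegrable _ _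
    rw [intervalIntegral.integral_sub (ii (G_meas y) 1 (G_abs hE h0 h1 y) 0 (1 - y)) hU,
      int_G hE hy, W_sub]
    have : y + (1 - y) = 1 := by ring
    rw [this]
    have : W 1 = 0 := by unfold W; simp
    rw [this, sub_zero]
  rw [a1, a2]
  unfold br
  ring

theorem ii_A (c y a b : ℝ) :
    IntervalIntegrable (fun Y => c * (g E μ y Y - U Y) - (g E μ y Y - U Y) ^ 2) volume a b :=
  ((ii_gU hE h0 h1 y a b).const_mul _).sub (ii_gU2 hE h0 h1 y a b)

theorem ii_B (c y a b : ℝ) :
    IntervalIntegrable (fun s => c * (G E μ y s - U (y + s)) - (G E μ y s - U (y + s)) ^ 2)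
      volume a b :=
  ((ii_GU hE h0 h1 y a b).const_mul _).sub (ii_GU2 hE h0 h1 y a b)

/-- beyond `t` -/
theorem br_large {y : ℝ} (hy : y ≤ 1) :
    br E μ y ≤ (1 - y) / 2 * (P E μ y - U y) ^ 2 := by
  rw [br_eq hE h0 h1 hy]
  have b1 : (∫ Y in y..1, ((P E μ y - U y) * (g E μ y Y - U Y) - (g E μ y Y - U Y) ^ 2)) ≤
      ∫ _ in y..1, (P E μ y - U y) ^ 2 / 4 := by
    refine intervalIntegral.integral_mono_on hy (ii_A hE h0 h1 _ y y 1)
      intervalIntegrable_const fun Y _ => ?_
    nlinarith [sq_nonneg ((P E μ y - U y) / 2 - (g E μ y Y - U Y))]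
  have b2 : (∫ s in (0 : ℝ)..(1 - y), ((P E μ y - U y) * (G E μ y s - U (y + s)) -
        (G E μ y s - U (y + s)) ^ 2)) ≤ ∫ _ in (0 : ℝ)..(1 - y), (P E μ y - U y) ^ 2 / 4 := by
    refine intervalIntegral.integral_mono_on (by linarith) (ii_B hE h0 h1 _ y 0 (1 - y))
      intervalIntegrable_const fun Y _ => ?_
    nlinarith [sq_nonneg ((P E μ y - U y) / 2 - (G E μ y Y - U (y + Y)))]
  rw [intervalIntegral.integral_const, smul_eq_mul] at b1 b2
  linarith

/-- below `t` -/
theorem br_small {y : ℝ} (hy : y ≤ tt) :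
    br E μ y ≤ (1 - tt) / 2 * (1 - P E μ y) ^ 2 +
      ((1 - P E μ y) * (∫ Y in y..tt, (1 - P E μ Y)) - ∫ Y in y..tt, (1 - P E μ Y) ^ 2) -
      ∫ Y in tt..1, (g E μ y Y - U Y + (1 - P E μ y) / 2) ^ 2 := by
  have ht1 := tt_lt
  rw [br_eq hE h0 h1 (hy.trans ht1.le), U_small hy]
  set q : ℝ := 1 - P E μ y with hq
  have hP : P E μ y - 1 = -q := by rw [hq]; ring
  rw [hP]
  have hq0 : 0 ≤ q := by have := P_le (E := E) h0 h1 y; linarith
  have hPm : Measurable fun Y => 1 - P E μ Y := (P_meas hE).const_sub 1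
  have hPb : ∀ Y, |1 - P E μ Y| ≤ 1 := fun Y => by
    have a := P_le (E := E) h0 h1 Y
    have b := P_nonneg (E := E) h0 Y
    rw [abs_le]
    constructor <;> linarith
  have iP : IntervalIntegrable (fun Y => 1 - P E μ Y) volume y tt := ii hPm 1 hPb _ _
  have iP2 : IntervalIntegrable (fun Y => (1 - P E μ Y) ^ 2) volume y tt :=
    ii (hPm.pow_const 2) 1 (fun x => by
      rw [abs_pow]; exact pow_le_one₀ (abs_nonneg _) (hPb x)) _ _
  -- first integral
  rw [← intervalIntegral.integral_add_adjacent_intervals (ii_A hE h0 h1 (-q) y y tt)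
    (ii_A hE h0 h1 (-q) y tt 1)]
  have c1 : (∫ Y in y..tt, (-q * (g E μ y Y - U Y) - (g E μ y Y - U Y) ^ 2)) ≤
      ∫ Y in y..tt, (q * (1 - P E μ Y) - (1 - P E μ Y) ^ 2) := by
    refine intervalIntegral.integral_mono_on hy (ii_A hE h0 h1 (-q) y y tt)
      ((iP.const_mul q).sub iP2) fun Y hY => ?_
    rw [U_small hY.2]
    have a := g_le_left (E := E) h0 y Y
    have b := g_le_right (E := E) h0 y Y
    have c : 0 ≤ (1 - g E μ y Y - (1 - P E μ Y)) * (1 - g E μ y Y + (1 - P E μ Y) - q) := by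
      have := P_le (E := E) h0 h1 Y
      exact mul_nonneg (by linarith) (by linarith)
    nlinarith
  rw [intervalIntegral.integral_sub (iP.const_mul q) iP2,
    intervalIntegral.integral_const_mul] at c1
  have iF : IntervalIntegrable (fun Y => (g E μ y Y - U Y + q / 2) ^ 2) volume tt 1 := by
    refine ii (((gU_meas hE h0 h1 y).add_const _).pow_const 2) ((1 + q / 2) ^ 2) (fun x => ?_) _ _
    rw [abs_pow]
    refine pow_le_pow_left₀ (abs_nonneg _) ((abs_add_le _ _).trans ?_) 2
    rw [abs_of_nonneg (by positivity : (0 : ℝ) ≤ q / 2)]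
    linarith [gU_abs hE h0 h1 y x]
  have c2 : (∫ Y in tt..1, (-q * (g E μ y Y - U Y) - (g E μ y Y - U Y) ^ 2)) =
      (1 - tt) * (q ^ 2 / 4) - ∫ Y in tt..1, (g E μ y Y - U Y + q / 2) ^ 2 := by
    have : (∫ Y in tt..1, (-q * (g E μ y Y - U Y) - (g E μ y Y - U Y) ^ 2)) =
        ∫ Y in tt..1, (q ^ 2 / 4 - (g E μ y Y - U Y + q / 2) ^ 2) :=
      intervalIntegral.integral_congr fun Y _ => by ring
    rw [this, intervalIntegral.integral_sub intervalIntegrable_const iF,
      intervalIntegral.integral_const, smul_eq_mul]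
  -- second integral
  rw [← intervalIntegral.integral_add_adjacent_intervals (ii_B hE h0 h1 (-q) y 0 (tt - y))
    (ii_B hE h0 h1 (-q) y (tt - y) (1 - y))]
  have d1 : (∫ s in (0 : ℝ)..(tt - y), (-q * (G E μ y s - U (y + s)) -
        (G E μ y s - U (y + s)) ^ 2)) ≤ ∫ _ in (0 : ℝ)..(tt - y), (0 : ℝ) := by
    refine intervalIntegral.integral_mono_on (by linarith) (ii_B hE h0 h1 (-q) y 0 (tt - y))
      intervalIntegrable_const fun s hs => ?_
    rw [U_small (by linarith [hs.2])]
    have a := G_le (E := E) h0 y s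
    have : 0 ≤ (1 - G E μ y s) * (1 - G E μ y s - q) :=
      mul_nonneg (by linarith) (by linarith)
    nlinarith
  have d2 : (∫ s in (tt - y)..(1 - y), (-q * (G E μ y s - U (y + s)) -
        (G E μ y s - U (y + s)) ^ 2)) ≤ ∫ _ in (tt - y)..(1 - y), q ^ 2 / 4 := by
    refine intervalIntegral.integral_mono_on (by linarith) (ii_B hE h0 h1 (-q) y _ _)
      intervalIntegrable_const fun s hs => ?_
    nlinarith [sq_nonneg (q / 2 + (G E μ y s - U (y + s)))]
  rw [intervalIntegral.integral_const, smul_eq_mul] at d1 d2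
  rw [c2]
  have e1 : (1 - y - (tt - y)) * (q ^ 2 / 4) = (1 - tt) * (q ^ 2 / 4) := by ring
  rw [e1] at d2
  linarith

end fixed


/-- the triangle, on `[0, T]` -/
theorem triT {T : ℝ} (hT : 0 ≤ T) {f h : ℝ → ℝ} (hf : Measurable f) (hf1 : ∀ x, |f x| ≤ 1)
    (hh : Measurable h) (hh1 : ∀ x, |h x| ≤ 1) :
    (∫ y in (0 : ℝ)..T, f y * ∫ x in y..T, h x) =
      ∫ x in (0 : ℝ)..T, h x * ∫ y in (0 : ℝ)..x, f y := by
  set K : ℝ → ℝ → ℝ := fun y x => f y * h x * (1 - st y x) with hK
  have hst : ∀ y x, |1 - st y x| ≤ 1 := fun y x => by unfold st; split_ifs <;> simp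
  have hmeas : Measurable (Function.uncurry K) := by
    have m1 : Measurable fun p : ℝ × ℝ => st p.1 p.2 := by
      unfold st
      exact Measurable.ite (measurableSet_le measurable_snd measurable_fst) measurable_const
        measurable_const
    exact ((hf.comp measurable_fst).mul (hh.comp measurable_snd)).mul (m1.const_sub 1)
  have hbd : ∀ p : ℝ × ℝ, ‖Function.uncurry K p‖ ≤ 1 := by
    rintro ⟨y, x⟩
    simp only [Function.uncurry, hK, Real.norm_eq_abs, abs_mul]
    exact mul_le_one₀ (mul_le_one₀ (hf1 y) (abs_nonneg _) (hh1 x)) (abs_nonneg _) (hst y x)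
  have hint : Integrable (Function.uncurry K)
      ((volume.restrict (Ioc (0 : ℝ) T)).prod (volume.restrict (Ioc (0 : ℝ) T))) :=
    Integrable.of_bound hmeas.aestronglyMeasurable 1 (Filter.Eventually.of_forall hbd)
  have swap := integral_integral_swap (f := K) hint
  have ih : ∀ a b, IntervalIntegrable h volume a b := fun a b => ii hh 1 hh1 a b
  have jf : ∀ a b, IntervalIntegrable f volume a b := fun a b => ii hf 1 hf1 a b
  have L : (∫ y in (0 : ℝ)..T, f y * ∫ x in y..T, h x) =
      ∫ y in Ioc (0 : ℝ) T, ∫ x in Ioc (0 : ℝ) T, K y x := by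
    rw [intervalIntegral.integral_of_le hT]
    refine setIntegral_congr_fun measurableSet_Ioc fun y hy => ?_
    have e1 : (∫ x in Ioc (0 : ℝ) T, K y x) = ∫ x in (0 : ℝ)..T, K y x := by
      rw [intervalIntegral.integral_of_le hT]
    have e2 : (∫ x in (0 : ℝ)..T, K y x) =
        f y * ((∫ x in (0 : ℝ)..T, h x) - ∫ x in (0 : ℝ)..T, h x * st y x) := by
      rw [← intervalIntegral.integral_sub (ih 0 T) (ii (f := fun x => h x * st y x)
        (hh.mul (st_meas y)) 1 (fun x => by
          rw [abs_mul]; exact mul_le_one₀ (hh1 x) (abs_nonneg _) (st_abs y x)) 0 T),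
        ← intervalIntegral.integral_const_mul]
      refine intervalIntegral.integral_congr fun x _ => ?_
      simp only [hK]; ring
    have e3 := intervalIntegral.integral_add_adjacent_intervals (ih 0 y) (ih y T)
    show f y * (∫ x in y..T, h x) = ∫ x in Ioc (0 : ℝ) T, K y x
    rw [e1, e2, cut (ih 0 T) hy.1.le hy.2, ← e3]
    ring
  have R : (∫ x in (0 : ℝ)..T, h x * ∫ y in (0 : ℝ)..x, f y) =
      ∫ x in Ioc (0 : ℝ) T, ∫ y in Ioc (0 : ℝ) T, K y x := by
    rw [intervalIntegral.integral_of_le hT]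
    refine setIntegral_congr_fun measurableSet_Ioc fun x hx => ?_
    have e1 : (∫ y in Ioc (0 : ℝ) T, K y x) = ∫ y in (0 : ℝ)..T, K y x := by
      rw [intervalIntegral.integral_of_le hT]
    have hne : ∀ᵐ y ∂(volume : Measure ℝ), y ≠ x := by
      rw [ae_iff]; simp
    have e2 : (∫ y in (0 : ℝ)..T, K y x) = h x * ∫ y in (0 : ℝ)..T, f y * st x y := by
      rw [← intervalIntegral.integral_const_mul]
      refine intervalIntegral.integral_congr_ae ?_
      filter_upwards [hne] with y hy _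
      simp only [hK, st]
      rcases lt_or_gt_of_ne hy with h1 | h1
      · rw [if_neg (not_le.2 h1), if_pos h1.le]; ring
      · rw [if_pos h1.le, if_neg (not_le.2 h1)]; ring
    show h x * (∫ y in (0 : ℝ)..x, f y) = ∫ y in Ioc (0 : ℝ) T, K y x
    rw [e1, e2, cut (jf 0 T) hx.1.le hx.2]
  rw [L, R]
  exact swap

theorem half_sq {T : ℝ} (hT : 0 ≤ T) {q : ℝ → ℝ} (hq : Measurable q) (hq1 : ∀ x, |q x| ≤ 1) :
    (∫ y in (0 : ℝ)..T, q y * ∫ x in y..T, q x) = (∫ y in (0 : ℝ)..T, q y) ^ 2 / 2 := by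
  have h1 := triT hT hq hq1 hq hq1
  have iq : ∀ a b, IntervalIntegrable q volume a b := fun a b => ii hq 1 hq1 a b
  have c3 : Continuous fun x => ∫ y in (0 : ℝ)..x, q y :=
    intervalIntegral.continuous_primitive iq 0
  have c4 : Continuous fun x => ∫ y in x..T, q y := by
    have : (fun x => ∫ y in x..T, q y) =
        fun x => (∫ y in (0 : ℝ)..T, q y) - ∫ y in (0 : ℝ)..x, q y := by
      funext x
      have := intervalIntegral.integral_add_adjacent_intervals (iq 0 x) (iq x T)
      linarith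
    rw [this]
    exact continuous_const.sub c3
  have i1 : IntervalIntegrable (fun y => q y * ∫ x in y..T, q x) volume 0 T :=
    (iq 0 T).mul_continuousOn c4.continuousOn
  have i2 : IntervalIntegrable (fun y => q y * ∫ x in (0 : ℝ)..y, q x) volume 0 T :=
    (iq 0 T).mul_continuousOn c3.continuousOn
  have h2 : (∫ y in (0 : ℝ)..T, q y * ∫ x in y..T, q x) +
      (∫ y in (0 : ℝ)..T, q y * ∫ x in (0 : ℝ)..y, q x) = (∫ y in (0 : ℝ)..T, q y) ^ 2 := by
    rw [← intervalIntegral.integral_add i1 i2]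
    have : (∫ y in (0 : ℝ)..T, (q y * (∫ x in y..T, q x) + q y * ∫ x in (0 : ℝ)..y, q x)) =
        ∫ y in (0 : ℝ)..T, q y * ∫ x in (0 : ℝ)..T, q x := by
      refine intervalIntegral.integral_congr fun y _ => ?_
      have := intervalIntegral.integral_add_adjacent_intervals (iq 0 y) (iq y T)
      rw [← this]
      ring
    rw [this, intervalIntegral.integral_mul_const]
    ring
  linarith

theorem sq_tri {T : ℝ} (hT : 0 ≤ T) {q : ℝ → ℝ} (hq : Measurable q) (hq1 : ∀ x, |q x| ≤ 1) :
    (∫ y in (0 : ℝ)..T, ∫ x in y..T, q x ^ 2) = ∫ x in (0 : ℝ)..T, x * q x ^ 2 := by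
  have h1 := triT hT (f := fun _ => 1) measurable_const (by simp) (h := fun x => q x ^ 2)
    (hq.pow_const 2) (fun x => by rw [abs_pow]; exact pow_le_one₀ (abs_nonneg _) (hq1 x))
  simp only [one_mul] at h1
  rw [h1]
  refine intervalIntegral.integral_congr fun x _ => ?_
  simp only [intervalIntegral.integral_const, smul_eq_mul]
  ring

/-- the numerical constant -/
theorem num : Real.log (2 * tt / (3 * tt - 1)) / 2 - (1 - tt) / (4 * tt) ≤ 0.551 := by
  have he := Real.exp_one_gt_d9
  have he' := Real.exp_one_lt_d9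
  have hte : tt * Real.exp 1 = 1 := by
    unfold tt
    rw [← Real.exp_add]
    simp
  have t1 : 0.3678794 < tt := by nlinarith [tt_pos]
  have t2 : tt < 0.3678795 := by nlinarith [tt_pos]
  have hd : 0 < 3 * tt - 1 := by linarith
  have hx : 0 < 2 * tt / (3 * tt - 1) := div_pos (by linarith) hd
  have h1 : Real.log (2 * tt / (3 * tt - 1)) ≤ 1 + tt ^ 2 * (2 * tt / (3 * tt - 1)) := by
    have h2 := Real.log_le_sub_one_of_pos (mul_pos (pow_pos tt_pos 2) hx)
    rw [Real.log_mul (pow_pos tt_pos 2).ne' hx.ne', Real.log_pow] at h2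
    have h3 : Real.log tt = -1 := by unfold tt; rw [Real.log_exp]
    rw [h3] at h2
    push_cast at h2
    linarith
  have h4 : tt ^ 2 * (2 * tt / (3 * tt - 1)) ≤ 0.9609 := by
    rw [← mul_div_assoc, div_le_iff₀ hd]
    have h5 : tt ^ 2 ≤ 0.13533533 := by nlinarith
    nlinarith
  have h6 : 0.42956 ≤ (1 - tt) / (4 * tt) := by
    rw [le_div_iff₀ (by linarith)]
    linarith
  linarith

noncomputable def K (Y : ℝ) : ℝ := 1 / 2 * (Y + (2 * tt - 1))⁻¹ - 1 / (4 * tt)

theorem tt_third : 1 < 3 * tt := by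
  have he' := Real.exp_one_lt_d9
  have hte : tt * Real.exp 1 = 1 := by
    unfold tt
    rw [← Real.exp_add]
    simp
  nlinarith [tt_pos]

theorem K_cont : ContinuousOn K (Icc tt 1) := by
  unfold K
  refine ContinuousOn.sub (ContinuousOn.mul continuousOn_const
    (ContinuousOn.inv₀ (by fun_prop) fun x hx => ?_)) continuousOn_const
  have := tt_third
  have := hx.1
  linarith

theorem int_K : (∫ Y in tt..1, K Y) ≤ 0.551 := by
  have h3 := tt_third
  have hc : ContinuousOn (fun Y : ℝ => (Y + (2 * tt - 1))⁻¹) (Icc tt 1) := by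
    refine ContinuousOn.inv₀ (by fun_prop) fun x hx => ?_
    have := hx.1
    linarith
  have i1 : IntervalIntegrable (fun Y : ℝ => (Y + (2 * tt - 1))⁻¹) volume tt 1 :=
    ContinuousOn.intervalIntegrable (by rwa [uIcc_of_le tt_lt.le])
  unfold K
  rw [intervalIntegral.integral_sub (i1.const_mul _) intervalIntegrable_const,
    intervalIntegral.integral_const_mul, intervalIntegral.integral_const, smul_eq_mul]
  have e1 : (∫ Y in tt..1, (Y + (2 * tt - 1))⁻¹) = Real.log (2 * tt / (3 * tt - 1)) := by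
    have := intervalIntegral.integral_comp_add_right (f := fun x : ℝ => x⁻¹) (a := tt) (b := 1)
      (2 * tt - 1)
    rw [this, integral_inv_of_pos (by linarith) (by linarith [tt_pos])]
    congr 1
    ring
  rw [e1]
  have := num
  have e2 : (1 - tt) * (1 / (4 * tt)) = (1 - tt) / (4 * tt) := by ring
  rw [e2]
  linarith

theorem jensen {f : ℝ → ℝ} (hf : IntervalIntegrable f volume 0 tt)
    (hf2 : IntervalIntegrable (fun y => f y ^ 2) volume 0 tt) :
    (∫ y in (0 : ℝ)..tt, f y) ^ 2 / tt ≤ ∫ y in (0 : ℝ)..tt, f y ^ 2 := by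
  set F := ∫ y in (0 : ℝ)..tt, f y with hF
  set c := F / tt with hc
  have ht := tt_pos
  have h1 : 0 ≤ ∫ y in (0 : ℝ)..tt, (f y - c) ^ 2 :=
    intervalIntegral.integral_nonneg ht.le fun y _ => sq_nonneg _
  have h2 : (∫ y in (0 : ℝ)..tt, (f y - c) ^ 2) =
      (∫ y in (0 : ℝ)..tt, f y ^ 2) - 2 * c * F + c ^ 2 * tt := by
    have e : (∫ y in (0 : ℝ)..tt, (f y - c) ^ 2) =
        ∫ y in (0 : ℝ)..tt, (f y ^ 2 - 2 * c * f y + c ^ 2) :=
      intervalIntegral.integral_congr fun y _ => by ring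
    rw [e, intervalIntegral.integral_add (hf2.sub (hf.const_mul _)) intervalIntegrable_const,
      intervalIntegral.integral_sub hf2 (hf.const_mul _), intervalIntegral.integral_const_mul,
      intervalIntegral.integral_const, smul_eq_mul]
    ring
  have h3 : F ^ 2 / tt = 2 * c * F - c ^ 2 * tt := by
    rw [hc]
    field_simp
    ring
  rw [h3]
  linarith


section fixed2

variable (hE : ∀ i, MeasurableSet (E i)) (h0 : ∀ i, 0 ≤ μ i) (h1 : ∑ i, μ i = 1)

include hE h0 h1

theorem q_meas : Measurable fun y => 1 - P E μ y := (P_meas hE).const_sub 1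

theorem q_abs (y : ℝ) : |1 - P E μ y| ≤ 1 := by
  have a := P_le (E := E) h0 h1 y
  have b := P_nonneg (E := E) h0 y
  rw [abs_le]
  constructor <;> linarith

theorem phi_meas : Measurable fun p : ℝ × ℝ =>
    (g E μ p.1 p.2 - U p.2 + (1 - P E μ p.1) / 2) ^ 2 :=
  (((g_meas2 hE).sub (U_cont.measurable.comp measurable_snd)).add
    (((q_meas hE h0 h1).comp measurable_fst).div_const 2)).pow_const 2

theorem f_abs (y Y : ℝ) : |g E μ y Y - U Y + (1 - P E μ y) / 2| ≤ 2 := by
  have a := gU_abs hE h0 h1 y Y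
  have b := q_abs hE h0 h1 y
  rw [abs_le] at a b ⊢
  constructor <;> linarith

theorem phi_abs (y Y : ℝ) : |(g E μ y Y - U Y + (1 - P E μ y) / 2) ^ 2| ≤ 4 := by
  rw [abs_pow]
  have := f_abs hE h0 h1 y Y
  have h : |g E μ y Y - U Y + (1 - P E μ y) / 2| ^ 2 ≤ 2 ^ 2 :=
    pow_le_pow_left₀ (abs_nonneg _) this 2
  linarith

theorem phi_int : Integrable (fun p : ℝ × ℝ =>
    (g E μ p.1 p.2 - U p.2 + (1 - P E μ p.1) / 2) ^ 2)
      ((volume.restrict (Ioc (0 : ℝ) tt)).prod (volume.restrict (Ioc tt (1 : ℝ)))) :=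
  Integrable.of_bound (phi_meas hE h0 h1).aestronglyMeasurable 4
    (Filter.Eventually.of_forall fun p => by
      simpa [Real.norm_eq_abs] using phi_abs hE h0 h1 p.1 p.2)

theorem phi_swap : (∫ y in (0 : ℝ)..tt, ∫ Y in tt..1,
      (g E μ y Y - U Y + (1 - P E μ y) / 2) ^ 2) =
    ∫ Y in tt..1, ∫ y in (0 : ℝ)..tt, (g E μ y Y - U Y + (1 - P E μ y) / 2) ^ 2 := by
  have h := integral_integral_swap (f := fun y Y => (g E μ y Y - U Y + (1 - P E μ y) / 2) ^ 2)
    (phi_int hE h0 h1)
  simp only [intervalIntegral.integral_of_le tt_pos.le, intervalIntegral.integral_of_le tt_lt.le]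
  exact h

theorem phi_left : IntervalIntegrable (fun y => ∫ Y in tt..1,
      (g E μ y Y - U Y + (1 - P E μ y) / 2) ^ 2) volume 0 tt := by
  rw [intervalIntegrable_iff_integrableOn_Ioc_of_le tt_pos.le]
  simp only [intervalIntegral.integral_of_le tt_lt.le]
  exact (phi_int hE h0 h1).integral_prod_left

theorem phi_right : IntervalIntegrable (fun Y => ∫ y in (0 : ℝ)..tt,
      (g E μ y Y - U Y + (1 - P E μ y) / 2) ^ 2) volume tt 1 := by
  rw [intervalIntegrable_iff_integrableOn_Ioc_of_le tt_lt.le]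
  simp only [intervalIntegral.integral_of_le tt_pos.le]
  exact (phi_int hE h0 h1).integral_prod_right

/-- one column beyond `t` -/
theorem column {Y : ℝ} (hY : tt ≤ Y) (hY1 : Y ≤ 1) :
    (1 - Y) / 2 * (P E μ Y - U Y) ^ 2 -
        (∫ y in (0 : ℝ)..tt, (g E μ y Y - U Y + (1 - P E μ y) / 2) ^ 2) ≤
      K Y * (∫ y in (0 : ℝ)..tt, (1 - P E μ y)) ^ 2 := by
  have ht := tt_pos
  have h3 := tt_third
  set m := ∫ y in (0 : ℝ)..tt, (1 - P E μ y) with hm
  set D := P E μ Y - U Y with hD
  have fm : Measurable fun y => g E μ y Y - U Y + (1 - P E μ y) / 2 :=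
    ((g_meas_left hE Y).sub_const _).add ((q_meas hE h0 h1).div_const 2)
  have i1 : IntervalIntegrable (fun y => g E μ y Y - U Y + (1 - P E μ y) / 2) volume 0 tt :=
    ii fm 2 (fun y => f_abs hE h0 h1 y Y) _ _
  have i2 : IntervalIntegrable (fun y => (g E μ y Y - U Y + (1 - P E μ y) / 2) ^ 2)
      volume 0 tt := ii (fm.pow_const 2) 4 (fun y => phi_abs hE h0 h1 y Y) _ _
  have iq : IntervalIntegrable (fun y => 1 - P E μ y) volume 0 tt :=
    ii (q_meas hE h0 h1) 1 (q_abs hE h0 h1) _ _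
  have hJ := jensen i1 i2
  set F := ∫ y in (0 : ℝ)..tt, (g E μ y Y - U Y + (1 - P E μ y) / 2) with hF
  have hlo : tt * D - m / 2 ≤ F := by
    have h := intervalIntegral.integral_mono_on ht.le
      ((intervalIntegrable_const (c := D)).sub (iq.div_const 2)) i1 (fun y _ => by
        have a := h_le (E := E) h0 h1 y Y
        show D - (1 - P E μ y) / 2 ≤ g E μ y Y - U Y + (1 - P E μ y) / 2
        rw [hD]
        linarith)
    rw [intervalIntegral.integral_sub intervalIntegrable_const (iq.div_const 2),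
      intervalIntegral.integral_const, smul_eq_mul, intervalIntegral.integral_div] at h
    linarith
  have hhi : F ≤ tt * D + m / 2 := by
    have h := intervalIntegral.integral_mono_on ht.le i1
      ((intervalIntegrable_const (c := D)).add (iq.div_const 2)) (fun y _ => by
        have a := g_le_right (E := E) h0 y Y
        show g E μ y Y - U Y + (1 - P E μ y) / 2 ≤ D + (1 - P E μ y) / 2
        rw [hD]
        linarith)
    rw [intervalIntegral.integral_add intervalIntegrable_const (iq.div_const 2),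
      intervalIntegral.integral_const, smul_eq_mul, intervalIntegral.integral_div] at h
    linarith
  refine (sub_le_sub_left hJ _).trans ?_
  -- algebra
  set e := F - tt * D with he
  have he2 : e ^ 2 ≤ m ^ 2 / 4 := by
    have a1 : -(m / 2) ≤ e := by linarith
    have a2 : e ≤ m / 2 := by linarith
    nlinarith
  set a := tt - (1 - Y) / 2 with ha
  have ha0 : 0 < a := by rw [ha]; linarith
  have hat : a ≤ tt := by rw [ha]; linarith
  have hK : K Y = (1 / a - 1 / tt) / 4 := by
    unfold K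
    have : Y + (2 * tt - 1) = 2 * a := by rw [ha]; ring
    rw [this]
    field_simp
    ring
  have hFe : F = tt * D + e := by rw [he]; ring
  have hb : (1 - Y) / 2 = tt - a := by rw [ha]; ring
  rw [hK, hFe, hb]
  have h5 : (tt * D + e) ^ 2 / tt = tt * D ^ 2 + 2 * D * e + e ^ 2 / tt := by
    field_simp
    ring
  rw [h5]
  have h6 : -(a * D ^ 2) - 2 * D * e ≤ e ^ 2 / a := by
    rw [le_div_iff₀ ha0]
    nlinarith [sq_nonneg (a * D + e)]
  have h7 : 0 ≤ 1 / a - 1 / tt := by
    have := one_div_le_one_div_of_le ha0 hat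
    linarith
  have h8 : e ^ 2 * (1 / a - 1 / tt) ≤ m ^ 2 / 4 * (1 / a - 1 / tt) :=
    mul_le_mul_of_nonneg_right he2 h7
  have h9 : e ^ 2 * (1 / a - 1 / tt) = e ^ 2 / a - e ^ 2 / tt := by ring
  linarith

theorem br_ii : IntervalIntegrable (br E μ) volume 0 1 := by
  have iS : ∀ i k, IntervalIntegrable (fun y => one (E i) y * one (E k) y *
      max (al (E i \ E k) y) (al (E k \ E i) y)) volume 0 1 := fun i k =>
    (ii (f := fun y => one (E i) y * one (E k) y) ((one_meas (hE i)).mul (one_meas (hE k))) 1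
      (fun x => by rw [abs_mul]; exact mul_le_one₀ (one_abs _ x) (abs_nonneg _) (one_abs _ x)) 0 1).mul_continuousOn
      ((al_cont ((hE i).diff (hE k))).max (al_cont ((hE k).diff (hE i)))).continuousOn
  have iL : ∀ i, IntervalIntegrable (fun y => one (E i) y * (U y * al (E i) y
      + W (y + al (E i) y) - ∫ x in y..1, U x * one (E i) x)) volume 0 1 := fun i => by
    have hUm : Measurable fun x => U x * one (E i) x := U_cont.measurable.mul (one_meas (hE i))
    have hUb : ∀ x, |U x * one (E i) x| ≤ 1 := fun x => by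
      rw [abs_mul]; exact mul_le_one₀ (U_abs x) (abs_nonneg _) (one_abs _ x)
    exact (ii_one (hE i) 0 1).mul_continuousOn
      (((U_cont.mul (al_cont (hE i))).add (W_cont.comp (continuous_id.add (al_cont (hE i))))).sub
        (cont_upper hUm 1 hUb)).continuousOn
  have iC : IntervalIntegrable (fun y => 2 * (∫ x in y..1, U x ^ 2) - 2 * U y * W y)
      volume 0 1 := by
    have c1 : Continuous fun y => ∫ x in y..1, U x ^ 2 :=
      cont_upper (U_cont.pow 2).measurable 1 (fun x => by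
        rw [abs_pow]; exact pow_le_one₀ (abs_nonneg _) (U_abs x))
    exact ((c1.const_mul 2).sub ((U_cont.const_mul 2).mul W_cont)).intervalIntegrable 0 1
  have j1 : ∀ i, IntervalIntegrable (fun y => ∑ k, μ i * μ k * (one (E i) y * one (E k) y *
        max (al (E i \ E k) y) (al (E k \ E i) y))) volume 0 1 := fun i => by
    have := IntervalIntegrable.sum (μ := volume) (a := 0) (b := 1) (Finset.univ (α := ι))
      (f := fun k y => μ i * μ k * (one (E i) y * one (E k) y *
        max (al (E i \ E k) y) (al (E k \ E i) y))) (fun k _ => (iS i k).const_mul _)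
    simpa [Finset.sum_fn] using this
  have j2 : IntervalIntegrable (fun y => ∑ i, ∑ k, μ i * μ k * (one (E i) y * one (E k) y *
        max (al (E i \ E k) y) (al (E k \ E i) y))) volume 0 1 := by
    have := IntervalIntegrable.sum (μ := volume) (a := 0) (b := 1) (Finset.univ (α := ι))
      (f := fun i y => ∑ k, μ i * μ k * (one (E i) y * one (E k) y *
        max (al (E i \ E k) y) (al (E k \ E i) y))) (fun i _ => j1 i)
    simpa [Finset.sum_fn] using this
  have j3 : IntervalIntegrable (fun y => ∑ i, μ i * (one (E i) y * (U y * al (E i) y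
      + W (y + al (E i) y) - ∫ x in y..1, U x * one (E i) x))) volume 0 1 := by
    have := IntervalIntegrable.sum (μ := volume) (a := 0) (b := 1) (Finset.univ (α := ι))
      (f := fun i y => μ i * (one (E i) y * (U y * al (E i) y
        + W (y + al (E i) y) - ∫ x in y..1, U x * one (E i) x))) (fun i _ => (iL i).const_mul _)
    simpa [Finset.sum_fn] using this
  refine ((j2.sub (j3.const_mul 2)).sub iC).congr_ae ?_
  rw [Filter.EventuallyEq, ae_restrict_iff' measurableSet_uIoc]
  refine Filter.Eventually.of_forall fun y hy => ?_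
  rw [uIoc_of_le zero_le_one] at hy
  have := pt μ hE hy.2
  linarith

/-- ROW QD -/
theorem qd55 : (∫ y in (0 : ℝ)..1, br E μ y) ≤
    (∫ y in (0 : ℝ)..tt, ((1 - tt) / 2 - y) * (1 - P E μ y) ^ 2) +
      1.051 * (∫ y in (0 : ℝ)..tt, (1 - P E μ y)) ^ 2 := by
  have ht := tt_pos
  have ht1 := tt_lt
  have hqm := q_meas hE h0 h1
  have hqb := q_abs hE h0 h1
  have ibr := br_ii hE h0 h1
  have ib1 : IntervalIntegrable (br E μ) volume 0 tt :=
    ibr.mono_set (by
      rw [Set.uIcc_of_le ht.le, Set.uIcc_of_le zero_le_one]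
      exact Set.Icc_subset_Icc le_rfl ht1.le)
  have ib2 : IntervalIntegrable (br E μ) volume tt 1 :=
    ibr.mono_set (by
      rw [Set.uIcc_of_le ht1.le, Set.uIcc_of_le zero_le_one]
      exact Set.Icc_subset_Icc ht.le le_rfl)
  have iq : ∀ a b, IntervalIntegrable (fun y => 1 - P E μ y) volume a b := fun a b =>
    ii hqm 1 hqb a b
  have iq2 : ∀ a b, IntervalIntegrable (fun y => (1 - P E μ y) ^ 2) volume a b := fun a b =>
    ii (hqm.pow_const 2) 1 (fun x => by
      rw [abs_pow]; exact pow_le_one₀ (abs_nonneg _) (hqb x)) a b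
  have hcont : ∀ {f : ℝ → ℝ}, (∀ a b, IntervalIntegrable f volume a b) →
      Continuous fun x => ∫ y in x..tt, f y := by
    intro f hf
    have : (fun x => ∫ y in x..tt, f y) =
        fun x => (∫ y in (0 : ℝ)..tt, f y) - ∫ y in (0 : ℝ)..x, f y := by
      funext x
      have := intervalIntegral.integral_add_adjacent_intervals (hf 0 x) (hf x tt)
      linarith
    rw [this]
    exact continuous_const.sub (intervalIntegral.continuous_primitive hf 0)
  have k1 : IntervalIntegrable (fun y => (1 - tt) / 2 * (1 - P E μ y) ^ 2) volume 0 tt :=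
    (iq2 0 tt).const_mul _
  have k2 : IntervalIntegrable (fun y => (1 - P E μ y) * ∫ Y in y..tt, (1 - P E μ Y))
      volume 0 tt := (iq 0 tt).mul_continuousOn (hcont iq).continuousOn
  have k3 : IntervalIntegrable (fun y => ∫ Y in y..tt, (1 - P E μ Y) ^ 2) volume 0 tt :=
    (hcont iq2).intervalIntegrable _ _
  have k4 := phi_left hE h0 h1
  have s1 := intervalIntegral.integral_mono_on ht.le ib1 ((k1.add (k2.sub k3)).sub k4)
    (fun y hy => br_small hE h0 h1 hy.2)
  rw [intervalIntegral.integral_sub (k1.add (k2.sub k3)) k4,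
    intervalIntegral.integral_add k1 (k2.sub k3), intervalIntegral.integral_sub k2 k3,
    intervalIntegral.integral_const_mul, half_sq ht.le hqm hqb, sq_tri ht.le hqm hqb,
    phi_swap hE h0 h1] at s1
  have k5 := phi_right hE h0 h1
  have k6 : IntervalIntegrable (fun Y => (1 - Y) / 2 * (P E μ Y - U Y) ^ 2) volume tt 1 := by
    have hm : Measurable fun Y => P E μ Y - U Y := (P_meas hE).sub U_cont.measurable
    have hb : ∀ Y, |P E μ Y - U Y| ≤ 1 := fun Y => by
      have a := P_le (E := E) h0 h1 Y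
      have b := P_nonneg (E := E) h0 Y
      have c := U_nonneg Y
      have d := U_le Y
      rw [abs_le]
      constructor <;> linarith
    have h2 : IntervalIntegrable (fun Y => (P E μ Y - U Y) ^ 2) volume tt 1 :=
      ii (hm.pow_const 2) 1 (fun x => by
        rw [abs_pow]; exact pow_le_one₀ (abs_nonneg _) (hb x)) _ _
    exact h2.continuousOn_mul (by fun_prop)
  have s2 := intervalIntegral.integral_mono_on ht1.le ib2 k6
    (fun y hy => br_large hE h0 h1 hy.2)
  have iK : IntervalIntegrable K volume tt 1 :=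
    ContinuousOn.intervalIntegrable (by rw [uIcc_of_le ht1.le]; exact K_cont)
  have s3 := intervalIntegral.integral_mono_on ht1.le (k6.sub k5)
    (iK.mul_const ((∫ y in (0 : ℝ)..tt, (1 - P E μ y)) ^ 2))
    (fun Y hY => column hE h0 h1 hY.1 hY.2)
  rw [intervalIntegral.integral_sub k6 k5, intervalIntegral.integral_mul_const] at s3
  have s4 : (∫ Y in tt..1, K Y) * (∫ y in (0 : ℝ)..tt, (1 - P E μ y)) ^ 2 ≤
      0.551 * (∫ y in (0 : ℝ)..tt, (1 - P E μ y)) ^ 2 :=
    mul_le_mul_of_nonneg_right int_K (sq_nonneg _)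
  have s5 : (∫ y in (0 : ℝ)..tt, ((1 - tt) / 2 - y) * (1 - P E μ y) ^ 2) =
      (1 - tt) / 2 * (∫ y in (0 : ℝ)..tt, (1 - P E μ y) ^ 2) -
        ∫ y in (0 : ℝ)..tt, y * (1 - P E μ y) ^ 2 := by
    have k7 : IntervalIntegrable (fun y => y * (1 - P E μ y) ^ 2) volume 0 tt :=
      (iq2 0 tt).continuousOn_mul (g := fun y => y) continuous_id.continuousOn
    rw [← intervalIntegral.integral_const_mul, ← intervalIntegral.integral_sub k1 k7]
    refine intervalIntegral.integral_congr fun y _ => ?_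
    ring
  rw [← intervalIntegral.integral_add_adjacent_intervals ib1 ib2, s5]
  linarith

end fixed2

end Pool.Agent.Lib.MP_efec9b_co.QD55
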