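import Pool.Agent.Lib.MP_efec9b_co.ID7

/-!
# MP_efec9b, row QD: the quadratic part
-/

set_option autoImplicit false

namespace Pool.Agent.Lib.MP_efec9b_co.ID7

open MeasureTheory Set intervalIntegral

theorem swapI {F : ℝ → ℝ → ℝ} (hF : Measurable (Function.uncurry F)) (K : ℝ)
    (hK : ∀ y x, |F y x| ≤ K) {a b c d : ℝ} (hab : a ≤ b) (hcd : c ≤ d) :
    IntervalIntegrable (fun y => ∫ x in c..d, F y x) volume a b ∧
    IntervalIntegrable (fun x => ∫ y in a..b, F y x) volume c d ∧
    (∫ y in a..b, ∫ x in c..d, F y x) = ∫ x in c..d, ∫ y in a..b, F y x := by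
  have hint : Integrable (Function.uncurry F)
      ((volume.restrict (Ioc a b)).prod (volume.restrict (Ioc c d))) :=
    Integrable.of_bound hF.aestronglyMeasurable K
      (Filter.Eventually.of_forall fun p => by
        simpa [Function.uncurry] using hK p.1 p.2)
  refine ⟨?_, ?_, ?_⟩
  · rw [intervalIntegrable_iff_integrableOn_Ioc_of_le hab]
    have := hint.integral_prod_left
    simp_rw [intervalIntegral.integral_of_le hcd]
    exact this
  · rw [intervalIntegrable_iff_integrableOn_Ioc_of_le hcd]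
    have := hint.integral_prod_right
    simp_rw [intervalIntegral.integral_of_le hab]
    exact this
  · simp_rw [intervalIntegral.integral_of_le hab, intervalIntegral.integral_of_le hcd]
    exact integral_integral_swap hint

/-- triangle Fubini on `[0,c]` -/
theorem tri_c {f h : ℝ → ℝ} (hf : Measurable f) (hf1 : ∀ x, |f x| ≤ 1) (hh : Measurable h)
    (hh1 : ∀ x, |h x| ≤ 1) {c : ℝ} (hc : 0 ≤ c) :
    (∫ y in (0 : ℝ)..c, f y * ∫ x in y..c, h x) = ∫ x in (0 : ℝ)..c, h x * ∫ y in (0 : ℝ)..x, f y := by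
  have hst : ∀ y x, |1 - st y x| ≤ 1 := fun y x => by unfold st; split_ifs <;> simp
  have m1 : Measurable fun p : ℝ × ℝ => st p.1 p.2 := by
    unfold st
    exact Measurable.ite (measurableSet_le measurable_snd measurable_fst) measurable_const
      measurable_const
  have hmeas : Measurable (Function.uncurry fun y x => f y * h x * (1 - st y x)) :=
    ((hf.comp measurable_fst).mul (hh.comp measurable_snd)).mul (m1.const_sub 1)
  have hbd : ∀ y x, |f y * h x * (1 - st y x)| ≤ 1 := fun y x => by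
    rw [abs_mul, abs_mul]
    exact mul_le_one₀ (mul_le_one₀ (hf1 y) (abs_nonneg _) (hh1 x)) (abs_nonneg _) (hst y x)
  obtain ⟨-, -, sw⟩ := swapI hmeas 1 hbd hc hc
  have ih : ∀ a b, IntervalIntegrable h volume a b := fun a b => ii hh 1 hh1 a b
  have jf : ∀ a b, IntervalIntegrable f volume a b := fun a b => ii hf 1 hf1 a b
  have L : (∫ y in (0 : ℝ)..c, f y * ∫ x in y..c, h x) =
      ∫ y in (0 : ℝ)..c, ∫ x in (0 : ℝ)..c, f y * h x * (1 - st y x) := by
    refine intervalIntegral.integral_congr fun y hy => ?_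
    rw [uIcc_of_le hc] at hy
    have e2 : (∫ x in (0 : ℝ)..c, f y * h x * (1 - st y x)) =
        f y * ((∫ x in (0 : ℝ)..c, h x) - ∫ x in (0 : ℝ)..c, h x * st y x) := by
      rw [← intervalIntegral.integral_sub (ih 0 c) (ii (f := fun x => h x * st y x)
        (hh.mul (st_meas y)) 1 (fun x => by
          rw [abs_mul]; exact mul_le_one₀ (hh1 x) (abs_nonneg _) (st_abs y x)) 0 c),
        ← intervalIntegral.integral_const_mul]
      exact intervalIntegral.integral_congr fun x _ => by ring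
    have e3 := intervalIntegral.integral_add_adjacent_intervals (ih 0 y) (ih y c)
    show f y * (∫ x in y..c, h x) = ∫ x in (0 : ℝ)..c, f y * h x * (1 - st y x)
    rw [e2, cut (ih 0 c) hy.1 hy.2, ← e3]
    ring
  have R : (∫ x in (0 : ℝ)..c, h x * ∫ y in (0 : ℝ)..x, f y) =
      ∫ x in (0 : ℝ)..c, ∫ y in (0 : ℝ)..c, f y * h x * (1 - st y x) := by
    refine intervalIntegral.integral_congr fun x hx => ?_
    rw [uIcc_of_le hc] at hx
    have hne : ∀ᵐ y ∂(volume : Measure ℝ), y ≠ x := by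
      rw [ae_iff]; simp
    have e2 : (∫ y in (0 : ℝ)..c, f y * h x * (1 - st y x)) =
        h x * ∫ y in (0 : ℝ)..c, f y * st x y := by
      rw [← intervalIntegral.integral_const_mul]
      refine intervalIntegral.integral_congr_ae ?_
      filter_upwards [hne] with y hy _
      simp only [st]
      rcases lt_or_gt_of_ne hy with h1 | h1
      · rw [if_neg (not_le.2 h1), if_pos h1.le]; ring
      · rw [if_pos h1.le, if_neg (not_le.2 h1)]; ring
    show h x * (∫ y in (0 : ℝ)..x, f y) = ∫ y in (0 : ℝ)..c, f y * h x * (1 - st y x)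
    rw [e2, cut (jf 0 c) hx.1 hx.2]
  rw [L, R, sw]

/-- the two triangle integrals -/
theorem triq {q : ℝ → ℝ} (hq : Measurable q) (hq1 : ∀ x, |q x| ≤ 1) {c : ℝ} (hc : 0 ≤ c) :
    (∫ y in (0 : ℝ)..c, q y * ∫ x in y..c, q x) = (∫ y in (0 : ℝ)..c, q y) ^ 2 / 2 ∧
    (∫ y in (0 : ℝ)..c, ∫ x in y..c, q x ^ 2) = ∫ y in (0 : ℝ)..c, y * q y ^ 2 := by
  have iq : ∀ a b, IntervalIntegrable q volume a b := fun a b => ii hq 1 hq1 a b
  have hq2 : ∀ x, |q x ^ 2| ≤ 1 := fun x => by
    rw [abs_pow]; exact pow_le_one₀ (abs_nonneg _) (hq1 x)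
  constructor
  · have t := tri_c hq hq1 hq hq1 hc
    have c1 : Continuous fun y => ∫ x in y..c, q x := by
      have h := intervalIntegral.continuous_primitive (fun a b => iq a b) c
      have : (fun y => ∫ x in y..c, q x) = fun y => - ∫ x in c..y, q x := by
        funext y; rw [intervalIntegral.integral_symm]
      rw [this]; exact h.neg
    have c2 : Continuous fun y => ∫ x in (0 : ℝ)..y, q x :=
      intervalIntegral.continuous_primitive (fun a b => iq a b) 0
    have s : (∫ y in (0 : ℝ)..c, q y * ∫ x in y..c, q x)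
        + (∫ y in (0 : ℝ)..c, q y * ∫ x in (0 : ℝ)..y, q x) = (∫ y in (0 : ℝ)..c, q y) ^ 2 := by
      rw [← intervalIntegral.integral_add ((iq 0 c).mul_continuousOn c1.continuousOn)
        ((iq 0 c).mul_continuousOn c2.continuousOn), sq, ← intervalIntegral.integral_mul_const]
      refine intervalIntegral.integral_congr fun y _ => ?_
      have := intervalIntegral.integral_add_adjacent_intervals (iq 0 y) (iq y c)
      show q y * (∫ x in y..c, q x) + q y * (∫ x in (0 : ℝ)..y, q x) = q y * ∫ x in (0 : ℝ)..c, q x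
      rw [← this]; ring
    linarith
  · have t := tri_c (f := fun _ => 1) (h := fun x => q x ^ 2) measurable_const (by simp)
      (hq.pow_const 2) hq2 hc
    simp only [one_mul, intervalIntegral.integral_const, smul_eq_mul, mul_one, sub_zero] at t
    rw [t]
    exact intervalIntegral.integral_congr fun x _ => by ring


section fam

variable {ι : Type*} [Fintype ι] {E : ι → Set ℝ} {μ : ι → ℝ}

theorem P_meas (hE : ∀ i, MeasurableSet (E i)) : Measurable (P E μ) := by
  unfold P
  exact Finset.measurable_sum _ fun i _ => (one_meas (hE i)).const_mul _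

theorem P_nonneg (h0 : ∀ i, 0 ≤ μ i) (y : ℝ) : 0 ≤ P E μ y :=
  Finset.sum_nonneg fun i _ => mul_nonneg (h0 i) (one_nonneg _ _)

theorem P_le (h0 : ∀ i, 0 ≤ μ i) (h1 : ∑ i, μ i = 1) (y : ℝ) : P E μ y ≤ 1 := by
  rw [← h1]
  exact Finset.sum_le_sum fun i _ => mul_le_of_le_one_right (h0 i) (one_le _ _)

theorem g_meas (hE : ∀ i, MeasurableSet (E i)) : Measurable (Function.uncurry (g E μ)) := by
  have : Function.uncurry (g E μ) = fun p : ℝ × ℝ =>
      ∑ i, μ i * one (E i) p.1 * one (E i) p.2 := rfl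
  rw [this]
  exact Finset.measurable_sum _ fun i _ =>
    (((one_meas (hE i)).comp measurable_fst).const_mul _).mul ((one_meas (hE i)).comp measurable_snd)

theorem g_nonneg (h0 : ∀ i, 0 ≤ μ i) (y Y : ℝ) : 0 ≤ g E μ y Y :=
  Finset.sum_nonneg fun i _ => mul_nonneg (mul_nonneg (h0 i) (one_nonneg _ _)) (one_nonneg _ _)

theorem g_le_left (h0 : ∀ i, 0 ≤ μ i) (y Y : ℝ) : g E μ y Y ≤ P E μ y :=
  Finset.sum_le_sum fun i _ => mul_le_of_le_one_right (mul_nonneg (h0 i) (one_nonneg _ _)) (one_le _ _)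

theorem g_le_right (h0 : ∀ i, 0 ≤ μ i) (y Y : ℝ) : g E μ y Y ≤ P E μ Y := by
  refine Finset.sum_le_sum fun i _ => ?_
  rw [mul_right_comm]
  exact mul_le_of_le_one_right (mul_nonneg (h0 i) (one_nonneg _ _)) (one_le _ _)

theorem r_le (h0 : ∀ i, 0 ≤ μ i) (h1 : ∑ i, μ i = 1) (y Y : ℝ) :
    P E μ Y - g E μ y Y ≤ 1 - P E μ y := by
  unfold P g
  rw [← h1, ← Finset.sum_sub_distrib, ← Finset.sum_sub_distrib]
  refine Finset.sum_le_sum fun i _ => ?_
  have e1 := one_nonneg (E i) y
  have e2 := one_le (E i) y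
  have e3 := one_le (E i) Y
  have : 0 ≤ μ i * ((1 - one (E i) y) * (1 - one (E i) Y)) :=
    mul_nonneg (h0 i) (mul_nonneg (by linarith) (by linarith))
  nlinarith

theorem G_nonneg (h0 : ∀ i, 0 ≤ μ i) (y s : ℝ) : 0 ≤ G E μ y s :=
  Finset.sum_nonneg fun i _ => mul_nonneg (mul_nonneg (h0 i) (one_nonneg _ _))
    (by unfold st; split_ifs <;> norm_num)

theorem G_le (h0 : ∀ i, 0 ≤ μ i) (y s : ℝ) : G E μ y s ≤ P E μ y :=
  Finset.sum_le_sum fun i _ => mul_le_of_le_one_right (mul_nonneg (h0 i) (one_nonneg _ _))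
    (by unfold st; split_ifs <;> norm_num)

theorem g_meas1 (hE : ∀ i, MeasurableSet (E i)) (y : ℝ) : Measurable (g E μ y) :=
  Finset.measurable_sum _ fun i _ => (one_meas (hE i)).const_mul _

theorem G_meas1 (y : ℝ) : Measurable (G E μ y) :=
  Finset.measurable_sum _ fun i _ => (st_meas _).const_mul _

theorem int_g (hE : ∀ i, MeasurableSet (E i)) (y : ℝ) : (∫ Y in y..1, g E μ y Y) = X E μ y := by
  unfold g X
  rw [intervalIntegral.integral_finsetSum (fun i _ => (ii_one (hE i) y 1).const_mul _)]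
  refine Finset.sum_congr rfl fun i _ => ?_
  rw [intervalIntegral.integral_const_mul]; rfl

theorem int_G (hE : ∀ i, MeasurableSet (E i)) {y : ℝ} (hy : y ≤ 1) :
    (∫ s in (0 : ℝ)..(1 - y), G E μ y s) = X E μ y := by
  unfold G X
  rw [intervalIntegral.integral_finsetSum
    (fun i _ => (ii (st_meas _) 1 (st_abs _) 0 (1 - y)).const_mul _)]
  refine Finset.sum_congr rfl fun i _ => ?_
  rw [intervalIntegral.integral_const_mul]
  have := cut (h := fun _ => (1 : ℝ)) (a := al (E i) y) (L := 1 - y) (by simp)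
    (al_nonneg _ hy) (al_le (hE i) hy)
  simp only [one_mul, intervalIntegral.integral_const, smul_eq_mul, mul_one, sub_zero] at this
  rw [this]

/-- `br` as an integral of two pointwise quadratic expressions -/
theorem br_eq (hE : ∀ i, MeasurableSet (E i)) (h0 : ∀ i, 0 ≤ μ i) (h1 : ∑ i, μ i = 1) {y : ℝ}
    (hy : y ≤ 1) :
    br E μ y = (∫ Y in y..1, ((P E μ y - U y) * (g E μ y Y - U Y) - (g E μ y Y - U Y) ^ 2))
      + ∫ s in (0 : ℝ)..(1 - y),
        ((P E μ y - U y) * (G E μ y s - U (y + s)) - (G E μ y s - U (y + s)) ^ 2) := by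
  have ga : ∀ Y, |g E μ y Y| ≤ 1 := fun Y => by
    rw [abs_of_nonneg (g_nonneg h0 y Y)]; exact (g_le_left h0 y Y).trans (P_le h0 h1 y)
  have Ga : ∀ s, |G E μ y s| ≤ 1 := fun s => by
    rw [abs_of_nonneg (G_nonneg h0 y s)]; exact (G_le h0 y s).trans (P_le h0 h1 y)
  have hUs : Measurable fun s => U (y + s) := U_cont.measurable.comp (measurable_const_add y)
  have a1 : ∀ Y, |g E μ y Y - U Y| ≤ 2 := fun Y => by
    have := abs_sub (g E μ y Y) (U Y); have := ga Y; have := U_abs Y; linarith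
  have a2 : ∀ s, |G E μ y s - U (y + s)| ≤ 2 := fun s => by
    have := abs_sub (G E μ y s) (U (y + s)); have := Ga s; have := U_abs (y + s); linarith
  have i1 : IntervalIntegrable (fun Y => g E μ y Y - U Y) volume y 1 :=
    ii (f := fun Y => g E μ y Y - U Y) ((g_meas1 hE y).sub U_cont.measurable) 2 a1 y 1
  have i2 : IntervalIntegrable (fun Y => (g E μ y Y - U Y) ^ 2) volume y 1 :=
    ii (f := fun Y => (g E μ y Y - U Y) ^ 2)
      (((g_meas1 hE y).sub U_cont.measurable).pow_const 2) 4 (fun Y => by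
      rw [abs_pow]; have := a1 Y; have := abs_nonneg (g E μ y Y - U Y); nlinarith) y 1
  have i3 : IntervalIntegrable (fun s => G E μ y s - U (y + s)) volume 0 (1 - y) :=
    ii (f := fun s => G E μ y s - U (y + s)) ((G_meas1 y).sub hUs) 2 a2 0 (1 - y)
  have i4 : IntervalIntegrable (fun s => (G E μ y s - U (y + s)) ^ 2) volume 0 (1 - y) :=
    ii (f := fun s => (G E μ y s - U (y + s)) ^ 2)
      (((G_meas1 y).sub hUs).pow_const 2) 4 (fun s => by
      rw [abs_pow]; have := a2 s; have := abs_nonneg (G E μ y s - U (y + s)); nlinarith) 0 (1 - y)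
  have e1 : (∫ Y in y..1, (g E μ y Y - U Y)) = X E μ y - W y := by
    rw [intervalIntegral.integral_sub (ii (g_meas1 hE y) 1 ga y 1)
      (U_cont.intervalIntegrable y 1), int_g hE y]; rfl
  have e2 : (∫ s in (0 : ℝ)..(1 - y), (G E μ y s - U (y + s))) = X E μ y - W y := by
    have iU : IntervalIntegrable (fun s => U (y + s)) volume 0 (1 - y) :=
      (U_cont.comp (continuous_const_add y)).intervalIntegrable 0 (1 - y)
    have iG : IntervalIntegrable (fun s => G E μ y s) volume 0 (1 - y) :=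
      ii (f := fun s => G E μ y s) (G_meas1 y) 1 Ga 0 (1 - y)
    rw [intervalIntegral.integral_sub iG iU, int_G hE hy]
    have := W_sub y (1 - y)
    rw [show y + (1 - y) = 1 by ring] at this
    have w1 : W 1 = 0 := by unfold W; simp
    rw [w1, sub_zero] at this
    rw [this]
  rw [intervalIntegral.integral_sub (i1.const_mul _) i2,
    intervalIntegral.integral_sub (i3.const_mul _) i4,
    intervalIntegral.integral_const_mul, intervalIntegral.integral_const_mul, e1, e2]
  unfold br
  ring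

/-- case `y ≥ t` -/
theorem br_high (hE : ∀ i, MeasurableSet (E i)) (h0 : ∀ i, 0 ≤ μ i) (h1 : ∑ i, μ i = 1) {y : ℝ}
    (hy : y ≤ 1) : br E μ y ≤ (1 - y) / 2 * (P E μ y - U y) ^ 2 := by
  rw [br_eq hE h0 h1 hy]
  have key : ∀ d x : ℝ, d * x - x ^ 2 ≤ d ^ 2 / 4 := fun d x => by nlinarith [sq_nonneg (x - d / 2)]
  have ga : ∀ Y, |g E μ y Y| ≤ 1 := fun Y => by
    rw [abs_of_nonneg (g_nonneg h0 y Y)]; exact (g_le_left h0 y Y).trans (P_le h0 h1 y)
  have Ga : ∀ s, |G E μ y s| ≤ 1 := fun s => by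
    rw [abs_of_nonneg (G_nonneg h0 y s)]; exact (G_le h0 y s).trans (P_le h0 h1 y)
  have hUs : Measurable fun s => U (y + s) := U_cont.measurable.comp (measurable_const_add y)
  have a1 : ∀ Y, |g E μ y Y - U Y| ≤ 2 := fun Y => by
    have := abs_sub (g E μ y Y) (U Y); have := ga Y; have := U_abs Y; linarith
  have a2 : ∀ s, |G E μ y s - U (y + s)| ≤ 2 := fun s => by
    have := abs_sub (G E μ y s) (U (y + s)); have := Ga s; have := U_abs (y + s); linarith
  have i1 : IntervalIntegrable (fun Y => (P E μ y - U y) * (g E μ y Y - U Y)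
      - (g E μ y Y - U Y) ^ 2) volume y 1 :=
    ((ii (f := fun Y => g E μ y Y - U Y)
      ((g_meas1 hE y).sub U_cont.measurable) 2 a1 y 1).const_mul _).sub
      (ii (f := fun Y => (g E μ y Y - U Y) ^ 2)
        (((g_meas1 hE y).sub U_cont.measurable).pow_const 2) 4 (fun Y => by
      rw [abs_pow]; have := a1 Y; have := abs_nonneg (g E μ y Y - U Y); nlinarith) y 1)
  have i2 : IntervalIntegrable (fun s => (P E μ y - U y) * (G E μ y s - U (y + s))
      - (G E μ y s - U (y + s)) ^ 2) volume 0 (1 - y) :=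
    ((ii (f := fun s => G E μ y s - U (y + s)) ((G_meas1 y).sub hUs) 2 a2 0 (1 - y)).const_mul _).sub
      (ii (f := fun s => (G E μ y s - U (y + s)) ^ 2)
        (((G_meas1 y).sub hUs).pow_const 2) 4 (fun s => by
      rw [abs_pow]; have := a2 s; have := abs_nonneg (G E μ y s - U (y + s)); nlinarith) 0 (1 - y))
  have b1 := intervalIntegral.integral_mono_on hy i1
    (intervalIntegrable_const (c := (P E μ y - U y) ^ 2 / 4)) (fun Y _ => key _ _)
  have b2 := intervalIntegral.integral_mono_on (sub_nonneg.2 hy) i2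
    (intervalIntegrable_const (c := (P E μ y - U y) ^ 2 / 4)) (fun s _ => key _ _)
  simp only [intervalIntegral.integral_const, smul_eq_mul, sub_zero] at b1 b2
  linarith

end fam


section fam2

variable {ι : Type*} [Fintype ι] {E : ι → Set ℝ} {μ : ι → ℝ}

theorem br_low (hE : ∀ i, MeasurableSet (E i)) (h0 : ∀ i, 0 ≤ μ i) (h1 : ∑ i, μ i = 1) {y : ℝ}
    (hy : y ≤ tt) :
    br E μ y ≤ (1 - tt) / 4 * (1 - P E μ y) ^ 2
      + (∫ Y in y..tt, ((1 - P E μ y) * (1 - P E μ Y) - (1 - P E μ Y) ^ 2))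
      + ∫ Y in tt..1, ((1 - P E μ y) ^ 2 / 4 - (P E μ Y - U Y) ^ 2
          - (P E μ Y - U Y) * ((1 - P E μ y) - 2 * (P E μ Y - g E μ y Y))
          - ((1 - P E μ y) - 2 * (P E μ Y - g E μ y Y)) ^ 2 / 4) := by
  have hy1 : y ≤ 1 := hy.trans tt_lt.le
  rw [br_eq hE h0 h1 hy1, U_small hy]
  have Pm := P_meas (μ := μ) hE
  have Pa : ∀ Y, 0 ≤ P E μ Y := P_nonneg h0
  have Pb : ∀ Y, P E μ Y ≤ 1 := P_le h0 h1
  have ga : ∀ Y, |g E μ y Y| ≤ 1 := fun Y => by
    rw [abs_of_nonneg (g_nonneg h0 y Y)]; exact (g_le_left h0 y Y).trans (P_le h0 h1 y)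
  have Ga : ∀ s, |G E μ y s| ≤ 1 := fun s => by
    rw [abs_of_nonneg (G_nonneg h0 y s)]; exact (G_le h0 y s).trans (P_le h0 h1 y)
  have hUs : Measurable fun s => U (y + s) := U_cont.measurable.comp (measurable_const_add y)
  have a1 : ∀ Y, |g E μ y Y - U Y| ≤ 2 := fun Y => by
    have := abs_sub (g E μ y Y) (U Y); have := ga Y; have := U_abs Y; linarith
  have a2 : ∀ s, |G E μ y s - U (y + s)| ≤ 2 := fun s => by
    have := abs_sub (G E μ y s) (U (y + s)); have := Ga s; have := U_abs (y + s); linarith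
  have i1 : ∀ a b, IntervalIntegrable (fun Y => (P E μ y - 1) * (g E μ y Y - U Y)
      - (g E μ y Y - U Y) ^ 2) volume a b := fun a b =>
    ((ii (f := fun Y => g E μ y Y - U Y)
      ((g_meas1 hE y).sub U_cont.measurable) 2 a1 a b).const_mul _).sub
      (ii (f := fun Y => (g E μ y Y - U Y) ^ 2)
        (((g_meas1 hE y).sub U_cont.measurable).pow_const 2) 4 (fun Y => by
      rw [abs_pow]; have := a1 Y; have := abs_nonneg (g E μ y Y - U Y); nlinarith) a b)
  have i2 : ∀ a b, IntervalIntegrable (fun s => (P E μ y - 1) * (G E μ y s - U (y + s))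
      - (G E μ y s - U (y + s)) ^ 2) volume a b := fun a b =>
    ((ii (f := fun s => G E μ y s - U (y + s)) ((G_meas1 y).sub hUs) 2 a2 a b).const_mul _).sub
      (ii (f := fun s => (G E μ y s - U (y + s)) ^ 2)
        (((G_meas1 y).sub hUs).pow_const 2) 4 (fun s => by
      rw [abs_pow]; have := a2 s; have := abs_nonneg (G E μ y s - U (y + s)); nlinarith) a b)
  have iq : IntervalIntegrable (fun Y => (1 - P E μ y) * (1 - P E μ Y) - (1 - P E μ Y) ^ 2)
      volume y tt := by
    have m : Measurable fun Y => 1 - P E μ Y := Pm.const_sub 1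
    have b : ∀ Y, |1 - P E μ Y| ≤ 1 := fun Y => by
      rw [abs_le]; constructor <;> linarith [Pa Y, Pb Y]
    exact ((ii (f := fun Y => 1 - P E μ Y) m 1 b y tt).const_mul _).sub
      (ii (f := fun Y => (1 - P E μ Y) ^ 2) (m.pow_const 2) 1 (fun Y => by
        rw [abs_pow]; exact pow_le_one₀ (abs_nonneg _) (b Y)) y tt)
  rw [← intervalIntegral.integral_add_adjacent_intervals (i1 y tt) (i1 tt 1),
    ← intervalIntegral.integral_add_adjacent_intervals (i2 0 (tt - y)) (i2 (tt - y) (1 - y))]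
  have b1 : (∫ Y in y..tt, ((P E μ y - 1) * (g E μ y Y - U Y) - (g E μ y Y - U Y) ^ 2)) ≤
      ∫ Y in y..tt, ((1 - P E μ y) * (1 - P E μ Y) - (1 - P E μ Y) ^ 2) := by
    refine intervalIntegral.integral_mono_on hy (i1 y tt) iq fun Y hY => ?_
    rw [U_small hY.2]
    have u1 := g_le_left h0 (E := E) y Y
    have u2 := g_le_right h0 (E := E) y Y
    have u3 := Pb Y
    nlinarith [mul_nonneg (sub_nonneg.2 u2) (sub_nonneg.2 u1),
      mul_nonneg (sub_nonneg.2 u2) (sub_nonneg.2 u3)]
  have b2 : (∫ Y in tt..1, ((P E μ y - 1) * (g E μ y Y - U Y) - (g E μ y Y - U Y) ^ 2)) =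
      ∫ Y in tt..1, ((1 - P E μ y) ^ 2 / 4 - (P E μ Y - U Y) ^ 2
          - (P E μ Y - U Y) * ((1 - P E μ y) - 2 * (P E μ Y - g E μ y Y))
          - ((1 - P E μ y) - 2 * (P E μ Y - g E μ y Y)) ^ 2 / 4) :=
    intervalIntegral.integral_congr fun Y _ => by ring
  have b3 : (∫ s in (0 : ℝ)..(tt - y), ((P E μ y - 1) * (G E μ y s - U (y + s))
      - (G E μ y s - U (y + s)) ^ 2)) ≤ ∫ s in (0 : ℝ)..(tt - y), (0 : ℝ) := by
    refine intervalIntegral.integral_mono_on (sub_nonneg.2 hy) (i2 0 (tt - y))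
      intervalIntegrable_const fun s hs => ?_
    rw [U_small (by linarith [hs.2])]
    have u1 := G_le h0 (E := E) y s
    have u3 := Pb y
    nlinarith [mul_nonneg (sub_nonneg.2 u1) (sub_nonneg.2 (u1.trans u3))]
  have b4 : (∫ s in (tt - y)..(1 - y), ((P E μ y - 1) * (G E μ y s - U (y + s))
      - (G E μ y s - U (y + s)) ^ 2)) ≤ ∫ s in (tt - y)..(1 - y), (1 - P E μ y) ^ 2 / 4 := by
    refine intervalIntegral.integral_mono_on (by linarith [tt_lt]) (i2 (tt - y) (1 - y))
      intervalIntegrable_const fun s _ => ?_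
    nlinarith [sq_nonneg ((G E μ y s - U (y + s)) + (1 - P E μ y) / 2)]
  simp only [intervalIntegral.integral_const, smul_eq_mul, mul_zero] at b3 b4
  rw [← b2]
  linarith

theorem br_ii (hE : ∀ i, MeasurableSet (E i)) : IntervalIntegrable (br E μ) volume 0 1 := by
  have iS : ∀ i k, IntervalIntegrable (fun y => one (E i) y * one (E k) y *
      max (al (E i \ E k) y) (al (E k \ E i) y)) volume 0 1 := fun i k =>
    (ii (f := fun y => one (E i) y * one (E k) y) ((one_meas (hE i)).mul (one_meas (hE k))) 1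
      (fun x => by rw [abs_mul]; exact mul_le_one₀ (one_abs _ x) (abs_nonneg _) (one_abs _ x)) 0 1).mul_continuousOn
      ((al_cont ((hE i).diff (hE k))).max (al_cont ((hE k).diff (hE i)))).continuousOn
  have iL : ∀ i, IntervalIntegrable (fun y => one (E i) y * (U y * al (E i) y
      + W (y + al (E i) y) - ∫ x in y..1, U x * one (E i) x)) volume 0 1 := fun i => by
    have hUm : Measurable fun x => U x * one (E i) x := U_cont.measurable.mul (one_meas (hE i))
    have hUb : ∀ x, |U x * one (E i) x| ≤ 1 := fun x => by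
      rw [abs_mul]; exact mul_le_one₀ (U_abs x) (abs_nonneg _) (one_abs _ x)
    exact (ii_one (hE i) 0 1).mul_continuousOn
      (((U_cont.mul (al_cont (hE i))).add (W_cont.comp (continuous_id.add (al_cont (hE i))))).sub
        (cont_upper hUm 1 hUb)).continuousOn
  have iC : IntervalIntegrable (fun y => 2 * (∫ x in y..1, U x ^ 2) - 2 * U y * W y) volume 0 1 := by
    have c1 : Continuous fun y => ∫ x in y..1, U x ^ 2 :=
      cont_upper (U_cont.pow 2).measurable 1 (fun x => by
        rw [abs_pow]; exact pow_le_one₀ (abs_nonneg _) (U_abs x))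
    exact ((c1.const_mul 2).sub ((U_cont.const_mul 2).mul W_cont)).intervalIntegrable 0 1
  have j1 : ∀ i, IntervalIntegrable (fun y => ∑ k, μ i * μ k * (one (E i) y * one (E k) y *
        max (al (E i \ E k) y) (al (E k \ E i) y))) volume 0 1 := fun i => by
    have := IntervalIntegrable.sum (μ := volume) (a := 0) (b := 1) (Finset.univ (α := ι))
      (f := fun k y => μ i * μ k * (one (E i) y * one (E k) y *
        max (al (E i \ E k) y) (al (E k \ E i) y))) (fun k _ => (iS i k).const_mul _)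
    simpa [Finset.sum_fn] using this
  have j2 : IntervalIntegrable (fun y => ∑ i, ∑ k, μ i * μ k * (one (E i) y * one (E k) y *
        max (al (E i \ E k) y) (al (E k \ E i) y))) volume 0 1 := by
    have := IntervalIntegrable.sum (μ := volume) (a := 0) (b := 1) (Finset.univ (α := ι))
      (f := fun i y => ∑ k, μ i * μ k * (one (E i) y * one (E k) y *
        max (al (E i \ E k) y) (al (E k \ E i) y))) (fun i _ => j1 i)
    simpa [Finset.sum_fn] using this
  have j3 : IntervalIntegrable (fun y => ∑ i, μ i * (one (E i) y * (U y * al (E i) y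
      + W (y + al (E i) y) - ∫ x in y..1, U x * one (E i) x))) volume 0 1 := by
    have := IntervalIntegrable.sum (μ := volume) (a := 0) (b := 1) (Finset.univ (α := ι))
      (f := fun i y => μ i * (one (E i) y * (U y * al (E i) y
        + W (y + al (E i) y) - ∫ x in y..1, U x * one (E i) x))) (fun i _ => (iL i).const_mul _)
    simpa [Finset.sum_fn] using this
  refine ((j2.sub (j3.const_mul 2)).sub iC).congr_ae ?_
  rw [Filter.EventuallyEq, ae_restrict_iff' measurableSet_uIoc]
  refine Filter.Eventually.of_forall fun y hy => ?_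
  rw [uIoc_of_le zero_le_one] at hy
  show _ - _ - _ = br E μ y
  rw [pt μ hE hy.2]; ring

theorem e_lo : (2.7182818283 : ℝ) < Real.exp 1 := Real.exp_one_gt_d9
theorem e_hi : Real.exp 1 < 2.7182818286 := Real.exp_one_lt_d9

theorem tt_e : tt * Real.exp 1 = 1 := by
  unfold tt; rw [← Real.exp_add]; simp

theorem third : 1 / 3 < tt := by
  have h := tt_e
  have h2 := e_hi
  have h3 := tt_pos
  by_contra hc
  push Not at hc
  have : tt * Real.exp 1 ≤ 1 / 3 * Real.exp 1 := mul_le_mul_of_nonneg_right hc (Real.exp_pos 1).le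
  linarith

/-- the constant -/
theorem kap : (∫ Y in tt..1, ((1 - Y) / 2) / (4 * tt * (tt - (1 - Y) / 2))) ≤ 0.551 := by
  have h3 := third
  have hp := tt_pos
  have hl := tt_lt
  have he := tt_e
  have e : (∫ Y in tt..1, ((1 - Y) / 2) / (4 * tt * (tt - (1 - Y) / 2))) =
      ∫ Y in tt..1, (1 / (4 * tt)) * (-1 + 2 * tt * (Y + (2 * tt - 1))⁻¹) := by
    refine intervalIntegral.integral_congr fun Y hY => ?_
    rw [uIcc_of_le hl.le] at hY
    have h4 : (0 : ℝ) < Y + (2 * tt - 1) := by linarith [hY.1]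
    have h5 : tt - (1 - Y) / 2 = (Y + (2 * tt - 1)) / 2 := by ring
    rw [h5]
    field_simp
    ring
  have i1 : IntervalIntegrable (fun Y => 2 * tt * (Y + (2 * tt - 1))⁻¹) volume tt 1 := by
    refine ContinuousOn.intervalIntegrable ?_
    intro Y hY
    rw [uIcc_of_le hl.le] at hY
    have h4 : Y + (2 * tt - 1) ≠ 0 := by
      have : (0 : ℝ) < Y + (2 * tt - 1) := by linarith [hY.1]
      exact this.ne'
    exact (continuousAt_const.mul ((continuousAt_id.add continuousAt_const).inv₀ h4)).continuousWithinAt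
  have e2 : (∫ Y in tt..1, (Y + (2 * tt - 1))⁻¹) = Real.log (2 * tt / (3 * tt - 1)) := by
    have := intervalIntegral.integral_comp_add_right (f := fun z : ℝ => z⁻¹) (a := tt) (b := 1)
      (2 * tt - 1)
    rw [this, integral_inv_of_pos (by linarith) (by linarith)]
    congr 1
    congr 1 <;> ring
  rw [e, intervalIntegral.integral_const_mul, intervalIntegral.integral_add
    intervalIntegrable_const i1, intervalIntegral.integral_const_mul, e2]
  simp only [intervalIntegral.integral_const, smul_eq_mul]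
  have hlog : Real.log (2 * tt / (3 * tt - 1)) ≤ 1.9611 := by
    rw [Real.log_le_iff_le_exp (by apply div_pos <;> linarith)]
    have x1 : (2 * tt / (3 * tt - 1)) = 2 / (3 - Real.exp 1) := by
      have : (3 : ℝ) - Real.exp 1 ≠ 0 := by have := e_hi; intro h; linarith
      have h6 : (3 * tt - 1) ≠ 0 := by intro h; linarith
      rw [div_eq_div_iff h6 this]
      linear_combination (-2) * he
    have x2 : Real.exp 1.9611 = Real.exp 1 * Real.exp 1 * Real.exp (-0.0389) := by
      rw [← Real.exp_add, ← Real.exp_add]; norm_num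
    have x3 : (1 : ℝ) - 0.0389 ≤ Real.exp (-0.0389) := by
      have := Real.add_one_le_exp (-0.0389 : ℝ); linarith
    rw [x1, x2, div_le_iff₀ (by linarith [e_hi])]
    have a1 := e_lo
    have a2 := e_hi
    have a3 : (7.389056 : ℝ) ≤ Real.exp 1 * Real.exp 1 := by nlinarith
    have a4 : (7.1016 : ℝ) ≤ Real.exp 1 * Real.exp 1 * Real.exp (-0.0389) := by nlinarith
    nlinarith
  have hinv : 1 / (4 * tt) = Real.exp 1 / 4 := by
    rw [div_eq_div_iff (by positivity) (by norm_num)]
    linear_combination (-4) * he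
  have : 1 / (4 * tt) * ((1 - tt) * -1 + 2 * tt * Real.log (2 * tt / (3 * tt - 1))) =
      -(Real.exp 1 / 4) + 1 / 4 + Real.log (2 * tt / (3 * tt - 1)) / 2 := by
    rw [← hinv]
    field_simp
    ring
  rw [this]
  have := e_lo
  linarith

end fam2


section fin

variable {ι : Type*} [Fintype ι] {E : ι → Set ℝ} {μ : ι → ℝ}

/-- the integrand for `y < t < Y` -/
noncomputable def Phi (E : ι → Set ℝ) (μ : ι → ℝ) (y Y : ℝ) : ℝ :=
  (1 - P E μ y) ^ 2 / 4 - (P E μ Y - U Y) ^ 2
    - (P E μ Y - U Y) * ((1 - P E μ y) - 2 * (P E μ Y - g E μ y Y))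
    - ((1 - P E μ y) - 2 * (P E μ Y - g E μ y Y)) ^ 2 / 4

theorem Phi_meas (hE : ∀ i, MeasurableSet (E i)) : Measurable (Function.uncurry (Phi E μ)) := by
  have m1 : Measurable fun p : ℝ × ℝ => P E μ p.1 := (P_meas hE).comp measurable_fst
  have m2 : Measurable fun p : ℝ × ℝ => P E μ p.2 := (P_meas hE).comp measurable_snd
  have m3 : Measurable fun p : ℝ × ℝ => U p.2 := U_cont.measurable.comp measurable_snd
  have m4 : Measurable fun p : ℝ × ℝ => g E μ p.1 p.2 := g_meas hE
  have me : Measurable fun p : ℝ × ℝ => (1 - P E μ p.1) - 2 * (P E μ p.2 - g E μ p.1 p.2) :=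
    (m1.const_sub 1).sub ((m2.sub m4).const_mul 2)
  exact (((((m1.const_sub 1).pow_const 2).div_const 4).sub ((m2.sub m3).pow_const 2)).sub
    ((m2.sub m3).mul me)).sub ((me.pow_const 2).div_const 4)

theorem e_bd (h0 : ∀ i, 0 ≤ μ i) (h1 : ∑ i, μ i = 1) (y Y : ℝ) :
    |(1 - P E μ y) - 2 * (P E μ Y - g E μ y Y)| ≤ 1 - P E μ y := by
  have a := g_le_right h0 (E := E) y Y
  have b := r_le h0 h1 (E := E) y Y
  rw [abs_le]; constructor <;> linarith

theorem Phi_abs (h0 : ∀ i, 0 ≤ μ i) (h1 : ∑ i, μ i = 1) (y Y : ℝ) : |Phi E μ y Y| ≤ 4 := by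
  have p1 := P_nonneg h0 (E := E) y
  have p2 := P_le h0 h1 (E := E) y
  have p3 := P_nonneg h0 (E := E) Y
  have p4 := P_le h0 h1 (E := E) Y
  have u1 := U_nonneg Y
  have u2 := U_le Y
  have e := e_bd h0 h1 (E := E) y Y
  obtain ⟨e1, e2⟩ := abs_le.1 e
  unfold Phi
  set q := 1 - P E μ y
  set d := P E μ Y - U Y
  set x := q - 2 * (P E μ Y - g E μ y Y)
  have hq0 : 0 ≤ q := by simp only [q]; linarith
  have hq1 : q ≤ 1 := by simp only [q]; linarith
  have hd1 : -1 ≤ d := by simp only [d]; linarith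
  have hd2 : d ≤ 1 := by simp only [d]; linarith
  rw [abs_le]
  constructor
  · nlinarith [sq_nonneg q, sq_nonneg d, sq_nonneg x, sq_nonneg (d - x), sq_nonneg (d + x)]
  · nlinarith [sq_nonneg (d + x / 2), sq_nonneg q]

/-- one column `Y > t` -/
theorem column (hE : ∀ i, MeasurableSet (E i)) (h0 : ∀ i, 0 ≤ μ i) (h1 : ∑ i, μ i = 1) {Y : ℝ}
    (hY : tt ≤ Y) (hY1 : Y ≤ 1) :
    (∫ y in (0 : ℝ)..tt, Phi E μ y Y) + (1 - Y) / 2 * (P E μ Y - U Y) ^ 2 ≤
      (∫ y in (0 : ℝ)..tt, (1 - P E μ y) ^ 2) / 4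
      + (∫ y in (0 : ℝ)..tt, (1 - P E μ y)) ^ 2 *
        (((1 - Y) / 2) / (4 * tt * (tt - (1 - Y) / 2))) := by
  have hp := tt_pos
  have h3 := third
  have mq : Measurable fun y => 1 - P E μ y := (P_meas hE).const_sub 1
  have bq : ∀ y, |1 - P E μ y| ≤ 1 := fun y => by
    have a := P_nonneg h0 (E := E) y
    have b := P_le h0 h1 (E := E) y
    rw [abs_le]; constructor <;> linarith
  set e : ℝ → ℝ := fun y => (1 - P E μ y) - 2 * (P E μ Y - g E μ y Y) with he
  have me : Measurable e := by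
    have m4 : Measurable fun y => g E μ y Y := (g_meas hE).comp (measurable_id.prodMk measurable_const)
    exact mq.sub ((m4.const_sub _).const_mul 2)
  have be : ∀ y, |e y| ≤ 1 - P E μ y := fun y => e_bd h0 h1 y Y
  have be1 : ∀ y, |e y| ≤ 1 := fun y => (be y).trans ((le_abs_self _).trans (bq y))
  have iq : IntervalIntegrable (fun y => 1 - P E μ y) volume 0 tt := ii mq 1 bq 0 tt
  have iq2 : IntervalIntegrable (fun y => (1 - P E μ y) ^ 2) volume 0 tt :=
    ii (f := fun y => (1 - P E μ y) ^ 2) (mq.pow_const 2) 1 (fun y => by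
      rw [abs_pow]; exact pow_le_one₀ (abs_nonneg _) (bq y)) 0 tt
  have ie : IntervalIntegrable e volume 0 tt := ii me 1 be1 0 tt
  have ie2 : IntervalIntegrable (fun y => e y ^ 2) volume 0 tt :=
    ii (f := fun y => e y ^ 2) (me.pow_const 2) 1 (fun y => by
      rw [abs_pow]; exact pow_le_one₀ (abs_nonneg _) (be1 y)) 0 tt
  set d := P E μ Y - U Y with hd
  set A := ∫ y in (0 : ℝ)..tt, (1 - P E μ y) ^ 2 with hA
  set M := ∫ y in (0 : ℝ)..tt, (1 - P E μ y) with hM
  set I1 := ∫ y in (0 : ℝ)..tt, e y with hI1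
  set I2 := ∫ y in (0 : ℝ)..tt, e y ^ 2 with hI2
  have s1 : (∫ y in (0 : ℝ)..tt, Phi E μ y Y) = A / 4 - tt * d ^ 2 - d * I1 - I2 / 4 := by
    have : (fun y => Phi E μ y Y) = fun y => (1 - P E μ y) ^ 2 * (1 / 4) - d ^ 2 - d * e y
        - e y ^ 2 * (1 / 4) := by
      funext y; unfold Phi; simp only [he, hd]; ring
    rw [this, intervalIntegral.integral_sub (((iq2.mul_const _).sub intervalIntegrable_const).sub
      (ie.const_mul _)) (ie2.mul_const _), intervalIntegral.integral_sub
      ((iq2.mul_const _).sub intervalIntegrable_const) (ie.const_mul _),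
      intervalIntegral.integral_sub (iq2.mul_const _) intervalIntegrable_const,
      intervalIntegral.integral_mul_const, intervalIntegral.integral_const_mul,
      intervalIntegral.integral_mul_const]
    simp only [intervalIntegral.integral_const, smul_eq_mul, sub_zero]
    rw [← hA, ← hI1, ← hI2]
    ring
  -- Cauchy-Schwarz
  have cs : I1 ^ 2 ≤ tt * I2 := by
    have nn : 0 ≤ ∫ y in (0 : ℝ)..tt, (e y - I1 / tt) ^ 2 :=
      intervalIntegral.integral_nonneg hp.le fun y _ => sq_nonneg _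
    have ex : (fun y => (e y - I1 / tt) ^ 2) = fun y => e y ^ 2 - 2 * (I1 / tt) * e y
        + (I1 / tt) ^ 2 := by funext y; ring
    rw [ex, intervalIntegral.integral_add (ie2.sub (ie.const_mul _)) intervalIntegrable_const,
      intervalIntegral.integral_sub ie2 (ie.const_mul _), intervalIntegral.integral_const_mul] at nn
    simp only [intervalIntegral.integral_const, smul_eq_mul, sub_zero] at nn
    rw [← hI1, ← hI2] at nn
    have e3 : I2 - 2 * (I1 / tt) * I1 + tt * (I1 / tt) ^ 2 = I2 - I1 ^ 2 / tt := by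
      field_simp; ring
    rw [e3] at nn
    have : I1 ^ 2 / tt ≤ I2 := by linarith
    rwa [div_le_iff₀ hp, mul_comm] at this
  have hI : I1 ^ 2 ≤ M ^ 2 := by
    have up : I1 ≤ M := intervalIntegral.integral_mono_on hp.le ie iq
      fun y _ => (le_abs_self _).trans (be y)
    have lo : -M ≤ I1 := by
      rw [hM, ← intervalIntegral.integral_neg]
      exact intervalIntegral.integral_mono_on hp.le iq.neg ie
        fun y _ => by have := neg_abs_le (e y); have := be y; linarith
    exact sq_le_sq' lo up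
  rw [s1]
  set b := (1 - Y) / 2 with hb
  have hb0 : 0 ≤ b := by simp only [hb]; linarith
  have hbt : 0 < tt - b := by simp only [hb]; linarith
  have k1 : -(tt - b) * d ^ 2 - d * I1 ≤ I1 ^ 2 / (4 * (tt - b)) := by
    rw [le_div_iff₀ (by positivity)]
    nlinarith [sq_nonneg (2 * (tt - b) * d + I1)]
  have k2 : I1 ^ 2 / (4 * (tt - b)) - I1 ^ 2 / (4 * tt) = I1 ^ 2 * (b / (4 * tt * (tt - b))) := by
    have := hbt.ne'
    field_simp
    ring
  have k3 : I1 ^ 2 / (4 * tt) ≤ I2 / 4 := by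
    rw [div_le_iff₀ (by positivity)]
    nlinarith
  have k4 : I1 ^ 2 * (b / (4 * tt * (tt - b))) ≤ M ^ 2 * (b / (4 * tt * (tt - b))) :=
    mul_le_mul_of_nonneg_right hI (by positivity)
  nlinarith

/-- ROW QD -/
theorem qd7 (hE : ∀ i, MeasurableSet (E i)) (h0 : ∀ i, 0 ≤ μ i) (h1 : ∑ i, μ i = 1) :
    (∫ y in (0 : ℝ)..1, br E μ y) ≤
      (∫ y in (0 : ℝ)..tt, ((1 - tt) / 2 - y) * (1 - P E μ y) ^ 2)
        + 1.051 * (∫ y in (0 : ℝ)..tt, (1 - P E μ y)) ^ 2 := by
  have hp := tt_pos
  have h3 := third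
  have hl := tt_lt
  have mq : Measurable fun y => 1 - P E μ y := (P_meas hE).const_sub 1
  have bq : ∀ y, |1 - P E μ y| ≤ 1 := fun y => by
    have a := P_nonneg h0 (E := E) y
    have b := P_le h0 h1 (E := E) y
    rw [abs_le]; constructor <;> linarith
  have bq2 : ∀ y, |(1 - P E μ y) ^ 2| ≤ 1 := fun y => by
    rw [abs_pow]; exact pow_le_one₀ (abs_nonneg _) (bq y)
  have iq : ∀ a b, IntervalIntegrable (fun y => 1 - P E μ y) volume a b := fun a b => ii mq 1 bq a b
  have iq2 : ∀ a b, IntervalIntegrable (fun y => (1 - P E μ y) ^ 2) volume a b := fun a b =>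
    ii (f := fun y => (1 - P E μ y) ^ 2) (mq.pow_const 2) 1 bq2 a b
  obtain ⟨t1, t2⟩ := triq mq bq hp.le
  obtain ⟨sw1, sw2, sw3⟩ := swapI (Phi_meas (μ := μ) hE) 4 (Phi_abs h0 h1) hp.le hl.le
  have bi := br_ii (μ := μ) hE
  have bi1 : IntervalIntegrable (br E μ) volume 0 tt := bi.mono_set (by
    rw [uIcc_of_le hp.le, uIcc_of_le zero_le_one]; exact Icc_subset_Icc le_rfl hl.le)
  have bi2 : IntervalIntegrable (br E μ) volume tt 1 := bi.mono_set (by
    rw [uIcc_of_le hl.le, uIcc_of_le zero_le_one]; exact Icc_subset_Icc hp.le le_rfl)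
  have prim : Continuous fun y => ∫ x in y..tt, (1 - P E μ x) := by
    have h := intervalIntegral.continuous_primitive (fun a b => iq a b) tt
    have : (fun y => ∫ x in y..tt, (1 - P E μ x)) = fun y => - ∫ x in tt..y, (1 - P E μ x) := by
      funext y; rw [intervalIntegral.integral_symm]
    rw [this]; exact h.neg
  have prim2 : Continuous fun y => ∫ x in y..tt, (1 - P E μ x) ^ 2 := by
    have h := intervalIntegral.continuous_primitive (fun a b => iq2 a b) tt
    have : (fun y => ∫ x in y..tt, (1 - P E μ x) ^ 2) = fun y => - ∫ x in tt..y, (1 - P E μ x) ^ 2 := by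
      funext y; rw [intervalIntegral.integral_symm]
    rw [this]; exact h.neg
  have r1 : IntervalIntegrable (fun y => (1 - tt) / 4 * (1 - P E μ y) ^ 2) volume 0 tt :=
    (iq2 0 tt).const_mul _
  have r2 : IntervalIntegrable (fun y => (1 - P E μ y) * ∫ x in y..tt, (1 - P E μ x)) volume 0 tt :=
    (iq 0 tt).mul_continuousOn prim.continuousOn
  have r3 : IntervalIntegrable (fun y => ∫ x in y..tt, (1 - P E μ x) ^ 2) volume 0 tt :=
    prim2.intervalIntegrable 0 tt
  -- low part
  have low : (∫ y in (0 : ℝ)..tt, br E μ y) ≤ ∫ y in (0 : ℝ)..tt,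
      ((1 - tt) / 4 * (1 - P E μ y) ^ 2 + ((1 - P E μ y) * (∫ x in y..tt, (1 - P E μ x))
        - ∫ x in y..tt, (1 - P E μ x) ^ 2) + ∫ Y in tt..1, Phi E μ y Y) := by
    refine intervalIntegral.integral_mono_on hp.le bi1 ((r1.add (r2.sub r3)).add sw1) fun y hy => ?_
    have h := br_low hE h0 h1 hy.2
    have h' : (∫ Y in y..tt, ((1 - P E μ y) * (1 - P E μ Y) - (1 - P E μ Y) ^ 2)) =
        (1 - P E μ y) * (∫ x in y..tt, (1 - P E μ x)) - ∫ x in y..tt, (1 - P E μ x) ^ 2 := by
      rw [intervalIntegral.integral_sub ((iq y tt).const_mul _) (iq2 y tt),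
        intervalIntegral.integral_const_mul]
    rw [h'] at h
    exact h
  rw [intervalIntegral.integral_add (r1.add (r2.sub r3)) sw1,
    intervalIntegral.integral_add r1 (r2.sub r3), intervalIntegral.integral_sub r2 r3,
    intervalIntegral.integral_const_mul, t1, t2, sw3] at low
  -- high part
  have hd2 : IntervalIntegrable (fun Y => (1 - Y) / 2 * (P E μ Y - U Y) ^ 2) volume tt 1 := by
    have m : Measurable fun Y => (P E μ Y - U Y) ^ 2 :=
      ((P_meas hE).sub U_cont.measurable).pow_const 2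
    have b : ∀ Y, |(P E μ Y - U Y) ^ 2| ≤ 1 := fun Y => by
      have a := P_nonneg h0 (E := E) Y
      have b := P_le h0 h1 (E := E) Y
      have c := U_nonneg Y
      have d := U_le Y
      rw [abs_pow]
      exact pow_le_one₀ (abs_nonneg _) (by rw [abs_le]; constructor <;> linarith)
    have c : Continuous fun Y : ℝ => (1 - Y) / 2 := by fun_prop
    have := (ii m 1 b tt 1).mul_continuousOn c.continuousOn
    refine this.congr_ae ?_
    exact Filter.Eventually.of_forall fun Y => by simp only; ring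
  have high : (∫ Y in tt..1, br E μ Y) ≤ ∫ Y in tt..1, (1 - Y) / 2 * (P E μ Y - U Y) ^ 2 :=
    intervalIntegral.integral_mono_on hl.le bi2 hd2 fun Y hY => br_high hE h0 h1 hY.2
  set A := ∫ y in (0 : ℝ)..tt, (1 - P E μ y) ^ 2 with hA
  set M := ∫ y in (0 : ℝ)..tt, (1 - P E μ y) with hM
  have kc : IntervalIntegrable (fun Y => ((1 - Y) / 2) / (4 * tt * (tt - (1 - Y) / 2))) volume tt 1 := by
    refine ContinuousOn.intervalIntegrable fun Y hY => ?_
    rw [uIcc_of_le hl.le] at hY
    have : 4 * tt * (tt - (1 - Y) / 2) ≠ 0 := by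
      have h5 : 0 < tt - (1 - Y) / 2 := by linarith [hY.1]
      positivity
    have c1 : Continuous fun Y : ℝ => (1 - Y) / 2 := by fun_prop
    have c2 : Continuous fun Y : ℝ => 4 * tt * (tt - (1 - Y) / 2) :=
      continuous_const.mul (continuous_const.sub c1)
    exact (c1.continuousAt.div c2.continuousAt this).continuousWithinAt
  have col : (∫ Y in tt..1, ((∫ y in (0 : ℝ)..tt, Phi E μ y Y)
      + (1 - Y) / 2 * (P E μ Y - U Y) ^ 2)) ≤
      ∫ Y in tt..1, (A / 4 + M ^ 2 * (((1 - Y) / 2) / (4 * tt * (tt - (1 - Y) / 2)))) :=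
    intervalIntegral.integral_mono_on hl.le (sw2.add hd2)
      (intervalIntegrable_const.add (kc.const_mul _)) fun Y hY => column hE h0 h1 hY.1 hY.2
  rw [intervalIntegral.integral_add sw2 hd2, intervalIntegral.integral_add
    intervalIntegrable_const (kc.const_mul _), intervalIntegral.integral_const_mul] at col
  simp only [intervalIntegral.integral_const, smul_eq_mul] at col
  have hk := mul_le_mul_of_nonneg_left kap (sq_nonneg M)
  have iy : IntervalIntegrable (fun y => y * (1 - P E μ y) ^ 2) volume 0 tt := by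
    have := (iq2 0 tt).mul_continuousOn (continuous_id (X := ℝ)).continuousOn
    refine this.congr_ae ?_
    exact Filter.Eventually.of_forall fun Y => by simp only [id]; ring
  have fin : (∫ y in (0 : ℝ)..tt, ((1 - tt) / 2 - y) * (1 - P E μ y) ^ 2) =
      (1 - tt) / 2 * A - ∫ y in (0 : ℝ)..tt, y * (1 - P E μ y) ^ 2 := by
    have : (fun y => ((1 - tt) / 2 - y) * (1 - P E μ y) ^ 2) = fun y =>
        (1 - tt) / 2 * (1 - P E μ y) ^ 2 - y * (1 - P E μ y) ^ 2 := by funext y; ring
    rw [this, intervalIntegral.integral_sub ((iq2 0 tt).const_mul _) iy,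
      intervalIntegral.integral_const_mul]
  rw [fin, ← intervalIntegral.integral_add_adjacent_intervals bi1 bi2]
  linarith

end fin

end Pool.Agent.Lib.MP_efec9b_co.ID7
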