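import Mathlib

/-!
MP_efec9b, H = (0 0; 0 1).  Row SL (helper18): the slack of a set of weighted columns against the
nested law with tails `U y = min 1 (1 / (e y))`.
-/

namespace Pool.Agent.Lib.MP_efec9b_co.SL18

open MeasureTheory Set

noncomputable section

/-- The number `1 / e`. -/
def c : ℝ := Real.exp (-1)

lemma c_pos : 0 < c := Real.exp_pos _

lemma c_lt_one : c < 1 := by
  unfold c
  rw [Real.exp_lt_one_iff]
  norm_num

lemma log_c : Real.log c = -1 := Real.log_exp _

/-- The tail function: `1` up to `c`, `c / y` after. -/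
def U (y : ℝ) : ℝ := c / max c y

/-- The lower bound of the slack density of a missing column at `y`; it is `0` for `c ≤ y`. -/
def lam (y : ℝ) : ℝ :=
  2 * c * (Real.sqrt (1 - y / c) - Real.log (1 + Real.sqrt (1 - y / c)))

/-- The tail integral of `U`. -/
def W (x : ℝ) : ℝ := ∫ y in x..1, U y

def V (x : ℝ) : ℝ := ∫ y in (0 : ℝ)..x, U y
def T (x : ℝ) : ℝ := ∫ y in (0 : ℝ)..x, y * U y
def Bn (x : ℝ) : ℝ := ∫ s in (0 : ℝ)..x, 2 * max s 0
def La (x : ℝ) : ℝ := ∫ s in (0 : ℝ)..x, lam s

lemma U_of_le {y : ℝ} (h : y ≤ c) : U y = 1 := by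
  unfold U
  rw [max_eq_left h]
  exact div_self c_pos.ne'

lemma U_of_ge {y : ℝ} (h : c ≤ y) : U y = c / y := by
  unfold U
  rw [max_eq_right h]

lemma cont_U : Continuous U := by
  unfold U
  exact continuous_const.div (continuous_const.max continuous_id)
    (fun y => (lt_of_lt_of_le c_pos (le_max_left _ _)).ne')

lemma cont_lam : Continuous lam := by
  unfold lam
  have h1 : Continuous (fun y : ℝ => Real.sqrt (1 - y / c)) :=
    Real.continuous_sqrt.comp (continuous_const.sub (continuous_id.div_const c))
  refine continuous_const.mul (h1.sub ?_)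
  refine (continuous_const.add h1).log ?_
  intro y
  have h : (0 : ℝ) < 1 + Real.sqrt (1 - y / c) := by
    have := Real.sqrt_nonneg (1 - y / c)
    linarith
  exact h.ne'

lemma V_deriv (x : ℝ) : HasDerivAt V (U x) x :=
  (cont_U.integral_hasStrictDerivAt 0 x).hasDerivAt

lemma T_deriv (x : ℝ) : HasDerivAt T (x * U x) x :=
  ((continuous_id.mul cont_U).integral_hasStrictDerivAt 0 x).hasDerivAt

lemma Bn_deriv (x : ℝ) : HasDerivAt Bn (2 * max x 0) x :=
  ((continuous_const.mul (continuous_id.max continuous_const)).integral_hasStrictDerivAt 0 x).hasDerivAt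

lemma La_deriv (x : ℝ) : HasDerivAt La (lam x) x :=
  (cont_lam.integral_hasStrictDerivAt 0 x).hasDerivAt

/-- `log (1 + a) ≥ a - a ^ 2 / 2`. -/
lemma log_lower {a : ℝ} (ha : 0 ≤ a) : a - a ^ 2 / 2 ≤ Real.log (1 + a) := by
  have h := Real.le_log_one_add_of_nonneg ha
  refine le_trans ?_ h
  rw [le_div_iff₀ (by linarith)]
  nlinarith [mul_nonneg ha (mul_nonneg ha ha)]

/-- `log x ≤ (x - 1 / x) / 2` for `1 ≤ x`. -/
lemma log_upper {x : ℝ} (hx : 1 ≤ x) : 2 * Real.log x ≤ x - 1 / x := by
  have h0 : 0 < x := by linarith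
  have h := (Real.self_le_sinh_iff).2 (Real.log_nonneg hx)
  rw [Real.sinh_log h0] at h
  rw [one_div]
  linarith

/-- the one variable inequality -/
lemma core_ineq {u v : ℝ} (hu0 : 0 ≤ u) (hv : 1 ≤ v) :
    2 * u - 2 * Real.log (1 + u) ≤ v - (1 - u ^ 2) / v - 2 * Real.log v := by
  have hv0 : 0 < v := by linarith
  have hu : 0 < 1 + u := by linarith
  rcases le_total (1 + u) v with h | h
  · have hx : 1 ≤ v / (1 + u) := by rw [le_div_iff₀ hu]; linarith
    have h2 := log_upper hx
    rw [Real.log_div hv0.ne' hu.ne'] at h2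
    have e1 : v / (1 + u) - 1 / (v / (1 + u)) ≤
        v - (1 - u ^ 2) / v - 2 * u := by
      have : v - (1 - u ^ 2) / v - 2 * u - (v / (1 + u) - 1 / (v / (1 + u)))
          = u * (v - (1 + u)) ^ 2 / (v * (1 + u)) := by
        field_simp
        ring
      have h3 : 0 ≤ u * (v - (1 + u)) ^ 2 / (v * (1 + u)) := by positivity
      linarith
    linarith
  · have ha : 0 ≤ (1 + u) / v - 1 := by
      rw [sub_nonneg, le_div_iff₀ hv0]; linarith
    have h2 := log_lower ha
    have e0 : 1 + ((1 + u) / v - 1) = (1 + u) / v := by ring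
    rw [e0, Real.log_div hu.ne' hv0.ne'] at h2
    have e1 : v - (1 - u ^ 2) / v - 2 * u + 2 * (((1 + u) / v - 1) - ((1 + u) / v - 1) ^ 2 / 2) =
        (v - 1) * (v - (1 + u)) ^ 2 / v ^ 2 := by
      field_simp
      ring
    have h3 : 0 ≤ (v - 1) * (v - (1 + u)) ^ 2 / v ^ 2 := by
      have : 0 ≤ v - 1 := by linarith
      positivity
    linarith

lemma V_of_le {x : ℝ} (hx : x ≤ c) : V x = x := by
  unfold V
  have h : ∫ y in (0 : ℝ)..x, U y = ∫ y in (0 : ℝ)..x, (1 : ℝ) := by
    apply intervalIntegral.integral_congr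
    intro y hy
    apply U_of_le
    have := hy.2
    have h2 : max 0 x ≤ c := max_le c_pos.le hx
    exact le_trans this h2
  rw [h]
  simp

lemma V_of_ge {x : ℝ} (hx : c ≤ x) : V x = c + c * (Real.log x + 1) := by
  have hadd : V x = V c + ∫ y in c..x, U y := by
    unfold V
    rw [intervalIntegral.integral_add_adjacent_intervals (cont_U.intervalIntegrable _ _)
      (cont_U.intervalIntegrable _ _)]
  rw [hadd, V_of_le le_rfl]
  have h : ∫ y in c..x, U y = ∫ y in c..x, c * y⁻¹ := by
    apply intervalIntegral.integral_congr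
    intro y hy
    have : c ≤ y := by
      have := hy.1
      rwa [min_eq_left hx] at this
    show U y = c * y⁻¹
    rw [U_of_ge this, div_eq_mul_inv]
  rw [h, intervalIntegral.integral_const_mul, integral_inv_of_pos c_pos
    (lt_of_lt_of_le c_pos hx), Real.log_div (lt_of_lt_of_le c_pos hx).ne' c_pos.ne', log_c]
  ring

lemma V_one : V 1 = 2 * c := by
  rw [V_of_ge c_lt_one.le, Real.log_one]
  ring

lemma lam_of_ge {y : ℝ} (hy : c ≤ y) : lam y = 0 := by
  unfold lam
  have h : Real.sqrt (1 - y / c) = 0 := by
    apply Real.sqrt_eq_zero_of_nonpos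
    have : 1 ≤ y / c := by rw [le_div_iff₀ c_pos]; linarith
    linarith
  rw [h]
  simp

lemma sq_sqrt' {y : ℝ} (hy : y ≤ c) : Real.sqrt (1 - y / c) ^ 2 = 1 - y / c := by
  apply Real.sq_sqrt
  have : y / c ≤ 1 := by rw [div_le_one c_pos]; exact hy
  linarith

lemma lam_le {y : ℝ} (hy : y ≤ c) : lam y ≤ c - y := by
  unfold lam
  have h0 := Real.sqrt_nonneg (1 - y / c)
  have h1 := log_lower h0
  have h2 := sq_sqrt' hy
  have h3 : c * (y / c) = y := by
    have := c_pos.ne'
    field_simp
  have hc := c_pos
  nlinarith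

lemma lam_nonneg (y : ℝ) : 0 ≤ lam y := by
  unfold lam
  have h0 := Real.sqrt_nonneg (1 - y / c)
  have h1 : Real.log (1 + Real.sqrt (1 - y / c)) ≤ (1 + Real.sqrt (1 - y / c)) - 1 :=
    Real.log_le_sub_one_of_pos (by linarith)
  have hc := c_pos
  have : 0 ≤ Real.sqrt (1 - y / c) - Real.log (1 + Real.sqrt (1 - y / c)) := by linarith
  positivity

/-- The derivative of the potential along a gap is at most `- lam y`. -/
lemma key {y l r : ℝ} (hl : l ≤ y) (hr : 0 ≤ r) :
    lam y ≤ (2 * r + l) * U (y + r) + (r - l) * U y - 2 * (V (y + r) - V y)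
      + 2 * max (c - r - y) 0 := by
  have hc := c_pos
  rcases le_total (y + r) c with h1 | h1
  · have hy : y ≤ c := by linarith
    rw [U_of_le h1, U_of_le hy, V_of_le h1, V_of_le hy, max_eq_left (by linarith)]
    have := lam_le hy
    linarith
  · have hz : 0 < y + r := by linarith
    rw [max_eq_right (by linarith)]
    rcases le_total y c with h2 | h2
    · rw [U_of_ge h1, U_of_le h2, V_of_ge h1, V_of_le h2]
      have hv : 1 ≤ (y + r) / c := by rw [le_div_iff₀ hc]; linarith
      have h3 := core_ineq (Real.sqrt_nonneg (1 - y / c)) hv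
      rw [sq_sqrt' h2, Real.log_div hz.ne' hc.ne', log_c] at h3
      have h4 : c * ((y + r) / c - (1 - (1 - y / c)) / ((y + r) / c)
          - 2 * (Real.log (y + r) - -1)) =
          (y + r) - c * y / (y + r) - 2 * c * (Real.log (y + r) + 1) := by
        field_simp
        ring
      have h5 : c * (2 * Real.sqrt (1 - y / c) - 2 * Real.log (1 + Real.sqrt (1 - y / c)))
          = lam y := by
        unfold lam
        ring
      have h6 := mul_le_mul_of_nonneg_left h3 hc.le
      rw [h4, h5] at h6
      have h7 : (2 * r + l) * (c / (y + r)) + (r - l) * 1 - 2 * (c + c * (Real.log (y + r) + 1) - y)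
          - ((y + r) - c * y / (y + r) - 2 * c * (Real.log (y + r) + 1)) =
          (y - l) * (1 - c / (y + r)) := by
        field_simp
        ring
      have h8 : 0 ≤ (y - l) * (1 - c / (y + r)) := by
        apply mul_nonneg (by linarith)
        have : c / (y + r) ≤ 1 := by rw [div_le_one hz]; exact h1
        linarith
      linarith
    · have hy : 0 < y := by linarith
      rw [U_of_ge h1, U_of_ge h2, V_of_ge h1, V_of_ge h2, lam_of_ge h2]
      have hs : 1 ≤ (y + r) / y := by rw [le_div_iff₀ hy]; linarith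
      have h3 := log_upper hs
      rw [Real.log_div hz.ne' hy.ne'] at h3
      have h6 := mul_le_mul_of_nonneg_left h3 hc.le
      have h7 : (2 * r + l) * (c / (y + r)) + (r - l) * (c / y)
          - c * ((y + r) / y - 1 / ((y + r) / y)) =
          (y - l) * r * c / (y * (y + r)) := by
        field_simp
        ring
      have h8 : 0 ≤ (y - l) * r * c / (y * (y + r)) := by
        have : 0 ≤ y - l := by linarith
        positivity
      linarith

/-- the constant of the linear form -/
def k0 : ℝ := 2 - 2 * Real.log 2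

lemma k0_pos : 0 ≤ k0 := by
  unfold k0
  have : Real.log 2 ≤ 2 - 1 := Real.log_le_sub_one_of_pos (by norm_num)
  linarith

lemma k0_le : k0 ≤ 1 := by
  unfold k0
  have := Real.log_two_gt_d9
  linarith

/-- The same with the linear lower bound `k0 * (c - y)`. -/
lemma key_lin {y l r : ℝ} (hy0 : 0 ≤ y) (hl : l ≤ y) (hr : 0 ≤ r) :
    k0 * max (c - y) 0 ≤ (2 * r + l) * U (y + r) + (r - l) * U y - 2 * (V (y + r) - V y)
      + 2 * max (c - r - y) 0 := by
  have hc := c_pos
  rcases le_total (y + r) c with h1 | h1
  · have hy : y ≤ c := by linarith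
    rw [U_of_le h1, U_of_le hy, V_of_le h1, V_of_le hy, max_eq_left (by linarith),
      max_eq_left (by linarith)]
    have := k0_le
    nlinarith [mul_nonneg (sub_nonneg.2 this) (sub_nonneg.2 hy)]
  · have hz : 0 < y + r := by linarith
    rcases le_total y c with h2 | h2
    · rw [max_eq_right (show c - r - y ≤ 0 by linarith), max_eq_left (show 0 ≤ c - y by linarith)]
      rw [U_of_ge h1, U_of_le h2, V_of_ge h1, V_of_le h2]
      have hv : 1 ≤ (y + r) / c := by rw [le_div_iff₀ hc]; linarith
      have h3 := log_upper hv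
      rw [Real.log_div hz.ne' hc.ne', log_c] at h3
      have h4 : Real.log ((y + r) / c / 2) ≤ (y + r) / c / 2 - 1 :=
        Real.log_le_sub_one_of_pos (by positivity)
      rw [Real.log_div (by positivity) (by norm_num), Real.log_div hz.ne' hc.ne', log_c] at h4
      have h3' := mul_le_mul_of_nonneg_left h3 hy0
      have h4' := mul_le_mul_of_nonneg_left h4 (sub_nonneg.2 h2)
      have e3 : y * ((y + r) / c - 1 / ((y + r) / c)) = y * (y + r) / c - y * c / (y + r) := by
        field_simp
      rw [e3] at h3'
      have h7 : (2 * r + l) * (c / (y + r)) + (r - l) * 1 - 2 * (c + c * (Real.log (y + r) + 1) - y)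
          - ((y + r) - c * y / (y + r) - 2 * c * (Real.log (y + r) + 1)) =
          (y - l) * (1 - c / (y + r)) := by
        field_simp
        ring
      have h8 : 0 ≤ (y - l) * (1 - c / (y + r)) := by
        apply mul_nonneg (by linarith)
        have : c / (y + r) ≤ 1 := by rw [div_le_one hz]; exact h1
        linarith
      have e5 : (c - y) * ((y + r) / c / 2 - 1) = ((y + r) - y * (y + r) / c) / 2 - (c - y) := by
        field_simp
      rw [e5] at h4'
      have e6 : c * y / (y + r) = y * c / (y + r) := by ring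
      rw [e6] at h7
      unfold k0
      nlinarith
    · have := key hl hr
      rw [lam_of_ge h2] at this
      rw [max_eq_right (show c - y ≤ 0 by linarith), mul_zero]
      exact this

/-- The potential, `A = int_0^y chi`, `k = int_0^1 chi`. -/
def Psi (y a r : ℝ) : ℝ :=
  (r - a + 2 * y) * (V (y + r) - V y) - 2 * (T (y + r) - T y) + r * (V 1 - V (y + r))
    + Bn (c - r - y)

lemma Psi_end (a : ℝ) : Psi 1 a 0 = 0 := by
  unfold Psi
  have h : Bn (c - 0 - 1) = 0 := by
    unfold Bn
    have h1 : ∫ s in (0 : ℝ)..(c - 0 - 1), 2 * max s 0 = ∫ s in (0 : ℝ)..(c - 0 - 1), (0 : ℝ) := by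
      apply intervalIntegral.integral_congr
      intro s hs
      have h2 := hs.2
      have h3 : max 0 (c - 0 - 1) ≤ 0 := max_le le_rfl (by have := c_lt_one; linarith)
      show 2 * max s 0 = 0
      rw [max_eq_right (le_trans h2 h3), mul_zero]
    rw [h1]
    simp
  rw [h]
  simp

lemma start_deriv (k : ℝ) : HasDerivAt (fun k => 2 * c * k - 2 * T k + Bn (c - k)) 0 k := by
  have h1 : HasDerivAt (fun k : ℝ => 2 * c * k) (2 * c) k := by
    simpa using (hasDerivAt_id k).const_mul (2 * c)
  have h2 : HasDerivAt (fun k : ℝ => 2 * T k) (2 * (k * U k)) k := (T_deriv k).const_mul 2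
  have h3 : HasDerivAt (fun k : ℝ => Bn (c - k)) (2 * max (c - k) 0 * (-1)) k := by
    have hd : HasDerivAt (fun k : ℝ => c - k) (-1) k := by
      simpa using (hasDerivAt_id k).const_sub c
    exact (Bn_deriv (c - k)).comp k hd
  have h := (h1.sub h2).add h3
  have hval : 2 * c - 2 * (k * U k) + 2 * max (c - k) 0 * (-1) = 0 := by
    rcases le_total k c with hk | hk
    · rw [U_of_le hk, max_eq_left (by linarith)]
      ring
    · have hk0 : 0 < k := lt_of_lt_of_le c_pos hk
      rw [U_of_ge hk, max_eq_right (by linarith)]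
      field_simp
      ring
  rw [hval] at h
  exact h

lemma start_const (k : ℝ) : 2 * c * k - 2 * T k + Bn (c - k) = c ^ 2 := by
  have hdiff : Differentiable ℝ (fun k => 2 * c * k - 2 * T k + Bn (c - k)) :=
    fun x => (start_deriv x).differentiableAt
  have h := is_const_of_deriv_eq_zero hdiff (fun x => (start_deriv x).deriv) k 0
  have hT : T 0 = 0 := by unfold T; simp
  have hB : Bn c = c ^ 2 := by
    unfold Bn
    have h1 : ∫ s in (0 : ℝ)..c, 2 * max s 0 = ∫ s in (0 : ℝ)..c, 2 * s := by
      apply intervalIntegral.integral_congr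
      intro s hs
      have h2 : 0 ≤ s := by
        have := hs.1
        rwa [min_eq_left c_pos.le] at this
      show 2 * max s 0 = 2 * s
      rw [max_eq_left h2]
    rw [h1, intervalIntegral.integral_const_mul, integral_id]
    ring
  simp only [sub_zero, mul_zero, hT, hB] at h
  linarith

lemma Psi_start (k : ℝ) : Psi 0 0 k = c ^ 2 := by
  have h := start_const k
  have hV0 : V 0 = 0 := by unfold V; simp
  have hT0 : T 0 = 0 := by unfold T; simp
  unfold Psi
  rw [V_one, zero_add, hV0, hT0]
  have e : c - k - 0 = c - k := by ring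
  rw [e]
  linarith

/-- The general slack inequality. -/
theorem sl_general (L : ℝ → ℝ) (hL : Continuous L)
    (hkey : ∀ y l r : ℝ, 0 ≤ y → l ≤ y → 0 ≤ r →
      L y ≤ (2 * r + l) * U (y + r) + (r - l) * U y - 2 * (V (y + r) - V y)
        + 2 * max (c - r - y) 0)
    (chi : ℝ → ℝ) (hm : Measurable chi) (h01 : ∀ y, chi y = 0 ∨ chi y = 1)
    (hr : ∀ y ∈ Ico (0 : ℝ) 1, ContinuousWithinAt chi (Ioi y) y) :
    ∫ y in (0 : ℝ)..1, (chi y * (U y * ((∫ x in y..1, chi x) - ∫ x in (0 : ℝ)..y, chi x)
        + W (y + ∫ x in y..1, chi x)) + (1 - chi y) * L y) ≤ c ^ 2 := by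
  have h0le : ∀ y, 0 ≤ chi y := fun y => by rcases h01 y with h | h <;> rw [h]; norm_num
  have hle1 : ∀ y, chi y ≤ 1 := fun y => by rcases h01 y with h | h <;> rw [h]; norm_num
  have hint : ∀ a b : ℝ, IntervalIntegrable chi volume a b := by
    intro a b
    refine (intervalIntegrable_const (c := (1 : ℝ))).mono_fun hm.aestronglyMeasurable ?_
    filter_upwards with x
    rw [Real.norm_of_nonneg (h0le x)]
    simpa using hle1 x
  set al : ℝ → ℝ := fun y => ∫ x in (0 : ℝ)..y, chi x with hal
  set k : ℝ := ∫ x in (0 : ℝ)..1, chi x with hk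
  have hrho : ∀ y, (∫ x in y..1, chi x) = k - al y := by
    intro y
    have := intervalIntegral.integral_add_adjacent_intervals (hint 0 y) (hint y 1)
    simp only [hal, hk]
    linarith
  have hal_cont : Continuous al := intervalIntegral.continuous_primitive (fun a b => hint a b) 0
  have hal_der : ∀ y ∈ Ico (0 : ℝ) 1, HasDerivWithinAt al (chi y) (Ici y) y := by
    intro y hy
    exact intervalIntegral.integral_hasDerivWithinAt_right (hint 0 y)
      (hm.stronglyMeasurable.stronglyMeasurableAtFilter) (hr y hy)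
  have hW : ∀ x, W x = V 1 - V x := by
    intro x
    have := intervalIntegral.integral_add_adjacent_intervals
      (cont_U.intervalIntegrable (μ := volume) 0 x) (cont_U.intervalIntegrable x 1)
    unfold W V
    linarith
  have hUc : Continuous U := cont_U
  have hVc : Continuous V := continuous_iff_continuousAt.2 fun x => (V_deriv x).continuousAt
  have hTc : Continuous T := continuous_iff_continuousAt.2 fun x => (T_deriv x).continuousAt
  have hBc : Continuous Bn := continuous_iff_continuousAt.2 fun x => (Bn_deriv x).continuousAt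
  set f : ℝ → ℝ := fun y => chi y * (U y * ((k - al y) - al y) + (V 1 - V (y + (k - al y))))
    + (1 - chi y) * L y with hf
  have hfm : Measurable f := by
    have := hm
    have h1 := cont_U.measurable
    have h2 := hal_cont.measurable
    have h3 := hVc.measurable
    have h4 := hL.measurable
    simp only [hf]
    fun_prop
  have halle : ∀ y ∈ Icc (0 : ℝ) 1, al y ≤ y := by
    intro y hy
    have := intervalIntegral.integral_mono_on hy.1 (hint 0 y)
      (intervalIntegrable_const (c := (1 : ℝ))) (fun x _ => hle1 x)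
    simpa [hal] using this
  have hal0 : ∀ y ∈ Icc (0 : ℝ) 1, 0 ≤ al y := by
    intro y hy
    exact intervalIntegral.integral_nonneg hy.1 (fun x _ => h0le x)
  have hrho0 : ∀ y ∈ Icc (0 : ℝ) 1, 0 ≤ k - al y := by
    intro y hy
    rw [← hrho]
    exact intervalIntegral.integral_nonneg hy.2 (fun x _ => h0le x)
  have hal1 : al 1 = k := rfl
  have hal00 : al 0 = 0 := by simp [hal]
  -- f is integrable
  set g1 : ℝ → ℝ := fun y => U y * ((k - al y) - al y) + (V 1 - V (y + (k - al y))) with hg1
  have hg1c : Continuous g1 := by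
    simp only [hg1]
    fun_prop
  have hfi : ∀ a b : ℝ, IntervalIntegrable f volume a b := by
    intro a b
    have hbd : IntervalIntegrable (fun y => |g1 y| + |L y|) volume a b :=
      (hg1c.abs.add hL.abs).intervalIntegrable a b
    refine hbd.mono_fun hfm.aestronglyMeasurable ?_
    filter_upwards with x
    have e : f x = chi x * g1 x + (1 - chi x) * L x := rfl
    rw [Real.norm_eq_abs, Real.norm_eq_abs, e]
    have hp : 0 ≤ |g1 x| + |L x| := by positivity
    rw [abs_of_nonneg hp]
    rcases h01 x with h | h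
    · rw [h]
      simp
    · rw [h]
      simp
  set G : ℝ → ℝ := fun y => Psi y (al y) (k - al y) + ∫ x in (0 : ℝ)..y, f x with hG
  have hGc : Continuous G := by
    have hFc : Continuous (fun y => ∫ x in (0 : ℝ)..y, f x) :=
      intervalIntegral.continuous_primitive (fun a b => hfi a b) 0
    simp only [hG, Psi]
    fun_prop
  have hG0 : G 0 = c ^ 2 := by
    simp only [hG, hal00, sub_zero]
    rw [Psi_start]
    simp
  have hG1 : G 1 = ∫ x in (0 : ℝ)..1, f x := by
    simp only [hG, hal1, sub_self]
    rw [Psi_end]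
    simp
  have hder : ∀ y ∈ Ico (0 : ℝ) 1, HasDerivWithinAt G
      ((1 - chi y) * (L y - ((2 * (k - al y) + al y) * U (y + (k - al y)) + ((k - al y) - al y) * U y
        - 2 * (V (y + (k - al y)) - V y) + 2 * max (c - (k - al y) - y) 0))) (Ici y) y := by
    intro y hy
    have h1 := hal_der y hy
    have hid : HasDerivWithinAt (fun y : ℝ => y) 1 (Ici y) y := hasDerivWithinAt_id y _
    have hr1 : HasDerivWithinAt (fun y => k - al y) (-chi y) (Ici y) y := by
      simpa using h1.const_sub k
    have hz : HasDerivWithinAt (fun y => y + (k - al y)) (1 + -chi y) (Ici y) y := hid.add hr1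
    have hV1 : HasDerivWithinAt (fun y => V (y + (k - al y)))
        (U (y + (k - al y)) * (1 + -chi y)) (Ici y) y :=
      HasDerivAt.comp_hasDerivWithinAt (h := fun y => y + (k - al y)) (h₂ := V) y
        (V_deriv (y + (k - al y))) hz
    have hT1 : HasDerivWithinAt (fun y => T (y + (k - al y)))
        ((y + (k - al y)) * U (y + (k - al y)) * (1 + -chi y)) (Ici y) y :=
      HasDerivAt.comp_hasDerivWithinAt (h := fun y => y + (k - al y)) (h₂ := T) y
        (T_deriv (y + (k - al y))) hz
    have hV2 : HasDerivWithinAt V (U y) (Ici y) y := (V_deriv y).hasDerivWithinAt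
    have hT2 : HasDerivWithinAt T (y * U y) (Ici y) y := (T_deriv y).hasDerivWithinAt
    have hb : HasDerivWithinAt (fun y => c - (k - al y) - y) (chi y - 1) (Ici y) y := by
      have h := (hr1.const_sub c).sub hid
      have e : - -chi y - 1 = chi y - 1 := by ring
      rw [e] at h
      exact h
    have hB1 : HasDerivWithinAt (fun y => Bn (c - (k - al y) - y))
        (2 * max (c - (k - al y) - y) 0 * (chi y - 1)) (Ici y) y :=
      HasDerivAt.comp_hasDerivWithinAt (h := fun y => c - (k - al y) - y) (h₂ := Bn) y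
        (Bn_deriv (c - (k - al y) - y)) hb
    have hco : HasDerivWithinAt (fun y => (k - al y) - al y + 2 * y) (-chi y - chi y + 2 * 1)
        (Ici y) y := (hr1.sub h1).add (hid.const_mul 2)
    have hF : HasDerivWithinAt (fun u => ∫ x in (0 : ℝ)..u, f x) (f y) (Ici y) y := by
      refine intervalIntegral.integral_hasDerivWithinAt_right (hfi 0 y)
        (hfm.stronglyMeasurable.stronglyMeasurableAtFilter) ?_
      have hc1 := hr y hy
      have e : f = fun y => chi y * g1 y + (1 - chi y) * L y := rfl
      rw [e]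
      exact (hc1.mul hg1c.continuousAt.continuousWithinAt).add
        ((continuousWithinAt_const.sub hc1).mul hL.continuousAt.continuousWithinAt)
    have hP : HasDerivWithinAt (fun y => Psi y (al y) (k - al y))
        (((-chi y - chi y + 2 * 1) * (V (y + (k - al y)) - V y)
          + ((k - al y) - al y + 2 * y) * (U (y + (k - al y)) * (1 + -chi y) - U y))
          - 2 * ((y + (k - al y)) * U (y + (k - al y)) * (1 + -chi y) - y * U y)
          + ((-chi y) * (V 1 - V (y + (k - al y)))
            + (k - al y) * (0 - U (y + (k - al y)) * (1 + -chi y)))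
          + 2 * max (c - (k - al y) - y) 0 * (chi y - 1)) (Ici y) y := by
      have hV1c : HasDerivWithinAt (fun _ : ℝ => V 1) 0 (Ici y) y := hasDerivWithinAt_const _ _ _
      exact (((hco.mul (hV1.sub hV2)).sub ((hT1.sub hT2).const_mul 2)).add
        (hr1.mul (hV1c.sub hV1))).add hB1
    have hh := hP.add hF
    have hval : (((-chi y - chi y + 2 * 1) * (V (y + (k - al y)) - V y)
          + ((k - al y) - al y + 2 * y) * (U (y + (k - al y)) * (1 + -chi y) - U y))
          - 2 * ((y + (k - al y)) * U (y + (k - al y)) * (1 + -chi y) - y * U y)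
          + ((-chi y) * (V 1 - V (y + (k - al y)))
            + (k - al y) * (0 - U (y + (k - al y)) * (1 + -chi y)))
          + 2 * max (c - (k - al y) - y) 0 * (chi y - 1)) + f y
        = (1 - chi y) * (L y - ((2 * (k - al y) + al y) * U (y + (k - al y))
          + ((k - al y) - al y) * U y
          - 2 * (V (y + (k - al y)) - V y) + 2 * max (c - (k - al y) - y) 0)) := by
      simp only [hf]
      ring
    rw [hval] at hh
    exact hh
  have hmain := image_le_of_deriv_right_le_deriv_boundary (f := G) (a := 0) (b := 1)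
    hGc.continuousOn hder (B := fun _ => c ^ 2) (B' := fun _ => 0) hG0.le continuousOn_const
    (fun x _ => hasDerivWithinAt_const _ _ _) (by
      intro y hy
      have hy' : y ∈ Icc (0 : ℝ) 1 := ⟨hy.1, hy.2.le⟩
      have h1 := hkey y (al y) (k - al y) hy.1 (halle y hy') (hrho0 y hy')
      have h2 : 0 ≤ 1 - chi y := sub_nonneg.2 (hle1 y)
      exact mul_nonpos_of_nonneg_of_nonpos h2 (by linarith)) (x := 1) ⟨zero_le_one, le_rfl⟩
  rw [hG1] at hmain
  have hfin : (fun y => (chi y * (U y * ((∫ x in y..1, chi x) - ∫ x in (0 : ℝ)..y, chi x)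
        + W (y + ∫ x in y..1, chi x)) + (1 - chi y) * L y)) = f := by
    funext y
    rw [hrho, hW]
  rw [hfin]
  exact hmain

/-- Right continuity of the indicator of a half open interval. -/
lemma ico_right_cont (a b y : ℝ) :
    ContinuousWithinAt (Set.indicator (Ico a b) (fun _ => (1 : ℝ))) (Ioi y) y := by
  rcases lt_or_ge y a with h | h
  · have h1 : Set.indicator (Ico a b) (fun _ => (1 : ℝ)) =ᶠ[nhdsWithin y (Ioi y)] fun _ => 0 := by
      filter_upwards [mem_nhdsWithin_of_mem_nhds (Iio_mem_nhds h)] with x hx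
      exact Set.indicator_of_notMem (fun hx2 => absurd hx2.1 (not_le.2 hx)) _
    refine (continuousWithinAt_const (b := (0 : ℝ))).congr_of_eventuallyEq h1 ?_
    exact Set.indicator_of_notMem (fun hx2 => absurd hx2.1 (not_le.2 h)) _
  · rcases lt_or_ge y b with h2 | h2
    · have h1 : Set.indicator (Ico a b) (fun _ => (1 : ℝ)) =ᶠ[nhdsWithin y (Ioi y)] fun _ => 1 := by
        filter_upwards [mem_nhdsWithin_of_mem_nhds (Iio_mem_nhds h2), self_mem_nhdsWithin]
          with x hx hx2
        exact Set.indicator_of_mem (show x ∈ Ico a b from ⟨le_trans h (le_of_lt hx2), hx⟩) _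
      refine (continuousWithinAt_const (b := (1 : ℝ))).congr_of_eventuallyEq h1 ?_
      exact Set.indicator_of_mem (show y ∈ Ico a b from ⟨h, h2⟩) _
    · have h1 : Set.indicator (Ico a b) (fun _ => (1 : ℝ)) =ᶠ[nhdsWithin y (Ioi y)] fun _ => 0 := by
        filter_upwards [self_mem_nhdsWithin] with x hx
        exact Set.indicator_of_notMem (fun hx2 => absurd hx2.2 (not_lt.2 (le_trans h2 (le_of_lt hx)))) _
      refine (continuousWithinAt_const (b := (0 : ℝ))).congr_of_eventuallyEq h1 ?_
      exact Set.indicator_of_notMem (fun hx2 => absurd hx2.2 (not_lt.2 h2)) _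

/-- Right continuity of finite sums of such indicators. -/
lemma step_right_cont {ι : Type*} (s : Finset ι) (a b : ι → ℝ) (y : ℝ) :
    ContinuousWithinAt (fun x => ∑ i ∈ s, Set.indicator (Ico (a i) (b i)) (fun _ => (1 : ℝ)) x)
      (Ioi y) y := by
  induction s using Finset.cons_induction with
  | empty => simpa using continuousWithinAt_const
  | cons i s his ih =>
    simp only [Finset.sum_cons]
    exact (ico_right_cont (a i) (b i) y).add ih

/-- Row SL, the form of 78: slack of a set against the nested law. -/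
theorem sl18 (chi : ℝ → ℝ) (hm : Measurable chi) (h01 : ∀ y, chi y = 0 ∨ chi y = 1)
    (hr : ∀ y ∈ Ico (0 : ℝ) 1, ContinuousWithinAt chi (Ioi y) y) :
    ∫ y in (0 : ℝ)..1, chi y * (Real.exp (-1) / max y (Real.exp (-1))
        * ((∫ x in y..1, chi x) - ∫ x in (0 : ℝ)..y, chi x)
        + ∫ z in (y + ∫ x in y..1, chi x)..1, Real.exp (-1) / max z (Real.exp (-1)))
      ≤ Real.exp (-1) ^ 2
        - ∫ y in (0 : ℝ)..Real.exp (-1), (1 - chi y)
            * ((2 - 2 * Real.log 2) * (Real.exp (-1) - y)) := by
  have h0le : ∀ y, 0 ≤ chi y := fun y => by rcases h01 y with h | h <;> rw [h]; norm_num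
  have hle1 : ∀ y, chi y ≤ 1 := fun y => by rcases h01 y with h | h <;> rw [h]; norm_num
  have hint : ∀ a b : ℝ, IntervalIntegrable chi volume a b := by
    intro a b
    refine (intervalIntegrable_const (c := (1 : ℝ))).mono_fun hm.aestronglyMeasurable ?_
    filter_upwards with x
    rw [Real.norm_of_nonneg (h0le x)]
    simpa using hle1 x
  have hLc : Continuous (fun y => k0 * max (c - y) 0) := by fun_prop
  have hmain := sl_general (fun y => k0 * max (c - y) 0) hLc
    (fun y l r hy hl hr => key_lin hy hl hr) chi hm h01 hr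
  have hUc : Continuous U := cont_U
  obtain ⟨k, hk⟩ : ∃ k, k = ∫ x in (0 : ℝ)..1, chi x := ⟨_, rfl⟩
  have hrho : ∀ y, (∫ x in y..1, chi x) = k - ∫ x in (0 : ℝ)..y, chi x := by
    intro y
    have := intervalIntegral.integral_add_adjacent_intervals (hint 0 y) (hint y 1)
    linarith
  have halc : Continuous (fun y => ∫ x in (0 : ℝ)..y, chi x) :=
    intervalIntegral.continuous_primitive (fun a b => hint a b) 0
  have hW : ∀ x, W x = V 1 - V x := by
    intro x
    have := intervalIntegral.integral_add_adjacent_intervals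
      (cont_U.intervalIntegrable (μ := volume) 0 x) (cont_U.intervalIntegrable x 1)
    unfold W V
    linarith
  have hVc : Continuous V := continuous_iff_continuousAt.2 fun x => (V_deriv x).continuousAt
  have hg1 : Continuous (fun y => U y * ((∫ x in y..1, chi x) - ∫ x in (0 : ℝ)..y, chi x)
      + W (y + ∫ x in y..1, chi x)) := by
    simp only [hrho, hW]
    fun_prop
  have hmulint : ∀ (g : ℝ → ℝ), Continuous g → ∀ a b : ℝ,
      IntervalIntegrable (fun y => chi y * g y) volume a b := by
    intro g hg a b
    refine (hg.abs.intervalIntegrable a b).mono_fun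
      (hm.mul hg.measurable).aestronglyMeasurable ?_
    filter_upwards with x
    rw [Real.norm_eq_abs, Real.norm_eq_abs, abs_abs, abs_mul, abs_of_nonneg (h0le x)]
    exact mul_le_of_le_one_left (abs_nonneg _) (hle1 x)
  have hint2 : ∀ a b : ℝ,
      IntervalIntegrable (fun y => (1 - chi y) * (k0 * max (c - y) 0)) volume a b := by
    intro a b
    have h1 := (hLc.intervalIntegrable (μ := volume) a b).sub (hmulint _ hLc a b)
    refine h1.congr ?_
    intro y _
    show k0 * max (c - y) 0 - chi y * (k0 * max (c - y) 0) = (1 - chi y) * (k0 * max (c - y) 0)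
    ring
  rw [intervalIntegral.integral_add (hmulint _ hg1 0 1) (hint2 0 1)] at hmain
  have hsplit := intervalIntegral.integral_add_adjacent_intervals (hint2 0 c) (hint2 c 1)
  have h2 : ∫ y in c..1, (1 - chi y) * (k0 * max (c - y) 0) = 0 := by
    have : ∫ y in c..1, (1 - chi y) * (k0 * max (c - y) 0) = ∫ y in c..1, (0 : ℝ) := by
      apply intervalIntegral.integral_congr
      intro y hy
      have h3 : c ≤ y := by
        have := hy.1
        rwa [min_eq_left c_lt_one.le] at this
      show (1 - chi y) * (k0 * max (c - y) 0) = 0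
      rw [max_eq_right (by linarith)]
      ring
    rw [this]
    simp
  have h3 : ∫ y in (0 : ℝ)..c, (1 - chi y) * (k0 * max (c - y) 0)
      = ∫ y in (0 : ℝ)..c, (1 - chi y) * ((2 - 2 * Real.log 2) * (c - y)) := by
    apply intervalIntegral.integral_congr
    intro y hy
    have h4 : y ≤ c := by
      have := hy.2
      rwa [max_eq_right c_pos.le] at this
    show (1 - chi y) * (k0 * max (c - y) 0) = (1 - chi y) * ((2 - 2 * Real.log 2) * (c - y))
    rw [max_eq_left (by linarith)]
    rfl
  have hUe : ∀ y, Real.exp (-1) / max y (Real.exp (-1)) = U y := by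
    intro y
    unfold U c
    rw [max_comm]
  have e1 : (fun y => chi y * (Real.exp (-1) / max y (Real.exp (-1))
        * ((∫ x in y..1, chi x) - ∫ x in (0 : ℝ)..y, chi x)
        + ∫ z in (y + ∫ x in y..1, chi x)..1, Real.exp (-1) / max z (Real.exp (-1))))
      = (fun y => chi y * (U y * ((∫ x in y..1, chi x) - ∫ x in (0 : ℝ)..y, chi x)
        + W (y + ∫ x in y..1, chi x))) := by
    funext y
    simp only [hUe]
    rfl
  rw [e1]
  have e2 : Real.exp (-1) = c := rfl
  rw [e2, ← h3]
  linarith

end

end Pool.Agent.Lib.MP_efec9b_co.SL18
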