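import Mathlib

/-!
Row SL (P4) of MP_efec9b (21): the first order slack of a step set against the nested optimum.
-/

set_option autoImplicit false

namespace Pool.Agent.Lib.MP_efec9b_co.SL21

open MeasureTheory intervalIntegral

/-- The number 1/e. -/
noncomputable def tt : ℝ := Real.exp (-1)

theorem tt_pos : 0 < tt := Real.exp_pos _

theorem log_tt : Real.log tt = -1 := Real.log_exp _

/-- U x = min (1, t/x). -/
noncomputable def U (x : ℝ) : ℝ := tt / max x tt

theorem mx_pos (x : ℝ) : 0 < max x tt := lt_max_of_lt_right tt_pos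

theorem U_cont : Continuous U := by
  unfold U
  exact continuous_const.div (continuous_id.max continuous_const) (fun x => (mx_pos x).ne')

theorem U_low {x : ℝ} (h : x ≤ tt) : U x = 1 := by
  unfold U
  rw [max_eq_right h, div_self tt_pos.ne']

theorem U_high {x : ℝ} (h : tt ≤ x) : U x = tt / x := by
  unfold U
  rw [max_eq_left h]

/-- The primitive of U. -/
noncomputable def V (x : ℝ) : ℝ := ∫ s in (0 : ℝ)..x, U s

theorem V_deriv (x : ℝ) : HasDerivAt V (U x) x := (U_cont.integral_hasStrictDerivAt 0 x).hasDerivAt

theorem V_cont : Continuous V := continuous_iff_continuousAt.2 fun x => (V_deriv x).continuousAt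

/-- The primitive of V. -/
noncomputable def W (x : ℝ) : ℝ := ∫ s in (0 : ℝ)..x, V s

theorem W_deriv (x : ℝ) : HasDerivAt W (V x) x := (V_cont.integral_hasStrictDerivAt 0 x).hasDerivAt

/-- R x = the integral of U from x to 1. -/
noncomputable def R (x : ℝ) : ℝ := 2 * tt - V x

theorem V_low {x : ℝ} (h0 : 0 ≤ x) (h : x ≤ tt) : V x = x := by
  unfold V
  rw [integral_congr (g := fun _ => (1 : ℝ))]
  · simp
  · intro s hs
    rw [Set.uIcc_of_le h0] at hs
    exact U_low (hs.2.trans h)

theorem V_high {x : ℝ} (h : tt ≤ x) : V x = 2 * tt + tt * Real.log x := by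
  have h1 : V x = V tt + ∫ s in tt..x, U s := by
    unfold V
    rw [integral_add_adjacent_intervals (U_cont.intervalIntegrable _ _)
      (U_cont.intervalIntegrable _ _)]
  have h2 : ∫ s in tt..x, U s = tt * (Real.log x + 1) := by
    rw [integral_congr (g := fun s => tt * s⁻¹)]
    · rw [intervalIntegral.integral_const_mul, integral_inv_of_pos tt_pos (tt_pos.trans_le h),
        Real.log_div (tt_pos.trans_le h).ne' tt_pos.ne', log_tt]
      ring
    · intro s hs
      rw [Set.uIcc_of_le h] at hs
      show U s = tt * s⁻¹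
      rw [U_high hs.1, div_eq_mul_inv]
  rw [h1, h2, V_low tt_pos.le le_rfl]
  ring

theorem W_low {x : ℝ} (h0 : 0 ≤ x) (h : x ≤ tt) : W x = x ^ 2 / 2 := by
  unfold W
  rw [integral_congr (g := fun s => s)]
  · rw [integral_id]
    ring
  · intro s hs
    rw [Set.uIcc_of_le h0] at hs
    exact V_low hs.1 (hs.2.trans h)

theorem W_high {x : ℝ} (h : tt ≤ x) :
    W x = tt ^ 2 / 2 + tt * x + tt * x * Real.log x := by
  have h1 : W x = W tt + ∫ s in tt..x, V s := by
    unfold W
    rw [integral_add_adjacent_intervals (V_cont.intervalIntegrable _ _)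
      (V_cont.intervalIntegrable _ _)]
  have h2 : ∫ s in tt..x, V s =
      2 * tt * (x - tt) + tt * (x * Real.log x - tt * Real.log tt - x + tt) := by
    rw [integral_congr (g := fun s => 2 * tt + tt * Real.log s)]
    · rw [intervalIntegral.integral_add intervalIntegrable_const
        (intervalIntegral.intervalIntegrable_log'.const_mul _),
        intervalIntegral.integral_const, intervalIntegral.integral_const_mul, integral_log]
      simp only [smul_eq_mul]
      ring
    · intro s hs
      rw [Set.uIcc_of_le h] at hs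
      exact V_high hs.1
  rw [h1, h2, W_low tt_pos.le le_rfl, log_tt]
  ring

/-- The potential. -/
noncomputable def E (a m n : ℝ) : ℝ :=
  2 * tt * (a - m) - (2 * a - m) * V (a + n) - (a - 2 * m) * V (m + n) + 2 * W (a + n) -
    2 * W (m + n)

/-- The loss of a missing point y, m = measure of the set before y, a = total measure. -/
noncomputable def kap (a m y : ℝ) : ℝ :=
  (2 * a - m) * U (a + y - m) + (a - 2 * m) * U y - 2 * V (a + y - m) + 2 * V y

theorem kap_cont (a m : ℝ) : Continuous (kap a m) := by
  unfold kap
  have h1 : Continuous fun y => U (a + y - m) := U_cont.comp (by fun_prop)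
  have h2 : Continuous fun y => V (a + y - m) := V_cont.comp (by fun_prop)
  have h3 := U_cont
  have h4 := V_cont
  fun_prop

theorem inblock (a m n w : ℝ) :
    ∫ y in (m + n)..(m + n + w), (U y * (a - 2 * (y - n)) + R (a + n)) =
      E a m n - E a (m + w) n := by
  have hd : ∀ y ∈ Set.uIcc (m + n) (m + n + w), HasDerivAt
      (fun y => -(2 * tt * (a - (y - n)) - (2 * a - (y - n)) * V (a + n) -
        (a - 2 * (y - n)) * V y + 2 * W (a + n) - 2 * W y))
      (U y * (a - 2 * (y - n)) + R (a + n)) y := by
    intro y _
    have hV := V_deriv y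
    have hW := W_deriv y
    have hy : HasDerivAt (fun y : ℝ => y - n) 1 y := (hasDerivAt_id y).sub_const n
    have h1 : HasDerivAt (fun y : ℝ => 2 * tt * (a - (y - n))) (2 * tt * (0 - 1)) y :=
      ((hasDerivAt_const y a).sub hy).const_mul _
    have h2 : HasDerivAt (fun y : ℝ => (2 * a - (y - n)) * V (a + n))
        ((0 - 1) * V (a + n)) y := ((hasDerivAt_const y (2 * a)).sub hy).mul_const _
    have h3 : HasDerivAt (fun y : ℝ => (a - 2 * (y - n)) * V y)
        ((0 - 2 * 1) * V y + (a - 2 * (y - n)) * U y) y :=
      ((hasDerivAt_const y a).sub (hy.const_mul 2)).mul hV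
    have h4 := ((((h1.sub h2).sub h3).add (hasDerivAt_const y (2 * W (a + n)))).sub
      (hW.const_mul 2)).neg
    refine h4.congr_deriv ?_
    unfold R
    ring
  rw [integral_eq_sub_of_hasDerivAt hd]
  · unfold E
    have e1 : m + n + w - n = m + w := by ring
    have e2 : m + n - n = m := by ring
    have e3 : m + w + n = m + n + w := by ring
    rw [e1, e2, e3]
    ring
  · apply Continuous.intervalIntegrable
    have := U_cont
    fun_prop

theorem outblock (a m n w : ℝ) :
    ∫ y in (m + n)..(m + n + w), kap a m y = E a m n - E a m (n + w) := by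
  have hd : ∀ y ∈ Set.uIcc (m + n) (m + n + w), HasDerivAt
      (fun y => -(2 * tt * (a - m) - (2 * a - m) * V (a + y - m) -
        (a - 2 * m) * V y + 2 * W (a + y - m) - 2 * W y)) (kap a m y) y := by
    intro y _
    have hV := V_deriv y
    have hW := W_deriv y
    have hy : HasDerivAt (fun y : ℝ => a + y - m) 1 y := by
      simpa using ((hasDerivAt_id y).const_add a).sub_const m
    have hV2 : HasDerivAt (fun y : ℝ => V (a + y - m)) (U (a + y - m) * 1) y :=
      HasDerivAt.comp (h₂ := V) (h := fun y : ℝ => a + y - m) y (V_deriv (a + y - m)) hy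
    have hW2 : HasDerivAt (fun y : ℝ => W (a + y - m)) (V (a + y - m) * 1) y :=
      HasDerivAt.comp (h₂ := W) (h := fun y : ℝ => a + y - m) y (W_deriv (a + y - m)) hy
    have h4 := (((((hasDerivAt_const y (2 * tt * (a - m))).sub (hV2.const_mul (2 * a - m))).sub
      (hV.const_mul (a - 2 * m))).add (hW2.const_mul 2)).sub (hW.const_mul 2)).neg
    refine h4.congr_deriv ?_
    unfold kap
    ring
  rw [integral_eq_sub_of_hasDerivAt hd ((kap_cont a m).intervalIntegrable _ _)]
  unfold E
  have e1 : a + (m + n + w) - m = a + (n + w) := by ring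
  have e2 : a + (m + n) - m = a + n := by ring
  have e3 : m + (n + w) = m + n + w := by ring
  rw [e1, e2, e3]
  ring

theorem E_end (a n : ℝ) : E a a n = 0 := by
  unfold E
  ring

theorem E_zero {a : ℝ} (ha : 0 ≤ a) : E a 0 0 = tt ^ 2 - (max (tt - a) 0) ^ 2 := by
  unfold E
  rw [add_zero, add_zero, V_low le_rfl tt_pos.le, W_low le_rfl tt_pos.le]
  rcases le_total a tt with h | h
  · rw [V_low ha h, W_low ha h, max_eq_left (by linarith)]
    ring
  · rw [V_high h, W_high h, max_eq_right (by linarith)]
    ring

/-- The lower bound for the loss. -/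
noncomputable def lamp (y : ℝ) : ℝ :=
  2 * tt * (√(1 - y / tt) - Real.log (1 + √(1 - y / tt)))

theorem lamp_cont : Continuous lamp := by
  unfold lamp
  have h1 : Continuous fun y : ℝ => √(1 - y / tt) := by fun_prop
  have h2 : Continuous fun y : ℝ => Real.log (1 + √(1 - y / tt)) :=
    (continuous_const.add h1).log (fun y => by
      have := Real.sqrt_nonneg (1 - y / tt)
      have h : (0 : ℝ) < 1 + √(1 - y / tt) := by linarith
      exact h.ne')
  fun_prop

theorem lamp_high {y : ℝ} (h : tt ≤ y) : lamp y = 0 := by
  unfold lamp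
  have : 1 - y / tt ≤ 0 := by
    rw [sub_nonpos, le_div_iff₀ tt_pos]
    linarith
  rw [Real.sqrt_eq_zero_of_nonpos this]
  simp

theorem lamp_le {y : ℝ} (h : y ≤ tt) : lamp y ≤ tt - y := by
  unfold lamp
  have h0 : 0 ≤ 1 - y / tt := by
    rw [sub_nonneg, div_le_iff₀ tt_pos]
    linarith
  have hs := Real.sq_sqrt h0
  set u := √(1 - y / tt) with hu
  have hu0 : 0 ≤ u := Real.sqrt_nonneg _
  have h1 := Real.le_log_one_add_of_nonneg hu0
  have h2 : u - u ^ 2 / 2 ≤ 2 * u / (u + 2) := by
    rw [le_div_iff₀ (by linarith)]
    nlinarith [pow_nonneg hu0 3]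
  have h3 : y = tt * (1 - u ^ 2) := by
    have htn := tt_pos.ne'
    rw [hs]
    have : tt * (1 - (1 - y / tt)) = y := by
      have e : 1 - (1 - y / tt) = y / tt := by ring
      rw [e, mul_div_cancel₀ _ htn]
    exact this.symm
  have h4 : u - Real.log (1 + u) ≤ u ^ 2 / 2 := by linarith
  have h5 : 2 * tt * (u - Real.log (1 + u)) ≤ 2 * tt * (u ^ 2 / 2) :=
    mul_le_mul_of_nonneg_left h4 (by have := tt_pos; linarith)
  rw [h3]
  linarith

/-- s - 1/s - 2 log s is nonnegative for s at least 1. -/
theorem two_log_le {s : ℝ} (hs : 1 ≤ s) : 2 * Real.log s ≤ s - 1 / s := by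
  have hmono : MonotoneOn (fun x : ℝ => x - 1 / x - 2 * Real.log x) (Set.Ici 1) := by
    have hder : ∀ x : ℝ, 0 < x → HasDerivAt (fun x : ℝ => x - 1 / x - 2 * Real.log x)
        ((1 - 1 / x) ^ 2) x := by
      intro x hx
      have h1 : HasDerivAt (fun x : ℝ => 1 / x) (-(x ^ 2)⁻¹) x := by
        simpa [one_div] using hasDerivAt_inv hx.ne'
      have h2 := ((hasDerivAt_id x).sub h1).sub ((Real.hasDerivAt_log hx.ne').const_mul 2)
      refine h2.congr_deriv ?_
      field_simp
      ring
    apply monotoneOn_of_deriv_nonneg (convex_Ici 1)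
    · intro x hx
      exact (hder x (lt_of_lt_of_le one_pos hx)).continuousAt.continuousWithinAt
    · intro x hx
      rw [interior_Ici] at hx
      exact (hder x (lt_trans one_pos hx)).differentiableAt.differentiableWithinAt
    · intro x hx
      rw [interior_Ici] at hx
      rw [(hder x (lt_trans one_pos hx)).deriv]
      positivity
  have h := hmono (Set.mem_Ici.2 le_rfl) (Set.mem_Ici.2 hs) hs
  simp only [Real.log_one] at h
  linarith

theorem psi_le {s : ℝ} (hs0 : 0 < s) (hs : s ≤ 1) :
    1 / s - s + 2 * Real.log s ≤ (1 - s) ^ 3 / s ^ 2 := by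
  have h1 := Real.le_log_one_add_of_nonneg (show 0 ≤ 1 / s - 1 by
    rw [sub_nonneg, le_div_iff₀ hs0]; linarith)
  have h2 : 1 + (1 / s - 1) = s⁻¹ := by rw [one_div]; ring
  rw [h2, Real.log_inv] at h1
  have hs1 : (1 + s) ≠ 0 := by linarith
  have h3 : 2 * (1 / s - 1) / (1 / s - 1 + 2) = 2 * (1 - s) / (1 + s) := by
    have e1 : 1 / s - 1 = (1 - s) / s := by
      field_simp
    have e2 : (1 - s) / s + 2 = (1 + s) / s := by
      field_simp
      ring
    rw [e1, e2]
    field_simp
  rw [h3] at h1
  have h4 : 1 / s - s - 4 * (1 - s) / (1 + s) = (1 - s) ^ 3 / (s * (1 + s)) := by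
    field_simp
    ring
  have h5 : (1 - s) ^ 3 / (s * (1 + s)) ≤ (1 - s) ^ 3 / s ^ 2 := by
    apply div_le_div_of_nonneg_left (pow_nonneg (by linarith) 3) (by positivity)
    nlinarith
  have h6 : 4 * (1 - s) / (1 + s) = 2 * (2 * (1 - s) / (1 + s)) := by ring
  rw [h6] at h4
  linarith

/-- The scalar inequality behind the slack. -/
theorem core {u β : ℝ} (hu : 0 ≤ u) (hβ : 1 ≤ β) :
    2 * (u - Real.log (1 + u)) ≤ β - (1 - u ^ 2) / β - 2 * Real.log β := by
  have hu1 : 0 < 1 + u := by linarith
  obtain ⟨s, hs⟩ : ∃ s, β = (1 + u) * s := ⟨β / (1 + u), by field_simp⟩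
  have hs0 : 0 < s := by
    by_contra h
    push Not at h
    nlinarith
  have hlog : Real.log β = Real.log (1 + u) + Real.log s := by
    rw [hs, Real.log_mul hu1.ne' hs0.ne']
  have hdiv : (1 - u ^ 2) / β = (1 - u) / s := by
    rw [hs]
    field_simp
    ring
  rw [hlog, hdiv, hs]
  have key : 0 ≤ (s - 1 / s - 2 * Real.log s) + u * (s + 1 / s - 2) := by
    have hq : s + 1 / s - 2 = (1 - s) ^ 2 / s := by
      field_simp
      ring
    rcases le_total 1 s with h | h
    · have h1 := two_log_le h
      have h2 : 0 ≤ u * (s + 1 / s - 2) := by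
        rw [hq]
        positivity
      linarith
    · have h1 := psi_le hs0 h
      have h2 : (1 - s) / s ≤ u := by
        rw [div_le_iff₀ hs0]
        nlinarith
      have h3 : (1 - s) ^ 3 / s ^ 2 ≤ u * (s + 1 / s - 2) := by
        rw [hq]
        have e : (1 - s) ^ 3 / s ^ 2 = (1 - s) / s * ((1 - s) ^ 2 / s) := by
          field_simp
        rw [e]
        exact mul_le_mul_of_nonneg_right h2 (by positivity)
      linarith
  have e : (1 + u) * s - (1 - u) / s = (s - 1 / s) + u * (s + 1 / s) := by
    field_simp
    ring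
  rw [e]
  linarith

/-- The pointwise inequality. -/
theorem kap_ge {a m y : ℝ} (hm : 0 ≤ m) (hma : m ≤ a) (hmy : m ≤ y) :
    lamp y ≤ kap a m y + max (tt - a - (y - m)) 0 := by
  have ht := tt_pos
  have hy0 : 0 ≤ y := hm.trans hmy
  have hb0 : y ≤ a + y - m := by linarith
  rcases le_total (a + y - m) tt with hb | hb
  · -- everything below t
    have hyt : y ≤ tt := by linarith
    unfold kap
    rw [U_low hb, U_low hyt, V_low (by linarith) hb, V_low hy0 hyt, max_eq_left (by linarith)]
    have := lamp_le hyt
    linarith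
  · have hbpos : 0 < a + y - m := ht.trans_le hb
    rcases le_total y tt with hyt | hyt
    · have h0 : 0 ≤ 1 - y / tt := by
        rw [sub_nonneg, div_le_iff₀ tt_pos]
        linarith
      have hs := Real.sq_sqrt h0
      set u := √(1 - y / tt) with hu
      have hu0 : 0 ≤ u := Real.sqrt_nonneg _
      have hβ : 1 ≤ (a + y - m) / tt := by
        rw [le_div_iff₀ ht]
        linarith
      have hc := core hu0 hβ
      have hy : 1 - u ^ 2 = y / tt := by rw [hs]; ring
      rw [hy, Real.log_div hbpos.ne' ht.ne', log_tt] at hc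
      have hk : kap a m y = tt * ((a + y - m) / tt - y / tt / ((a + y - m) / tt) -
          2 * (Real.log (a + y - m) - -1)) + (y - m) * (1 - tt / (a + y - m)) := by
        unfold kap
        rw [U_high hb, U_low hyt, V_high hb, V_low hy0 hyt]
        field_simp
        ring
      have h1 : 0 ≤ (y - m) * (1 - tt / (a + y - m)) := by
        apply mul_nonneg (by linarith)
        rw [sub_nonneg, div_le_iff₀ hbpos]
        linarith
      have h2 : lamp y = tt * (2 * (u - Real.log (1 + u))) := by
        unfold lamp
        rw [← hu]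
        ring
      have h3 : lamp y ≤ tt * ((a + y - m) / tt - y / tt / ((a + y - m) / tt) -
          2 * (Real.log (a + y - m) - -1)) := by
        rw [h2]
        exact mul_le_mul_of_nonneg_left hc ht.le
      have h4 := le_max_right (tt - a - (y - m)) 0
      linarith
    · have hypos : 0 < y := ht.trans_le hyt
      rw [lamp_high hyt]
      have hr : 1 ≤ (a + y - m) / y := by
        rw [le_div_iff₀ hypos]
        linarith
      have hc := two_log_le hr
      rw [Real.log_div hbpos.ne' hypos.ne'] at hc
      have hk : kap a m y = tt * ((a + y - m) / y - 1 / ((a + y - m) / y) -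
          2 * (Real.log (a + y - m) - Real.log y)) +
          tt * ((y - m) * (1 / y - 1 / (a + y - m))) := by
        unfold kap
        rw [U_high hb, U_high hyt, V_high hb, V_high hyt]
        field_simp
        ring
      have h1 : 0 ≤ tt * ((y - m) * (1 / y - 1 / (a + y - m))) := by
        apply mul_nonneg ht.le
        apply mul_nonneg (by linarith)
        rw [sub_nonneg]
        exact one_div_le_one_div_of_le hypos hb0
      have h2 : 0 ≤ tt * ((a + y - m) / y - 1 / ((a + y - m) / y) -
          2 * (Real.log (a + y - m) - Real.log y)) := by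
        apply mul_nonneg ht.le
        linarith
      have h4 := le_max_right (tt - a - (y - m)) 0
      linarith

/-- The integral of the positive part. -/
theorem int_pos_le {c N : ℝ} (hN : 0 ≤ N) :
    ∫ v in (0 : ℝ)..N, max (c - v) 0 ≤ (max c 0) ^ 2 := by
  have hcont : Continuous fun v : ℝ => max (c - v) 0 := by fun_prop
  rcases le_total c 0 with hc | hc
  · rw [integral_congr (g := fun _ => (0 : ℝ))]
    · simp [max_eq_right hc]
    · intro s hs
      rw [Set.uIcc_of_le hN] at hs
      show max (c - s) 0 = 0
      rw [max_eq_right]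
      linarith [hs.1]
  · rw [max_eq_left hc]
    have hle : ∀ M : ℝ, 0 ≤ M → M ≤ c → ∫ v in (0 : ℝ)..M, max (c - v) 0 ≤ c ^ 2 := by
      intro M hM hMc
      have h1 : ∫ v in (0 : ℝ)..M, max (c - v) 0 ≤ ∫ _ in (0 : ℝ)..M, c := by
        apply integral_mono_on hM (hcont.intervalIntegrable _ _) intervalIntegrable_const
        intro v hv
        exact max_le (by linarith [hv.1]) hc
      rw [intervalIntegral.integral_const, smul_eq_mul] at h1
      nlinarith
    rcases le_total N c with h | h
    · exact hle N hN h
    · rw [← integral_add_adjacent_intervals (hcont.intervalIntegrable 0 c)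
        (hcont.intervalIntegrable c N)]
      have h2 : ∫ v in c..N, max (c - v) 0 = 0 := by
        rw [integral_congr (g := fun _ => (0 : ℝ))]
        · simp
        · intro s hs
          rw [Set.uIcc_of_le h] at hs
          show max (c - s) 0 = 0
          rw [max_eq_right]
          linarith [hs.1]
      rw [h2, add_zero]
      exact hle c hc le_rfl

/-! ### Step sets -/

variable (w : ℕ → ℝ) (A : ℕ → Prop) [DecidablePred A]

/-- The left end of column j. -/
def lf (j : ℕ) : ℝ := ∑ i ∈ Finset.range j, w i

/-- The measure of the set before column j. -/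
def ms (j : ℕ) : ℝ := ∑ i ∈ Finset.range j, if A i then w i else 0

/-- The integrand on a column of the set: with alp = measure of the set before y, rho = measure of
the set after y, it is U y (rho - alp) + R (y + rho). -/
noncomputable def phi (a l m y : ℝ) : ℝ :=
  U y * ((a - (m + (y - l))) - (m + (y - l))) + R (y + (a - (m + (y - l))))

theorem tele (a : ℝ) (k : ℕ) :
    ∑ j ∈ Finset.range k, (if A j then ∫ y in (lf w j)..(lf w j + w j), phi a (lf w j) (ms w A j) y
      else ∫ y in (lf w j)..(lf w j + w j), kap a (ms w A j) y) =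
      E a 0 0 - E a (ms w A k) (lf w k - ms w A k) := by
  induction k with
  | zero => simp [lf, ms]
  | succ k ih =>
    rw [Finset.sum_range_succ, ih]
    have hl : lf w (k + 1) = lf w k + w k := by simp [lf, Finset.sum_range_succ]
    have hm : ms w A (k + 1) = ms w A k + if A k then w k else 0 := by
      simp [ms, Finset.sum_range_succ]
    have e0 : ms w A k + (lf w k - ms w A k) = lf w k := by ring
    by_cases h : A k
    · rw [if_pos h]
      rw [if_pos h] at hm
      have h1 := inblock a (ms w A k) (lf w k - ms w A k) (w k)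
      rw [e0] at h1
      have h2 : ∫ y in (lf w k)..(lf w k + w k), phi a (lf w k) (ms w A k) y =
          ∫ y in (lf w k)..(lf w k + w k), (U y * (a - 2 * (y - (lf w k - ms w A k))) +
            R (a + (lf w k - ms w A k))) := by
        apply integral_congr
        intro y _
        unfold phi
        have e1 : (a - (ms w A k + (y - lf w k))) - (ms w A k + (y - lf w k)) =
          a - 2 * (y - (lf w k - ms w A k)) := by ring
        have e2 : y + (a - (ms w A k + (y - lf w k))) = a + (lf w k - ms w A k) := by ring
        rw [e1, e2]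
      rw [h2, h1, hl, hm]
      have e3 : lf w k + w k - (ms w A k + w k) = lf w k - ms w A k := by ring
      rw [e3]
      ring
    · rw [if_neg h]
      rw [if_neg h, add_zero] at hm
      have h1 := outblock a (ms w A k) (lf w k - ms w A k) (w k)
      rw [e0] at h1
      rw [h1, hl, hm]
      have e3 : lf w k + w k - ms w A k = lf w k - ms w A k + w k := by ring
      rw [e3]
      ring

/-- The primitive of the positive part. -/
noncomputable def P (c v : ℝ) : ℝ := ∫ s in (0 : ℝ)..v, max (c - s) 0

theorem tele2 (c : ℝ) (k : ℕ) :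
    ∑ j ∈ Finset.range k, (if A j then 0
      else ∫ y in (lf w j)..(lf w j + w j), max (c - (y - ms w A j)) 0) =
      P c (lf w k - ms w A k) := by
  have hcont : Continuous fun v : ℝ => max (c - v) 0 := by fun_prop
  induction k with
  | zero => simp [lf, ms, P]
  | succ k ih =>
    rw [Finset.sum_range_succ, ih]
    have hl : lf w (k + 1) = lf w k + w k := by simp [lf, Finset.sum_range_succ]
    have hm : ms w A (k + 1) = ms w A k + if A k then w k else 0 := by
      simp [ms, Finset.sum_range_succ]
    by_cases h : A k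
    · rw [if_pos h]
      rw [if_pos h] at hm
      rw [hl, hm, add_zero]
      congr 1
      ring
    · rw [if_neg h]
      rw [if_neg h, add_zero] at hm
      rw [hl, hm]
      have h1 : ∫ y in (lf w k)..(lf w k + w k), max (c - (y - ms w A k)) 0 =
          ∫ v in (lf w k - ms w A k)..(lf w k + w k - ms w A k), max (c - v) 0 :=
        intervalIntegral.integral_comp_sub_right (fun v => max (c - v) 0) (ms w A k)
      rw [h1]
      unfold P
      rw [integral_add_adjacent_intervals (hcont.intervalIntegrable _ _)
        (hcont.intervalIntegrable _ _)]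

theorem ms_nonneg (hw : ∀ i, 0 ≤ w i) (j : ℕ) : 0 ≤ ms w A j := by
  unfold ms
  apply Finset.sum_nonneg
  intro i _
  split_ifs
  · exact hw i
  · exact le_rfl

theorem ms_mono (hw : ∀ i, 0 ≤ w i) {j k : ℕ} (h : j ≤ k) : ms w A j ≤ ms w A k := by
  unfold ms
  apply Finset.sum_le_sum_of_subset_of_nonneg
  · intro i hi
    rw [Finset.mem_range] at hi ⊢
    omega
  · intro i _ _
    split_ifs
    · exact hw i
    · exact le_rfl

theorem ms_le_lf (hw : ∀ i, 0 ≤ w i) (j : ℕ) : ms w A j ≤ lf w j := by
  unfold ms lf
  apply Finset.sum_le_sum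
  intro i _
  split_ifs
  · exact le_rfl
  · exact hw i

/-- The slack of a step set: with a = measure of the set, the first order value of the set is at
most t^2 minus the integral of lamp over the missing columns. -/
theorem slack (hw : ∀ i, 0 ≤ w i) (n : ℕ) :
    ∑ j ∈ Finset.range n, (if A j then
        ∫ y in (lf w j)..(lf w j + w j), phi (ms w A n) (lf w j) (ms w A j) y else 0) ≤
      tt ^ 2 - ∑ j ∈ Finset.range n, (if A j then 0
        else ∫ y in (lf w j)..(lf w j + w j), lamp y) := by
  set a := ms w A n with ha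
  have ha0 : 0 ≤ a := ms_nonneg w A hw n
  have h1 := tele w A a n
  rw [← ha, E_end, sub_zero, E_zero ha0] at h1
  have h2 := tele2 w A (tt - a) n
  have h3 : P (tt - a) (lf w n - ms w A n) ≤ (max (tt - a) 0) ^ 2 := by
    unfold P
    exact int_pos_le (by have := ms_le_lf w A hw n; linarith)
  have h4 : ∑ j ∈ Finset.range n, (if A j then 0
        else ∫ y in (lf w j)..(lf w j + w j), lamp y) ≤
      ∑ j ∈ Finset.range n, (if A j then 0
        else ∫ y in (lf w j)..(lf w j + w j), kap a (ms w A j) y) +
      ∑ j ∈ Finset.range n, (if A j then 0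
        else ∫ y in (lf w j)..(lf w j + w j), max (tt - a - (y - ms w A j)) 0) := by
    rw [← Finset.sum_add_distrib]
    apply Finset.sum_le_sum
    intro j hj
    rw [Finset.mem_range] at hj
    by_cases h : A j
    · simp [h]
    · rw [if_neg h, if_neg h, if_neg h]
      have hc2 : Continuous fun y : ℝ => max (tt - a - (y - ms w A j)) 0 := by fun_prop
      rw [← intervalIntegral.integral_add ((kap_cont _ _).intervalIntegrable _ _)
        (hc2.intervalIntegrable _ _)]
      apply integral_mono_on (by have := hw j; linarith) (lamp_cont.intervalIntegrable _ _)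
        (((kap_cont _ _).add hc2).intervalIntegrable _ _)
      intro y hy
      apply kap_ge (ms_nonneg w A hw j)
      · rw [ha]
        exact ms_mono w A hw hj.le
      · exact (ms_le_lf w A hw j).trans hy.1
  have h5 : ∑ j ∈ Finset.range n, (if A j then
      ∫ y in (lf w j)..(lf w j + w j), phi a (lf w j) (ms w A j) y
      else ∫ y in (lf w j)..(lf w j + w j), kap a (ms w A j) y) =
      ∑ j ∈ Finset.range n, (if A j then
        ∫ y in (lf w j)..(lf w j + w j), phi a (lf w j) (ms w A j) y else 0) +
      ∑ j ∈ Finset.range n, (if A j then 0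
        else ∫ y in (lf w j)..(lf w j + w j), kap a (ms w A j) y) := by
    rw [← Finset.sum_add_distrib]
    apply Finset.sum_congr rfl
    intro j _
    split_ifs <;> simp
  rw [h5] at h1
  rw [h2] at h4
  linarith

end Pool.Agent.Lib.MP_efec9b_co.SL21
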