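import Mathlib

/-! The slack of a set of columns against the nested law, in uniform discrete form. -/

namespace Pool.Agent.Lib.MP_efec9b_co.SL59

open Finset

noncomputable section

/-- the profile `min (1, T / j)` -/
def U (T : ℝ) (j : ℕ) : ℝ := if (j : ℝ) ≤ T then 1 else T / j

/-- number of elements of `A` after `y` -/
def rho (A : Finset ℕ) (y : ℕ) : ℕ := (A.filter (fun z => y < z)).card

/-- number of elements of `A` before `y` -/
def lft (A : Finset ℕ) (y : ℕ) : ℕ := (A.filter (fun z => z < y)).card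

/-- the linear functional of `A` -/
def L (n : ℕ) (T : ℝ) (A : Finset ℕ) : ℝ :=
  ∑ y ∈ A, (U T y * ((rho A y : ℝ) - lft A y) + ∑ Y ∈ Ioo (y + rho A y) n, U T Y)

/-- the density of the slack -/
def lamT (T : ℝ) (y : ℕ) : ℝ :=
  2 * T * (Real.sqrt (1 - y / T) - Real.log (1 + Real.sqrt (1 - y / T)))

/-! ### one variable inequalities -/

theorem log_le_half {w : ℝ} (hw : 1 ≤ w) : Real.log w ≤ (w - 1 / w) / 2 := by
  have h0 : 0 < w := by linarith
  have h1 : 0 ≤ Real.log w := Real.log_nonneg hw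
  have h2 := Real.self_le_sinh_iff.2 h1
  rw [Real.sinh_eq, Real.exp_log h0, Real.exp_neg, Real.exp_log h0] at h2
  rw [one_div]
  exact h2

theorem log_ge_quad {x : ℝ} (hx : 0 ≤ x) : x - x ^ 2 / 2 ≤ Real.log (1 + x) := by
  have h1 := Real.le_log_one_add_of_nonneg hx
  refine le_trans ?_ h1
  rw [le_div_iff₀ (by linarith)]
  nlinarith [pow_nonneg hx 3]

theorem key_ineq {v z : ℝ} (hv0 : 0 ≤ v) (hz : 1 ≤ z) :
    2 * v - 2 * Real.log (1 + v) ≤ z - (1 - v ^ 2) / z - 2 * Real.log z := by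
  have hz0 : 0 < z := by linarith
  have hv2 : 0 < 1 + v := by linarith
  by_cases h : 1 + v ≤ z
  · have hw : 1 ≤ z / (1 + v) := by
      rw [le_div_iff₀ hv2]; linarith
    have h1 := log_le_half hw
    rw [Real.log_div hz0.ne' hv2.ne'] at h1
    have e1 : z / (1 + v) - 1 / (z / (1 + v)) = z / (1 + v) - (1 + v) / z := by
      field_simp
    rw [e1] at h1
    have e2 : z - (1 - v ^ 2) / z - 2 * v - (z / (1 + v) - (1 + v) / z)
        = v * (z - (1 + v)) ^ 2 / (z * (1 + v)) := by
      field_simp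
      ring
    have e3 : 0 ≤ v * (z - (1 + v)) ^ 2 / (z * (1 + v)) := by positivity
    linarith
  · push Not at h
    have hs : 0 ≤ (1 + v) / z - 1 := by
      rw [sub_nonneg, le_div_iff₀ hz0]; linarith
    have h1 := log_ge_quad hs
    have e0 : 1 + ((1 + v) / z - 1) = (1 + v) / z := by ring
    rw [e0, Real.log_div hv2.ne' hz0.ne'] at h1
    have e2 : z - (1 - v ^ 2) / z - 2 * v
        + 2 * (((1 + v) / z - 1) - ((1 + v) / z - 1) ^ 2 / 2)
        = (v - ((1 + v) / z - 1)) * (z - (1 + v)) ^ 2 / (z * (1 + v)) := by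
      field_simp
      ring
    have e4 : 0 ≤ v - ((1 + v) / z - 1) := by
      have : (1 + v) / z ≤ 1 + v := by
        rw [div_le_iff₀ hz0]
        nlinarith
      linarith
    have e3 : 0 ≤ (v - ((1 + v) / z - 1)) * (z - (1 + v)) ^ 2 / (z * (1 + v)) := by positivity
    linarith

theorem key_lin {s z : ℝ} (hs0 : 0 ≤ s) (hs1 : s ≤ 1) (hz : 1 ≤ z) :
    (2 - 2 * Real.log 2) * (1 - s) ≤ z - s / z - 2 * Real.log z := by
  have hz0 : 0 < z := by linarith
  have h1 := log_le_half hz
  have h2 : Real.log (z / 2) ≤ z / 2 - 1 := Real.log_le_sub_one_of_pos (by positivity)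
  rw [Real.log_div hz0.ne' (by norm_num)] at h2
  have e1 : z - s / z - 2 * Real.log z
      = (1 - s) * (z - 2 * Real.log z) + s * (z - 1 / z - 2 * Real.log z) := by
    field_simp
    ring
  rw [e1]
  have h3 : 2 - 2 * Real.log 2 ≤ z - 2 * Real.log z := by linarith
  have h4 : 0 ≤ z - 1 / z - 2 * Real.log z := by linarith
  nlinarith [mul_nonneg hs0 h4, mul_le_mul_of_nonneg_left h3 (sub_nonneg.2 hs1)]

/-! ### the profile -/

theorem U_nonneg {T : ℝ} (hT : 0 < T) (j : ℕ) : 0 ≤ U T j := by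
  unfold U; split_ifs
  · norm_num
  · positivity

theorem U_le_one {T : ℝ} (hT : 0 < T) (j : ℕ) : U T j ≤ 1 := by
  unfold U; split_ifs with h
  · exact le_refl _
  · push Not at h
    rw [div_le_one (by linarith)]
    exact h.le

theorem U_of_le {T : ℝ} {j : ℕ} (h : (j : ℝ) ≤ T) : U T j = 1 := if_pos h

theorem U_of_lt {T : ℝ} {j : ℕ} (h : T < (j : ℝ)) : U T j = T / j := if_neg (not_le.2 h)

/-- the primitive of the profile -/
def Lam (T x : ℝ) : ℝ := if x ≤ T then x else T + T * Real.log (x / T)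

theorem U_step {T : ℝ} (hT : 0 < T) (j : ℕ) :
    U T (j + 1) ≤ Lam T ((j : ℝ) + 1) - Lam T j := by
  have hj0 : (0 : ℝ) ≤ j := Nat.cast_nonneg j
  have hj1 : (0 : ℝ) < (j : ℝ) + 1 := by linarith
  by_cases h1 : (j : ℝ) + 1 ≤ T
  · rw [U_of_le (by push_cast; exact h1)]
    have h2 : (j : ℝ) ≤ T := by linarith
    simp only [Lam, if_pos h1, if_pos h2]
    linarith
  · push Not at h1
    rw [U_of_lt (by push_cast; exact h1)]
    push_cast
    have hl : 1 - T / ((j : ℝ) + 1) ≤ Real.log (((j : ℝ) + 1) / T) := by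
      have := Real.one_sub_inv_le_log_of_pos (x := ((j : ℝ) + 1) / T) (by positivity)
      rwa [inv_div] at this
    by_cases h2 : (j : ℝ) ≤ T
    · simp only [Lam, if_neg (not_le.2 h1), if_pos h2]
      have h3 : T / ((j : ℝ) + 1) ≤ T + T * (1 - T / ((j : ℝ) + 1)) - j := by
        rw [div_le_iff₀ hj1]
        have e : (T + T * (1 - T / ((j : ℝ) + 1)) - j) * ((j : ℝ) + 1)
            = (2 * T - j) * ((j : ℝ) + 1) - T ^ 2 := by
          field_simp
          ring
        rw [e]
        nlinarith [mul_nonneg (sub_nonneg.2 h2) (by linarith : (0 : ℝ) ≤ j + 1 - T)]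
      nlinarith [mul_le_mul_of_nonneg_left hl hT.le]
    · push Not at h2
      have hj : (0 : ℝ) < j := by linarith
      simp only [Lam, if_neg (not_le.2 h1), if_neg (not_le.2 h2)]
      have h3 := Real.one_sub_inv_le_log_of_pos (x := ((j : ℝ) + 1) / j) (by positivity)
      rw [inv_div, Real.log_div hj1.ne' hj.ne'] at h3
      rw [Real.log_div hj1.ne' hT.ne', Real.log_div hj.ne' hT.ne']
      have e : T / ((j : ℝ) + 1) = T * (1 - (j : ℝ) / ((j : ℝ) + 1)) := by
        field_simp
        ring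
      rw [e]
      nlinarith [mul_le_mul_of_nonneg_left h3 hT.le]

theorem sum_U_le {T : ℝ} (hT : 0 < T) (b v : ℕ) (hbv : b ≤ v) :
    ∑ j ∈ Ico (b + 1) (v + 1), U T j ≤ Lam T v - Lam T b := by
  induction v, hbv using Nat.le_induction with
  | base => simp
  | succ v hv ih =>
    rw [Finset.sum_Ico_succ_top (by omega)]
    have := U_step hT v
    push_cast at this ⊢
    linarith

theorem Lam_mono {T : ℝ} (hT : 0 < T) (v : ℕ) : Lam T v ≤ Lam T ((v : ℝ) + 1) := by
  have h1 := U_step hT v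
  have h2 := U_nonneg hT (v + 1)
  linarith

theorem sum_U_range {T : ℝ} (hT : 0 < T) (n : ℕ) (hn : 1 ≤ n) :
    ∑ j ∈ range n, U T j ≤ 1 + Lam T n := by
  obtain ⟨m, rfl⟩ : ∃ m, n = m + 1 := ⟨n - 1, by omega⟩
  rw [Finset.range_eq_Ico, Finset.sum_eq_sum_Ico_succ_bot (by omega)]
  have h1 := sum_U_le hT 0 m (Nat.zero_le _)
  have h2 := U_le_one hT 0
  have h3 : Lam T ((0 : ℕ) : ℝ) = 0 := by
    simp only [Lam, Nat.cast_zero, if_pos hT.le]
  have h4 := Lam_mono hT m
  rw [h3] at h1
  push_cast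
  simp only [zero_add] at h1 ⊢
  linarith

/-- twice the sum of `r * U r` -/
def Gam (T x : ℝ) : ℝ := if x ≤ T then x ^ 2 else 2 * T * x - T ^ 2

theorem sum_rU {T : ℝ} (hT : 0 < T) (k : ℕ) :
    Gam T k ≤ 2 * ∑ r ∈ range (k + 1), (r : ℝ) * U T r := by
  induction k with
  | zero =>
    simp only [Gam, Nat.cast_zero, if_pos hT.le]
    simp
  | succ k ih =>
    rw [Finset.sum_range_succ, mul_add]
    have hk0 : (0 : ℝ) ≤ k := Nat.cast_nonneg k
    have key : Gam T ((k + 1 : ℕ) : ℝ) - Gam T k ≤ 2 * (((k + 1 : ℕ) : ℝ) * U T (k + 1)) := by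
      push_cast
      by_cases h1 : (k : ℝ) + 1 ≤ T
      · rw [U_of_le (by push_cast; exact h1)]
        simp only [Gam, if_pos h1, if_pos (by linarith : (k : ℝ) ≤ T)]
        nlinarith
      · push Not at h1
        rw [U_of_lt (by push_cast; exact h1)]
        push_cast
        have e : ((k : ℝ) + 1) * (T / ((k : ℝ) + 1)) = T := by
          field_simp
        rw [e]
        by_cases h2 : (k : ℝ) ≤ T
        · simp only [Gam, if_neg (not_le.2 h1), if_pos h2]
          nlinarith [sq_nonneg ((k : ℝ) - T)]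
        · push Not at h2
          simp only [Gam, if_neg (not_le.2 h1), if_neg (not_le.2 h2)]
          nlinarith
    linarith

/-! ### the gap density -/

/-- the contribution of the element number `r` with `g` gaps before it -/
def phi (T : ℝ) (n k r g : ℕ) : ℝ :=
  U T (r + g) * ((k : ℝ) - 1 - 2 * r) + ∑ Y ∈ Ico (g + k) n, U T Y

/-- potential -/
def Psi (T : ℝ) (n k m g : ℕ) : ℝ := ∑ r ∈ Ico m k, phi T n k r g

/-- the density at a gap -/
def kap (T : ℝ) (k m g : ℕ) : ℝ :=
  ∑ r ∈ Ico m k, ((U T (r + g) - U T (r + g + 1)) * ((k : ℝ) - 1 - 2 * r) + U T (g + k))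

theorem Psi_gap (T : ℝ) (n k m g : ℕ) (h : g + k < n) :
    Psi T n k m g = Psi T n k m (g + 1) + kap T k m g := by
  unfold Psi kap
  rw [← Finset.sum_add_distrib]
  refine Finset.sum_congr rfl fun r _ => ?_
  unfold phi
  rw [Finset.sum_eq_sum_Ico_succ_bot h, show g + 1 + k = g + k + 1 by ring,
    show r + (g + 1) = r + g + 1 by ring]
  ring

theorem Psi_el (T : ℝ) (n k m g : ℕ) (h : m < k) :
    Psi T n k m g = phi T n k m g + Psi T n k (m + 1) g := by
  unfold Psi
  rw [Finset.sum_eq_sum_Ico_succ_bot h]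

theorem kap_term_nonneg {T : ℝ} (hT : 0 < T) (k r g : ℕ) (hr : r < k) :
    0 ≤ (U T (r + g) - U T (r + g + 1)) * ((k : ℝ) - 1 - 2 * r) + U T (g + k) := by
  have hk : (r : ℝ) + 1 ≤ k := by exact_mod_cast hr
  have hr0 : (0 : ℝ) ≤ r := Nat.cast_nonneg r
  have hg0 : (0 : ℝ) ≤ g := Nat.cast_nonneg g
  have hU := U_nonneg hT (g + k)
  by_cases h1 : ((r + g + 1 : ℕ) : ℝ) ≤ T
  · have h2 : ((r + g : ℕ) : ℝ) ≤ T := by push_cast at h1 ⊢; linarith
    rw [U_of_le h1, U_of_le h2]
    linarith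
  · push Not at h1
    have h3 : T < ((g + k : ℕ) : ℝ) := by push_cast at h1 ⊢; linarith
    rw [U_of_lt h1, U_of_lt h3]
    push_cast at h1 h3 ⊢
    have hj1 : (0 : ℝ) < (r : ℝ) + g + 1 := by positivity
    have hgk : (0 : ℝ) < (g : ℝ) + k := by linarith
    -- the basic inequality
    have hb : (2 * (r : ℝ) + 1 - k) * (g + k) ≤ r * (r + g + 1) := by
      nlinarith [mul_nonneg (sub_nonneg.2 hk) hg0, sq_nonneg ((k : ℝ) - r - 1)]
    by_cases h2 : ((r + g : ℕ) : ℝ) ≤ T
    · rw [U_of_le h2]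
      push_cast at h2
      by_cases hs : 0 ≤ (k : ℝ) - 1 - 2 * r
      · have : 0 ≤ 1 - T / ((r : ℝ) + g + 1) := by
          rw [sub_nonneg, div_le_one hj1]; linarith
        positivity
      · push Not at hs
        have e : (1 - T / ((r : ℝ) + g + 1)) * ((k : ℝ) - 1 - 2 * r) + T / ((g : ℝ) + k)
            = (T * (r + g + 1) - ((r : ℝ) + g + 1 - T) * ((2 * (r : ℝ) + 1 - k) * (g + k)))
              / ((r + g + 1) * (g + k)) := by
          field_simp
          ring
        rw [e]
        apply div_nonneg _ (by positivity)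
        have h4 : ((r : ℝ) + g + 1 - T) * ((2 * (r : ℝ) + 1 - k) * (g + k))
            ≤ ((r : ℝ) + g + 1 - T) * (r * (r + g + 1)) :=
          mul_le_mul_of_nonneg_left hb (by linarith)
        have h5 : ((r : ℝ) + g + 1 - T) * r ≤ T := by
          nlinarith [mul_nonneg hr0 (by linarith : (0 : ℝ) ≤ 1 - (r + g + 1 - T))]
        nlinarith [mul_le_mul_of_nonneg_right h5 hj1.le]
    · push Not at h2
      rw [U_of_lt h2]
      push_cast at h2 ⊢
      have hj : (0 : ℝ) < (r : ℝ) + g := by linarith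
      have e : (T / ((r : ℝ) + g) - T / ((r : ℝ) + g + 1)) * ((k : ℝ) - 1 - 2 * r)
            + T / ((g : ℝ) + k)
            = T * ((r + g) * (r + g + 1) - ((2 * (r : ℝ) + 1 - k) * (g + k)))
              / ((r + g) * (r + g + 1) * (g + k)) := by
          field_simp
          ring
      rw [e]
      apply div_nonneg _ (by positivity)
      apply mul_nonneg hT.le
      nlinarith [mul_nonneg hg0 hj1.le]

theorem kap_nonneg {T : ℝ} (hT : 0 < T) (k m g : ℕ) : 0 ≤ kap T k m g := by
  unfold kap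
  exact Finset.sum_nonneg fun r hr => kap_term_nonneg hT k r g (Finset.mem_Ico.1 hr).2

theorem kap_small {T : ℝ} (k m g : ℕ) (hm : m ≤ k) (hu : ((g + k : ℕ) : ℝ) ≤ T) :
    kap T k m g = (k : ℝ) - m := by
  unfold kap
  have : ∀ r ∈ Ico m k,
      (U T (r + g) - U T (r + g + 1)) * ((k : ℝ) - 1 - 2 * r) + U T (g + k) = 1 := by
    intro r hr
    have hr2 := (Finset.mem_Ico.1 hr).2
    have hc : ((r + g + 1 : ℕ) : ℝ) ≤ ((g + k : ℕ) : ℝ) := by
      exact_mod_cast (by omega : r + g + 1 ≤ g + k)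
    have h1 : ((r + g + 1 : ℕ) : ℝ) ≤ T := hc.trans hu
    have h2 : ((r + g : ℕ) : ℝ) ≤ T := by push_cast at h1 ⊢; linarith
    rw [U_of_le h1, U_of_le h2, U_of_le hu]
    ring
  rw [Finset.sum_congr rfl this]
  simp [Nat.cast_sub hm]

theorem kap_closed (T : ℝ) (k m g : ℕ) (hm : m < k) :
    kap T k m g = U T (m + g) * ((k : ℝ) - 1 - 2 * m) + ((k : ℝ) - 1) * U T (g + k)
      - 2 * ∑ r ∈ Ico (m + 1) k, U T (r + g) + ((k : ℝ) - m) * U T (g + k) := by
  unfold kap
  have hgen : ∀ k' : ℕ, m + 1 ≤ k' →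
      ∑ r ∈ Ico m k', (U T (r + g) - U T (r + g + 1)) * ((k : ℝ) - 1 - 2 * r)
      = U T (m + g) * ((k : ℝ) - 1 - 2 * m) - ((k : ℝ) - 1 - 2 * ((k' : ℝ) - 1)) * U T (g + k')
        - 2 * ∑ r ∈ Ico (m + 1) k', U T (r + g) := by
    intro k' hk'
    induction k', hk' using Nat.le_induction with
    | base =>
      rw [Finset.sum_eq_sum_Ico_succ_bot (by omega)]
      simp only [Finset.Ico_self, Finset.sum_empty]
      rw [show g + (m + 1) = m + g + 1 by ring]
      push_cast
      ring
    | succ k' hk' ih =>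
      rw [Finset.sum_Ico_succ_top (by omega), ih, Finset.sum_Ico_succ_top (by omega)]
      rw [show g + (k' + 1) = k' + g + 1 by ring, show g + k' = k' + g by ring]
      push_cast
      ring
  rw [Finset.sum_add_distrib, hgen k hm]
  simp only [Finset.sum_const, Nat.card_Ico, nsmul_eq_mul, Nat.cast_sub hm.le]
  ring

theorem kap_big {T : ℝ} (hT : 0 < T) (k m g : ℕ) (hm : m < k) (hb : ((m + g : ℕ) : ℝ) ≤ T)
    (hu : T < ((g + k : ℕ) : ℝ)) :
    ((g + k : ℕ) : ℝ) - ((m + g : ℕ) : ℝ) * T / ((g + k : ℕ) : ℝ)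
      - 2 * T * Real.log (((g + k : ℕ) : ℝ) / T) - 2 ≤ kap T k m g := by
  rw [kap_closed T k m g hm, U_of_le hb, U_of_lt hu]
  have hs : ∑ r ∈ Ico (m + 1) k, U T (r + g)
      ≤ T + T * Real.log (((g + k : ℕ) : ℝ) / T) - ((m + g : ℕ) : ℝ) := by
    rw [Finset.sum_Ico_add' (fun j => U T j) (m + 1) k g]
    obtain ⟨k', rfl⟩ : ∃ k', k = k' + 1 := ⟨k - 1, by omega⟩
    have h1 := sum_U_le hT (m + g) (k' + g) (by omega)
    have h2 := Lam_mono hT (k' + g)
    have h3 : Lam T (((k' + g : ℕ) : ℝ) + 1)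
        = T + T * Real.log (((g + (k' + 1) : ℕ) : ℝ) / T) := by
      have h4 : T < ((k' + g : ℕ) : ℝ) + 1 := by push_cast at hu ⊢; linarith
      rw [Lam, if_neg (not_le.2 h4)]
      congr 3
      push_cast
      ring
    have h5 : Lam T ((m + g : ℕ) : ℝ) = ((m + g : ℕ) : ℝ) := by rw [Lam, if_pos hb]
    rw [show m + 1 + g = m + g + 1 by ring, show k' + 1 + g = k' + g + 1 by ring]
    linarith
  have hu0 : (0 : ℝ) < ((g + k : ℕ) : ℝ) := by linarith
  push_cast at hs hb hu hu0 ⊢
  have hg0 : (0 : ℝ) ≤ g := Nat.cast_nonneg g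
  have hTu : T / ((g : ℝ) + k) ≤ 1 := by rw [div_le_one hu0]; exact hu.le
  have e1 : ((k : ℝ) - 1) * (T / ((g : ℝ) + k)) + ((k : ℝ) - m) * (T / ((g : ℝ) + k))
      = 2 * T - ((m + g : ℝ) + g + 1) * (T / ((g : ℝ) + k)) := by
    field_simp
    ring
  have e2 : ((m : ℝ) + g) * T / ((g : ℝ) + k) = ((m : ℝ) + g) * (T / ((g : ℝ) + k)) := by ring
  rw [e2]
  nlinarith [mul_nonneg hg0 (sub_nonneg.2 hTu)]

/-- the bound at one gap -/
theorem gap_bound {T : ℝ} (hT : 0 < T) (k m g : ℕ) (hm : m ≤ k) (hb : ((m + g : ℕ) : ℝ) ≤ T) :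
    (2 - 2 * Real.log 2) * (T - ((m + g : ℕ) : ℝ)) - 2
      ≤ kap T k m g + 2 * max (T - k - g) 0 := by
  have hl2 : 0 < Real.log 2 := Real.log_pos (by norm_num)
  have hl3 : 1 / 2 ≤ Real.log 2 := by
    have := Real.one_sub_inv_le_log_of_pos (x := (2 : ℝ)) (by norm_num)
    norm_num at this ⊢
    exact this
  have hmax : 0 ≤ max (T - (k : ℝ) - g) 0 := le_max_right _ _
  by_cases hu : ((g + k : ℕ) : ℝ) ≤ T
  · rw [kap_small k m g hm hu]
    have h1 : T - (k : ℝ) - g ≤ max (T - (k : ℝ) - g) 0 := le_max_left _ _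
    push_cast at hu hb ⊢
    nlinarith
  · push Not at hu
    have hmk : m < k := by
      rcases Nat.lt_or_ge m k with h | h
      · exact h
      · have : ((g + k : ℕ) : ℝ) ≤ ((m + g : ℕ) : ℝ) := by
          exact_mod_cast (by omega : g + k ≤ m + g)
        linarith
    have h1 := kap_big hT k m g hmk hb hu
    have hb0 : (0 : ℝ) ≤ ((m + g : ℕ) : ℝ) := Nat.cast_nonneg _
    have h2 := key_lin (s := ((m + g : ℕ) : ℝ) / T) (z := ((g + k : ℕ) : ℝ) / T)
      (by positivity) (by rw [div_le_one hT]; exact hb)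
      (by rw [le_div_iff₀ hT]; linarith)
    have hu0 : (0 : ℝ) < ((g + k : ℕ) : ℝ) := by linarith
    have h3 := mul_le_mul_of_nonneg_left h2 hT.le
    have e1 : T * ((2 - 2 * Real.log 2) * (1 - ((m + g : ℕ) : ℝ) / T))
        = (2 - 2 * Real.log 2) * (T - ((m + g : ℕ) : ℝ)) := by
      field_simp
    have e2 : T * (((g + k : ℕ) : ℝ) / T - ((m + g : ℕ) : ℝ) / T / (((g + k : ℕ) : ℝ) / T)
          - 2 * Real.log (((g + k : ℕ) : ℝ) / T))
        = ((g + k : ℕ) : ℝ) - ((m + g : ℕ) : ℝ) * T / ((g + k : ℕ) : ℝ)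
      - 2 * T * Real.log (((g + k : ℕ) : ℝ) / T) := by
      field_simp
    rw [e1, e2] at h3
    linarith

/-! ### the walk -/

theorem lft_le (A : Finset ℕ) (j : ℕ) : lft A j ≤ j := by
  unfold lft
  calc (A.filter (fun z => z < j)).card ≤ (range j).card :=
        Finset.card_le_card fun z hz => Finset.mem_range.2 (Finset.mem_filter.1 hz).2
    _ = j := Finset.card_range j

theorem lft_zero (A : Finset ℕ) : lft A 0 = 0 := by
  unfold lft; simp

theorem filter_succ_mem {A : Finset ℕ} {j : ℕ} (h : j ∈ A) :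
    A.filter (fun z => z < j + 1) = insert j (A.filter (fun z => z < j)) := by
  ext z
  simp only [Finset.mem_filter, Finset.mem_insert]
  constructor
  · rintro ⟨h1, h2⟩
    rcases Nat.lt_succ_iff_lt_or_eq.1 h2 with h3 | h3
    · exact Or.inr ⟨h1, h3⟩
    · exact Or.inl h3
  · rintro (h1 | ⟨h1, h2⟩)
    · subst h1; exact ⟨h, Nat.lt_succ_self _⟩
    · exact ⟨h1, by omega⟩

theorem filter_succ_not {A : Finset ℕ} {j : ℕ} (h : j ∉ A) :
    A.filter (fun z => z < j + 1) = A.filter (fun z => z < j) := by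
  ext z
  simp only [Finset.mem_filter]
  constructor
  · rintro ⟨h1, h2⟩
    rcases Nat.lt_succ_iff_lt_or_eq.1 h2 with h3 | h3
    · exact ⟨h1, h3⟩
    · subst h3; exact absurd h1 h
  · rintro ⟨h1, h2⟩
    exact ⟨h1, by omega⟩

theorem lft_succ_mem {A : Finset ℕ} {j : ℕ} (h : j ∈ A) : lft A (j + 1) = lft A j + 1 := by
  unfold lft
  rw [filter_succ_mem h, Finset.card_insert_of_notMem (by simp)]

theorem lft_succ_not {A : Finset ℕ} {j : ℕ} (h : j ∉ A) : lft A (j + 1) = lft A j := by
  unfold lft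
  rw [filter_succ_not h]

theorem rho_add (A : Finset ℕ) {y : ℕ} (hy : y ∈ A) : rho A y + lft A y + 1 = A.card := by
  unfold rho lft
  have h1 : A = insert y (A.filter (fun z => y < z) ∪ A.filter (fun z => z < y)) := by
    ext z
    simp only [Finset.mem_insert, Finset.mem_union, Finset.mem_filter]
    constructor
    · intro hz
      rcases lt_trichotomy y z with h | h | h
      · exact Or.inr (Or.inl ⟨hz, h⟩)
      · exact Or.inl h.symm
      · exact Or.inr (Or.inr ⟨hz, h⟩)
    · rintro (h | ⟨h, _⟩ | ⟨h, _⟩)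
      · subst h; exact hy
      · exact h
      · exact h
  conv_rhs => rw [h1]
  rw [Finset.card_insert_of_notMem (by simp), Finset.card_union_of_disjoint]
  rw [Finset.disjoint_left]
  intro z hz hz'
  have := (Finset.mem_filter.1 hz).2
  have := (Finset.mem_filter.1 hz').2
  omega

theorem gap_room {n : ℕ} {A : Finset ℕ} (hA : A ⊆ range n) {j : ℕ} (hj : j < n) (h : j ∉ A) :
    (j - lft A j) + A.card < n := by
  have h1 : A.card ≤ lft A j + (n - j - 1) := by
    unfold lft
    have h2 : A ⊆ A.filter (fun z => z < j) ∪ Ioo j n := by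
      intro z hz
      have hzn := Finset.mem_range.1 (hA hz)
      rw [Finset.mem_union, Finset.mem_filter, Finset.mem_Ioo]
      rcases lt_trichotomy z j with h3 | h3 | h3
      · exact Or.inl ⟨hz, h3⟩
      · subst h3; exact absurd hz h
      · exact Or.inr ⟨h3, hzn⟩
    calc A.card ≤ (A.filter (fun z => z < j) ∪ Ioo j n).card := Finset.card_le_card h2
      _ ≤ (A.filter (fun z => z < j)).card + (Ioo j n).card := Finset.card_union_le _ _
      _ = _ := by rw [Nat.card_Ioo]
  have h3 := lft_le A j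
  omega

theorem lft_le_card (A : Finset ℕ) (j : ℕ) : lft A j ≤ A.card :=
  Finset.card_le_card (Finset.filter_subset _ _)

theorem walk (T : ℝ) (n : ℕ) (A : Finset ℕ) (hA : A ⊆ range n) (j : ℕ) (hj : j ≤ n) :
    ∑ y ∈ A.filter (fun z => z < j), phi T n A.card (lft A y) (y - lft A y)
      + Psi T n A.card (lft A j) (j - lft A j)
      + ∑ b ∈ (range j).filter (fun b => b ∉ A), kap T A.card (lft A b) (b - lft A b)
      = Psi T n A.card 0 0 := by
  induction j with
  | zero => simp [lft_zero]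
  | succ j ih =>
    have ih' := ih (by omega)
    by_cases h : j ∈ A
    · have hlt : lft A j < A.card := by
        have := rho_add A h
        omega
      have hle := lft_le A j
      rw [filter_succ_mem h, Finset.sum_insert (by simp), lft_succ_mem h,
        Finset.range_add_one, Finset.filter_insert, if_neg (by simpa using h),
        show j + 1 - (lft A j + 1) = j - lft A j by omega]
      rw [Psi_el T n A.card (lft A j) (j - lft A j) hlt] at ih'
      linarith
    · have hle := lft_le A j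
      have hroom := gap_room hA (by omega : j < n) h
      rw [filter_succ_not h, lft_succ_not h,
        Finset.range_add_one, Finset.filter_insert, if_pos h,
        Finset.sum_insert (by simp),
        show j + 1 - lft A j = (j - lft A j) + 1 by omega]
      rw [Psi_gap T n A.card (lft A j) (j - lft A j) hroom] at ih'
      linarith

/-! ### the total -/

theorem Psi_zero {T : ℝ} (hT : 0 < T) (n k : ℕ) (hk : k ≤ n)
    (hLam : Lam T n ≤ 2 * T) :
    Psi T n k 0 0 ≤ T ^ 2 - (max (T - k) 0) ^ 2 + 3 * n := by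
  rcases Nat.eq_zero_or_pos k with h0 | h0
  · subst h0
    have h1 : max (T - ((0 : ℕ) : ℝ)) 0 = T := by simp [hT.le]
    rw [h1]
    simp [Psi]
  · have hn1 : 1 ≤ n := by omega
    have hsum : Psi T n k 0 0
        ≤ k * ∑ j ∈ range n, U T j - 2 * ∑ r ∈ range k, (r : ℝ) * U T r := by
      unfold Psi phi
      have h1 : ∀ r ∈ Ico 0 k, U T (r + 0) * ((k : ℝ) - 1 - 2 * r) + ∑ Y ∈ Ico (0 + k) n, U T Y
          ≤ (k : ℝ) * U T r - 2 * ((r : ℝ) * U T r) + ∑ Y ∈ Ico k n, U T Y := by
        intro r _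
        have := U_nonneg hT r
        simp only [Nat.add_zero, Nat.zero_add]
        nlinarith
      refine (Finset.sum_le_sum h1).trans ?_
      rw [Finset.sum_add_distrib, Finset.sum_sub_distrib, ← Finset.mul_sum, ← Finset.mul_sum]
      simp only [Finset.sum_const, Nat.card_Ico, nsmul_eq_mul, Nat.sub_zero]
      have h2 : ∑ j ∈ range n, U T j = ∑ j ∈ Ico 0 k, U T j + ∑ j ∈ Ico k n, U T j := by
        rw [Finset.range_eq_Ico, Finset.sum_Ico_consecutive _ (Nat.zero_le k) hk]
      rw [h2, Finset.range_eq_Ico]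
      linarith
    have h2 := sum_U_range hT n hn1
    obtain ⟨k', rfl⟩ : ∃ k', k = k' + 1 := ⟨k - 1, by omega⟩
    have h3 := sum_rU hT k'
    have hk'0 : (0 : ℝ) ≤ k' := Nat.cast_nonneg k'
    have hkn : ((k' : ℝ) + 1) ≤ n := by exact_mod_cast hk
    have h4 : ((k' + 1 : ℕ) : ℝ) * ∑ j ∈ range n, U T j ≤ ((k' : ℝ) + 1) * (1 + 2 * T) := by
      push_cast
      exact mul_le_mul_of_nonneg_left (by linarith) (by linarith)
    by_cases h5 : (k' : ℝ) ≤ T
    · rw [Gam, if_pos h5] at h3
      by_cases h6 : (k' : ℝ) + 1 ≤ T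
      · have h7 : max (T - ((k' + 1 : ℕ) : ℝ)) 0 = T - (k' + 1) := by
          push_cast
          exact max_eq_left (by linarith)
        rw [h7]
        nlinarith
      · push Not at h6
        have h7 : max (T - ((k' + 1 : ℕ) : ℝ)) 0 = 0 := by
          push_cast
          exact max_eq_right (by linarith)
        rw [h7]
        nlinarith [sq_nonneg (T - k' - 1)]
    · push Not at h5
      rw [Gam, if_neg (not_le.2 h5)] at h3
      have h7 : max (T - ((k' + 1 : ℕ) : ℝ)) 0 = 0 := by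
        push_cast
        exact max_eq_right (by linarith)
      rw [h7]
      nlinarith

/-- the levels below `T - k` pay for the gaps with small total -/
theorem pay (T : ℝ) (k : ℕ) (A : Finset ℕ) (j : ℕ) :
    ∑ b ∈ (range j).filter (fun b => b ∉ A), 2 * max (T - k - ((b - lft A b : ℕ) : ℝ)) 0
      + ((max (T - k - ((j - lft A j : ℕ) : ℝ)) 0) ^ 2
          + 2 * max (T - k - ((j - lft A j : ℕ) : ℝ)) 0)
      ≤ (max (T - k) 0) ^ 2 + 2 * max (T - k) 0 := by
  induction j with
  | zero => simp [lft_zero]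
  | succ j ih =>
    by_cases h : j ∈ A
    · rw [lft_succ_mem h, Finset.range_add_one, Finset.filter_insert,
        if_neg (by simpa using h), show j + 1 - (lft A j + 1) = j - lft A j by omega]
      exact ih
    · have hle := lft_le A j
      rw [lft_succ_not h, Finset.range_add_one, Finset.filter_insert, if_pos h,
        Finset.sum_insert (by simp), show j + 1 - lft A j = (j - lft A j) + 1 by omega]
      set g : ℕ := j - lft A j with hg
      have key : 2 * max (T - k - (g : ℝ)) 0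
          + ((max (T - k - ((g + 1 : ℕ) : ℝ)) 0) ^ 2 + 2 * max (T - k - ((g + 1 : ℕ) : ℝ)) 0)
          ≤ (max (T - k - (g : ℝ)) 0) ^ 2 + 2 * max (T - k - (g : ℝ)) 0 := by
        push_cast
        by_cases h1 : T - k - (g : ℝ) ≤ 0
        · rw [max_eq_right h1, max_eq_right (by linarith : T - k - ((g : ℝ) + 1) ≤ 0)]
          simp
        · push Not at h1
          rw [max_eq_left h1.le]
          by_cases h2 : T - k - ((g : ℝ) + 1) ≤ 0
          · rw [max_eq_right h2]
            nlinarith [sq_nonneg (T - k - (g : ℝ))]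
          · push Not at h2
            rw [max_eq_left h2.le]
            nlinarith
      linarith

/-- **the slack inequality** for the profile `min (1, T / j)` -/
theorem slack {T : ℝ} (hT : 0 < T) (n : ℕ) (A : Finset ℕ) (hA : A ⊆ range n) (hTn : T ≤ n)
    (hLam : Lam T n ≤ 2 * T) :
    L n T A + ∑ b ∈ (range n).filter (fun b => b ∉ A ∧ (b : ℝ) ≤ T),
        (2 - 2 * Real.log 2) * (T - b) ≤ T ^ 2 + 7 * n := by
  set k := A.card with hk
  have hkn : k ≤ n := by
    have := Finset.card_le_card hA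
    rwa [Finset.card_range] at this
  have hlftn : lft A n = k := by
    unfold lft
    rw [Finset.filter_true_of_mem fun z hz => Finset.mem_range.1 (hA hz)]
  have hfn : A.filter (fun z => z < n) = A :=
    Finset.filter_true_of_mem fun z hz => Finset.mem_range.1 (hA hz)
  have hw := walk T n A hA n le_rfl
  rw [hfn, hlftn, ← hk] at hw
  have hPk : Psi T n k k (n - k) = 0 := by simp [Psi]
  rw [hPk] at hw
  have hL : L n T A = ∑ y ∈ A, phi T n k (lft A y) (y - lft A y) := by
    unfold L phi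
    refine Finset.sum_congr rfl fun y hy => ?_
    have h1 := rho_add A hy
    have h2 := lft_le A y
    rw [show lft A y + (y - lft A y) = y by omega]
    have h3 : Ioo (y + rho A y) n = Ico (y - lft A y + k) n := by
      ext z
      simp only [Finset.mem_Ioo, Finset.mem_Ico]
      omega
    rw [h3]
    have h4 : (k : ℝ) = rho A y + lft A y + 1 := by
      rw [hk, ← h1]; push_cast; ring
    rw [h4]
    ring
  have hP := Psi_zero hT n k hkn hLam
  have hpay := pay T k A n
  have hnn : 0 ≤ (max (T - k - ((n - lft A n : ℕ) : ℝ)) 0) ^ 2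
          + 2 * max (T - k - ((n - lft A n : ℕ) : ℝ)) 0 := by positivity
  have hmT : max (T - (k : ℝ)) 0 ≤ n :=
    max_le (by have : (0 : ℝ) ≤ k := Nat.cast_nonneg k; linarith) (Nat.cast_nonneg n)
  have hgap : ∑ b ∈ (range n).filter (fun b => b ∉ A ∧ (b : ℝ) ≤ T),
        (2 - 2 * Real.log 2) * (T - b)
      ≤ ∑ b ∈ (range n).filter (fun b => b ∉ A),
          (kap T k (lft A b) (b - lft A b)
            + 2 * max (T - k - ((b - lft A b : ℕ) : ℝ)) 0 + 2) := by
    have h1 : (range n).filter (fun b => b ∉ A ∧ (b : ℝ) ≤ T)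
        ⊆ (range n).filter (fun b => b ∉ A) := by
      intro z hz
      rw [Finset.mem_filter] at hz ⊢
      exact ⟨hz.1, hz.2.1⟩
    refine le_trans (Finset.sum_le_sum fun b hb => ?_)
      (Finset.sum_le_sum_of_subset_of_nonneg h1 fun b _ _ => ?_)
    · have hb2 := (Finset.mem_filter.1 hb).2.2
      have hle := lft_le A b
      have h2 : ((lft A b + (b - lft A b) : ℕ) : ℝ) = b := by
        rw [show lft A b + (b - lft A b) = b by omega]
      have h3 := gap_bound hT k (lft A b) (b - lft A b) (lft_le_card A b) (by rw [h2]; exact hb2)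
      rw [h2] at h3
      linarith
    · have h2 := kap_nonneg hT k (lft A b) (b - lft A b)
      have h3 : 0 ≤ max (T - k - ((b - lft A b : ℕ) : ℝ)) 0 := le_max_right _ _
      linarith
  rw [Finset.sum_add_distrib, Finset.sum_add_distrib] at hgap
  have hcard : ∑ _b ∈ (range n).filter (fun b => b ∉ A), (2 : ℝ) ≤ 2 * n := by
    rw [Finset.sum_const, nsmul_eq_mul]
    have h1 : ((range n).filter (fun b => b ∉ A)).card ≤ n := by
      calc _ ≤ (range n).card := Finset.card_filter_le _ _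
        _ = n := Finset.card_range n
    have h2 : (((range n).filter (fun b => b ∉ A)).card : ℝ) ≤ n := by exact_mod_cast h1
    linarith
  rw [hL]
  linarith

/-- `T = n / e` -/
theorem slack_e (n : ℕ) (hn : 1 ≤ n) (A : Finset ℕ) (hA : A ⊆ range n) :
    L n (n * Real.exp (-1)) A
      + ∑ b ∈ (range n).filter (fun b => b ∉ A ∧ (b : ℝ) ≤ n * Real.exp (-1)),
          (2 - 2 * Real.log 2) * (n * Real.exp (-1) - b)
      ≤ (n * Real.exp (-1)) ^ 2 + 7 * n := by
  have hn0 : (0 : ℝ) < n := by exact_mod_cast hn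
  have he : 0 < Real.exp (-1) := Real.exp_pos _
  have he1 : Real.exp (-1) < 1 := by
    rw [Real.exp_lt_one_iff]; norm_num
  have hT : 0 < (n : ℝ) * Real.exp (-1) := by positivity
  have hTn : (n : ℝ) * Real.exp (-1) < n := by nlinarith
  refine slack hT n A hA hTn.le ?_
  rw [Lam, if_neg (not_le.2 hTn)]
  have h1 : (n : ℝ) / (n * Real.exp (-1)) = Real.exp 1 := by
    rw [Real.exp_neg]
    field_simp
  rw [h1, Real.log_exp]
  linarith

end

end Pool.Agent.Lib.MP_efec9b_co.SL59
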