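import Pool.Agent.Lib.MP_efec9b_co.SL21
import Pool.Agent.Lib.MP_efec9b_co.Cells16

/-!
Row SL in the integral form (21), from the block form SL21 and the cells of Cells16.
-/

set_option autoImplicit false

namespace Pool.Agent.Lib.MP_efec9b_co.SLI21

open MeasureTheory Finset Pool.Agent.Lib.EF16 Pool.Agent.Lib.MP_efec9b_co.SL21

variable {n : ℕ}

/-- Extension of a function on Fin n by zero. -/
noncomputable def ext (g : Fin n → ℝ) (k : ℕ) : ℝ := if h : k < n then g ⟨k, h⟩ else 0

/-- The predicate of a set. -/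
def pred (A : Finset (Fin n)) (k : ℕ) : Prop := ∃ h : k < n, (⟨k, h⟩ : Fin n) ∈ A

theorem ext_coe (g : Fin n → ℝ) (i : Fin n) : ext g i = g i := by
  unfold ext
  rw [dif_pos i.2]

theorem pred_coe (A : Finset (Fin n)) (i : Fin n) : pred A i ↔ i ∈ A := by
  unfold pred
  constructor
  · rintro ⟨_, h⟩
    exact h
  · intro h
    exact ⟨i.2, h⟩

theorem sum_lt (g : Fin n → ℝ) (i : Fin n) :
    ∑ j with j < i, g j = ∑ k ∈ range i, ext g k := by
  have h1 : ∑ j with j < i, g j = ∑ j : Fin n, (if (j : ℕ) < i then ext g j else 0) := by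
    rw [Finset.sum_filter]
    apply Finset.sum_congr rfl
    intro j _
    rw [ext_coe]
    by_cases h : j < i
    · rw [if_pos h, if_pos (Fin.lt_def.1 h)]
    · rw [if_neg h, if_neg (fun hh => h (Fin.lt_def.2 hh))]
  rw [h1, Fin.sum_univ_eq_sum_range (fun k => if k < (i : ℕ) then ext g k else 0) n,
    ← Finset.sum_filter]
  congr 1
  ext k
  simp only [Finset.mem_filter, Finset.mem_range]
  have := i.2
  omega

theorem T_eq (w : Fin n → ℝ) (i : Fin n) : T w i = lf (ext w) i := by
  unfold T lf
  exact sum_lt w i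

theorem sum_mem (A : Finset (Fin n)) (g : Fin n → ℝ) :
    ∑ j ∈ A, g j = ∑ j, if j ∈ A then g j else 0 := by
  rw [← Finset.sum_filter]
  congr 1
  ext j
  simp

open Classical in
theorem ext_if (w : Fin n → ℝ) (A : Finset (Fin n)) (k : ℕ) :
    ext (fun j => if j ∈ A then w j else 0) k = if pred A k then ext w k else 0 := by
  by_cases h : k < n
  · unfold ext
    rw [dif_pos h, dif_pos h]
    have := pred_coe A ⟨k, h⟩
    simp only at this ⊢
    by_cases h2 : (⟨k, h⟩ : Fin n) ∈ A
    · rw [if_pos h2, if_pos (this.2 h2)]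
    · rw [if_neg h2, if_neg (fun hh => h2 (this.1 hh))]
  · unfold ext
    rw [dif_neg h, dif_neg h]
    split_ifs <;> rfl

open Classical in
theorem ms_eq (w : Fin n → ℝ) (A : Finset (Fin n)) (i : Fin n) :
    ∑ j ∈ A with j < i, w j = ms (ext w) (pred A) i := by
  have h1 : ∑ j ∈ A with j < i, w j = ∑ j with j < i, (if j ∈ A then w j else 0) := by
    rw [Finset.sum_filter, sum_mem, Finset.sum_filter]
    apply Finset.sum_congr rfl
    intro j _
    split_ifs <;> rfl
  rw [h1, sum_lt]
  unfold ms
  apply Finset.sum_congr rfl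
  intro k _
  exact ext_if w A k

open Classical in
theorem ms_all (w : Fin n → ℝ) (A : Finset (Fin n)) :
    ∑ j ∈ A, w j = ms (ext w) (pred A) n := by
  unfold ms
  rw [← Fin.sum_univ_eq_sum_range (fun k => if pred A k then ext w k else 0) n, sum_mem]
  apply Finset.sum_congr rfl
  intro j _
  rw [← ext_if, ext_coe]

open Classical in
theorem ge_eq (w : Fin n → ℝ) (A : Finset (Fin n)) (i : Fin n) :
    ∑ j ∈ A with i ≤ j, w j = ms (ext w) (pred A) n - ms (ext w) (pred A) i := by
  rw [← ms_all, ← ms_eq]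
  have h := Finset.sum_filter_add_sum_filter_not A (fun j => j < i) w
  have h2 : ∑ j ∈ A with ¬ j < i, w j = ∑ j ∈ A with i ≤ j, w j := by
    congr 1
    ext j
    simp
  rw [h2] at h
  linarith

theorem R_cont : Continuous R := by
  unfold R
  exact continuous_const.sub V_cont

open Classical in
theorem term_eq (w : Fin n → ℝ) (A : Finset (Fin n)) (i : Fin n) :
    (∫ y in (T w i)..(T w i + w i),
        ((∑ j ∈ A with i ≤ j, w j) - (∑ j ∈ A with j < i, w j) - 2 * (y - T w i)) * U y) +
      w i * R (T w i + ∑ j ∈ A with i ≤ j, w j) =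
    ∫ y in (lf (ext w) i)..(lf (ext w) i + ext w i),
      phi (ms (ext w) (pred A) n) (lf (ext w) i) (ms (ext w) (pred A) i) y := by
  rw [ge_eq, ms_eq, T_eq, ext_coe]
  set a := ms (ext w) (pred A) n
  set m := ms (ext w) (pred A) i
  set l := lf (ext w) i
  have h2 : ∫ y in l..(l + w i), phi a l m y =
      ∫ y in l..(l + w i), ((a - m - m - 2 * (y - l)) * U y + R (l + (a - m))) := by
    apply intervalIntegral.integral_congr
    intro y _
    unfold phi
    have e2 : y + (a - (m + (y - l))) = l + (a - m) := by ring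
    simp only
    rw [e2]
    ring
  rw [h2, intervalIntegral.integral_add]
  · rw [intervalIntegral.integral_const]
    simp
  · apply Continuous.intervalIntegrable
    have := U_cont
    fun_prop
  · exact intervalIntegrable_const

open Classical in
theorem left_eq {w : Fin n → ℝ} (hw : ∀ i, 0 ≤ w i) (hs : ∑ i, w i = 1) (A : Finset (Fin n)) :
    ∫ y in (0 : ℝ)..1, one (E w A) y *
        (U y * ((∫ z in y..1, one (E w A) z) - ∫ z in (0 : ℝ)..y, one (E w A) z)
          + R (y + ∫ z in y..1, one (E w A) z)) =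
    ∑ j ∈ range n, (if pred A j then
        ∫ y in (lf (ext w) j)..(lf (ext w) j + ext w j),
          phi (ms (ext w) (pred A) n) (lf (ext w) j) (ms (ext w) (pred A) j) y else 0) := by
  rw [lam_cells hw hs A U R U_cont R_cont, sum_mem,
    ← Fin.sum_univ_eq_sum_range (fun j => if pred A j then
        ∫ y in (lf (ext w) j)..(lf (ext w) j + ext w j),
          phi (ms (ext w) (pred A) n) (lf (ext w) j) (ms (ext w) (pred A) j) y else 0) n]
  apply Finset.sum_congr rfl
  intro i _
  by_cases h : i ∈ A
  · rw [if_pos h, if_pos ((pred_coe A i).2 h)]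
    have := term_eq w A i
    convert this using 3
  · rw [if_neg h, if_neg (fun hh => h ((pred_coe A i).1 hh))]

open Classical in
theorem right_eq {w : Fin n → ℝ} (hw : ∀ i, 0 ≤ w i) (hs : ∑ i, w i = 1) (A : Finset (Fin n)) :
    ∑ j ∈ range n, (if pred A j then 0
        else ∫ y in (lf (ext w) j)..(lf (ext w) j + ext w j), lamp y) =
    ∫ y in (0 : ℝ)..1, (1 - one (E w A) y) * lamp y := by
  have hint : IntervalIntegrable (fun y => (1 - one (E w A) y) * lamp y) volume 0 1 := by
    apply IntervalIntegrable.mul_continuousOn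
    · exact intervalIntegrable_const.sub (one_intervalIntegrable (measurableSet_E w A) 0 1)
    · exact lamp_cont.continuousOn
  rw [integral_cells hw hs _ hint,
    ← Fin.sum_univ_eq_sum_range (fun j => if pred A j then 0
        else ∫ y in (lf (ext w) j)..(lf (ext w) j + ext w j), lamp y) n]
  apply Finset.sum_congr rfl
  intro i _
  rw [← T_eq, ext_coe]
  have hle : T w i ≤ T w i + w i := by linarith [hw i]
  rw [intervalIntegral.integral_of_le hle, intervalIntegral.integral_of_le hle]
  by_cases h : i ∈ A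
  · rw [if_pos ((pred_coe A i).2 h)]
    rw [MeasureTheory.setIntegral_congr_fun (g := fun _ => (0 : ℝ)) measurableSet_Ioc]
    · simp
    · intro y hy
      simp only
      rw [one_cell hw A hy, if_pos h]
      ring
  · rw [if_neg (fun hh => h ((pred_coe A i).1 hh))]
    apply MeasureTheory.setIntegral_congr_fun measurableSet_Ioc
    intro y hy
    simp only
    rw [one_cell hw A hy, if_neg h]
    ring

/-- The linear lower bound. -/
theorem log_quad {u : ℝ} (h0 : 0 ≤ u) (h1 : u ≤ 1) :
    (1 - Real.log 2) * u ^ 2 ≤ u - Real.log (1 + u) := by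
  have l1 := Real.log_two_gt_d9
  have l2 := Real.log_two_lt_d9
  set κ := 1 - Real.log 2 with hκ
  have k1 : 0.3 < κ := by linarith
  have k2 : κ < 0.31 := by linarith
  have hder : ∀ x : ℝ, 0 ≤ x → HasDerivAt (fun x : ℝ => x - Real.log (1 + x) - κ * x ^ 2)
      (x * (1 / (1 + x) - 2 * κ)) x := by
    intro x hx
    have hx1 : (1 + x) ≠ 0 := by linarith
    have e1 : HasDerivAt (fun x : ℝ => 1 + x) 1 x := (hasDerivAt_id x).const_add 1
    have e2 := ((hasDerivAt_id x).sub (e1.log hx1)).sub ((hasDerivAt_pow 2 x).const_mul κ)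
    refine e2.congr_deriv ?_
    field_simp
    ring
  set c := 1 / (2 * κ) - 1 with hc
  have hc0 : 0 < c := by
    rw [hc, sub_pos, lt_div_iff₀ (by linarith)]
    linarith
  have hc1 : c < 1 := by
    rw [hc, sub_lt_iff_lt_add, div_lt_iff₀ (by linarith)]
    linarith
  have hck : 2 * κ = 1 / (1 + c) := by
    rw [hc]
    have : 1 + (1 / (2 * κ) - 1) = 1 / (2 * κ) := by ring
    rw [this, one_div_one_div]
  have hcont : ContinuousOn (fun x : ℝ => x - Real.log (1 + x) - κ * x ^ 2) (Set.Icc 0 1) :=
    fun x hx => (hder x hx.1).continuousAt.continuousWithinAt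
  have hmono : MonotoneOn (fun x : ℝ => x - Real.log (1 + x) - κ * x ^ 2) (Set.Icc 0 c) := by
    apply monotoneOn_of_deriv_nonneg (convex_Icc 0 c)
    · exact hcont.mono (Set.Icc_subset_Icc_right hc1.le)
    · intro x hx
      rw [interior_Icc] at hx
      exact (hder x hx.1.le).differentiableAt.differentiableWithinAt
    · intro x hx
      rw [interior_Icc] at hx
      rw [(hder x hx.1.le).deriv]
      apply mul_nonneg hx.1.le
      rw [sub_nonneg, hck]
      exact one_div_le_one_div_of_le (by linarith [hx.1]) (by linarith [hx.2])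
  have hanti : AntitoneOn (fun x : ℝ => x - Real.log (1 + x) - κ * x ^ 2) (Set.Icc c 1) := by
    apply antitoneOn_of_deriv_nonpos (convex_Icc c 1)
    · exact hcont.mono (Set.Icc_subset_Icc_left hc0.le)
    · intro x hx
      rw [interior_Icc] at hx
      exact (hder x (hc0.le.trans hx.1.le)).differentiableAt.differentiableWithinAt
    · intro x hx
      rw [interior_Icc] at hx
      rw [(hder x (hc0.le.trans hx.1.le)).deriv]
      apply mul_nonpos_of_nonneg_of_nonpos (hc0.le.trans hx.1.le)
      rw [sub_nonpos, hck]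
      exact one_div_le_one_div_of_le (by linarith) (by linarith [hx.1])
  rcases le_total u c with h | h
  · have := hmono (Set.mem_Icc.2 ⟨le_rfl, hc0.le⟩) (Set.mem_Icc.2 ⟨h0, h⟩) h0
    simp only [add_zero, Real.log_one] at this
    linarith
  · have := hanti (Set.mem_Icc.2 ⟨h, h1⟩) (Set.mem_Icc.2 ⟨hc1.le, le_rfl⟩) h1
    have e : (1 : ℝ) - Real.log (1 + 1) - κ * 1 ^ 2 = 0 := by
      rw [hκ]
      norm_num
    simp only at this
    rw [e] at this
    linarith

theorem lamp_ge {y : ℝ} (h0 : 0 ≤ y) (h1 : y ≤ tt) :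
    (2 - 2 * Real.log 2) * (tt - y) ≤ lamp y := by
  have ht := tt_pos
  have h2 : 0 ≤ 1 - y / tt := by
    rw [sub_nonneg, div_le_iff₀ tt_pos]
    linarith
  have hs := Real.sq_sqrt h2
  unfold lamp
  set u := √(1 - y / tt) with hu
  have hu0 : 0 ≤ u := Real.sqrt_nonneg _
  have hu1 : u ≤ 1 := by
    rw [hu]
    apply Real.sqrt_le_one.2
    have : 0 ≤ y / tt := div_nonneg h0 ht.le
    linarith
  have h3 : tt - y = tt * u ^ 2 := by
    rw [hs, mul_sub, mul_one, mul_div_cancel₀ _ ht.ne']
  have h4 := log_quad hu0 hu1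
  rw [h3]
  have h5 := mul_le_mul_of_nonneg_left h4 (by linarith : 0 ≤ 2 * tt)
  linarith

theorem tt_le : tt ≤ 1 := by
  unfold tt
  rw [← Real.exp_zero]
  exact Real.exp_le_exp.2 (by norm_num)

theorem one_le {w : Fin n → ℝ} (A : Finset (Fin n)) (y : ℝ) : 0 ≤ 1 - one (E w A) y := by
  unfold one
  by_cases h : y ∈ E w A
  · rw [Set.indicator_of_mem h]
    linarith
  · rw [Set.indicator_of_notMem h]
    linarith

/-- The slack in the integral form, with U and R of SL21. -/
theorem slack_int {w : Fin n → ℝ} (hw : ∀ i, 0 ≤ w i) (hs : ∑ i, w i = 1) (A : Finset (Fin n)) :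
    ∫ y in (0 : ℝ)..1, one (E w A) y *
        (U y * ((∫ z in y..1, one (E w A) z) - ∫ z in (0 : ℝ)..y, one (E w A) z)
          + R (y + ∫ z in y..1, one (E w A) z)) ≤
    tt ^ 2 - ∫ y in (0 : ℝ)..tt, (1 - one (E w A) y) * ((2 - 2 * Real.log 2) * (tt - y)) := by
  classical
  have h1 := slack (ext w) (pred A) (fun i => by
    unfold ext
    split_ifs
    · exact hw _
    · exact le_rfl) n
  rw [← left_eq hw hs A, right_eq hw hs A] at h1
  have hint : ∀ a b, IntervalIntegrable (fun y => (1 - one (E w A) y) * lamp y) volume a b := by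
    intro a b
    apply IntervalIntegrable.mul_continuousOn
    · exact intervalIntegrable_const.sub (one_intervalIntegrable (measurableSet_E w A) a b)
    · exact lamp_cont.continuousOn
  have h2 : ∫ y in tt..1, (1 - one (E w A) y) * lamp y = 0 := by
    rw [intervalIntegral.integral_congr (g := fun _ => (0 : ℝ))]
    · simp
    · intro s hs'
      rw [Set.uIcc_of_le tt_le] at hs'
      simp only
      rw [lamp_high hs'.1, mul_zero]
  have h3 := intervalIntegral.integral_add_adjacent_intervals (hint 0 tt) (hint tt 1)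
  rw [h2, add_zero] at h3
  have h4 : ∫ y in (0 : ℝ)..tt, (1 - one (E w A) y) * ((2 - 2 * Real.log 2) * (tt - y)) ≤
      ∫ y in (0 : ℝ)..tt, (1 - one (E w A) y) * lamp y := by
    apply intervalIntegral.integral_mono_on tt_pos.le
    · apply IntervalIntegrable.mul_continuousOn
      · exact intervalIntegrable_const.sub (one_intervalIntegrable (measurableSet_E w A) 0 tt)
      · fun_prop
    · exact hint 0 tt
    · intro y hy
      exact mul_le_mul_of_nonneg_left (lamp_ge hy.1 hy.2) (one_le A y)
  linarith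

theorem R_eq {x : ℝ} : R x = ∫ s in x..1, U s := by
  have h1 : V 1 = V x + ∫ s in x..1, U s := by
    unfold V
    rw [intervalIntegral.integral_add_adjacent_intervals (U_cont.intervalIntegrable _ _)
      (U_cont.intervalIntegrable _ _)]
  have h2 := V_high tt_le
  rw [Real.log_one, mul_zero, add_zero] at h2
  unfold R
  linarith

/-- The slack in the integral form, everything explicit. -/
theorem slack78 {w : Fin n → ℝ} (hw : ∀ i, 0 ≤ w i) (hs : ∑ i, w i = 1) (A : Finset (Fin n)) :
    ∫ y in (0 : ℝ)..1, one (E w A) y *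
        (Real.exp (-1) / max (Real.exp (-1)) y *
            ((∫ z in y..1, one (E w A) z) - ∫ z in (0 : ℝ)..y, one (E w A) z)
          + ∫ s in (y + ∫ z in y..1, one (E w A) z)..1, Real.exp (-1) / max (Real.exp (-1)) s) ≤
    Real.exp (-1) ^ 2 - ∫ y in (0 : ℝ)..Real.exp (-1),
      (1 - one (E w A) y) * ((2 - 2 * Real.log 2) * (Real.exp (-1) - y)) := by
  have h := slack_int hw hs A
  have hU : ∀ x, U x = Real.exp (-1) / max (Real.exp (-1)) x := by
    intro x
    unfold U tt
    rw [max_comm]
  simp only [R_eq, hU] at h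
  exact h

end Pool.Agent.Lib.MP_efec9b_co.SLI21
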