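import Pool.Agent.Lib.MP_efec9b_co.Defs77

/-!
MP_efec9b_co (70): from (0 0; 0 1) to all matrices (a a; a b) and (a b; b b), a < b.
-/

namespace Pool.Agent.Lib.MP_efec9b_co.SYM70

open Filter Topology

/-- (a a; a b) -/
def typeA (a b : ℕ) : Fin 2 → Fin 2 → ℕ := fun i j => if i = 1 ∧ j = 1 then b else a

/-- (a b; b b) -/
def typeB (a b : ℕ) : Fin 2 → Fin 2 → ℕ := fun i j => if i = 0 ∧ j = 0 then a else b

variable {h : ℕ}

theorem copies_congr {n : ℕ} {H H' : Fin h → Fin h → ℕ} {M M' : Fin n → Fin n → ℕ}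
    (hc : ∀ x y i j, M x y = H i j ↔ M' x y = H' i j) : copies H M = copies H' M' := by
  unfold copies
  refine Nat.card_congr (Equiv.subtypeEquivRight fun p => ?_)
  simp only [hc]

/-- reversal of an index map -/
def rv {n : ℕ} (p : Fin h → Fin n) : Fin h → Fin n := fun i => (p i.rev).rev

theorem rv_rv {n : ℕ} (p : Fin h → Fin n) : rv (rv p) = p := by
  funext i
  simp [rv]

theorem rv_mono {n : ℕ} {p : Fin h → Fin n} (hp : StrictMono p) : StrictMono (rv p) := by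
  intro i j hij
  unfold rv
  rw [Fin.rev_lt_rev]
  exact hp (Fin.rev_lt_rev.mpr hij)

theorem copies_rot {n : ℕ} (H : Fin h → Fin h → ℕ) (M : Fin n → Fin n → ℕ) :
    copies H M = copies (fun i j => H i.rev j.rev) (fun i j => M i.rev j.rev) := by
  unfold copies
  refine Nat.card_congr
    { toFun := fun p => ⟨(rv p.1.1, rv p.1.2), rv_mono p.2.1, rv_mono p.2.2.1, fun i j => ?_⟩
      invFun := fun p => ⟨(rv p.1.1, rv p.1.2), rv_mono p.2.1, rv_mono p.2.2.1, fun i j => ?_⟩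
      left_inv := fun p => ?_
      right_inv := fun p => ?_ }
  · simpa [rv] using p.2.2.2 i.rev j.rev
  · simpa [rv] using p.2.2.2 i.rev j.rev
  · apply Subtype.ext
    exact Prod.ext (rv_rv _) (rv_rv _)
  · apply Subtype.ext
    exact Prod.ext (rv_rv _) (rv_rv _)

theorem bdd (H : Fin h → Fin h → ℕ) (n : ℕ) :
    BddAbove (Set.range fun M : Fin n → Fin n → ℕ => dens H M) := by
  refine ⟨(Nat.card ((Fin h → Fin n) × (Fin h → Fin n)) : ℝ) / ((n.choose h : ℝ)) ^ 2, ?_⟩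
  rintro _ ⟨M, rfl⟩
  simp only [dens]
  apply div_le_div_of_nonneg_right _ (by positivity)
  exact_mod_cast Finite.card_subtype_le _

theorem bddM (H : Fin h → Fin h → ℕ) (n : ℕ) :
    BddAbove (Set.range fun M : {M : Fin n → Fin n → ℕ // Avoids (top H) M} => dens H M.1) := by
  obtain ⟨K, hK⟩ := bdd H n
  refine ⟨K, ?_⟩
  rintro _ ⟨M, rfl⟩
  exact hK ⟨M.1, rfl⟩

theorem avoids_zero (n k : ℕ) : Avoids k (fun _ _ : Fin n => 0) :=
  ⟨fun _ _ _ _ _ => le_refl _, fun _ _ _ _ _ => le_refl _⟩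

theorem fAll_le {H H' : Fin h → Fin h → ℕ} {n : ℕ}
    (T : (Fin n → Fin n → ℕ) → (Fin n → Fin n → ℕ))
    (hT : ∀ M, copies H M = copies H' (T M)) : fAll H n ≤ fAll H' n := by
  refine ciSup_le fun M => ?_
  have h1 : dens H M = dens H' (T M) := by
    unfold dens
    rw [hT M]
  rw [h1]
  exact le_ciSup (bdd H' n) (T M)

theorem fMono_le {H H' : Fin h → Fin h → ℕ} {n : ℕ}
    (T : (Fin n → Fin n → ℕ) → (Fin n → Fin n → ℕ))
    (hA : ∀ M, Avoids (top H) M → Avoids (top H') (T M))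
    (hT : ∀ M, copies H M = copies H' (T M)) : fMono H n ≤ fMono H' n := by
  have : Nonempty {M : Fin n → Fin n → ℕ // Avoids (top H) M} := ⟨⟨_, avoids_zero n _⟩⟩
  refine ciSup_le fun M => ?_
  have h1 : dens H M.1 = dens H' (T M.1) := by
    unfold dens
    rw [hT M.1]
  rw [h1]
  exact le_ciSup (bddM H' n) ⟨T M.1, hA M.1 M.2⟩

theorem fMono_le_fAll (H : Fin h → Fin h → ℕ) (n : ℕ) : fMono H n ≤ fAll H n := by
  have : Nonempty {M : Fin n → Fin n → ℕ // Avoids (top H) M} := ⟨⟨_, avoids_zero n _⟩⟩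
  exact ciSup_le fun M => le_ciSup (bdd H n) M.1

theorem top_A {a b : ℕ} (hab : a < b) : top (typeA a b) = b := by
  unfold top typeA
  apply le_antisymm
  · refine Finset.sup_le fun i _ => Finset.sup_le fun j _ => ?_
    split_ifs
    · exact le_refl _
    · exact hab.le
  · have h1 := Finset.le_sup (f := fun i : Fin 2 => Finset.univ.sup fun j : Fin 2 =>
      if i = 1 ∧ j = 1 then b else a) (Finset.mem_univ (1 : Fin 2))
    have h2 := Finset.le_sup (f := fun j : Fin 2 => if (1 : Fin 2) = 1 ∧ j = 1 then b else a)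
      (Finset.mem_univ (1 : Fin 2))
    simp only [and_self, if_true] at h2
    exact h2.trans h1

theorem top_B {a b : ℕ} (hab : a < b) : top (typeB a b) = b := by
  unfold top typeB
  apply le_antisymm
  · refine Finset.sup_le fun i _ => Finset.sup_le fun j _ => ?_
    split_ifs
    · exact hab.le
    · exact le_refl _
  · have h1 := Finset.le_sup (f := fun i : Fin 2 => Finset.univ.sup fun j : Fin 2 =>
      if i = 0 ∧ j = 0 then a else b) (Finset.mem_univ (1 : Fin 2))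
    have h2 := Finset.le_sup (f := fun j : Fin 2 => if (1 : Fin 2) = 0 ∧ j = 0 then a else b)
      (Finset.mem_univ (1 : Fin 2))
    simp only [one_ne_zero, false_and, if_false] at h2
    exact h2.trans h1

/-- rename: a to 0, b to 1, everything else to 2 -/
def ren (a b x : ℕ) : ℕ := if x = a then 0 else if x = b then 1 else 2

/-- rename: 0 to a, 1 to b, everything else to c -/
def sub (a b c x : ℕ) : ℕ := if x = 0 then a else if x = 1 then b else c

theorem copies_ren {n a b : ℕ} (hab : a ≠ b) (M : Fin n → Fin n → ℕ) :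
    copies (typeA a b) M = copies (typeA 0 1) (fun i j => ren a b (M i j)) := by
  refine copies_congr fun x y i j => ?_
  unfold typeA ren
  split_ifs <;> simp_all

theorem copies_sub {n a b c : ℕ} (hab : a ≠ b) (hc : a ≠ c) (hc' : b ≠ c)
    (M : Fin n → Fin n → ℕ) :
    copies (typeA 0 1) M = copies (typeA a b) (fun i j => sub a b c (M i j)) := by
  refine copies_congr fun x y i j => ?_
  unfold typeA sub
  split_ifs <;> simp_all <;> omega

theorem rot_A (a b : ℕ) : (fun i j : Fin 2 => typeA b a i.rev j.rev) = typeB a b := by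
  funext i j
  fin_cases i <;> fin_cases j <;> simp [typeA, typeB]

theorem rot_B (a b : ℕ) : (fun i j : Fin 2 => typeB a b i.rev j.rev) = typeA b a := by
  funext i j
  fin_cases i <;> fin_cases j <;> simp [typeA, typeB]

theorem fAll_A {a b : ℕ} (hab : a < b) (n : ℕ) : fAll (typeA a b) n ≤ fAll (typeA 0 1) n :=
  fAll_le (fun M i j => ren a b (M i j)) fun M => copies_ren hab.ne M

theorem fMono_A {a b : ℕ} (hab : a < b) (n : ℕ) : fMono (typeA 0 1) n ≤ fMono (typeA a b) n := by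
  refine fMono_le (fun M i j => sub a b (b + 1) (M i j)) (fun M hM => ?_)
    fun M => copies_sub hab.ne (by omega) (by omega) M
  rw [top_A hab]
  rw [top_A one_pos] at hM
  have key : ∀ x y : ℕ, (x ≤ 1 → x ≤ y) → sub a b (b + 1) x ≤ b →
      sub a b (b + 1) x ≤ sub a b (b + 1) y := by
    intro x y hxy hx
    unfold sub at hx ⊢
    split_ifs at hx ⊢ <;> omega
  exact ⟨fun i j j' hj => key _ _ (hM.1 i j j' hj), fun i i' j hi => key _ _ (hM.2 i i' j hi)⟩

theorem fAll_B {a b : ℕ} (hab : a < b) (n : ℕ) : fAll (typeB a b) n ≤ fAll (typeA 0 1) n := by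
  refine fAll_le (fun M i j => ren b a (M i.rev j.rev)) fun M => ?_
  rw [copies_rot (typeB a b) M, rot_B]
  exact copies_ren hab.ne' _

theorem fMono_B {a b : ℕ} (hab : a < b) (n : ℕ) : fMono (typeA 0 1) n ≤ fMono (typeB a b) n := by
  refine fMono_le (fun M i j => sub b a (b + 1) (M i.rev j.rev)) (fun M hM => ?_) fun M => ?_
  · rw [top_B hab]
    rw [top_A one_pos] at hM
    have key : ∀ x y : ℕ, (y ≤ 1 → y ≤ x) → sub b a (b + 1) x ≤ b →
        sub b a (b + 1) x ≤ sub b a (b + 1) y := by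
      intro x y hxy hx
      unfold sub at hx ⊢
      split_ifs at hx ⊢ <;> omega
    exact ⟨fun i j j' hj => key _ _ (hM.1 i.rev j'.rev j.rev (Fin.rev_lt_rev.mpr hj)),
      fun i i' j hi => key _ _ (hM.2 i'.rev i.rev j.rev (Fin.rev_lt_rev.mpr hi))⟩
  · rw [copies_sub (a := b) (b := a) (c := b + 1) hab.ne' (by omega) (by omega) M,
      copies_rot (typeA b a), rot_A]

/-- From (0 0; 0 1) to all types (a a; a b) and (a b; b b). -/
theorem sym70 {c : ℝ}
    (h0 : Tendsto (fAll (typeA 0 1)) atTop (𝓝 c) ∧ Tendsto (fMono (typeA 0 1)) atTop (𝓝 c))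
    (a b : ℕ) (hab : a < b) :
    (Tendsto (fAll (typeA a b)) atTop (𝓝 c) ∧ Tendsto (fMono (typeA a b)) atTop (𝓝 c)) ∧
    (Tendsto (fAll (typeB a b)) atTop (𝓝 c) ∧ Tendsto (fMono (typeB a b)) atTop (𝓝 c)) := by
  refine ⟨⟨?_, ?_⟩, ?_, ?_⟩
  · exact tendsto_of_tendsto_of_tendsto_of_le_of_le h0.2 h0.1
      (fun n => (fMono_A hab n).trans (fMono_le_fAll _ n)) (fun n => fAll_A hab n)
  · exact tendsto_of_tendsto_of_tendsto_of_le_of_le h0.2 h0.1
      (fun n => fMono_A hab n) (fun n => (fMono_le_fAll _ n).trans (fAll_A hab n))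
  · exact tendsto_of_tendsto_of_tendsto_of_le_of_le h0.2 h0.1
      (fun n => (fMono_B hab n).trans (fMono_le_fAll _ n)) (fun n => fAll_B hab n)
  · exact tendsto_of_tendsto_of_tendsto_of_le_of_le h0.2 h0.1
      (fun n => fMono_B hab n) (fun n => (fMono_le_fAll _ n).trans (fAll_B hab n))

theorem eq_typeA {H : Fin 2 → Fin 2 → ℕ} (h1 : H 0 0 = H 0 1) (h2 : H 0 0 = H 1 0) :
    H = typeA (H 0 0) (H 1 1) := by
  funext i j
  fin_cases i <;> fin_cases j <;> simp [typeA, ← h1, ← h2]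

theorem eq_typeB {H : Fin 2 → Fin 2 → ℕ} (h1 : H 0 1 = H 1 1) (h2 : H 1 0 = H 1 1) :
    H = typeB (H 0 0) (H 1 1) := by
  funext i j
  fin_cases i <;> fin_cases j <;> simp [typeB, h1, h2]

/-- All monotone 2 x 2 matrices, from (0 0; 0 1) and part (4) of BlowUpClass. -/
theorem two70 {c : ℝ}
    (h0 : Tendsto (fAll (typeA 0 1)) atTop (𝓝 c) ∧ Tendsto (fMono (typeA 0 1)) atTop (𝓝 c))
    (H : Fin 2 → Fin 2 → ℕ) (hM : Mono H)
    (h4 : ¬ (H 0 0 = H 0 1 ∧ H 0 0 = H 1 0 ∧ H 0 0 ≠ H 1 1) →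
      ¬ (H 0 1 = H 1 1 ∧ H 1 0 = H 1 1 ∧ H 0 0 ≠ H 1 1) →
      ∃ d, Tendsto (fAll H) atTop (𝓝 d) ∧ Tendsto (fMono H) atTop (𝓝 d)) :
    ∃ d, Tendsto (fAll H) atTop (𝓝 d) ∧ Tendsto (fMono H) atTop (𝓝 d) := by
  have hle : H 0 0 ≤ H 1 1 := hM 0 1 0 1 (by decide) (by decide)
  by_cases hA : H 0 0 = H 0 1 ∧ H 0 0 = H 1 0 ∧ H 0 0 ≠ H 1 1
  · refine ⟨c, ?_⟩
    rw [eq_typeA hA.1 hA.2.1]
    exact (sym70 h0 _ _ (lt_of_le_of_ne hle hA.2.2)).1
  · by_cases hB : H 0 1 = H 1 1 ∧ H 1 0 = H 1 1 ∧ H 0 0 ≠ H 1 1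
    · refine ⟨c, ?_⟩
      rw [eq_typeB hB.1 hB.2.1]
      exact (sym70 h0 _ _ (lt_of_le_of_ne hle hB.2.2)).2
    · exact h4 hA hB

end Pool.Agent.Lib.MP_efec9b_co.SYM70
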