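import Pool.Agent.Lib.MP_efec9b_co.QD78
import Pool.Agent.Lib.MP_efec9b_co.All24

/-!
MP_efec9b_co: row QD in the form of `E2.StQD`, from `QD78.main` and the identity `ID7.id7`.
-/

set_option autoImplicit false

namespace Pool.Agent.Lib.MP_efec9b_co.E2

open MeasureTheory

theorem SS_eq {ι : Type} (E : ι → Set ℝ) (hE : ∀ i, MeasurableSet (E i)) (i j : ι) :
    QD78.SS (fun i => ID7.one (E i)) i j = ID7.S1 (E i) (E j) := by
  unfold QD78.SS ID7.S1
  refine intervalIntegral.integral_congr fun y _ => ?_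
  simp only
  rw [ID7.kernel (hE i) (hE j) y]
  have h := max_add_min (ID7.al (E i) y) (ID7.al (E j) y)
  have h1 : QD78.rho (fun i => ID7.one (E i)) i y = ID7.al (E i) y := rfl
  have h2 : QD78.rho (fun i => ID7.one (E i)) j y = ID7.al (E j) y := rfl
  rw [h1, h2]
  have h3 : max (ID7.al (E i) y) (ID7.al (E j) y)
      = ID7.al (E i) y + ID7.al (E j) y - min (ID7.al (E i) y) (ID7.al (E j) y) := by linarith
  rw [h3]

theorem qd78 : StQD := by
  intro ι _ E μ h0 h1 hE
  have hm : ∀ i, Measurable (ID7.one (E i)) := fun i => ID7.one_meas (hE i)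
  have A := ID7.id7 (E := E) μ hE
  have B := QD78.main (μ := μ) (χ := fun i => ID7.one (E i)) hm (fun i y => one01 _ y) h0 h1
  have hS : ∀ i j, QD78.SS (fun i => ID7.one (E i)) i j = ID7.S1 (E i) (E j) := SS_eq E hE
  simp only [hS] at B
  have hL : ∀ i, QD78.Sl (fun i => ID7.one (E i)) i = ID7.Lam (E i) := fun i => rfl
  simp only [hL] at B
  rw [A] at B
  have ht : QD78.t = Real.exp (-1) := rfl
  have ht' : ID7.tt = Real.exp (-1) := rfl
  rw [ht'] at B
  rw [ht] at B
  have hq : ∀ y, QD78.qq μ (fun i => ID7.one (E i)) y = 1 - ∑ i, μ i * ID7.one (E i) y :=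
    fun y => rfl
  simp only [hq] at B
  linarith

end Pool.Agent.Lib.MP_efec9b_co.E2
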